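import Pool.Agent.Work.MP_ab49bb_gt.Sat.Em

/-!
# Ew (M): words on a coordinate block

`wR_append`: `List.map_append`, `List.prod_append`. `isUnit_wR`: every letter is a unit (`isUnit_at2`). `wR_inv`: by induction on `w`:
`inv (l :: w) = inv w ++ [(l.1, !l.2)]`, and the matrix of `(l.1, !l.2)` is the inverse of the matrix of `l` (`(X⁻¹)⁻¹ = X`, `Matrix.nonsing_inv_nonsing_inv`, as `IsUnit X.det`);
`Matrix.mul_inv_rev`. `emb_at2`: entrywise, `k + 1 < r`, `i + r ≤ n`: the conditions `x = y` outside `[i, i+r)` and `x = y` inside except at `i+k, i+k+1` together say `x = y`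
except at `i+k, i+k+1`. `emb_wR`: induction on `w` with `emb_mul`, `emb_at2`, `emb_inv`, `emb_one`.
`wR_cons_strand`: `emb_wR` with `i = 1`, `r = n` (the block is the tail: `Fin.tail x k = x k.succ`, `1 + k = k + 1`). `wR_snoc_strand`: `emb_wR` with `i = 0`, `r = n` (`Fin.init x k = x k.castSucc`;
`shift 0 w = w`).
-/

set_option autoImplicit false

open Matrix Filter Topology

namespace Pool.Agent.KS

open Pool.Agent.KT

variable {ι : Type} [Fintype ι] [DecidableEq ι] {A : Type} [CommRing A]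

private theorem wR_cons (n : ℕ) (R : Matrix (ι × ι) (ι × ι) A) (l : Lt) (w : List Lt) :
    wR n R (l :: w) = (if l.2 then at2 n R l.1 else (at2 n R l.1)⁻¹) * wR n R w := by
  unfold wR
  rw [List.map_cons, List.prod_cons]

private theorem wR_nil (n : ℕ) (R : Matrix (ι × ι) (ι × ι) A) : wR n R [] = 1 := rfl

theorem wR_append (n : ℕ) (R : Matrix (ι × ι) (ι × ι) A) (w w' : List Lt) :
    wR n R (w ++ w') = wR n R w * wR n R w' := by
  unfold wR
  rw [List.map_append, List.prod_append]

theorem isUnit_wR (n : ℕ) {R : Matrix (ι × ι) (ι × ι) A} (h : IsUnit R) (w : List Lt) :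
    IsUnit (wR n R w) := by
  induction w with
  | nil =>
    rw [wR_nil]
    exact isUnit_one
  | cons l w ih =>
    rw [wR_cons]
    refine IsUnit.mul ?_ ih
    by_cases hl : l.2 = true
    · rw [if_pos hl]
      exact isUnit_at2 n l.1 h
    · rw [if_neg hl, at2_inv n l.1 h]
      exact isUnit_at2 n l.1 ((Matrix.isUnit_nonsing_inv_iff).2 h)

theorem wR_inv (n : ℕ) {R : Matrix (ι × ι) (ι × ι) A} (h : IsUnit R) (w : List Lt) :
    wR n R (inv w) = (wR n R w)⁻¹ := by
  induction w with
  | nil =>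
    have h1 : inv [] = [] := rfl
    rw [h1, wR_nil, inv_one]
  | cons l w ih =>
    have h1 : inv (l :: w) = inv w ++ [(l.1, !l.2)] := by
      unfold inv
      rw [List.map_cons, List.reverse_cons]
    rw [h1, wR_append, ih, wR_cons n R l w, Matrix.mul_inv_rev, wR_cons n R _ [], wR_nil, mul_one]
    congr 1
    have hu := (Matrix.isUnit_iff_isUnit_det _).1 (isUnit_at2 n l.1 h)
    rcases l with ⟨k, b⟩
    cases b
    · simp only [Bool.not_false, if_true, Bool.false_eq_true, if_false]
      exact (Matrix.nonsing_inv_nonsing_inv _ hu).symm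
    · simp only [Bool.not_true, if_true, Bool.false_eq_true, if_false]

theorem emb_at2 {n i r k : ℕ} (X : Matrix (ι × ι) (ι × ι) A) (h : i + r ≤ n) (hk : k + 1 < r) :
    emb n i r (at2 r X k) = at2 n X (i + k) := by
  ext x y
  unfold at2 emb
  rw [dif_pos h, dif_pos (show i + k + 1 < n by omega)]
  simp only [dif_pos hk]
  by_cases hc : ∀ j : Fin n, (j : ℕ) ≠ i + k → (j : ℕ) ≠ i + k + 1 → x j = y j
  · have h1 : ∀ l : Fin n, (l : ℕ) < i ∨ i + r ≤ l → x l = y l := fun l hl =>
      hc l (by omega) (by omega)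
    have h2 : ∀ j : Fin r, (j : ℕ) ≠ k → (j : ℕ) ≠ k + 1 →
        x ⟨i + j, by omega⟩ = y ⟨i + j, by omega⟩ := fun j hj hj' =>
      hc ⟨i + j, by omega⟩ (by simp only; omega) (by simp only; omega)
    rw [if_pos h1, if_pos h2, if_pos hc]
    rfl
  · rw [if_neg hc]
    by_cases h1 : ∀ l : Fin n, (l : ℕ) < i ∨ i + r ≤ l → x l = y l
    · have h2 : ¬ ∀ j : Fin r, (j : ℕ) ≠ k → (j : ℕ) ≠ k + 1 →
          x ⟨i + j, by omega⟩ = y ⟨i + j, by omega⟩ := by
        intro h2
        apply hc
        intro j hj hj'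
        by_cases hji : (j : ℕ) < i ∨ i + r ≤ j
        · exact h1 j hji
        · have h3 := h2 ⟨(j : ℕ) - i, by omega⟩ (by simp only; omega) (by simp only; omega)
          have h4 : (⟨i + ((⟨(j : ℕ) - i, by omega⟩ : Fin r) : ℕ), by simp only; omega⟩ : Fin n) =
              j := Fin.ext (by simp only; omega)
          rw [h4] at h3
          exact h3
      rw [if_pos h1, if_neg h2]
    · rw [if_neg h1]

theorem emb_wR {n i r : ℕ} {R : Matrix (ι × ι) (ι × ι) A} (hR : IsUnit R) (h : i + r ≤ n)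
    {w : List Lt} (hw : ∀ l ∈ w, l.1 + 1 < r) :
    emb n i r (wR r R w) = wR n R (shift i w) := by
  induction w with
  | nil =>
    have h1 : shift i [] = [] := rfl
    rw [h1, wR_nil, wR_nil, emb_one]
  | cons l w ih =>
    have h1 : shift i (l :: w) = (i + l.1, l.2) :: shift i w := rfl
    rw [h1, wR_cons, wR_cons, emb_mul, ih fun l' hl' => hw l' (List.mem_cons_of_mem l hl')]
    congr 1
    have hl := hw l List.mem_cons_self
    by_cases hb : l.2 = true
    · simp only [if_pos hb]
      exact emb_at2 R h hl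
    · simp only [if_neg hb]
      rw [emb_inv n i r (isUnit_at2 r l.1 hR), emb_at2 R h hl]

theorem wR_cons_strand {n : ℕ} {R : Matrix (ι × ι) (ι × ι) A} (hR : IsUnit R) {w : List Lt}
    (hw : ∀ l ∈ w, l.1 + 1 < n) (x y : Fin (n + 1) → ι) :
    wR (n + 1) R (shift 1 w) x y = if x 0 = y 0 then wR n R w (Fin.tail x) (Fin.tail y) else 0 := by
  have h1 := emb_wR (n := n + 1) (i := 1) (r := n) hR (by omega) hw
  rw [← h1]
  unfold emb
  rw [dif_pos (show 1 + n ≤ n + 1 by omega)]
  have hx : ∀ z : Fin (n + 1) → ι, (fun k : Fin n => z ⟨1 + k, by omega⟩) = Fin.tail z := by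
    intro z
    funext k
    unfold Fin.tail
    congr 1
    exact Fin.ext (by simp only [Fin.val_succ]; omega)
  by_cases hc : x 0 = y 0
  · have h2 : ∀ l : Fin (n + 1), (l : ℕ) < 1 ∨ 1 + n ≤ l → x l = y l := by
      intro l hl
      have h3 : l = 0 := Fin.ext (by simp only [Fin.val_zero]; omega)
      rw [h3, hc]
    simp only [if_pos h2, if_pos hc, hx]
  · have h2 : ¬ ∀ l : Fin (n + 1), (l : ℕ) < 1 ∨ 1 + n ≤ l → x l = y l := fun h3 =>
      hc (h3 0 (Or.inl (by simp)))
    simp only [if_neg h2, if_neg hc]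

theorem wR_snoc_strand {n : ℕ} {R : Matrix (ι × ι) (ι × ι) A} (hR : IsUnit R) {w : List Lt}
    (hw : ∀ l ∈ w, l.1 + 1 < n) (x y : Fin (n + 1) → ι) :
    wR (n + 1) R w x y =
      if x (Fin.last n) = y (Fin.last n) then wR n R w (Fin.init x) (Fin.init y) else 0 := by
  have h1 := emb_wR (n := n + 1) (i := 0) (r := n) hR (by omega) hw
  have h0 : shift 0 w = w := by
    unfold shift
    conv_rhs => rw [← List.map_id w]
    refine List.map_congr_left fun l _ => ?_
    rw [zero_add]
    rfl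
  rw [h0] at h1
  rw [← h1]
  unfold emb
  rw [dif_pos (show 0 + n ≤ n + 1 by omega)]
  have hx : ∀ z : Fin (n + 1) → ι, (fun k : Fin n => z ⟨0 + k, by omega⟩) = Fin.init z := by
    intro z
    funext k
    unfold Fin.init
    congr 1
    exact Fin.ext (by simp only [Fin.val_castSucc]; omega)
  by_cases hc : x (Fin.last n) = y (Fin.last n)
  · have h2 : ∀ l : Fin (n + 1), (l : ℕ) < 0 ∨ 0 + n ≤ l → x l = y l := by
      intro l hl
      have h3 : l = Fin.last n := Fin.ext (by simp only [Fin.val_last]; omega)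
      rw [h3, hc]
    simp only [if_pos h2, if_pos hc, hx]
  · have h2 : ¬ ∀ l : Fin (n + 1), (l : ℕ) < 0 ∨ 0 + n ≤ l → x l = y l := fun h3 =>
      hc (h3 (Fin.last n) (Or.inr (by simp)))
    simp only [if_neg h2, if_neg hc]

end Pool.Agent.KS
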