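import Pool.Agent.Work.MP_ab49bb_gt.Sat.Lm
import Pool.Agent.Work.MP_ab49bb_gt.Sat.Ew

/-!
# Lp (M): the limit of a letter `σ_k`

First `n = 2`, `k = 0`: the entry of `at2 2 (S u a) 0` at `(x, y)` is `S u a (x 0, x 1) (y 0, y 1)`; let `(i, j) = (y 0, y 1)`. It is `0` (and `x ≠ y`, or …) unless `(x 0, x 1) = (j + l, i - l)` with `l ≤ i`, `j + l ≤ a`, and then it is
`rc i j l = v^((a-2i+2l)(a-2j-2l) + l(l-1)) [j+l choose l] ∏_(s<l) {a-i+s+1}`. Asymptotics (KT/As1: `Asy_pw`, `Asy_gb`: `[j+l choose l] ~ v^(2lj)`; `{m} ~ v^(2m)` for `m > 0`: `br = qn * br 1`, `Asy_qn`; here `a - i + s + 1 ≥ 1`), `vN a i ~ v^(-2i)` (`Asy_vN`):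
`√(vn x) S x y / √(vn y) · v^(-a²)` is `Asy` with the exponent `E - a²`, `E = (a-2i+2l)(a-2j-2l) + l(l-1) + 2lj + 2l(a-i) + l(l+1)` (the norms contribute `-(j+l) - (i-l) + i + j = 0`; for the square roots: `√(f) v^(-k) = √(f v^(-2k))`), and
`E - a² = -2 (i-l)(a-j-l) - 2 (a-i) j` (`ring`). So the limit is `0` unless `(i = l or j + l = a)` and `(i = a or j = 0)`; in these cases `(j+l, i-l) = (i, j)` (check the four cases: `i = l, j = 0`: yes; `i = l = a`: `j + l ≤ a` gives `j = 0`, yes; `j + l = a`, `i = a`: `i - l = j`, yes;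
`j = 0`, `l = a`: `l ≤ i` gives `i = a`, yes), i.e. `x = y`, and the limit is `1`. For `x = y` with `y 0 = a` or `y 1 = 0`: `l = i - j` (`j ≤ i`) and the exponent is `0`: limit `1`. For `x = y` otherwise: limit `0` (the exponent is negative, or `j > i` and the entry is `0`).
General case: `Lim.emb`, `emb_at2` (`at2 n X k = emb n k 2 (at2 2 X 0)`), `emb n k 2 (c • Z) = c • emb n k 2 Z` for `k + 2 ≤ n` (entries).
-/

set_option autoImplicit false

open Matrix Filter Topology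

namespace Pool.Agent.KS

open Pool.Agent.KT

private theorem lp_br {m : ℤ} (h : 0 < m) : Asy (fun v => br (ru v) m) (2 * m) :=
  (Asy_pw (2 * m)).sub_lt (Asy_pw (-(2 * m))) (by omega)

private theorem lp_prod (b : ℤ) (hb : 0 ≤ b) (l : ℕ) :
    Asy (fun v => ∏ s ∈ Finset.range l, br (ru v) (b + (s + 1))) (2 * l * b + l * (l + 1)) := by
  induction l with
  | zero =>
    have e : (2 * ((0 : ℕ) : ℤ) * b + ((0 : ℕ) : ℤ) * (((0 : ℕ) : ℤ) + 1)) = 0 := by simp
    rw [e]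
    refine Asy_one.congr fun v _ => ?_
    simp
  | succ l ih =>
    have h1 := ih.mul (lp_br (m := b + ((l : ℤ) + 1)) (by positivity))
    have e : (2 * ((l + 1 : ℕ) : ℤ) * b + ((l + 1 : ℕ) : ℤ) * (((l + 1 : ℕ) : ℤ) + 1)) =
        2 * l * b + l * (l + 1) + 2 * (b + ((l : ℤ) + 1)) := by
      push_cast
      ring
    rw [e]
    refine h1.congr fun v _ => ?_
    rw [Finset.prod_range_succ]

private theorem lp_small {f : ℝ → ℝ} {k : ℤ} (hf : Asy f k) (hk : k < 0) :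
    Tendsto f atTop (𝓝 0) := by
  have h1 : Tendsto (fun v : ℝ => v ^ k) atTop (𝓝 0) := tendsto_zpow_atTop_zero hk
  have h2 := Filter.Tendsto.mul hf h1
  rw [mul_zero] at h2
  refine h2.congr' ?_
  filter_upwards [eventually_gt_atTop (1 : ℝ)] with v hv
  have hv0 : v ≠ 0 := by linarith
  rw [mul_assoc, ← zpow_add₀ hv0, neg_add_cancel, zpow_zero, mul_one]

private theorem lp_rc {a i j l : ℕ} (hi : i ≤ a) (hl : l ≤ i) (hj : j + l ≤ a) :
    Asy (fun v => pw (ru v) (-((a : ℤ) ^ 2)) * rc (ru v) a i j l)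
      (-(2 * (((i : ℤ) - l) * ((a : ℤ) - (j + l))) + 2 * (((a : ℤ) - i) * j))) := by
  have h1 := (Asy_pw (-((a : ℤ) ^ 2))).mul (((Asy_pw (((a : ℤ) - 2 * i + 2 * l) *
    (a - 2 * j - 2 * l) + l * (l - 1))).mul (Asy_gb (n := j + l) (k := l) (by omega))).mul
    (lp_prod ((a : ℤ) - i) (by omega) l))
  have e : -((a : ℤ) ^ 2) + (((a : ℤ) - 2 * i + 2 * l) * (a - 2 * j - 2 * l) + l * (l - 1) +
      2 * l * (((j + l : ℕ) : ℤ) - l) + (2 * l * ((a : ℤ) - i) + l * (l + 1))) =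
      -(2 * (((i : ℤ) - l) * ((a : ℤ) - (j + l))) + 2 * (((a : ℤ) - i) * j)) := by
    push_cast
    ring
  rw [e] at h1
  exact h1

private theorem lp_norm {a : ℕ} {x y : Fin 2 → Fin (a + 1)}
    (h : (x 0 : ℕ) + x 1 = y 0 + y 1) :
    Tendsto (fun v => Real.sqrt (vn (ru v) a x) / Real.sqrt (vn (ru v) a y)) atTop (𝓝 1) := by
  have hle : ∀ k : Fin (a + 1), (k : ℕ) ≤ a := fun k => Nat.lt_succ_iff.1 k.2
  have h1 := ((Asy_vN (hle (x 0))).mul (Asy_vN (hle (x 1)))).div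
    ((Asy_vN (hle (y 0))).mul (Asy_vN (hle (y 1))))
  have e : -(2 * ((x 0 : ℕ) : ℤ)) + -(2 * ((x 1 : ℕ) : ℤ)) -
      (-(2 * ((y 0 : ℕ) : ℤ)) + -(2 * ((y 1 : ℕ) : ℤ))) = 0 := by omega
  rw [e] at h1
  have h2 := h1.tendsto.sqrt
  rw [Real.sqrt_one] at h2
  refine h2.congr' ?_
  filter_upwards [eventually_gt_atTop (1 : ℝ)] with v hv
  have e1 : ∀ z : Fin 2 → Fin (a + 1), vn (ru v) a z = vN (ru v) a (z 0) * vN (ru v) a (z 1) := by
    intro z
    unfold vn
    rw [Fin.prod_univ_two]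
  rw [e1, e1, Real.sqrt_div]
  exact (mul_pos (vN_pos (ru_gt hv) (hle _)) (vN_pos (ru_gt hv) (hle _))).le

private theorem lp_two (a : ℕ) :
    Lim (n := 2) a (fun v => pw (ru v) (-((a : ℤ) ^ 2)) • at2 2 (S (ru v) a) 0)
      fun y => if y 0 = Fin.last a ∨ y 1 = 0 then 1 else 0 := by
  intro x y
  show Tendsto (fun v => Real.sqrt (vn (ru v) a x) *
    (pw (ru v) (-((a : ℤ) ^ 2)) • at2 2 (S (ru v) a) 0 :
      Matrix (Fin 2 → Fin (a + 1)) (Fin 2 → Fin (a + 1)) ℝ) x y / Real.sqrt (vn (ru v) a y)) atTop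
    (𝓝 (if x = y then (if x 0 = Fin.last a ∨ x 1 = 0 then (1 : ℝ) else 0) else 0))
  have hle : ∀ k : Fin (a + 1), (k : ℕ) ≤ a := fun k => Nat.lt_succ_iff.1 k.2
  have hx0 := hle (x 0)
  have hx1 := hle (x 1)
  have hy0 := hle (y 0)
  have hy1 := hle (y 1)
  have e0 : ∀ v : ℝ, (pw (ru v) (-((a : ℤ) ^ 2)) • at2 2 (S (ru v) a) 0 :
      Matrix (Fin 2 → Fin (a + 1)) (Fin 2 → Fin (a + 1)) ℝ) x y =
      pw (ru v) (-((a : ℤ) ^ 2)) * S (ru v) a (x 0, x 1) (y 0, y 1) := by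
    intro v
    have e : at2 2 (S (ru v) a) 0 x y = S (ru v) a (x 0, x 1) (y 0, y 1) := by
      unfold at2
      rw [dif_pos (by norm_num)]
      exact if_pos fun i h1 h2 => absurd i.2 (by omega)
    rw [Matrix.smul_apply, smul_eq_mul, e]
  by_cases hc : (x 0 : ℕ) + x 1 = y 0 + y 1 ∧ (x 1 : ℕ) ≤ y 0
  · obtain ⟨hs, hl⟩ := hc
    obtain ⟨l, hl'⟩ : ∃ l, l = (y 0 : ℕ) - x 1 := ⟨_, rfl⟩
    have e1 : ∀ v : ℝ, S (ru v) a (x 0, x 1) (y 0, y 1) = rc (ru v) a (y 0) (y 1) l := by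
      intro v
      unfold S
      rw [if_pos ⟨hs, hl⟩, hl']
    have h1 := lp_rc (a := a) (i := y 0) (j := y 1) (l := l) hy0 (by omega) (by omega)
    have h2 := lp_norm hs
    have e2 : ((y 0 : ℕ) : ℤ) - l = (x 1 : ℕ) := by omega
    have e3 : (a : ℤ) - (((y 1 : ℕ) : ℤ) + l) = a - (x 0 : ℕ) := by omega
    rw [e2, e3] at h1
    by_cases hz : ((x 1 : ℕ) = 0 ∨ (x 0 : ℕ) = a) ∧ ((y 0 : ℕ) = a ∨ (y 1 : ℕ) = 0)
    · have hE : -(2 * (((x 1 : ℕ) : ℤ) * ((a : ℤ) - (x 0 : ℕ))) +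
          2 * (((a : ℤ) - (y 0 : ℕ)) * (y 1 : ℕ))) = 0 := by
        obtain ⟨h3 | h3, h4 | h4⟩ := hz <;> simp [h3, h4]
      rw [hE] at h1
      have hxy : x = y := by
        have k0 : (x 0 : ℕ) = y 0 := by omega
        have k1 : (x 1 : ℕ) = y 1 := by omega
        funext i
        fin_cases i
        · exact Fin.ext k0
        · exact Fin.ext k1
      have hD : x 0 = Fin.last a ∨ x 1 = 0 := by
        rw [hxy]
        rcases hz.2 with h3 | h3
        · left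
          exact Fin.ext h3
        · right
          exact Fin.ext h3
      rw [if_pos hxy, if_pos hD]
      have h3 := h2.mul h1.tendsto
      rw [mul_one] at h3
      refine h3.congr fun v => ?_
      rw [e0, e1]
      ring
    · have hE : -(2 * (((x 1 : ℕ) : ℤ) * ((a : ℤ) - (x 0 : ℕ))) +
          2 * (((a : ℤ) - (y 0 : ℕ)) * (y 1 : ℕ))) < 0 := by
        have q1 : 0 ≤ ((x 1 : ℕ) : ℤ) * ((a : ℤ) - (x 0 : ℕ)) :=
          mul_nonneg (by omega) (by omega)
        have q2 : 0 ≤ ((a : ℤ) - (y 0 : ℕ)) * (y 1 : ℕ) := mul_nonneg (by omega) (by omega)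
        rcases not_and_or.1 hz with h3 | h3
        · have q3 : 0 < ((x 1 : ℕ) : ℤ) * ((a : ℤ) - (x 0 : ℕ)) :=
            mul_pos (by omega) (by omega)
          omega
        · have q3 : 0 < ((a : ℤ) - (y 0 : ℕ)) * (y 1 : ℕ) := mul_pos (by omega) (by omega)
          omega
      have hD : (if x = y then (if x 0 = Fin.last a ∨ x 1 = 0 then (1 : ℝ) else 0) else 0) = 0 := by
        by_cases hxy : x = y
        · rw [if_pos hxy, if_neg]
          intro h3
          apply hz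
          rw [hxy] at h3
          rw [hxy]
          rcases h3 with h3 | h3
          · have : (y 0 : ℕ) = a := by rw [h3]; rfl
            exact ⟨Or.inr this, Or.inl this⟩
          · have : (y 1 : ℕ) = 0 := by rw [h3]; rfl
            exact ⟨Or.inl this, Or.inr this⟩
        · rw [if_neg hxy]
      rw [hD]
      have h3 := h2.mul (lp_small h1 hE)
      rw [mul_zero] at h3
      refine h3.congr fun v => ?_
      rw [e0, e1]
      ring
  · have e1 : ∀ v : ℝ, S (ru v) a (x 0, x 1) (y 0, y 1) = 0 := by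
      intro v
      unfold S
      rw [if_neg hc]
    have hD : (if x = y then (if x 0 = Fin.last a ∨ x 1 = 0 then (1 : ℝ) else 0) else 0) = 0 := by
      by_cases hxy : x = y
      · rw [if_pos hxy, if_neg]
        rw [hxy] at hc
        intro h3
        apply hc
        refine ⟨rfl, ?_⟩
        rw [hxy] at h3
        rcases h3 with h3 | h3
        · have : (y 0 : ℕ) = a := by rw [h3]; rfl
          omega
        · have : (y 1 : ℕ) = 0 := by rw [h3]; rfl
          omega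
      · rw [if_neg hxy]
    rw [hD]
    refine (tendsto_const_nhds (x := (0 : ℝ))).congr fun v => ?_
    rw [e0, e1, mul_zero, mul_zero, zero_div]

private theorem lp_emb {A : Type} [CommRing A] {ι : Type} [DecidableEq ι] {n i r : ℕ}
    (h : i + r ≤ n) (c : A) (X : Matrix (Fin r → ι) (Fin r → ι) A) :
    emb n i r (c • X) = c • emb n i r X := by
  ext x y
  rw [Matrix.smul_apply]
  unfold emb
  rw [dif_pos h, dif_pos h]
  by_cases hc : ∀ l : Fin n, (l : ℕ) < i ∨ i + r ≤ l → x l = y l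
  · rw [if_pos hc, if_pos hc, Matrix.smul_apply]
  · rw [if_neg hc, if_neg hc, smul_zero]

theorem lim_pos (a : ℕ) {n k : ℕ} (hk : k + 1 < n) :
    Lim (n := n) a (fun v => pw (ru v) (-((a : ℤ) ^ 2)) • at2 n (S (ru v) a) k)
      fun y => if y ⟨k, by omega⟩ = Fin.last a ∨ y ⟨k + 1, hk⟩ = 0 then 1 else 0 := by
  have h1 := (lp_two a).emb (N := n) (i := k) (by omega)
  have h2 : (fun v : ℝ => emb n k 2 (pw (ru v) (-((a : ℤ) ^ 2)) • at2 2 (S (ru v) a) 0)) =
      fun v => pw (ru v) (-((a : ℤ) ^ 2)) • at2 n (S (ru v) a) k := by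
    funext v
    rw [lp_emb (by omega), emb_at2 _ (by omega) (by norm_num)]
    rfl
  rw [h2] at h1
  exact h1

end Pool.Agent.KS
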