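import Pool.Agent.Work.MP_ab49bb_gt.Sat.Ln
import Pool.Agent.Work.MP_ab49bb_gt.Sat.Lp

/-!
# It (S-M): the quantum traces `Zv`

`Zv_zero`: `t = 0`: all index types have one element; `S u 0` has the entry `rc u 0 0 0 0 = v^0 * 1 * 1 = 1`, so `S u 0 = 1`, `at2 N 1 k = 1` (`at2_one`), `1⁻¹ = 1`, `wR = 1`, `km u N 0 = 1` (`pw u 0 = 1`), trace `1`.
`Zv_bound`: normalised entries `ŵ x y = √(vn x) W x y / √(vn y)` of the matrix `W` of the word: claim `∃ C, ∀ᶠ v, ∀ x y, |ŵ x y| ≤ C v^(L t(t+2))`, `L = length`, by induction on the word: for one letter this follows from `lim_pos`/`lim_neg` (`a := t`) and `Lim.bound` (`t² ≤ t(t+2)`, `v > 1`); the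
product has `(t+1)^N` terms: `C₁ C₂ (t+1)^N`. (Equivalently: `Lim.mul` for the normalised word and `Lim.bound`: the family `v^(-e) • W` has a limit, `e` the sum of the exponents `t²`, `t(t+2)` of the letters, `e ≤ L t(t+2)`. This is shorter.) The diagonal entries of `W` and `ŵ` are equal, `km` has the
entries `v^(2 ∑ (t - 2 x_i)) ≤ v^(2 t N)`, so `|Zv| ≤ (t+1)^N C v^(2tN + L t(t+2))`.
-/

set_option autoImplicit false

open Matrix Filter Topology

namespace Pool.Agent.KS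

open Pool.Agent.KT

private theorem it_S0 (u : ℝˣ) : S u 0 = 1 := by
  ext x y
  have hx : x = y := Prod.ext (Fin.ext (by omega)) (Fin.ext (by omega))
  subst hx
  rw [Matrix.one_apply_eq]
  have h1 : ((x.1 : Fin (0 + 1)) : ℕ) = 0 := by omega
  have h2 : ((x.2 : Fin (0 + 1)) : ℕ) = 0 := by omega
  unfold S rc
  rw [if_pos ⟨by omega, by omega⟩, h1, h2]
  simp [gb, pw_zero]

theorem Zv_zero (u : ℝˣ) (N : ℕ) (w : List Lt) : Zv u N 0 w = 1 := by
  have h1 : wR N (S u 0) w = 1 := by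
    unfold wR
    rw [it_S0]
    have h2 : (w.map fun l : Lt => if l.2 then at2 N (1 : Matrix (Fin (0 + 1) × Fin (0 + 1))
        (Fin (0 + 1) × Fin (0 + 1)) ℝ) l.1 else (at2 N 1 l.1)⁻¹) = w.map fun _ => 1 := by
      refine List.map_congr_left fun l _ => ?_
      rw [at2_one]
      split_ifs
      · rfl
      · exact inv_one
    rw [h2]
    exact List.prod_eq_one fun x hx => by
      obtain ⟨_, _, rfl⟩ := List.mem_map.1 hx
      rfl
  have h3 : km u N 0 = 1 := by
    unfold km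
    rw [← Matrix.diagonal_one]
    congr 1
    funext x
    have h4 : ∑ i, (((0 : ℕ) : ℤ) - 2 * ((x i : Fin (0 + 1)) : ℕ)) = 0 := by
      refine Finset.sum_eq_zero fun i _ => ?_
      have : ((x i : Fin (0 + 1)) : ℕ) = 0 := by omega
      rw [this]
      simp
    rw [h4, mul_zero, pw_zero]
  unfold Zv
  rw [h1, h3, one_mul, Matrix.trace_one]
  simp

private theorem it_lim (N t : ℕ) {w : List Lt} (hw : ∀ l ∈ w, l.1 + 1 < N) :
    ∃ e : ℤ, e ≤ w.length * (t * (t + 2)) ∧ ∃ D, Lim (n := N) t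
      (fun v => pw (ru v) (-e) • wR N (S (ru v) t) w) D := by
  induction w with
  | nil =>
    refine ⟨0, by simp, _, Lim.congr (Lim.one (a := t) (n := N)) fun v _ => ?_⟩
    unfold wR
    rw [neg_zero, pw_zero, one_smul, List.map_nil, List.prod_nil]
  | cons l w ih =>
    obtain ⟨e, he, D, hD⟩ := ih fun l' hl' => hw l' (List.mem_cons_of_mem _ hl')
    have hl : l.1 + 1 < N := hw l List.mem_cons_self
    have hlen : (((l :: w).length : ℕ) : ℤ) * (t * (t + 2)) =
        (t : ℤ) * (t + 2) + w.length * (t * (t + 2)) := by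
      rw [List.length_cons]
      push_cast
      ring
    have hwR : ∀ u : ℝˣ, wR N (S u t) (l :: w) =
        (if l.2 then at2 N (S u t) l.1 else (at2 N (S u t) l.1)⁻¹) * wR N (S u t) w := by
      intro u
      unfold wR
      rw [List.map_cons, List.prod_cons]
    by_cases hb : l.2 = true
    · refine ⟨(t : ℤ) ^ 2 + e, ?_, _, Lim.congr ((lim_pos t hl).mul hD) fun v _ => ?_⟩
      · rw [hlen]
        have ht : (0 : ℤ) ≤ t := Int.natCast_nonneg t
        nlinarith
      · rw [hwR, if_pos hb, smul_mul_smul_comm, ← pw_add, neg_add]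
    · refine ⟨(t : ℤ) * (t + 2) + e, ?_, _, Lim.congr ((lim_neg t hl).mul hD) fun v _ => ?_⟩
      · rw [hlen]
        linarith
      · rw [hwR, if_neg hb, smul_mul_smul_comm, ← pw_add, neg_add]

theorem Zv_bound (N t : ℕ) {w : List Lt} (hw : ∀ l ∈ w, l.1 + 1 < N) :
    ∃ C : ℝ, ∀ᶠ v in atTop,
      |Zv (ru v) N t w| ≤ C * v ^ (2 * (t : ℤ) * N + w.length * (t * (t + 2))) := by
  obtain ⟨e, he, D, hD⟩ := it_lim N t hw
  obtain ⟨C, hC⟩ := hD.bound
  refine ⟨(Fintype.card (Fin N → Fin (t + 1)) : ℝ) * C, ?_⟩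
  filter_upwards [hC, eventually_gt_atTop 1] with v hv hv1
  have hv0 : (0 : ℝ) < v := by linarith
  set E : ℤ := 2 * (t : ℤ) * N + w.length * (t * (t + 2)) with hE
  have hterm : ∀ x : Fin N → Fin (t + 1),
      |(wR N (S (ru v) t) w * km (ru v) N t) x x| ≤ C * v ^ E := by
    intro x
    have h1 : (wR N (S (ru v) t) w * km (ru v) N t) x x =
        wR N (S (ru v) t) w x x * v ^ (2 * ∑ i, ((t : ℤ) - 2 * (x i : ℕ))) := by
      unfold km
      rw [Matrix.mul_diagonal, pw_ru hv1]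
    have h2 := hv x x
    have hs : 0 < Real.sqrt (vn (ru v) t x) := Real.sqrt_pos.2
      (Finset.prod_pos fun i _ => vN_pos (ru_gt hv1) (Nat.lt_succ_iff.mp (x i).2))
    have h3 : (pw (ru v) (-e) • wR N (S (ru v) t) w) x x = v ^ (-e) * wR N (S (ru v) t) w x x := by
      rw [Matrix.smul_apply, smul_eq_mul, pw_ru hv1]
    rw [h3, mul_div_assoc, mul_comm, div_mul_cancel₀ _ hs.ne', abs_mul,
      abs_of_pos (zpow_pos hv0 _)] at h2
    have h4 : |wR N (S (ru v) t) w x x| ≤ C * v ^ e := by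
      have h5 : |wR N (S (ru v) t) w x x| = v ^ e * (v ^ (-e) * |wR N (S (ru v) t) w x x|) := by
        rw [← mul_assoc, ← zpow_add₀ hv0.ne', add_neg_cancel, zpow_zero, one_mul]
      rw [h5, mul_comm C]
      exact mul_le_mul_of_nonneg_left h2 (zpow_pos hv0 _).le
    have hC0 : 0 ≤ C := le_trans (mul_nonneg (zpow_pos hv0 _).le (abs_nonneg _)) h2
    have h6 : 2 * ∑ i, ((t : ℤ) - 2 * (x i : ℕ)) ≤ 2 * (t : ℤ) * N := by
      have h7 : ∑ i : Fin N, ((t : ℤ) - 2 * (x i : ℕ)) ≤ ∑ i : Fin N, (t : ℤ) :=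
        Finset.sum_le_sum fun i _ => by
          have : (0 : ℤ) ≤ ((x i : ℕ) : ℤ) := Int.natCast_nonneg _
          linarith
      rw [Finset.sum_const, Finset.card_univ, Fintype.card_fin, nsmul_eq_mul] at h7
      linarith
    rw [h1, abs_mul, abs_of_pos (zpow_pos hv0 _)]
    calc |wR N (S (ru v) t) w x x| * v ^ (2 * ∑ i, ((t : ℤ) - 2 * (x i : ℕ)))
        ≤ (C * v ^ e) * v ^ (2 * (t : ℤ) * N) :=
          mul_le_mul h4 (zpow_le_zpow_right₀ hv1.le h6) (zpow_pos hv0 _).le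
            (mul_nonneg hC0 (zpow_pos hv0 _).le)
      _ = C * v ^ (e + 2 * (t : ℤ) * N) := by rw [mul_assoc, ← zpow_add₀ hv0.ne']
      _ ≤ C * v ^ E := mul_le_mul_of_nonneg_left (zpow_le_zpow_right₀ hv1.le (by rw [hE]; linarith)) hC0
  unfold Zv Matrix.trace
  refine le_trans (Finset.abs_sum_le_sum_abs _ _) ?_
  refine le_trans (Finset.sum_le_sum fun x _ => hterm x) ?_
  rw [Finset.sum_const, Finset.card_univ, nsmul_eq_mul, mul_assoc]

end Pool.Agent.KS
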