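import Pool.Agent.Work.MP_ab49bb_gt.Sat.RD

/-!
# Em (M): matrices on one coordinate block

`emb n i r X` (`i + r ≤ n`) is `X` on the coordinates `i, …, i+r-1` and the identity on the others. `emb_one`, `emb_zero'`: cases.
`emb_mul`: entry `(x, z)`: the `y` with a nonzero term agree with `x` outside the block; they are `y = (x outside, η inside)`, `η : Fin r → ι` (a bijection
between these `y` and the `η`; `Fintype.sum_equiv` or `Finset.sum_bij'` after `Finset.sum_filter`); the term is `X (x inside) η * Y η (z inside)` if `x = z` outside.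
[Alternatively: the equivalence `(Fin n → ι) ≃ (Fin r → ι) × ({l // l outside} → ι)` and `emb X = (kronecker X 1).reindex`.]
`at2_eq_emb`: `at2 n X k` is `emb n k 2 X'` with `X' x y = X (x 0, x 1) (y 0, y 1)` (`k + 2 ≤ n`); so `at2_mul`, `at2_one` follow, as `X ↦ X'` is multiplicative
(`(Fin 2 → ι) ≃ ι × ι`, `finTwoArrowEquiv`). `isUnit_at2`: `X Y = 1 = Y X` gives `at2 X * at2 Y = 1`. `at2_inv`: the same (`Matrix.inv_eq_right_inv`; when `n ≤ k + 1` both are `1`).
`emb_inv`: the same.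
-/

set_option autoImplicit false

open Matrix Filter Topology

namespace Pool.Agent.KS

open Pool.Agent.KT

variable {ι : Type} [Fintype ι] [DecidableEq ι] {A : Type} [CommRing A]

/-- the indices outside the block -/
private abbrev Out (n i r : ℕ) : Type := {l : Fin n // (l : ℕ) < i ∨ i + r ≤ (l : ℕ)}

private theorem out_of {n i r : ℕ} {l : Fin n} (h : ¬ (i ≤ (l : ℕ) ∧ (l : ℕ) < i + r)) :
    (l : ℕ) < i ∨ i + r ≤ (l : ℕ) := by
  by_contra hc
  exact h ⟨by omega, by omega⟩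

/-- splitting the coordinates -/
private def spl (ι : Type) {n i r : ℕ} (h : i + r ≤ n) :
    (Fin n → ι) ≃ (Fin r → ι) × (Out n i r → ι) where
  toFun z := (fun k => z ⟨i + k, by omega⟩, fun l => z l.1)
  invFun p := fun l => if hl : i ≤ (l : ℕ) ∧ (l : ℕ) < i + r then p.1 ⟨(l : ℕ) - i, by omega⟩
    else p.2 ⟨l, out_of hl⟩
  left_inv z := by
    funext l
    by_cases hl : i ≤ (l : ℕ) ∧ (l : ℕ) < i + r
    · simp only [dif_pos hl]
      congr 1
      exact Fin.ext (by simp only; omega)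
    · simp only [dif_neg hl]
  right_inv p := by
    refine Prod.ext ?_ ?_
    · funext k
      have hk : i ≤ i + (k : ℕ) ∧ i + (k : ℕ) < i + r := ⟨by omega, by omega⟩
      simp only [dif_pos hk]
      exact congrArg p.1 (Fin.ext (Nat.add_sub_cancel_left i k))
    · funext l
      have hl : ¬ (i ≤ ((l : Fin n) : ℕ) ∧ ((l : Fin n) : ℕ) < i + r) := by
        have := l.2
        omega
      simp only [dif_neg hl]

private theorem emb_eq {n i r : ℕ} (h : i + r ≤ n) (X : Matrix (Fin r → ι) (Fin r → ι) A) :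
    emb n i r X = (kroneckerMap (fun a b => a * b) X
      (1 : Matrix (Out n i r → ι) (Out n i r → ι) A)).submatrix (spl ι h) (spl ι h) := by
  ext x y
  unfold emb
  rw [dif_pos h, submatrix_apply, kroneckerMap_apply, Matrix.one_apply]
  by_cases hc : ∀ l : Fin n, (l : ℕ) < i ∨ i + r ≤ l → x l = y l
  · have h1 : (spl ι h x).2 = (spl ι h y).2 := by
      funext l
      exact hc l.1 l.2
    rw [if_pos hc, if_pos h1, mul_one]
    rfl
  · have h1 : (spl ι h x).2 ≠ (spl ι h y).2 := by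
      intro h2
      exact hc fun l hl => congrFun h2 ⟨l, hl⟩
    rw [if_neg hc, if_neg h1, mul_zero]

theorem emb_one (n i r : ℕ) : emb n i r (1 : Matrix (Fin r → ι) (Fin r → ι) A) = 1 := by
  by_cases h : i + r ≤ n
  · rw [emb_eq h]
    have h1 := Matrix.one_kronecker_one (α := A) (m := Fin r → ι) (n := Out n i r → ι)
    rw [h1, submatrix_one_equiv]
  · unfold emb
    rw [dif_neg h]

theorem emb_mul (n i r : ℕ) (X Y : Matrix (Fin r → ι) (Fin r → ι) A) :
    emb n i r (X * Y) = emb n i r X * emb n i r Y := by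
  by_cases h : i + r ≤ n
  · rw [emb_eq h, emb_eq h, emb_eq h, submatrix_mul_equiv]
    have h1 := Matrix.mul_kronecker_mul X Y (1 : Matrix (Out n i r → ι) (Out n i r → ι) A)
      (1 : Matrix (Out n i r → ι) (Out n i r → ι) A)
    rw [mul_one] at h1
    rw [h1]
  · unfold emb
    rw [dif_neg h, dif_neg h, dif_neg h, mul_one]

theorem isUnit_emb (n i r : ℕ) {X : Matrix (Fin r → ι) (Fin r → ι) A} (h : IsUnit X) :
    IsUnit (emb n i r X) := by
  obtain ⟨Y, rfl⟩ := h
  refine ⟨⟨emb n i r Y.1, emb n i r Y⁻¹.1, ?_, ?_⟩, rfl⟩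
  · rw [← emb_mul, Units.mul_inv, emb_one]
  · rw [← emb_mul, Units.inv_mul, emb_one]

theorem emb_inv (n i r : ℕ) {X : Matrix (Fin r → ι) (Fin r → ι) A} (h : IsUnit X) :
    emb n i r X⁻¹ = (emb n i r X)⁻¹ := by
  have hd := (Matrix.isUnit_iff_isUnit_det X).1 h
  refine (Matrix.inv_eq_right_inv ?_).symm
  rw [← emb_mul, Matrix.mul_nonsing_inv X hd, emb_one]

theorem at2_eq_emb (X : Matrix (ι × ι) (ι × ι) A) {n k : ℕ} (h : k + 1 < n) :
    at2 n X k = emb n k 2 fun x y => X (x 0, x 1) (y 0, y 1) := by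
  ext x y
  unfold at2 emb
  rw [dif_pos h, dif_pos (show k + 2 ≤ n by omega)]
  by_cases hc : ∀ i : Fin n, (i : ℕ) ≠ k → (i : ℕ) ≠ k + 1 → x i = y i
  · have h1 : ∀ l : Fin n, (l : ℕ) < k ∨ k + 2 ≤ l → x l = y l := fun l hl =>
      hc l (by omega) (by omega)
    simp only [if_pos hc, if_pos h1]
    rfl
  · have h1 : ¬ ∀ l : Fin n, (l : ℕ) < k ∨ k + 2 ≤ l → x l = y l := fun h2 =>
      hc fun i hi hi' => h2 i (by omega)
    simp only [if_neg hc, if_neg h1]

theorem at2_one (n k : ℕ) : at2 n (1 : Matrix (ι × ι) (ι × ι) A) k = 1 := by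
  by_cases h : k + 1 < n
  · rw [at2_eq_emb _ h]
    have h1 : (fun x y : Fin 2 → ι => (1 : Matrix (ι × ι) (ι × ι) A) (x 0, x 1) (y 0, y 1)) =
        (1 : Matrix (Fin 2 → ι) (Fin 2 → ι) A) := by
      have h2 := submatrix_one_equiv (α := A) (finTwoArrowEquiv ι)
      exact h2
    rw [h1, emb_one]
  · unfold at2
    rw [dif_neg h]

theorem at2_mul (n k : ℕ) (X Y : Matrix (ι × ι) (ι × ι) A) :
    at2 n (X * Y) k = at2 n X k * at2 n Y k := by
  by_cases h : k + 1 < n
  · rw [at2_eq_emb _ h, at2_eq_emb _ h, at2_eq_emb _ h, ← emb_mul]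
    congr 1
    have h2 := submatrix_mul_equiv X Y (finTwoArrowEquiv ι) (finTwoArrowEquiv ι)
      (finTwoArrowEquiv ι)
    exact h2.symm
  · unfold at2
    rw [dif_neg h, dif_neg h, dif_neg h, mul_one]

theorem isUnit_at2 (n k : ℕ) {X : Matrix (ι × ι) (ι × ι) A} (h : IsUnit X) :
    IsUnit (at2 n X k) := by
  obtain ⟨Y, rfl⟩ := h
  refine ⟨⟨at2 n Y.1 k, at2 n Y⁻¹.1 k, ?_, ?_⟩, rfl⟩
  · rw [← at2_mul, Units.mul_inv, at2_one]
  · rw [← at2_mul, Units.inv_mul, at2_one]

theorem at2_inv (n k : ℕ) {X : Matrix (ι × ι) (ι × ι) A} (h : IsUnit X) :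
    (at2 n X k)⁻¹ = at2 n X⁻¹ k := by
  have hd := (Matrix.isUnit_iff_isUnit_det X).1 h
  refine Matrix.inv_eq_right_inv ?_
  rw [← at2_mul, Matrix.mul_nonsing_inv X hd, at2_one]

end Pool.Agent.KS
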