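import Pool.Agent.Work.MP_ab49bb_gt.Sat.Rc

/-!
# RE (M-L): the braiding commutes with `E`

`RM M N = P D Θ` with `Θ = ∑_l c_l E^l ⊗ F^l` (`c_l = rco u l`), `D = v^(wt ⊗ wt)` and the flip `P`. On `M ⊗ N`:
`Δ(E) = 1 ⊗ E + E ⊗ K`, `K = v^(2 wt)`. The claim is `D Θ Δ(E) = Δ'(E) D Θ` with `Δ'(E) = E ⊗ 1 + K ⊗ E`.
Since `D (1 ⊗ E) = (K ⊗ E) D` and `D (E ⊗ K⁻¹) = (E ⊗ 1) D`, this is `Θ (1 ⊗ E + E ⊗ K) = (1 ⊗ E + E ⊗ K⁻¹) Θ`, i.e.
`∑_l c_l E^(l+1) ⊗ (F^l K - K⁻¹ F^l) = ∑_l c_l E^l ⊗ (E F^l - F^l E)`. By `F_pow_comm` the term `l + 1` on the right is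
`c_(l+1) [l+1] E^(l+1) ⊗ F^l [wt - l]`, and `F^l K - K⁻¹ F^l = F^l (K - v^(4l) K⁻¹) = v^(2l) {1} F^l [wt - l]`
(`K⁻¹ F^l = v^(4l) F^l K⁻¹` by `F_pow_wt`), so both sides agree by `rco_succ`; the last term on the left
(`l = L - 1`) vanishes when the sums run over `l < L` with `card ι ≤ L - 1` (`E_nil`).
In coordinates: row `(p, q) : κ × ι` (`p` index of `N`), column `(i, k) : ι × κ`. Use `RM_cut` with one common large `L`
(e.g. `L = card ι + 1`) on both sides. LHS `∑_(i',k') RM (p,q) (i',k') tE (i',k') (i,k)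
= v^(wt q wt p) ∑_l c_l [(E^l) q i (F^l E) p k + (E^(l+1)) q i (F^l) p k v^(2 wt k)]`, RHS
`∑ tE_{N,M} (p,q) (p',q') RM (p',q') (i,k)`, `tE_{N,M} (p,q) (p',q') = [p=p'] E q q' + [q=q'] E p p' v^(2 wt q)`, so RHS
`= ∑_l c_l [∑_q' E q q' v^(wt q' wt p) (E^l) q' i (F^l) p k + v^(2 wt q) ∑_p' E p p' v^(wt q wt p') (E^l) q i (F^l) p' k]` with
`wt q' = wt q - 2` and `wt p' = wt p - 2` when the entries are nonzero:
`= v^(wt q wt p) ∑_l c_l [v^(-2 wt p) (E^(l+1)) q i (F^l) p k + (E^l) q i (E F^l) p k]`; and `wt p = wt k - 2 l` when `(F^l) p k ≠ 0`.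
-/

set_option autoImplicit false

open Matrix Filter Topology

namespace Pool.Agent.KS

open Pool.Agent.KT

variable {u : ℝˣ} {ι κ : Type} [Fintype ι] [DecidableEq ι] [Fintype κ] [DecidableEq κ]

private theorem re_col (X : ι × κ → ℝ) (E : Matrix ι ι ℝ) (E' : Matrix κ κ ℝ) (w' : κ → ℤ)
    (x : ι × κ) : ∑ z, X z * tE u E E' w' z x =
      ∑ k', X (x.1, k') * E' k' x.2 + ∑ i', X (i', x.2) * (E i' x.1 * pw u (2 * w' x.2)) := by
  unfold tE
  rw [Fintype.sum_prod_type]
  simp only [mul_add, Finset.sum_add_distrib]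
  congr 1
  · rw [Finset.sum_eq_single x.1]
    · simp
    · intro b _ hb
      simp [hb]
    · intro hb
      exact absurd (Finset.mem_univ _) hb
  · apply Finset.sum_congr rfl
    intro i' _
    rw [Finset.sum_eq_single x.2]
    · simp
    · intro b _ hb
      simp [hb]
    · intro hb
      exact absurd (Finset.mem_univ _) hb

private theorem re_row (X : ι × κ → ℝ) (E : Matrix ι ι ℝ) (E' : Matrix κ κ ℝ) (w' : κ → ℤ)
    (y : ι × κ) : ∑ z, tE u E E' w' y z * X z =
      ∑ k', E' y.2 k' * X (y.1, k') + ∑ i', E y.1 i' * pw u (2 * w' y.2) * X (i', y.2) := by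
  unfold tE
  rw [Fintype.sum_prod_type]
  simp only [add_mul, Finset.sum_add_distrib]
  congr 1
  · rw [Finset.sum_eq_single y.1]
    · simp
    · intro b _ hb
      simp [Ne.symm hb]
    · intro hb
      exact absurd (Finset.mem_univ _) hb
  · apply Finset.sum_congr rfl
    intro i' _
    rw [Finset.sum_eq_single y.2]
    · simp
    · intro b _ hb
      simp [Ne.symm hb]
    · intro hb
      exact absurd (Finset.mem_univ _) hb

private theorem re_sw {α : Type} [Fintype α] (s : Finset ℕ) (W : ℝ) (a : ℕ → ℝ) (Y : ℕ → α → ℝ)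
    (Z : α → ℝ) : ∑ k, (W * ∑ l ∈ s, a l * Y l k) * Z k =
      W * ∑ l ∈ s, a l * ∑ k, Y l k * Z k := by
  simp only [Finset.mul_sum, Finset.sum_mul]
  rw [Finset.sum_comm]
  apply Finset.sum_congr rfl
  intro l _
  apply Finset.sum_congr rfl
  intro k _
  ring

private theorem re_br (hu : 1 < (u : ℝ)) (n : ℤ) : br u 1 * qn u n = br u n := by
  rw [qn, mul_div_cancel₀ _ (br_pos hu one_pos).ne']

private theorem re_key (hu : 1 < (u : ℝ)) (M : QM u ι) (N : QM u κ) (p k : κ) (q i : ι) :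
    ∑ l ∈ Finset.range (Fintype.card ι + 1), rco u l * (M.E ^ l) q i *
      ((N.E * N.F ^ l) p k - (N.F ^ l * N.E) p k) =
    ∑ l ∈ Finset.range (Fintype.card ι + 1), rco u l * (M.E ^ (l + 1)) q i * (N.F ^ l) p k *
      (pw u (2 * N.wt k) - pw u (-(2 * N.wt p))) := by
  rw [Finset.sum_range_succ', Finset.sum_range_succ (n := Fintype.card ι)]
  have h0 : rco u 0 * (M.E ^ 0) q i * ((N.E * N.F ^ 0) p k - (N.F ^ 0 * N.E) p k) = 0 := by
    rw [pow_zero, pow_zero, Matrix.mul_one, Matrix.one_mul, sub_self, mul_zero]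
  have h1 : rco u (Fintype.card ι) * (M.E ^ (Fintype.card ι + 1)) q i *
      (N.F ^ Fintype.card ι) p k * (pw u (2 * N.wt k) - pw u (-(2 * N.wt p))) = 0 := by
    rw [E_nil M (Nat.le_succ _)]
    simp
  rw [h0, h1, add_zero, add_zero]
  apply Finset.sum_congr rfl
  intro m _
  have h2 : (N.E * N.F ^ (m + 1)) p k - (N.F ^ (m + 1) * N.E) p k =
      (N.F ^ m) p k * (qn u (m + 1) * qn u (N.wt k - m)) := by
    rw [← Matrix.sub_apply, F_pow_comm hu N m, mul_diagonal]
  rw [h2]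
  by_cases hF : (N.F ^ m) p k = 0
  · rw [hF]
    ring
  · have hw := F_pow_wt N m p k hF
    have h3 := rco_succ hu m
    have h4 := re_br hu (N.wt k - m)
    have e1 : pw u (2 * m) * pw u (2 * (N.wt k - m)) = pw u (2 * N.wt k) := by
      rw [← pw_add]
      congr 1
      ring
    have e2 : pw u (2 * m) * pw u (-(2 * (N.wt k - m))) = pw u (-(2 * N.wt p)) := by
      rw [← pw_add, hw]
      congr 1
      ring
    have h5 : pw u (2 * m) * br u (N.wt k - m) = pw u (2 * N.wt k) - pw u (-(2 * N.wt p)) := by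
      rw [br, mul_sub, e1, e2]
    rw [← h5, ← h4]
    linear_combination ((M.E ^ (m + 1)) q i * (N.F ^ m) p k * qn u (N.wt k - m)) * h3

theorem RM_E (hu : 1 < (u : ℝ)) (M : QM u ι) (N : QM u κ) :
    RM M N * (tn M N).E = (tn N M).E * RM M N := by
  ext y x
  obtain ⟨p, q⟩ := y
  obtain ⟨i, k⟩ := x
  rw [Matrix.mul_apply, Matrix.mul_apply]
  change ∑ z, RM M N (p, q) z * tE u M.E N.E N.wt z (i, k) =
    ∑ z, tE u N.E M.E M.wt (p, q) z * RM M N z (i, k)
  rw [re_col, re_row]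
  have hcut := fun y x => RM_cut M N (Nat.le_succ (Fintype.card ι)) y x
  obtain ⟨L, hL⟩ : ∃ L, L = Finset.range (Fintype.card ι + 1) := ⟨_, rfl⟩
  have hkey := re_key hu M N p k q i
  simp only [Nat.succ_eq_add_one, ← hL] at hcut hkey
  have T1 : ∑ k', RM M N (p, q) (i, k') * N.E k' k =
      pw u (M.wt q * N.wt p) * ∑ l ∈ L, (rco u l * (M.E ^ l) q i) * (N.F ^ l * N.E) p k := by
    simp only [hcut]
    rw [re_sw L _ (fun l => rco u l * (M.E ^ l) q i) (fun l k' => (N.F ^ l) p k')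
      (fun k' => N.E k' k)]
    simp only [Matrix.mul_apply]
  have T2 : ∑ i', RM M N (p, q) (i', k) * (M.E i' i * pw u (2 * N.wt k)) =
      pw u (M.wt q * N.wt p) * ∑ l ∈ L, (rco u l * (N.F ^ l) p k * pw u (2 * N.wt k)) *
        (M.E ^ (l + 1)) q i := by
    have e1 : ∀ i', RM M N (p, q) (i', k) * (M.E i' i * pw u (2 * N.wt k)) =
        (pw u (M.wt q * N.wt p) * ∑ l ∈ L, (rco u l * (N.F ^ l) p k * pw u (2 * N.wt k)) *
          (M.E ^ l) q i') * M.E i' i := by
      intro i'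
      rw [hcut]
      simp only
      have e2 : ∑ l ∈ L, (rco u l * (N.F ^ l) p k * pw u (2 * N.wt k)) * (M.E ^ l) q i' =
          (∑ l ∈ L, rco u l * (M.E ^ l) q i' * (N.F ^ l) p k) * pw u (2 * N.wt k) := by
        rw [Finset.sum_mul]
        apply Finset.sum_congr rfl
        intro l _
        ring
      rw [e2]
      ring
    rw [Finset.sum_congr rfl fun i' _ => e1 i',
      re_sw L _ (fun l => rco u l * (N.F ^ l) p k * pw u (2 * N.wt k)) (fun l i' => (M.E ^ l) q i')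
      (fun i' => M.E i' i)]
    simp only [pow_succ, Matrix.mul_apply]
  have T3 : ∑ q', M.E q q' * RM M N (p, q') (i, k) =
      pw u (M.wt q * N.wt p) * ∑ l ∈ L, (rco u l * (N.F ^ l) p k * pw u (-(2 * N.wt p))) *
        (M.E ^ (l + 1)) q i := by
    have e1 : ∀ q', M.E q q' * RM M N (p, q') (i, k) =
        (pw u (M.wt q * N.wt p) * ∑ l ∈ L, (rco u l * (N.F ^ l) p k * pw u (-(2 * N.wt p))) *
          (M.E ^ l) q' i) * M.E q q' := by
      intro q'
      by_cases hE : M.E q q' = 0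
      · rw [hE, zero_mul, mul_zero]
      · have hw := M.hE q q' hE
        rw [hcut]
        simp only
        have e2 : ∑ l ∈ L, (rco u l * (N.F ^ l) p k * pw u (-(2 * N.wt p))) * (M.E ^ l) q' i =
            (∑ l ∈ L, rco u l * (M.E ^ l) q' i * (N.F ^ l) p k) * pw u (-(2 * N.wt p)) := by
          rw [Finset.sum_mul]
          apply Finset.sum_congr rfl
          intro l _
          ring
        have e3 : pw u (M.wt q * N.wt p) * pw u (-(2 * N.wt p)) = pw u (M.wt q' * N.wt p) := by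
          rw [← pw_add, hw]
          congr 1
          ring
        rw [e2, ← e3]
        ring
    rw [Finset.sum_congr rfl fun q' _ => e1 q',
      re_sw L _ (fun l => rco u l * (N.F ^ l) p k * pw u (-(2 * N.wt p)))
      (fun l q' => (M.E ^ l) q' i) (fun q' => M.E q q')]
    congr 1
    apply Finset.sum_congr rfl
    intro l _
    rw [pow_succ', Matrix.mul_apply]
    congr 1
    apply Finset.sum_congr rfl
    intro q' _
    ring
  have T4 : ∑ p', N.E p p' * pw u (2 * M.wt q) * RM M N (p', q) (i, k) =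
      pw u (M.wt q * N.wt p) * ∑ l ∈ L, (rco u l * (M.E ^ l) q i) * (N.E * N.F ^ l) p k := by
    have e1 : ∀ p', N.E p p' * pw u (2 * M.wt q) * RM M N (p', q) (i, k) =
        (pw u (M.wt q * N.wt p) * ∑ l ∈ L, (rco u l * (M.E ^ l) q i) * (N.F ^ l) p' k) *
          N.E p p' := by
      intro p'
      by_cases hE : N.E p p' = 0
      · rw [hE, zero_mul, mul_zero, zero_mul]
      · have hw := N.hE p p' hE
        rw [hcut]
        simp only
        have e3 : pw u (2 * M.wt q) * pw u (M.wt q * N.wt p') = pw u (M.wt q * N.wt p) := by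
          rw [← pw_add, hw]
          congr 1
          ring
        rw [← e3]
        ring
    rw [Finset.sum_congr rfl fun p' _ => e1 p',
      re_sw L _ (fun l => rco u l * (M.E ^ l) q i) (fun l p' => (N.F ^ l) p' k)
      (fun p' => N.E p p')]
    congr 1
    apply Finset.sum_congr rfl
    intro l _
    rw [Matrix.mul_apply]
    congr 1
    apply Finset.sum_congr rfl
    intro p' _
    ring
  rw [T1, T2, T3, T4, ← mul_add, ← mul_add]
  congr 1
  have h1 : ∑ l ∈ L, rco u l * (M.E ^ l) q i * ((N.E * N.F ^ l) p k - (N.F ^ l * N.E) p k) =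
      ∑ l ∈ L, (rco u l * (M.E ^ l) q i) * (N.E * N.F ^ l) p k -
        ∑ l ∈ L, (rco u l * (M.E ^ l) q i) * (N.F ^ l * N.E) p k := by
    rw [← Finset.sum_sub_distrib]
    apply Finset.sum_congr rfl
    intro l _
    ring
  have h2 : ∑ l ∈ L, rco u l * (M.E ^ (l + 1)) q i * (N.F ^ l) p k *
      (pw u (2 * N.wt k) - pw u (-(2 * N.wt p))) =
      ∑ l ∈ L, (rco u l * (N.F ^ l) p k * pw u (2 * N.wt k)) * (M.E ^ (l + 1)) q i -
      ∑ l ∈ L, (rco u l * (N.F ^ l) p k * pw u (-(2 * N.wt p))) * (M.E ^ (l + 1)) q i := by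
    rw [← Finset.sum_sub_distrib]
    apply Finset.sum_congr rfl
    intro l _
    ring
  rw [h1, h2] at hkey
  linarith

end Pool.Agent.KS
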