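import Pool.Agent.Work.MP_ab49bb_gt.Sat.Rc

/-!
# RF (M-L): the braiding commutes with `F`

Notation as in `RE` (you need not wait for it). `Δ(F) = K⁻¹ ⊗ F + F ⊗ 1` on `M ⊗ N`, `K = v^(2 wt)`. The claim is
`D Θ Δ(F) = Δ'(F) D Θ` with `Δ'(F) = F ⊗ K⁻¹ + 1 ⊗ F`; since `D (F ⊗ 1) = (F ⊗ K⁻¹) D` and `D (K ⊗ F) = (1 ⊗ F) D`, this is
`Θ (K⁻¹ ⊗ F + F ⊗ 1) = (K ⊗ F + F ⊗ 1) Θ`, i.e. `∑_l c_l (E^l K⁻¹ - K E^l) ⊗ F^(l+1) + ∑_l c_l (E^l F - F E^l) ⊗ F^l = 0`.
By `E_pow_comm`: `E^(l+1) F - F E^(l+1) = [l+1] E^l [wt + l]`, and `E^l K⁻¹ - K E^l = E^l (K⁻¹ - v^(4l) K) = - v^(2l) {1} E^l [wt + l]`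
(`K E^l = v^(4l) E^l K` by `E_pow_wt`); so the terms cancel by `rco_succ`; the last term of the first sum vanishes by `E_nil`
when the sums run over `l < L`, `card ι ≤ L - 1`.
In coordinates (row `(p, q) : κ × ι`, column `(i, k) : ι × κ`, `tF_{M,N} (i',k') (i,k) = [i'=i] v^(-2 wt i) F k' k + [k'=k] F i' i`):
LHS `= v^(wt q wt p) ∑_l c_l [(E^l) q i v^(-2 wt i) (F^(l+1)) p k + (E^l F) q i (F^l) p k]`,
RHS `= ∑ tF_{N,M} (p,q) (p',q') RM (p',q') (i,k)`, `tF_{N,M} (p,q) (p',q') = [p=p'] v^(-2 wt p) F q q' + [q=q'] F p p'`,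
`= ∑_l c_l [v^(-2 wt p) ∑_q' F q q' v^(wt q' wt p) (E^l) q' i (F^l) p k + ∑_p' F p p' v^(wt q wt p') (E^l) q i (F^l) p' k]` with
`wt q' = wt q + 2`, `wt p' = wt p + 2` when the entries are nonzero:
`= v^(wt q wt p) ∑_l c_l [(F E^l) q i (F^l) p k + v^(2 wt q) (E^l) q i (F^(l+1)) p k]`, and `wt q = wt i + 2 l` when `(E^l) q i ≠ 0`.
-/

set_option autoImplicit false

open Matrix Filter Topology

namespace Pool.Agent.KS

open Pool.Agent.KT

variable {u : ℝˣ} {ι κ : Type} [Fintype ι] [DecidableEq ι] [Fintype κ] [DecidableEq κ]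

private theorem rf_col (X : ι × κ → ℝ) (F : Matrix ι ι ℝ) (F' : Matrix κ κ ℝ) (w : ι → ℤ)
    (x : ι × κ) : ∑ z, X z * tF u F F' w z x =
      ∑ k', X (x.1, k') * (pw u (-(2 * w x.1)) * F' k' x.2) + ∑ i', X (i', x.2) * F i' x.1 := by
  unfold tF
  rw [Fintype.sum_prod_type]
  simp only [mul_add, Finset.sum_add_distrib]
  congr 1
  · rw [Finset.sum_eq_single x.1]
    · simp
    · intro b _ hb
      simp [hb]
    · intro hb
      exact absurd (Finset.mem_univ _) hb
  · apply Finset.sum_congr rfl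
    intro i' _
    rw [Finset.sum_eq_single x.2]
    · simp
    · intro b _ hb
      simp [hb]
    · intro hb
      exact absurd (Finset.mem_univ _) hb

private theorem rf_row (X : ι × κ → ℝ) (F : Matrix ι ι ℝ) (F' : Matrix κ κ ℝ) (w : ι → ℤ)
    (y : ι × κ) : ∑ z, tF u F F' w y z * X z =
      ∑ k', pw u (-(2 * w y.1)) * F' y.2 k' * X (y.1, k') + ∑ i', F y.1 i' * X (i', y.2) := by
  unfold tF
  rw [Fintype.sum_prod_type]
  simp only [add_mul, Finset.sum_add_distrib]
  congr 1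
  · rw [Finset.sum_eq_single y.1]
    · simp
    · intro b _ hb
      simp [Ne.symm hb]
    · intro hb
      exact absurd (Finset.mem_univ _) hb
  · apply Finset.sum_congr rfl
    intro i' _
    rw [Finset.sum_eq_single y.2]
    · simp
    · intro b _ hb
      simp [Ne.symm hb]
    · intro hb
      exact absurd (Finset.mem_univ _) hb

private theorem rf_sw {α : Type} [Fintype α] (s : Finset ℕ) (W : ℝ) (a : ℕ → ℝ) (Y : ℕ → α → ℝ)
    (Z : α → ℝ) : ∑ k, (W * ∑ l ∈ s, a l * Y l k) * Z k =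
      W * ∑ l ∈ s, a l * ∑ k, Y l k * Z k := by
  simp only [Finset.mul_sum, Finset.sum_mul]
  rw [Finset.sum_comm]
  apply Finset.sum_congr rfl
  intro l _
  apply Finset.sum_congr rfl
  intro k _
  ring

private theorem rf_br (hu : 1 < (u : ℝ)) (n : ℤ) : br u 1 * qn u n = br u n := by
  rw [qn, mul_div_cancel₀ _ (br_pos hu one_pos).ne']

private theorem rf_key (hu : 1 < (u : ℝ)) (M : QM u ι) (N : QM u κ) (p k : κ) (q i : ι) :
    ∑ l ∈ Finset.range (Fintype.card ι + 1), rco u l * (N.F ^ l) p k *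
      ((M.E ^ l * M.F) q i - (M.F * M.E ^ l) q i) =
    ∑ l ∈ Finset.range (Fintype.card ι + 1), rco u l * (M.E ^ l) q i * (N.F ^ (l + 1)) p k *
      (pw u (2 * M.wt q) - pw u (-(2 * M.wt i))) := by
  rw [Finset.sum_range_succ', Finset.sum_range_succ (n := Fintype.card ι)]
  have h0 : rco u 0 * (N.F ^ 0) p k * ((M.E ^ 0 * M.F) q i - (M.F * M.E ^ 0) q i) = 0 := by
    rw [pow_zero, pow_zero, Matrix.mul_one, Matrix.one_mul, sub_self, mul_zero]
  have h1 : rco u (Fintype.card ι) * (M.E ^ Fintype.card ι) q i *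
      (N.F ^ (Fintype.card ι + 1)) p k * (pw u (2 * M.wt q) - pw u (-(2 * M.wt i))) = 0 := by
    rw [E_nil M le_rfl]
    simp
  rw [h0, h1, add_zero, add_zero]
  apply Finset.sum_congr rfl
  intro m _
  have h2 : (M.E ^ (m + 1) * M.F) q i - (M.F * M.E ^ (m + 1)) q i =
      (M.E ^ m) q i * (qn u (m + 1) * qn u (M.wt i + m)) := by
    rw [← Matrix.sub_apply, E_pow_comm hu M m, mul_diagonal]
  rw [h2]
  by_cases hE : (M.E ^ m) q i = 0
  · rw [hE]
    ring
  · have hw := E_pow_wt M m q i hE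
    have h3 := rco_succ hu m
    have h4 := rf_br hu (M.wt i + m)
    have e1 : pw u (2 * m) * pw u (2 * (M.wt i + m)) = pw u (2 * M.wt q) := by
      rw [← pw_add, hw]
      congr 1
      ring
    have e2 : pw u (2 * m) * pw u (-(2 * (M.wt i + m))) = pw u (-(2 * M.wt i)) := by
      rw [← pw_add]
      congr 1
      ring
    have h5 : pw u (2 * m) * br u (M.wt i + m) = pw u (2 * M.wt q) - pw u (-(2 * M.wt i)) := by
      rw [br, mul_sub, e1, e2]
    rw [← h5, ← h4]
    linear_combination ((M.E ^ m) q i * (N.F ^ (m + 1)) p k * qn u (M.wt i + m)) * h3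

theorem RM_F (hu : 1 < (u : ℝ)) (M : QM u ι) (N : QM u κ) :
    RM M N * (tn M N).F = (tn N M).F * RM M N := by
  ext y x
  obtain ⟨p, q⟩ := y
  obtain ⟨i, k⟩ := x
  rw [Matrix.mul_apply, Matrix.mul_apply]
  change ∑ z, RM M N (p, q) z * tF u M.F N.F M.wt z (i, k) =
    ∑ z, tF u N.F M.F N.wt (p, q) z * RM M N z (i, k)
  rw [rf_col, rf_row]
  have hcut := fun y x => RM_cut M N (Nat.le_succ (Fintype.card ι)) y x
  obtain ⟨L, hL⟩ : ∃ L, L = Finset.range (Fintype.card ι + 1) := ⟨_, rfl⟩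
  have hkey := rf_key hu M N p k q i
  simp only [Nat.succ_eq_add_one, ← hL] at hcut hkey
  have T1 : ∑ k', RM M N (p, q) (i, k') * (pw u (-(2 * M.wt i)) * N.F k' k) =
      pw u (M.wt q * N.wt p) * ∑ l ∈ L, (rco u l * (M.E ^ l) q i * pw u (-(2 * M.wt i))) *
        (N.F ^ (l + 1)) p k := by
    have e1 : ∀ k', RM M N (p, q) (i, k') * (pw u (-(2 * M.wt i)) * N.F k' k) =
        (pw u (M.wt q * N.wt p) * ∑ l ∈ L, (rco u l * (M.E ^ l) q i * pw u (-(2 * M.wt i))) *
          (N.F ^ l) p k') * N.F k' k := by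
      intro k'
      rw [hcut]
      simp only
      have e2 : ∑ l ∈ L, (rco u l * (M.E ^ l) q i * pw u (-(2 * M.wt i))) * (N.F ^ l) p k' =
          (∑ l ∈ L, rco u l * (M.E ^ l) q i * (N.F ^ l) p k') * pw u (-(2 * M.wt i)) := by
        rw [Finset.sum_mul]
        apply Finset.sum_congr rfl
        intro l _
        ring
      rw [e2]
      ring
    rw [Finset.sum_congr rfl fun k' _ => e1 k',
      rf_sw L _ (fun l => rco u l * (M.E ^ l) q i * pw u (-(2 * M.wt i)))
      (fun l k' => (N.F ^ l) p k') (fun k' => N.F k' k)]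
    simp only [pow_succ, Matrix.mul_apply]
  have T2 : ∑ i', RM M N (p, q) (i', k) * M.F i' i =
      pw u (M.wt q * N.wt p) * ∑ l ∈ L, (rco u l * (N.F ^ l) p k) * (M.E ^ l * M.F) q i := by
    have e1 : ∀ i', RM M N (p, q) (i', k) * M.F i' i =
        (pw u (M.wt q * N.wt p) * ∑ l ∈ L, (rco u l * (N.F ^ l) p k) * (M.E ^ l) q i') *
          M.F i' i := by
      intro i'
      rw [hcut]
      simp only
      congr 2
      apply Finset.sum_congr rfl
      intro l _
      ring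
    rw [Finset.sum_congr rfl fun i' _ => e1 i',
      rf_sw L _ (fun l => rco u l * (N.F ^ l) p k) (fun l i' => (M.E ^ l) q i')
      (fun i' => M.F i' i)]
    simp only [Matrix.mul_apply]
  have T3 : ∑ q', pw u (-(2 * N.wt p)) * M.F q q' * RM M N (p, q') (i, k) =
      pw u (M.wt q * N.wt p) * ∑ l ∈ L, (rco u l * (N.F ^ l) p k) * (M.F * M.E ^ l) q i := by
    have e1 : ∀ q', pw u (-(2 * N.wt p)) * M.F q q' * RM M N (p, q') (i, k) =
        (pw u (M.wt q * N.wt p) * ∑ l ∈ L, (rco u l * (N.F ^ l) p k) * (M.E ^ l) q' i) *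
          M.F q q' := by
      intro q'
      by_cases hF : M.F q q' = 0
      · rw [hF, mul_zero, zero_mul, mul_zero]
      · have hw := M.hF q q' hF
        rw [hcut]
        simp only
        have e2 : ∑ l ∈ L, (rco u l * (N.F ^ l) p k) * (M.E ^ l) q' i =
            ∑ l ∈ L, rco u l * (M.E ^ l) q' i * (N.F ^ l) p k := by
          apply Finset.sum_congr rfl
          intro l _
          ring
        have e3 : pw u (-(2 * N.wt p)) * pw u (M.wt q' * N.wt p) = pw u (M.wt q * N.wt p) := by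
          rw [← pw_add, hw]
          congr 1
          ring
        rw [e2, ← e3]
        ring
    rw [Finset.sum_congr rfl fun q' _ => e1 q',
      rf_sw L _ (fun l => rco u l * (N.F ^ l) p k)
      (fun l q' => (M.E ^ l) q' i) (fun q' => M.F q q')]
    congr 1
    apply Finset.sum_congr rfl
    intro l _
    rw [Matrix.mul_apply]
    congr 1
    apply Finset.sum_congr rfl
    intro q' _
    ring
  have T4 : ∑ p', N.F p p' * RM M N (p', q) (i, k) =
      pw u (M.wt q * N.wt p) * ∑ l ∈ L, (rco u l * (M.E ^ l) q i * pw u (2 * M.wt q)) *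
        (N.F ^ (l + 1)) p k := by
    have e1 : ∀ p', N.F p p' * RM M N (p', q) (i, k) =
        (pw u (M.wt q * N.wt p) * ∑ l ∈ L, (rco u l * (M.E ^ l) q i * pw u (2 * M.wt q)) *
          (N.F ^ l) p' k) * N.F p p' := by
      intro p'
      by_cases hF : N.F p p' = 0
      · rw [hF, zero_mul, mul_zero]
      · have hw := N.hF p p' hF
        rw [hcut]
        simp only
        have e2 : ∑ l ∈ L, (rco u l * (M.E ^ l) q i * pw u (2 * M.wt q)) * (N.F ^ l) p' k =
            (∑ l ∈ L, rco u l * (M.E ^ l) q i * (N.F ^ l) p' k) * pw u (2 * M.wt q) := by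
          rw [Finset.sum_mul]
          apply Finset.sum_congr rfl
          intro l _
          ring
        have e3 : pw u (M.wt q * N.wt p) * pw u (2 * M.wt q) = pw u (M.wt q * N.wt p') := by
          rw [← pw_add, hw]
          congr 1
          ring
        rw [e2, ← e3]
        ring
    rw [Finset.sum_congr rfl fun p' _ => e1 p',
      rf_sw L _ (fun l => rco u l * (M.E ^ l) q i * pw u (2 * M.wt q))
      (fun l p' => (N.F ^ l) p' k) (fun p' => N.F p p')]
    congr 1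
    apply Finset.sum_congr rfl
    intro l _
    rw [pow_succ', Matrix.mul_apply]
    congr 1
    apply Finset.sum_congr rfl
    intro p' _
    ring
  rw [T1, T2, T3, T4, ← mul_add, ← mul_add]
  congr 1
  have h1 : ∑ l ∈ L, rco u l * (N.F ^ l) p k * ((M.E ^ l * M.F) q i - (M.F * M.E ^ l) q i) =
      ∑ l ∈ L, (rco u l * (N.F ^ l) p k) * (M.E ^ l * M.F) q i -
        ∑ l ∈ L, (rco u l * (N.F ^ l) p k) * (M.F * M.E ^ l) q i := by
    rw [← Finset.sum_sub_distrib]
    apply Finset.sum_congr rfl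
    intro l _
    ring
  have h2 : ∑ l ∈ L, rco u l * (M.E ^ l) q i * (N.F ^ (l + 1)) p k *
      (pw u (2 * M.wt q) - pw u (-(2 * M.wt i))) =
      ∑ l ∈ L, (rco u l * (M.E ^ l) q i * pw u (2 * M.wt q)) * (N.F ^ (l + 1)) p k -
      ∑ l ∈ L, (rco u l * (M.E ^ l) q i * pw u (-(2 * M.wt i))) * (N.F ^ (l + 1)) p k := by
    rw [← Finset.sum_sub_distrib]
    apply Finset.sum_congr rfl
    intro l _
    ring
  rw [h1, h2] at hkey
  linarith

end Pool.Agent.KS
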