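import Pool.Agent.Work.MP_ab49bb_gt.Sat.Na
import Pool.Agent.Work.MP_ab49bb_gt.Sat.RE
import Pool.Agent.Work.MP_ab49bb_gt.Sat.RF

/-!
# RH (S-M): the braiding is an invertible homomorphism

`RM_hom`: from `RM_wt`, `RM_E`, `RM_F`.
`isUnit_RM`: `RM M M = P D Θ`, where `P` is the flip (`(RM M M) y x = v^(wt y.2 wt y.1) Θ (y.2, y.1) x`), `D` is diagonal with nonzero entries `v^(wt x.1 wt x.2)` and
`Θ = ∑_l c_l E^l ⊗ F^l = ∑_l c_l T^l` with `T = kr E F` (`kr (E^l) (F^l) = T^l` by `kr_mul`), `c_0 = 1`. `T` is nilpotent (`T^L = kr (E^L) (F^L) = 0` for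
`card ι ≤ L`), so `Θ - 1 = T * ∑_(l≥1) c_l T^(l-1)` is nilpotent (`Commute.isNilpotent_mul_…`: both factors are polynomials in `T`) and
`Θ` is a unit (`IsNilpotent.isUnit_one_add`). The flip: `(RM M M) = (D Θ).submatrix Prod.swap id`, i.e. a permutation matrix times `D Θ`; e.g.
`det` of `submatrix (Equiv.prodComm) id` is `± det` (`Matrix.det_permute'`) or write the inverse by hand: if `(D Θ) Y = 1 = Y (D Θ)`, then
`Y.submatrix id Prod.swap` is an inverse (`Matrix.submatrix_mul_equiv`).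
-/

set_option autoImplicit false

open Matrix Filter Topology

namespace Pool.Agent.KS

open Pool.Agent.KT

variable {u : ℝˣ} {ι κ : Type} [Fintype ι] [DecidableEq ι] [Fintype κ] [DecidableEq κ]

theorem RM_hom (hu : 1 < (u : ℝ)) (M : QM u ι) (N : QM u κ) : Hom (tn N M) (tn M N) (RM M N) :=
  ⟨fun i j h => RM_wt M N i j h, RM_E hu M N, RM_F hu M N⟩

private theorem kr_pow (X : Matrix ι ι ℝ) (Y : Matrix κ κ ℝ) (l : ℕ) :
    kr (X ^ l) (Y ^ l) = kr X Y ^ l := by
  induction l with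
  | zero => rw [pow_zero, pow_zero, pow_zero, kr_one]
  | succ l ih => rw [pow_succ, pow_succ, pow_succ, ← kr_mul, ih]

theorem isUnit_RM (hu : 1 < (u : ℝ)) (M : QM u ι) : IsUnit (RM M M) := by
  obtain ⟨T, hT⟩ : ∃ T : Matrix (ι × ι) (ι × ι) ℝ, T = kr M.E M.F := ⟨_, rfl⟩
  obtain ⟨R, hR⟩ : ∃ R : Matrix (ι × ι) (ι × ι) ℝ,
      R = ∑ l ∈ Finset.range (Fintype.card ι), rco u (l + 1) • T ^ l := ⟨_, rfl⟩
  have hnil : IsNilpotent T := by
    refine ⟨Fintype.card ι, ?_⟩
    rw [hT, ← kr_pow, E_nil M le_rfl]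
    ext x y
    simp [kr]
  have hcomm : Commute T R := by
    rw [hR]
    refine Commute.sum_right _ _ _ fun l _ => ?_
    exact ((Commute.refl T).pow_right l).smul_right _
  have hun : IsUnit (1 + T * R) := (hcomm.isNilpotent_mul_right hnil).isUnit_one_add
  have hdia : IsUnit (diagonal fun z : ι × ι => pw u (M.wt z.1 * M.wt z.2)) := by
    rw [Matrix.isUnit_iff_isUnit_det, det_diagonal, isUnit_iff_ne_zero]
    exact Finset.prod_ne_zero_iff.2 fun z _ => (pw_pos hu _).ne'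
  have hprod := hdia.mul hun
  have hrm : RM M M = ((diagonal fun z : ι × ι => pw u (M.wt z.1 * M.wt z.2)) *
      (1 + T * R)).submatrix (Equiv.prodComm ι ι) (Equiv.refl (ι × ι)) := by
    ext y x
    rw [submatrix_apply, diagonal_mul]
    have h1 : 1 + T * R = ∑ l ∈ Finset.range (Fintype.card ι + 1), rco u l • T ^ l := by
      rw [Finset.sum_range_succ', rco_zero, pow_zero, one_smul, hR, Finset.mul_sum, add_comm]
      congr 1
      refine Finset.sum_congr rfl fun l _ => ?_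
      rw [mul_smul_comm, pow_succ']
    rw [h1, Matrix.sum_apply]
    unfold RM
    congr 1
    refine Finset.sum_congr rfl fun l _ => ?_
    rw [Matrix.smul_apply, hT, ← kr_pow, smul_eq_mul, mul_assoc]
    rfl
  rw [hrm]
  exact (isUnit_submatrix_equiv _ _).2 hprod

end Pool.Agent.KS
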