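import Pool.Agent.Work.MP_ab49bb_gt.Sat.Cs
import Pool.Agent.Work.MP_ab49bb_gt.Sat.Em
import Pool.Agent.Work.MP_ab49bb_gt.Sat.RH

/-!
# Cw (M): the matrix of a braid word is an endomorphism of the tensor power

`com_at2`: induction on `n` (`n ≤ k + 1`: the matrix is `1`). Case `k = k' + 1`: under `cse` the matrix `at2 (n+1) X (k'+1)` is `kr 1 (at2 n X k')` on `M ⊗ TP n` (entrywise: the coordinate `0`
is fixed, the coordinates `k'+1, k'+2` are the coordinates `k', k'+1` of the tail), which commutes by `Hom.kr` (`Hom.of_com`, `Com.one`) and the induction hypothesis. Case `k = 0`, `n = n' + 2`: under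
`(Fin (n'+2) → ι) ≃ ι × (Fin (n'+1) → ι) ≃ ι × (ι × (Fin n' → ι)) ≃ (ι × ι) × (Fin n' → ι)` (`TP_cons` twice, `Iso.tn`, `(tn_assoc …).symm`) the matrix is `kr X 1`. A matrix on `ι` which
is carried to an element of `Com` by an isomorphism `Iso M N e` is in `Com`: `com_iso` (entrywise; `Fintype.sum_equiv`/`Matrix.submatrix_mul_equiv`).
`com_wR`: `RM_hom` gives `Com` for `R = RM M M`; products and inverses: `Com.mul`, `Com.inv`, `Com.one` of KT/Cm; induction on the word.
-/

set_option autoImplicit false

open Matrix Filter Topology

namespace Pool.Agent.KS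

open Pool.Agent.KT

variable {u : ℝˣ} {ι κ : Type} [Fintype ι] [DecidableEq ι] [Fintype κ] [DecidableEq κ]

theorem com_iso {M : QM u ι} {N : QM u κ} {e : ι ≃ κ} (h : Iso M N e) {X : Matrix ι ι ℝ}
    (hX : N.Com (X.submatrix e.symm e.symm)) : M.Com X := by
  have hXe : X = (X.submatrix e.symm e.symm).submatrix e e := by
    ext i j
    simp only [submatrix_apply, Equiv.symm_apply_apply]
  have hE : M.E = N.E.submatrix e e := by
    ext i j
    rw [submatrix_apply, h.E]
  have hF : M.F = N.F.submatrix e e := by
    ext i j
    rw [submatrix_apply, h.F]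
  refine ⟨fun i j hij => ?_, ?_, ?_⟩
  · have h1 : (X.submatrix e.symm e.symm) (e i) (e j) ≠ 0 := by
      rw [submatrix_apply, Equiv.symm_apply_apply, Equiv.symm_apply_apply]
      exact hij
    have h2 := hX.wt _ _ h1
    rwa [h.wt, h.wt] at h2
  · rw [hXe, hE, submatrix_mul_equiv, submatrix_mul_equiv, hX.E]
  · rw [hXe, hF, submatrix_mul_equiv, submatrix_mul_equiv, hX.F]

theorem com_at2 (M : QM u ι) {X : Matrix (ι × ι) (ι × ι) ℝ} (hX : (tn M M).Com X) (n k : ℕ) :
    (TP M n).Com (at2 n X k) := by
  induction n generalizing k with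
  | zero =>
    unfold at2
    rw [dif_neg (by omega)]
    exact QM.Com.one
  | succ n ih =>
    by_cases hk : k + 1 < n + 1
    swap
    · unfold at2
      rw [dif_neg hk]
      exact QM.Com.one
    rcases k with _ | k
    · rcases n with _ | n
      · omega
      have h3 := ((TP_cons M (n + 1)).trans ((Iso.refl M).tn (TP_cons M n))).trans
        (tn_assoc M M (TP M n)).symm
      refine com_iso h3 ?_
      have h4 : (at2 (n + 1 + 1) X 0).submatrix
          (((cse ι (n + 1)).trans ((Equiv.refl ι).prodCongr (cse ι n))).trans
            (Equiv.prodAssoc ι ι (Fin n → ι)).symm).symm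
          (((cse ι (n + 1)).trans ((Equiv.refl ι).prodCongr (cse ι n))).trans
            (Equiv.prodAssoc ι ι (Fin n → ι)).symm).symm =
          kr X (1 : Matrix (Fin n → ι) (Fin n → ι) ℝ) := by
        ext ⟨⟨a, b⟩, z⟩ ⟨⟨a', b'⟩, z'⟩
        change at2 (n + 1 + 1) X 0 (Fin.cons a (Fin.cons b z)) (Fin.cons a' (Fin.cons b' z')) =
          X (a, b) (a', b') * (1 : Matrix (Fin n → ι) (Fin n → ι) ℝ) z z'
        unfold at2
        rw [dif_pos (by omega), Matrix.one_apply]
        by_cases hz : z = z'
        · subst hz
          rw [if_pos rfl, mul_one, if_pos]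
          · rfl
          · intro i hi hi'
            rcases i with ⟨i, hi2⟩
            rcases i with _ | _ | i
            · exact absurd rfl hi
            · exact absurd rfl hi'
            · rfl
        · rw [if_neg hz, mul_zero, if_neg]
          intro hc
          apply hz
          funext i
          exact hc i.succ.succ (by simp) (by simp)
      rw [h4]
      exact ((Hom.of_com hX).kr (Hom.of_com QM.Com.one)).com
    · refine com_iso (TP_cons M n) ?_
      have hkn : k + 1 < n := by omega
      have h4 : (at2 (n + 1) X (k + 1)).submatrix (cse ι n).symm (cse ι n).symm =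
          kr (1 : Matrix ι ι ℝ) (at2 n X k) := by
        ext ⟨a, z⟩ ⟨a', z'⟩
        change at2 (n + 1) X (k + 1) (Fin.cons a z) (Fin.cons a' z') =
          (1 : Matrix ι ι ℝ) a a' * at2 n X k z z'
        unfold at2
        rw [dif_pos (show k + 1 + 1 < n + 1 by omega), dif_pos hkn, Matrix.one_apply]
        by_cases ha : a = a'
        · subst ha
          rw [if_pos rfl, one_mul]
          by_cases hz : ∀ i : Fin n, (i : ℕ) ≠ k → (i : ℕ) ≠ k + 1 → z i = z' i
          · rw [if_pos hz, if_pos]
            · rfl
            · intro i hi hi'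
              rcases i with ⟨i, hi2⟩
              rcases i with _ | i
              · rfl
              · exact hz ⟨i, by omega⟩ (fun h => hi (by simp only at h ⊢; omega))
                  (fun h => hi' (by simp only at h ⊢; omega))
          · rw [if_neg hz, if_neg]
            intro hc
            apply hz
            intro i hi hi'
            exact hc i.succ (by simp only [Fin.val_succ]; omega)
              (by simp only [Fin.val_succ]; omega)
        · rw [if_neg ha, zero_mul, if_neg]
          intro hc
          exact ha (hc 0 (by simp) (by simp))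
      rw [h4]
      exact ((Hom.of_com QM.Com.one).kr (Hom.of_com (ih k))).com

theorem com_wR (hu : 1 < (u : ℝ)) (M : QM u ι) (n : ℕ) (w : List Lt) :
    (TP M n).Com (wR n (RM M M) w) := by
  induction w with
  | nil => exact QM.Com.one
  | cons l w ih =>
    have h1 : wR n (RM M M) (l :: w) =
        (if l.2 then at2 n (RM M M) l.1 else (at2 n (RM M M) l.1)⁻¹) * wR n (RM M M) w := by
      unfold wR
      rw [List.map_cons, List.prod_cons]
    rw [h1]
    refine QM.Com.mul ?_ ih
    have h2 := com_at2 M (RM_hom hu M M).com n l.1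
    by_cases hl : l.2 = true
    · rw [if_pos hl]
      exact h2
    · rw [if_neg hl]
      exact h2.inv

end Pool.Agent.KS
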