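import Pool.Agent.Work.MP_ab49bb_gt.Sat.Hc

/-!
# Cs (M): associativity of the tensor product, the other decomposition of the tensor power

`tn_assoc`: `(tn (tn M N) P)` and `(tn M (tn N P))` agree under `((i, j), k) ↦ (i, (j, k))`: weights and norms by associativity; `E`: on both sides
`1 ⊗ 1 ⊗ E + 1 ⊗ E ⊗ K + E ⊗ K ⊗ K` (unfold `tE`; `Prod.ext_iff`, split the conditions, `pw_add`; compare `UQ_E'` in KT/Tn); `F`: `K⁻¹ ⊗ K⁻¹ ⊗ F + K⁻¹ ⊗ F ⊗ 1 + F ⊗ 1 ⊗ 1`.
`tn_triv`: `tn (triv u ι) M` and `tn M (triv u ι)` are `M` (`Fin 0 → ι` has one element; `E = F = 0`, weight `0`, norm `1`).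
`TP_cons`: by definition (`cong_iso`). `TP_snoc`: induction on `n`. `n = 0`: `TP M 1 = cong (tn M triv) …`; both sides are `M`, the identification is `z ↦ z 0`.
Step: `TP (n+2) ≅ M ⊗ TP (n+1) ≅ M ⊗ (TP n ⊗ M) ≅ (M ⊗ TP n) ⊗ M ≅ TP (n+1) ⊗ M` (`TP_cons`, `Iso.refl`, `Iso.tn`, `tn_assoc`, `Iso.symm`); the composite bijection
sends `z` to `(init z, z last)`: `((z 0, init (tail z)), last)` and `cons (z 0) (init (tail z)) = init z` (`Fin.tail_init_eq_init_tail`). Entrywise: it is enough that the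
four fields of `Iso` hold for the concrete map.
`TP_wt`, `TP_nm`: induction on `n` (`Fin.sum_univ_succ`, `Fin.prod_univ_succ`; `cse ι n z = (z 0, Fin.tail z)` by `rfl`).
-/

set_option autoImplicit false

open Matrix Filter Topology

namespace Pool.Agent.KS

open Pool.Agent.KT

variable {u : ℝˣ} {ι κ τ : Type} [Fintype ι] [DecidableEq ι] [Fintype κ] [DecidableEq κ]
  [Fintype τ] [DecidableEq τ]

theorem Iso.symm {M : QM u ι} {N : QM u κ} {e : ι ≃ κ} (h : Iso M N e) : Iso N M e.symm := by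
  refine ⟨fun i => ?_, fun i => ?_, fun i j => ?_, fun i j => ?_⟩
  · rw [← h.wt, e.apply_symm_apply]
  · rw [← h.nm, e.apply_symm_apply]
  · rw [← h.E, e.apply_symm_apply, e.apply_symm_apply]
  · rw [← h.F, e.apply_symm_apply, e.apply_symm_apply]

theorem tn_assoc (M : QM u ι) (N : QM u κ) (P : QM u τ) :
    Iso (tn (tn M N) P) (tn M (tn N P)) (Equiv.prodAssoc ι κ τ) := by
  refine ⟨fun i => ?_, fun i => ?_, ?_, ?_⟩
  · exact (add_assoc _ _ _).symm
  · exact (mul_assoc _ _ _).symm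
  · rintro ⟨⟨a, b⟩, c⟩ ⟨⟨a', b'⟩, c'⟩
    change tE u M.E (tE u N.E P.E P.wt) (fun x => N.wt x.1 + P.wt x.2) (a, (b, c)) (a', (b', c')) =
      tE u (tE u M.E N.E N.wt) P.E P.wt ((a, b), c) ((a', b'), c')
    unfold tE
    simp only [Prod.mk.injEq]
    have hp : pw u (2 * (N.wt b' + P.wt c')) = pw u (2 * N.wt b') * pw u (2 * P.wt c') := by
      rw [mul_add, pw_add]
    by_cases h1 : a = a' <;> by_cases h2 : b = b' <;> by_cases h3 : c = c' <;>
      simp only [h1, h2, h3, hp, if_true, if_false, and_true, and_false, true_and, false_and,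
        add_zero, zero_add, zero_mul] <;> ring
  · rintro ⟨⟨a, b⟩, c⟩ ⟨⟨a', b'⟩, c'⟩
    change tF u M.F (tF u N.F P.F N.wt) M.wt (a, (b, c)) (a', (b', c')) =
      tF u (tF u M.F N.F M.wt) P.F (fun x => M.wt x.1 + N.wt x.2) ((a, b), c) ((a', b'), c')
    unfold tF
    simp only [Prod.mk.injEq]
    have hp : pw u (-(2 * (M.wt a' + N.wt b'))) = pw u (-(2 * M.wt a')) * pw u (-(2 * N.wt b')) := by
      rw [← pw_add]
      congr 1
      ring
    by_cases h1 : a = a' <;> by_cases h2 : b = b' <;> by_cases h3 : c = c' <;>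
      simp only [h1, h2, h3, hp, if_true, if_false, and_true, and_false, true_and, false_and,
        add_zero, zero_add, mul_zero] <;> ring

theorem TP_cons (M : QM u ι) (n : ℕ) : Iso (TP M (n + 1)) (tn M (TP M n)) (cse ι n) := by
  exact cong_iso _ _

theorem TP_snoc (M : QM u ι) (n : ℕ) : Iso (TP M (n + 1)) (tn (TP M n) M) (sne ι n) := by
  induction n with
  | zero =>
    have hl : Fin.last 0 = 0 := rfl
    have hi : ∀ z z' : Fin (0 + 1) → ι, Fin.init z = Fin.init z' := fun z z' =>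
      Subsingleton.elim _ _
    have ht : ∀ z z' : Fin (0 + 1) → ι, Fin.tail z = Fin.tail z' := fun z z' =>
      Subsingleton.elim _ _
    refine ⟨fun z => ?_, fun z => ?_, fun z z' => ?_, fun z z' => ?_⟩
    · change (0 : ℤ) + M.wt (z (Fin.last 0)) = M.wt (z 0) + 0
      rw [hl, zero_add, add_zero]
    · change (1 : ℝ) * M.nm (z (Fin.last 0)) = M.nm (z 0) * 1
      rw [hl, one_mul, mul_one]
    · change tE u (0 : Matrix (Fin 0 → ι) (Fin 0 → ι) ℝ) M.E M.wt (Fin.init z, z (Fin.last 0))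
        (Fin.init z', z' (Fin.last 0)) = tE u M.E (0 : Matrix (Fin 0 → ι) (Fin 0 → ι) ℝ)
        (fun _ => 0) (z 0, Fin.tail z) (z' 0, Fin.tail z')
      unfold tE
      simp only [hi z z', ht z z', if_true, Matrix.zero_apply, zero_mul, mul_zero, pw_zero,
        mul_one, ite_self, add_zero, zero_add, hl]
    · change tF u (0 : Matrix (Fin 0 → ι) (Fin 0 → ι) ℝ) M.F (fun _ => 0)
        (Fin.init z, z (Fin.last 0)) (Fin.init z', z' (Fin.last 0)) =
        tF u M.F (0 : Matrix (Fin 0 → ι) (Fin 0 → ι) ℝ) M.wt (z 0, Fin.tail z)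
        (z' 0, Fin.tail z')
      unfold tF
      simp only [hi z z', ht z z', if_true, Matrix.zero_apply, mul_zero, neg_zero, pw_zero,
        one_mul, ite_self, add_zero, zero_add, hl]
  | succ n ih =>
    have h1 := TP_cons M (n + 1)
    have h2 := (Iso.refl M).tn ih
    have h3 := (tn_assoc M (TP M n) M).symm
    have h4 := (TP_cons M n).symm.tn (Iso.refl M)
    have h := ((h1.trans h2).trans h3).trans h4
    have he : (((cse ι (n + 1)).trans ((Equiv.refl ι).prodCongr (sne ι n))).trans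
        (Equiv.prodAssoc ι (Fin n → ι) ι).symm).trans
        ((cse ι n).symm.prodCongr (Equiv.refl ι)) = sne ι (n + 1) := by
      refine Equiv.ext fun z => ?_
      refine Prod.ext ?_ ?_
      · change Fin.cons (z 0) (Fin.init (Fin.tail z)) = Fin.init z
        rw [← Fin.tail_init_eq_init_tail]
        exact Fin.cons_self_tail (Fin.init z)
      · rfl
    rw [he] at h
    exact h

theorem TP_wt (M : QM u ι) (n : ℕ) (x : Fin n → ι) : (TP M n).wt x = ∑ i, M.wt (x i) := by
  induction n with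
  | zero =>
    change (0 : ℤ) = _
    rw [Fin.sum_univ_zero]
  | succ n ih =>
    rw [Fin.sum_univ_succ]
    change M.wt (x 0) + (TP M n).wt (Fin.tail x) = _
    rw [ih]
    rfl

theorem TP_nm (M : QM u ι) (n : ℕ) (x : Fin n → ι) : (TP M n).nm x = ∏ i, M.nm (x i) := by
  induction n with
  | zero =>
    change (1 : ℝ) = _
    rw [Fin.prod_univ_zero]
  | succ n ih =>
    rw [Fin.prod_univ_succ]
    change M.nm (x 0) * (TP M n).nm (Fin.tail x) = _
    rw [ih]
    rfl

end Pool.Agent.KS
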