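import Pool.Agent.Work.MP_ab49bb_gt.Sat.RD

/-!
# Hn (S-M): the norm of `hv` for `v → ∞`

`hvn = ∑_(i ≤ m) hc_i² vN b i vN a (m-i)`. By `Asy_hc`, `Asy_vN` (KT/As1) the term `i` is `Asy` with the exponent `-4 i (b-m+1) - 2 i - 2 (m-i) = -4 i (b-m+1) - 2m` (`(-1)^(2i) = 1`), which has its maximum `-2m` only
at `i = 0` (`b - m + 1 ≥ 1`); `Asy_sum` gives `Asy hvn (-2m)`, and `vN a m` is `Asy (-2m)`; `Asy.div`, `Asy.tendsto`.
-/

set_option autoImplicit false

open Matrix Filter Topology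

namespace Pool.Agent.KS

open Pool.Agent.KT

theorem hvn_lim {b a m : ℕ} (hb : m ≤ b) (ha : m ≤ a) :
    Tendsto (fun v => vN (ru v) a m / hvn (ru v) b a m) atTop (𝓝 1) := by
  have hterm : ∀ i ∈ Finset.range (m + 1),
      Asy (fun v => hc (ru v) b a m i ^ 2 * (vN (ru v) b i * vN (ru v) a (m - i)))
        (-(4 * (i : ℤ) * ((b : ℤ) - m + 1)) - 2 * m) := by
    intro i hi
    have him : i ≤ m := Nat.lt_succ_iff.1 (Finset.mem_range.1 hi)
    have h1 := ((Asy_hc (b := b) (b' := a) (m := m) (i := i) ha (le_trans him hb)).pow 2).mul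
      ((Asy_vN (b := b) (i := i) (le_trans him hb)).mul
        (Asy_vN (b := a) (i := m - i) (le_trans (Nat.sub_le _ _) ha)))
    have e : ((2 : ℕ) : ℤ) * -(2 * (i : ℤ) * ((b : ℤ) - m + 1)) +
        (-(2 * (i : ℤ)) + -(2 * ((m - i : ℕ) : ℤ))) =
        -(4 * (i : ℤ) * ((b : ℤ) - m + 1)) - 2 * m := by
      rw [Nat.cast_sub him]
      push_cast
      ring
    rw [e] at h1
    refine h1.congr fun v _ => ?_
    rw [mul_pow, ← pow_mul, mul_comm i 2, pow_mul, neg_one_sq, one_pow, one_mul]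
  have h0 : (0 : ℕ) ∈ Finset.range (m + 1) := Finset.mem_range.2 (Nat.succ_pos m)
  have hsum := Asy_sum (Finset.range (m + 1)) _ _ 0 h0 hterm (by
    intro j hj hj0
    have hj1 : (1 : ℤ) ≤ j := by exact_mod_cast Nat.one_le_iff_ne_zero.2 hj0
    have hbm : (m : ℤ) ≤ b := by exact_mod_cast hb
    push_cast
    nlinarith)
  have hdiv := (Asy_vN (b := a) (i := m) ha).div hsum
  have e : -(2 * (m : ℤ)) - (-(4 * ((0 : ℕ) : ℤ) * ((b : ℤ) - m + 1)) - 2 * m) = 0 := by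
    push_cast
    ring
  rw [e] at hdiv
  exact hdiv.tendsto

end Pool.Agent.KS
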