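import Pool.Agent.Work.MP_ab49bb_gt.Sat.FuS
import Pool.Agent.Work.MP_ab49bb_gt.Sat.Cs
import Pool.Agent.Work.MP_ab49bb_gt.Sat.Hn

/-!
# Fu (M-L): highest weight vectors of the tensor powers and highest weight words

`good_snoc`, `tt_snoc`: `wtp a y k` for `k ≤ n` only depends on `Fin.init y` (`Fin.sum_univ_castSucc`), and `wtp a y (n+1) = wtp a (init y) n + a - 2 y_last`; so `good a y ↔ good a (init y) ∧ y_last ≤ wtp a (init y) n`
and for a good word all the numbers `wtp a y k` (`k ≤ n`) are `≥ 0` (induction: `w + a - 2 y_k ≥ 0` when `y_k ≤ w`, `y_k ≤ a`), so `(tt a y : ℤ) = wtp a y n` (`tt_eq`).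
`iscv_iso`: transport of `IsCV` along `Iso M N e` (vectors `g j ∘ e`) and along a bijection of the index sets: all fields by reindexing sums.
`exists_fus`: recursion on `n`: `f v` for `n = 0` is the constant vector `1` on `Fin 0 → _`; for `n + 1`: `f v y x = fus (ru v) (TP V n) a (tt a (init y)) (f_n v (init y)) (y last) (init x, x last)` (`V = VQ (ru v) (ru_gt hv) a`; in the
definition the module occurs only through its matrix `F` — `Ph` and `fd` use `M.F` — so for `v ≤ 1` one may take `0`: `if hv : 1 < v then … else 0`). `cv`: `fus_cv`, `TP_snoc`, `iscv_iso` with the bijection `sne` on the words too;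
`fun p => G p.1 && decide (p.2 ≤ t p.1)` becomes `good a y` (for not good words both sides are zero vectors; if `good a (init y)` then `(tt a (init y) : ℤ) = wtp …`). When `good a y = false` the value of `t` is irrelevant, but `IsCV.hw` asks for the weight `tt a y`:
the vector is `0` then, and `0` is HW of every weight.
`lim`: `f v y y = (√hvn)⁻¹ ∑_z kr (Ph …) 1 (init y, m) z * hv z = (√hvn)⁻¹ f_n v (init y) (init y)` with `m = y last`: `kr (Ph) 1 (x', m) (i, k) = Ph x' i [m = k]`, `hv (i, m) = [i + m = m] hc 0 = [i = 0]`, `ph_col`. And `√(vn y) = √(vn (init y)) √(vN a m)`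
(`Fin.prod_univ_castSucc`), so the product is `(√(vn (init y)) f_n (init y) (init y)) √(vN a m / hvn)`, `hvn_lim` (`m ≤ tt a (init y)`).
`exists_cv`: take `v = u`; `ru (u : ℝ) = u` (`Units.ext`).
-/

set_option autoImplicit false

open Matrix Filter Topology

namespace Pool.Agent.KS

open Pool.Agent.KT

private theorem fw_init (a : ℕ) {n : ℕ} (y : Fin (n + 1) → Fin (a + 1)) {k : ℕ} (hk : k ≤ n) :
    wtp a y k = wtp a (Fin.init y) k := by
  unfold wtp
  rw [Fin.sum_univ_castSucc, if_neg (by rw [Fin.val_last]; omega), add_zero]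
  rfl

private theorem fw_last (a : ℕ) {n : ℕ} (y : Fin (n + 1) → Fin (a + 1)) :
    wtp a y (n + 1) = wtp a (Fin.init y) n + a - 2 * (y (Fin.last n) : ℕ) := by
  unfold wtp
  rw [Fin.sum_univ_castSucc, if_pos (by rw [Fin.val_last]; omega)]
  have h : ∀ i : Fin n, (if ((Fin.castSucc i : Fin (n + 1)) : ℕ) < n + 1 then
      (a : ℤ) - 2 * (y (Fin.castSucc i) : ℕ) else 0) =
      if (i : ℕ) < n then (a : ℤ) - 2 * (Fin.init y i : ℕ) else 0 := by
    intro i
    rw [if_pos (by rw [Fin.val_castSucc]; omega), if_pos i.2]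
    rfl
  rw [Finset.sum_congr rfl fun i _ => h i]
  ring

private theorem fw_good (a : ℕ) {n : ℕ} (y : Fin (n + 1) → Fin (a + 1)) :
    good a y = true ↔ good a (Fin.init y) = true ∧
      (((y (Fin.last n) : ℕ) : ℤ) ≤ wtp a (Fin.init y) n) := by
  unfold good
  rw [decide_eq_true_iff, decide_eq_true_iff]
  constructor
  · intro h
    refine ⟨fun i => ?_, ?_⟩
    · have h1 := h (Fin.castSucc i)
      rw [Fin.val_castSucc, fw_init a y (by omega)] at h1
      exact h1
    · have h1 := h (Fin.last n)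
      rw [Fin.val_last, fw_init a y le_rfl] at h1
      exact h1
  · rintro ⟨h1, h2⟩ i
    refine Fin.lastCases ?_ (fun j => ?_) i
    · rw [Fin.val_last, fw_init a y le_rfl]
      exact h2
    · rw [Fin.val_castSucc, fw_init a y (by omega)]
      exact h1 j

private theorem fw_nonneg (a : ℕ) : ∀ {n : ℕ} {y : Fin n → Fin (a + 1)} (_ : good a y = true),
    0 ≤ wtp a y n := by
  intro n
  induction n with
  | zero =>
    intro y _
    unfold wtp
    simp
  | succ n _ =>
    intro y h
    rw [fw_good] at h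
    rw [fw_last]
    have h1 : ((y (Fin.last n) : ℕ) : ℤ) ≤ a := by
      have := (y (Fin.last n)).2
      omega
    have := h.2
    omega

theorem good_snoc (a : ℕ) {n : ℕ} (y : Fin (n + 1) → Fin (a + 1)) :
    good a y = (good a (Fin.init y) && decide ((y (Fin.last n) : ℕ) ≤ tt a (Fin.init y))) := by
  have h1 := fw_good a y
  by_cases hg : good a (Fin.init y) = true
  · have h2 := fw_nonneg a hg
    have h3 : ((y (Fin.last n) : ℕ) ≤ tt a (Fin.init y)) ↔
        (((y (Fin.last n) : ℕ) : ℤ) ≤ wtp a (Fin.init y) n) := by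
      unfold tt
      omega
    rw [Bool.eq_iff_iff, Bool.and_eq_true, decide_eq_true_iff, h3]
    exact h1
  · rw [Bool.eq_iff_iff, Bool.and_eq_true]
    constructor
    · intro h
      exact absurd (h1.1 h).1 hg
    · intro h
      exact absurd h.1 hg

theorem tt_snoc (a : ℕ) {n : ℕ} {y : Fin (n + 1) → Fin (a + 1)} (h : good a y = true) :
    tt a y = tt a (Fin.init y) + a - 2 * (y (Fin.last n) : ℕ) := by
  have h1 := (fw_good a y).1 h
  have h2 := fw_nonneg a h1.1
  have h3 := fw_last a y
  have h4 : ((y (Fin.last n) : ℕ) : ℤ) ≤ a := by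
    have := (y (Fin.last n)).2
    omega
  unfold tt
  have := h1.2
  omega

theorem tt_eq (a : ℕ) {n : ℕ} {y : Fin n → Fin (a + 1)} (h : good a y = true) :
    (tt a y : ℤ) = wtp a y n := by
  have := fw_nonneg a h
  unfold tt
  omega

private theorem fw_wt {u : ℝˣ} {ι J : Type} [Fintype ι] [DecidableEq ι] [Fintype J]
    [DecidableEq J] {M : QM u ι} {G : J → Bool} {f : J → ι → ℝ} {t t' : J → ℕ}
    (h : IsCV M G f t) (ht : ∀ j, G j = true → t j = t' j) : IsCV M G f t' := by
  refine ⟨fun j => ?_, h.on, h.span⟩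
  by_cases hj : G j = true
  · rw [← ht j hj]
    exact h.hw j
  · have h1 := h.on j j
    rw [if_neg (fun h' => hj h'.2), QM.ip_self_eq_zero] at h1
    rw [h1]
    exact ⟨fun _ _ => rfl, Matrix.mulVec_zero _⟩

private theorem fw_ip {u : ℝˣ} {ι κ : Type} [Fintype ι] [DecidableEq ι] [Fintype κ]
    [DecidableEq κ] {M : QM u ι} {N : QM u κ} {e : ι ≃ κ} (hI : Iso M N e) (x y : κ → ℝ) :
    M.ip (fun i => x (e i)) (fun i => y (e i)) = N.ip x y := by
  unfold QM.ip
  rw [← Equiv.sum_comp e]
  exact Finset.sum_congr rfl fun i _ => by rw [hI.nm]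

private theorem fw_E {u : ℝˣ} {ι κ : Type} [Fintype ι] [DecidableEq ι] [Fintype κ]
    [DecidableEq κ] {M : QM u ι} {N : QM u κ} {e : ι ≃ κ} (hI : Iso M N e) (x : κ → ℝ) (i : ι) :
    (M.E *ᵥ fun i => x (e i)) i = (N.E *ᵥ x) (e i) := by
  rw [Matrix.mulVec, dotProduct, Matrix.mulVec, dotProduct, ← Equiv.sum_comp e]
  exact Finset.sum_congr rfl fun j _ => by rw [hI.E]

private theorem fw_iso {u : ℝˣ} {ι κ J J' : Type} [Fintype ι] [DecidableEq ι] [Fintype κ]
    [DecidableEq κ] [Fintype J] [DecidableEq J] [Fintype J'] [DecidableEq J'] {M : QM u ι}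
    {N : QM u κ} {e : ι ≃ κ} (hI : Iso M N e) (e' : J' ≃ J) {G : J → Bool} {g : J → κ → ℝ}
    {t : J → ℕ} (h : IsCV N G g t) :
    IsCV M (fun j => G (e' j)) (fun j x => g (e' j) (e x)) (fun j => t (e' j)) := by
  refine ⟨fun j => ⟨?_, ?_⟩, fun j k => ?_, ?_⟩
  · intro i hi
    exact (h.hw (e' j)).wt (e i) (by rw [hI.wt]; exact hi)
  · funext i
    rw [fw_E hI (g (e' j)) i, (h.hw (e' j)).E]
    rfl
  · rw [fw_ip hI, h.on]
    by_cases hjk : j = k
    · subst hjk
      simp
    · rw [if_neg (fun h' => hjk (e'.injective h'.1)), if_neg (fun h' => hjk h'.1)]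
  · intro s x hx
    have h1 : N.HW s (fun k => x (e.symm k)) := by
      refine ⟨fun k hk => ?_, ?_⟩
      · apply hx.wt
        rw [← hI.wt, Equiv.apply_symm_apply]
        exact hk
      · funext k
        have h2 := fw_E hI (fun k => x (e.symm k)) (e.symm k)
        simp only [Equiv.symm_apply_apply, Equiv.apply_symm_apply] at h2
        rw [← h2, hx.E]
        rfl
    have h3 := h.span s _ h1
    funext i
    have h4 := congrFun h3 (e i)
    simp only [Equiv.symm_apply_apply, Finset.sum_apply, Pi.smul_apply, smul_eq_mul] at h4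
    rw [h4, ← Equiv.sum_comp e']
    rw [Finset.sum_apply]
    refine Finset.sum_congr rfl fun j _ => ?_
    rw [Pi.smul_apply, smul_eq_mul]
    congr 1
    rw [← fw_ip hI]
    simp only [Equiv.symm_apply_apply]

private theorem fw_val {u : ℝˣ} {ι : Type} [Fintype ι] [DecidableEq ι] (M : QM u ι) (a t : ℕ)
    (g : ι → ℝ) (m : Fin (a + 1)) (hm : (m : ℕ) ≤ t) (x : ι) :
    fus u M a t g m (x, m) = (Real.sqrt (hvn u t a m))⁻¹ * g x := by
  unfold fus
  rw [if_pos hm, Pi.smul_apply, smul_eq_mul]
  congr 1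
  rw [Matrix.mulVec, dotProduct, Fintype.sum_prod_type]
  rw [Finset.sum_eq_single (0 : Fin (t + 1))]
  · rw [Finset.sum_eq_single m]
    · unfold kr hv
      simp only [Matrix.one_apply_eq, mul_one, Fin.val_zero, zero_add, if_true]
      rw [ph_col]
      unfold hc
      rw [mul_one]
    · intro k _ hk
      unfold kr
      simp only
      rw [Matrix.one_apply_ne (fun h => hk h.symm)]
      ring
    · intro h
      exact absurd (Finset.mem_univ _) h
  · intro i _ hi
    apply Finset.sum_eq_zero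
    intro k _
    by_cases hk : m = k
    · subst hk
      unfold hv
      simp only
      rw [if_neg, mul_zero]
      intro h
      apply hi
      apply Fin.ext
      rw [Fin.val_zero]
      omega
    · unfold kr
      simp only
      rw [Matrix.one_apply_ne hk]
      ring
  · intro h
    exact absurd (Finset.mem_univ _) h

private theorem fw_cv0 (a : ℕ) (v : ℝ) (hv : 1 < v) :
    IsCV (TP (VQ (ru v) (ru_gt hv) a) 0) (good a)
      ((fun _ _ => (1 : ℝ)) : (Fin 0 → Fin (a + 1)) → (Fin 0 → Fin (a + 1)) → ℝ) (tt a) := by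
  have e1 : ∀ y : Fin 0 → Fin (a + 1), tt a y = 0 := by
    intro y
    unfold tt wtp
    simp
  have e2 : ∀ y : Fin 0 → Fin (a + 1), good a y = true := by
    intro y
    unfold good
    simp
  have e3 : ∀ (x y : (Fin 0 → Fin (a + 1)) → ℝ) (z : Fin 0 → Fin (a + 1)),
      (TP (VQ (ru v) (ru_gt hv) a) 0).ip x y = x z * y z := by
    intro x y z
    unfold QM.ip
    rw [Fintype.sum_subsingleton _ z]
    show (1 : ℝ) * x z * y z = _
    rw [one_mul]
  refine ⟨fun y => ⟨?_, ?_⟩, fun j k => ?_, ?_⟩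
  · intro i hi
    exfalso
    apply hi
    rw [e1]
    rfl
  · show (0 : Matrix _ _ ℝ) *ᵥ _ = 0
    exact Matrix.zero_mulVec _
  · rw [e3 _ _ j, if_pos ⟨Subsingleton.elim _ _, e2 j⟩, mul_one]
  · intro s x _
    funext i
    rw [Fintype.sum_subsingleton _ i, e3 _ _ i]
    rw [Pi.smul_apply, smul_eq_mul, one_mul, mul_one]

theorem exists_fus (a n : ℕ) : ∃ f, Fus a n f := by
  induction n with
  | zero =>
    refine ⟨fun _ _ _ => 1, fun v hv => fw_cv0 a v hv, ?_⟩
    intro y _
    have : (fun v : ℝ => Real.sqrt (vn (ru v) a y) * (1 : ℝ)) = fun _ => 1 := by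
      funext v
      unfold vn
      simp
    rw [this]
    exact tendsto_const_nhds
  | succ n ih =>
    obtain ⟨f, hf⟩ := ih
    classical
    refine ⟨fun v y x => if hv : 1 < v then
      fus (ru v) (TP (VQ (ru v) (ru_gt hv) a) n) a (tt a (Fin.init y)) (f v (Fin.init y))
        (y (Fin.last n)) (Fin.init x, x (Fin.last n)) else 0, ?_, ?_⟩
    · intro v hv
      have h1 := fus_cv (ru_gt hv) (hf.cv v hv) a
      have h2 := fw_iso (TP_snoc (VQ (ru v) (ru_gt hv) a) n) (sne (Fin (a + 1)) n) h1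
      have h3 : (fun y : Fin (n + 1) → Fin (a + 1) =>
          (good a (sne (Fin (a + 1)) n y).1 &&
            decide (((sne (Fin (a + 1)) n y).2 : ℕ) ≤ tt a (sne (Fin (a + 1)) n y).1)))
          = good a := by
        funext y
        rw [good_snoc]
        rfl
      rw [h3] at h2
      have h4 := fw_wt h2 (t' := tt a) (by
        intro y hy
        rw [tt_snoc a hy]
        rfl)
      have h5 : (fun (y x : Fin (n + 1) → Fin (a + 1)) => if hv : 1 < v then
          fus (ru v) (TP (VQ (ru v) (ru_gt hv) a) n) a (tt a (Fin.init y)) (f v (Fin.init y))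
            (y (Fin.last n)) (Fin.init x, x (Fin.last n)) else 0)
          = fun y x => fus (ru v) (TP (VQ (ru v) (ru_gt hv) a) n) a
              (tt a (sne (Fin (a + 1)) n y).1) (f v (sne (Fin (a + 1)) n y).1)
              (sne (Fin (a + 1)) n y).2 (sne (Fin (a + 1)) n x) := by
        funext y x
        rw [dif_pos hv]
        rfl
      rw [h5]
      exact h4
    · intro y hy
      have hg := hy
      rw [good_snoc, Bool.and_eq_true, decide_eq_true_iff] at hg
      have hm : (y (Fin.last n) : ℕ) ≤ a := Nat.lt_succ_iff.1 (y (Fin.last n)).2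
      have l1 := hf.lim _ hg.1
      have l2 := (hvn_lim hg.2 hm).sqrt
      rw [Real.sqrt_one] at l2
      have l3 := l1.mul l2
      rw [mul_one] at l3
      apply l3.congr'
      filter_upwards [eventually_gt_atTop (1 : ℝ)] with v hv
      rw [dif_pos hv, fw_val _ _ _ _ _ hg.2]
      have e1 : vn (ru v) a y = vn (ru v) a (Fin.init y) * vN (ru v) a (y (Fin.last n)) := by
        unfold vn
        rw [Fin.prod_univ_castSucc]
        rfl
      have p1 : 0 < vN (ru v) a (y (Fin.last n)) := vN_pos (ru_gt hv) hm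
      have p2 : 0 ≤ vn (ru v) a (Fin.init y) :=
        Finset.prod_nonneg fun i _ =>
          (vN_pos (ru_gt hv) (Nat.lt_succ_iff.1 (Fin.init y i).2)).le
      rw [e1, Real.sqrt_mul p2, Real.sqrt_div p1.le]
      ring

theorem exists_cv {u : ℝˣ} (hu : 1 < (u : ℝ)) (a n : ℕ) :
    ∃ f : (Fin n → Fin (a + 1)) → (Fin n → Fin (a + 1)) → ℝ,
      IsCV (TP (VQ u hu a) n) (good a) f (tt a) := by
  obtain ⟨f, hf⟩ := exists_fus a n
  have h1 : ru (u : ℝ) = u := Units.ext (ru_val hu)
  have key : ∀ w : ℝˣ, w = u → ∀ hw : 1 < (w : ℝ),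
      IsCV (TP (VQ w hw a) n) (good a) (f (u : ℝ)) (tt a) →
      IsCV (TP (VQ u hu a) n) (good a) (f (u : ℝ)) (tt a) := by
    rintro w rfl hw h
    exact h
  exact ⟨f (u : ℝ), key _ h1 (ru_gt hu) (hf.cv (u : ℝ) hu)⟩

end Pool.Agent.KS
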