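import Pool.Agent.Work.MP_ab49bb_gt.Sat.Em

/-!
# Lm (M): calculus of limits of matrices

`Lim a X D`: the normalised entries `√(vn x) X v x y / √(vn y)` tend to `[x = y] D x`. For `v > 1` all `vn (ru v) a x > 0` (`vN_pos`, `Finset.prod_pos`; `Filter.eventually_gt_atTop 1`).
`Lim.mul`: `√(vn x) (X Y) x z / √(vn z) = ∑_y (√(vn x) X x y / √(vn y)) (√(vn y) Y y z / √(vn z))` (eventually), `tendsto_finsetSum`, `∑_y [x=y] D x [y=z] E y = [x=z] D x E x`.
`Lim.smul`: a scalar family with a limit. `Lim.one`: entries `[x = y]`. `Lim.congr`: `Tendsto.congr'`.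
`Lim.emb`: `i + r ≤ n`; for `x, y` equal outside the block: `vn x = vn (x inside) * ∏_(outside) vN (x l)` and the same for `y`, so `√(vn x) / √(vn y) = √(vn (x in)) / √(vn (y in))` and the entry is the entry of `X v` at `(x in, y in)`; moreover `x = y ↔ x in = y in`. If `x, y`
are not equal outside, the entry is `0` and `x ≠ y`. [The product splits by `Finset.prod_filter_mul_prod_filter_not` and a bijection `Fin r ≃ {l // i ≤ l < i + r}`.]
`Lim.bound`: a finite number of convergent functions is bounded: `∃ C, ∀ᶠ v, ∀ x y, |√(vn x) X v x y / √(vn y)| ≤ C`.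
-/

set_option autoImplicit false

open Matrix Filter Topology

namespace Pool.Agent.KS

open Pool.Agent.KT

variable {a n : ℕ} {X Y : ℝ → Matrix (Fin n → Fin (a + 1)) (Fin n → Fin (a + 1)) ℝ}
  {D E : (Fin n → Fin (a + 1)) → ℝ}

private theorem lm_ev : ∀ᶠ v : ℝ in atTop, 1 < v := eventually_gt_atTop 1

private theorem lm_pos {v : ℝ} (hv : 1 < v) {N : ℕ} (x : Fin N → Fin (a + 1)) :
    0 < vn (ru v) a x :=
  Finset.prod_pos fun i _ => vN_pos (ru_gt hv) (Nat.lt_succ_iff.mp (x i).2)

private theorem lm_sq {v : ℝ} (hv : 1 < v) {N : ℕ} (x : Fin N → Fin (a + 1)) :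
    0 < Real.sqrt (vn (ru v) a x) := Real.sqrt_pos.2 (lm_pos hv x)

theorem Lim.one : Lim (n := n) a (fun _ => 1) (fun _ => 1) := by
  intro x y
  refine (tendsto_const_nhds (x := (if x = y then (1 : ℝ) else 0))).congr' ?_
  filter_upwards [lm_ev] with v hv
  by_cases h : x = y
  · subst h
    rw [if_pos rfl, Matrix.one_apply_eq, mul_one, div_self (lm_sq hv x).ne']
  · rw [if_neg h, Matrix.one_apply_ne h, mul_zero, zero_div]

theorem Lim.congr (hX : Lim a X D) (h : ∀ v, 1 < v → X v = Y v) : Lim a Y D := by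
  intro x y
  refine (hX x y).congr' ?_
  filter_upwards [lm_ev] with v hv
  rw [h v hv]

theorem Lim.mul (hX : Lim a X D) (hY : Lim a Y E) :
    Lim a (fun v => X v * Y v) (fun x => D x * E x) := by
  intro x z
  have h1 : Tendsto (fun v => ∑ y, (Real.sqrt (vn (ru v) a x) * X v x y / Real.sqrt (vn (ru v) a y)) *
      (Real.sqrt (vn (ru v) a y) * Y v y z / Real.sqrt (vn (ru v) a z))) atTop
      (𝓝 (∑ y, (if x = y then D x else 0) * (if y = z then E y else 0))) :=
    tendsto_finsetSum _ fun y _ => (hX x y).mul (hY y z)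
  have h2 : ∑ y, (if x = y then D x else 0) * (if y = z then E y else 0) =
      if x = z then D x * E x else 0 := by
    rw [Finset.sum_eq_single x]
    · rw [if_pos rfl]
      split_ifs
      · rfl
      · rw [mul_zero]
    · intro y _ hy
      rw [if_neg (Ne.symm hy), zero_mul]
    · intro h
      exact absurd (Finset.mem_univ x) h
  rw [h2] at h1
  refine h1.congr' ?_
  filter_upwards [lm_ev] with v hv
  rw [Matrix.mul_apply, Finset.mul_sum, Finset.sum_div]
  refine Finset.sum_congr rfl fun y _ => ?_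
  have hy := (lm_sq hv y).ne'
  field_simp

theorem Lim.smul (hX : Lim a X D) {c : ℝ → ℝ} {l : ℝ} (hc : Tendsto c atTop (𝓝 l)) :
    Lim a (fun v => c v • X v) (fun x => l * D x) := by
  intro x y
  have h1 := hc.mul (hX x y)
  have h2 : l * (if x = y then D x else 0) = if x = y then l * D x else 0 := by
    split_ifs
    · rfl
    · rw [mul_zero]
  rw [h2] at h1
  refine h1.congr fun v => ?_
  have h3 : (c v • X v) x y = c v * X v x y := by rw [Matrix.smul_apply, smul_eq_mul]
  beta_reduce
  rw [h3]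
  ring

/-- the product of the norms splits in the block and the rest -/
private theorem lm_split (u : ℝˣ) {N i : ℕ} (h : i + n ≤ N) (x : Fin N → Fin (a + 1)) :
    vn u a x = vn u a (fun k : Fin n => x ⟨i + k, by omega⟩) *
      ∏ l ∈ Finset.univ.filter (fun l : Fin N => (l : ℕ) < i ∨ i + n ≤ (l : ℕ)), vN u a (x l) := by
  classical
  unfold vn
  rw [← Finset.prod_filter_mul_prod_filter_not Finset.univ
    (fun l : Fin N => (l : ℕ) < i ∨ i + n ≤ (l : ℕ)), mul_comm]
  congr 1
  refine (Finset.prod_bij (fun (k : Fin n) _ => (⟨i + k, by omega⟩ : Fin N)) ?_ ?_ ?_ ?_).symm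
  · intro k _
    rw [Finset.mem_filter]
    refine ⟨Finset.mem_univ _, ?_⟩
    simp only
    omega
  · intro k _ k' _ hk
    have := congrArg Fin.val hk
    simp only at this
    exact Fin.ext (by omega)
  · intro l hl
    rw [Finset.mem_filter] at hl
    refine ⟨⟨(l : ℕ) - i, by omega⟩, Finset.mem_univ _, ?_⟩
    exact Fin.ext (by simp only; omega)
  · intro k _
    rfl

theorem Lim.emb (hX : Lim a X D) {N i : ℕ} (h : i + n ≤ N) :
    Lim (n := N) a (fun v => KS.emb N i n (X v)) (fun y => D fun k : Fin n => y ⟨i + k, by omega⟩) := by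
  intro x y
  by_cases hc : ∀ l : Fin N, (l : ℕ) < i ∨ i + n ≤ l → x l = y l
  · have hxy : (x = y) ↔ (fun k : Fin n => x ⟨i + k, by omega⟩) = fun k : Fin n => y ⟨i + k, by omega⟩ := by
      constructor
      · intro h1
        rw [h1]
      · intro h1
        funext l
        by_cases hl : (l : ℕ) < i ∨ i + n ≤ (l : ℕ)
        · exact hc l hl
        · have h2 := congrFun h1 ⟨(l : ℕ) - i, by omega⟩
          have h3 : (⟨i + ((l : ℕ) - i), by omega⟩ : Fin N) = l := Fin.ext (by simp only; omega)
          simp only [h3] at h2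
          exact h2
    have h1 := hX (fun k : Fin n => x ⟨i + k, by omega⟩) (fun k : Fin n => y ⟨i + k, by omega⟩)
    have h2 : (if (fun k : Fin n => x ⟨i + k, by omega⟩) = (fun k : Fin n => y ⟨i + k, by omega⟩)
        then D (fun k : Fin n => x ⟨i + k, by omega⟩) else 0) =
        if x = y then D (fun k : Fin n => x ⟨i + k, by omega⟩) else 0 := by
      by_cases h3 : x = y
      · rw [if_pos h3, if_pos (hxy.1 h3)]
      · rw [if_neg h3, if_neg fun h4 => h3 (hxy.2 h4)]
    rw [h2] at h1
    refine h1.congr' ?_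
    filter_upwards [lm_ev] with v hv
    have h4 : KS.emb N i n (X v) x y =
        X v (fun k : Fin n => x ⟨i + k, by omega⟩) (fun k : Fin n => y ⟨i + k, by omega⟩) := by
      unfold KS.emb
      rw [dif_pos h]
      exact if_pos hc
    set P := ∏ l ∈ Finset.univ.filter (fun l : Fin N => (l : ℕ) < i ∨ i + n ≤ (l : ℕ)),
      vN (ru v) a (x l) with hP
    have hP0 : 0 < P := Finset.prod_pos fun l _ => vN_pos (ru_gt hv) (Nat.lt_succ_iff.mp (x l).2)
    have hPy : ∏ l ∈ Finset.univ.filter (fun l : Fin N => (l : ℕ) < i ∨ i + n ≤ (l : ℕ)),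
        vN (ru v) a (y l) = P := by
      refine Finset.prod_congr rfl fun l hl => ?_
      rw [Finset.mem_filter] at hl
      rw [hc l hl.2]
    rw [h4, lm_split (ru v) h x, lm_split (ru v) h y, hPy, ← hP,
      Real.sqrt_mul (lm_pos hv _).le, Real.sqrt_mul (lm_pos hv _).le]
    have hs : Real.sqrt P ≠ 0 := (Real.sqrt_pos.2 hP0).ne'
    have hy := (lm_sq hv (fun k : Fin n => y ⟨i + k, by omega⟩)).ne'
    field_simp
  · have hne : x ≠ y := by
      intro h1
      exact hc fun l _ => by rw [h1]
    rw [if_neg hne]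
    refine tendsto_const_nhds.congr fun v => ?_
    have h4 : KS.emb N i n (X v) x y = 0 := by
      unfold KS.emb
      rw [dif_pos h]
      exact if_neg hc
    beta_reduce
    rw [h4, mul_zero, zero_div]

theorem Lim.bound (hX : Lim a X D) :
    ∃ C : ℝ, ∀ᶠ v in atTop, ∀ x y,
      |Real.sqrt (vn (ru v) a x) * X v x y / Real.sqrt (vn (ru v) a y)| ≤ C := by
  refine ⟨∑ x, ∑ y, (|if x = y then D x else 0| + 1), ?_⟩
  have h1 : ∀ x y, ∀ᶠ v in atTop,
      |Real.sqrt (vn (ru v) a x) * X v x y / Real.sqrt (vn (ru v) a y)| ≤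
        |if x = y then D x else 0| + 1 := by
    intro x y
    have h2 := (hX x y).abs
    have h3 := h2.eventually (gt_mem_nhds (lt_add_one _))
    filter_upwards [h3] with v hv
    exact hv.le
  have h2 := eventually_all.2 fun x => eventually_all.2 (h1 x)
  filter_upwards [h2] with v hv x y
  refine le_trans (hv x y) ?_
  have h3 : |if x = y then D x else 0| + 1 ≤ ∑ y, (|if x = y then D x else 0| + 1) :=
    Finset.single_le_sum (f := fun y => |if x = y then D x else 0| + 1)
      (fun y _ => by positivity) (Finset.mem_univ y)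
  refine le_trans h3 ?_
  exact Finset.single_le_sum (f := fun x => ∑ y, (|if x = y then D x else 0| + 1))
    (fun x _ => Finset.sum_nonneg fun y _ => by positivity) (Finset.mem_univ x)

end Pool.Agent.KS
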