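import Pool.Agent.Work.MP_ab49bb_gt.Sat.Rc

/-!
# RV (M): the braiding of `V_a ⊗ V_a` is `S`

`S u a y x` (row `y`, column `x = (i, j)`) is `rc i j l` with `l = i - y.2` if `y.1 + y.2 = i + j` and `y.2 ≤ i`, otherwise `0`;
`rc i j l = v^((a-2i+2l)(a-2j-2l) + l(l-1)) [j+l choose l] ∏_(s<l) {a-i+s+1}`.
On `V_a`: `(E^l) p i = [p + l = i] ∏_(s<l) [a-i+s+1]` (`E e_i = [a-i+1] e_(i-1)`: in `vE`: the entry `(p, p+1)` is `[a-p]`) and
`(F^l) p j = [p = j + l] ∏_(s<l) [j+s+1]` (`vF`: the entry `(j+1, j)` is `[j+1]`): induction on `l`. So in `RM (VQ a) (VQ a) y x` only the term `l = i - y.2` survives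
(it requires `y.2 ≤ i` and `y.1 = j + l`; note `l ≤ a`), `M.wt y.2 = a - 2(i-l)`, `N.wt y.1 = a - 2(j+l)`, and
`rco l ∏_(s<l) [a-i+s+1] ∏_(s<l) [j+s+1] = v^(l(l-1)) ∏_(s<l) {a-i+s+1} ∏_(s<l) [j+s+1] / [l]!` and `∏_(s<l) [j+s+1] / [l]! = [j+l choose l]`
(by induction with `gb_succ_mul`/`gb_step`/`gb_fact` of KT/Gb, or `bf_prod`).
-/

set_option autoImplicit false

open Matrix Filter Topology

namespace Pool.Agent.KS

open Pool.Agent.KT

variable {u : ℝˣ}

private theorem rv_E (a l : ℕ) (p i : Fin (a + 1)) : ((vE u a) ^ l) p i =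
    if (p : ℕ) + l = i then ∏ s ∈ Finset.range l, qn u ((a : ℤ) - i + (s + 1)) else 0 := by
  induction l generalizing p with
  | zero =>
    rw [pow_zero, Matrix.one_apply, add_zero, Finset.range_zero, Finset.prod_empty]
    by_cases h : p = i
    · rw [if_pos h, if_pos (by rw [h])]
    · rw [if_neg h, if_neg (fun h' => h (Fin.ext h'))]
  | succ l ih =>
    rw [pow_succ', Matrix.mul_apply]
    by_cases hp : (p : ℕ) + 1 < a + 1
    · rw [Finset.sum_eq_single (⟨(p : ℕ) + 1, hp⟩ : Fin (a + 1))]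
      · rw [ih]
        unfold vE
        rw [if_pos rfl]
        by_cases h : (p : ℕ) + (l + 1) = i
        · rw [if_pos h, if_pos (by simp only; omega), Finset.prod_range_succ]
          have e1 : (a : ℤ) - (p : ℕ) = (a : ℤ) - (i : ℕ) + ((l : ℕ) + 1) := by
            rw [← h]
            push_cast
            ring
          rw [e1, mul_comm]
        · rw [if_neg h, if_neg (by simp only; omega), mul_zero]
      · intro j _ hj
        unfold vE
        rw [if_neg, zero_mul]
        intro h
        exact hj (Fin.ext h.symm)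
      · intro h
        exact absurd (Finset.mem_univ _) h
    · have h1 : ¬ ((p : ℕ) + (l + 1) = i) := by
        have := i.isLt
        omega
      rw [if_neg h1]
      apply Finset.sum_eq_zero
      intro j _
      unfold vE
      rw [if_neg, zero_mul]
      have := j.isLt
      omega

private theorem rv_F (a l : ℕ) (p j : Fin (a + 1)) : ((vF u a) ^ l) p j =
    if (p : ℕ) = j + l then ∏ s ∈ Finset.range l, qn u ((j : ℕ) + ((s : ℤ) + 1)) else 0 := by
  induction l generalizing p with
  | zero =>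
    rw [pow_zero, Matrix.one_apply, add_zero, Finset.range_zero, Finset.prod_empty]
    by_cases h : p = j
    · rw [if_pos h, if_pos (by rw [h])]
    · rw [if_neg h, if_neg (fun h' => h (Fin.ext h'))]
  | succ l ih =>
    rw [pow_succ', Matrix.mul_apply]
    by_cases hp : 0 < (p : ℕ)
    · have hp' : (p : ℕ) - 1 < a + 1 := by
        have := p.isLt
        omega
      rw [Finset.sum_eq_single (⟨(p : ℕ) - 1, hp'⟩ : Fin (a + 1))]
      · rw [ih]
        unfold vF
        rw [if_pos (by simp only; omega)]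
        by_cases h : (p : ℕ) = j + (l + 1)
        · rw [if_pos h, if_pos (by simp only; omega), Finset.prod_range_succ]
          have e1 : (((p : ℕ) - 1 : ℕ) : ℤ) + 1 = (j : ℕ) + ((l : ℤ) + 1) := by
            have e0 : (p : ℕ) - 1 = j + l := by omega
            rw [e0]
            push_cast
            ring
          rw [e1, mul_comm]
        · rw [if_neg h, if_neg (by simp only; omega), mul_zero]
      · intro k _ hk
        unfold vF
        rw [if_neg, zero_mul]
        intro h
        apply hk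
        apply Fin.ext
        simp only
        omega
      · intro h
        exact absurd (Finset.mem_univ _) h
    · have h1 : ¬ ((p : ℕ) = j + (l + 1)) := by omega
      rw [if_neg h1]
      apply Finset.sum_eq_zero
      intro k _
      unfold vF
      rw [if_neg, zero_mul]
      omega

private theorem rv_prod (hu : 1 < (u : ℝ)) (w : ℤ) (l : ℕ) :
    ∏ s ∈ Finset.range l, br u (w + (s + 1)) =
      (∏ s ∈ Finset.range l, qn u (w + (s + 1))) * br u 1 ^ l := by
  have h1 : br u 1 ≠ 0 := (br_pos hu one_pos).ne'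
  have h2 : br u 1 ^ l = ∏ _s ∈ Finset.range l, br u 1 := by
    rw [Finset.prod_const, Finset.card_range]
  rw [h2, ← Finset.prod_mul_distrib]
  apply Finset.prod_congr rfl
  intro s _
  rw [qn, div_mul_cancel₀ _ h1]

private theorem rv_gb (hu : 1 < (u : ℝ)) (j l : ℕ) :
    gb u (j + l) l * qf u l = ∏ s ∈ Finset.range l, qn u ((j : ℤ) + (s + 1)) := by
  have h1 : br u 1 ≠ 0 := (br_pos hu one_pos).ne'
  have h2 : br u 1 ^ l ≠ 0 := pow_ne_zero _ h1
  have h3 : bf u j ≠ 0 := (bf_pos hu j).ne'
  have h4 := gb_fact u (show l ≤ j + l by omega)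
  rw [Nat.add_sub_cancel, ← bf_prod u j l, rv_prod hu] at h4
  have h5 : bf u l = qf u l * br u 1 ^ l := by
    have h6 := rv_prod hu 0 l
    simp only [zero_add] at h6
    exact h6
  rw [h5] at h4
  apply mul_right_cancel₀ (mul_ne_zero h3 h2)
  linear_combination h4

theorem RM_VQ (hu : 1 < (u : ℝ)) (a : ℕ) : RM (VQ u hu a) (VQ u hu a) = S u a := by
  ext y x
  obtain ⟨p, q⟩ := y
  obtain ⟨i, j⟩ := x
  have hRM : RM (VQ u hu a) (VQ u hu a) (p, q) (i, j) =
      pw u (((a : ℤ) - 2 * (q : ℕ)) * ((a : ℤ) - 2 * (p : ℕ))) *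
        ∑ l ∈ Finset.range (Fintype.card (Fin (a + 1)) + 1),
          rco u l * ((vE u a) ^ l) q i * ((vF u a) ^ l) p j := rfl
  rw [hRM, Fintype.card_fin]
  have hS : S u a (p, q) (i, j) = if (p : ℕ) + q = i + j ∧ (q : ℕ) ≤ i then
      rc u a i j (i - q) else 0 := rfl
  rw [hS]
  by_cases h : (p : ℕ) + q = i + j ∧ (q : ℕ) ≤ i
  · rw [if_pos h]
    obtain ⟨h1, h2⟩ := h
    obtain ⟨l, hl⟩ : ∃ l, (i : ℕ) = q + l := ⟨i - q, by omega⟩
    have hp : (p : ℕ) = j + l := by omega
    have hlq : (i : ℕ) - q = l := by omega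
    rw [hlq, Finset.sum_eq_single l]
    · rw [rv_E, rv_F, if_pos hl.symm, if_pos hp]
      have hq : qf u l ≠ 0 := (qf_pos hu l).ne'
      have hgb := rv_gb hu (j : ℕ) l
      have hpr := rv_prod hu ((a : ℤ) - (i : ℕ)) l
      have e1 : pw u (((a : ℤ) - 2 * (q : ℕ)) * ((a : ℤ) - 2 * (p : ℕ))) *
          pw u ((l : ℤ) * (l - 1)) = pw u (((a : ℤ) - 2 * (i : ℕ) + 2 * l) *
            (a - 2 * (j : ℕ) - 2 * l) + l * (l - 1)) := by
        rw [← pw_add]
        congr 1
        rw [hl, hp]
        push_cast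
        ring
      unfold rc rco
      rw [← e1, hpr, ← hgb]
      field_simp
    · intro l' _ hl'
      rw [rv_E, if_neg (by omega)]
      ring
    · intro hl'
      exfalso
      apply hl'
      rw [Finset.mem_range]
      have := i.isLt
      omega
  · rw [if_neg h]
    rw [Finset.sum_eq_zero, mul_zero]
    intro l _
    rw [rv_E, rv_F]
    by_cases h1 : (q : ℕ) + l = i
    · rw [if_neg (c := (p : ℕ) = j + l) (by omega), mul_zero]
    · rw [if_neg h1]
      ring

end Pool.Agent.KS
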