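import Pool.Agent.Work.MP_ab49bb_gt.Sat.Lsp
import Pool.Agent.Work.MP_ab49bb_gt.Sat.Lm
import Pool.Agent.Work.MP_ab49bb_gt.Sat.Ew
import Pool.Agent.Work.MP_ab49bb_gt.Sat.Fu
import Pool.Agent.Work.MP_ab49bb_gt.Sat.Cw
import Pool.Agent.Work.MP_ab49bb_gt.Sat.RV

/-!
# Ln (M): the limit of a letter `σ_k⁻¹`

First `n = 2`, `k = 0`. Take `f` from `exists_fus a 2`. A good word is `y = (0, m)`, `m ≤ a`, with `tt = 2a - 2m`. `f v y` is a highest weight vector of `TP V 2 ≅ V ⊗ V` (`TP_cons` and `TP V 1 ≅ V`, or `TP_snoc`) of weight `2a - 2m`; there `at2 2 (S u a) 0` is `S u a`, and by `hw_uniq`,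
`S_um` of KT/Hv it acts on it by `lam u a m = (-1)^m v^(a² - 4am + 2m² - 2m)`, so the inverse acts by `lam⁻¹` (`isUnit_at2`, `isUnit_S` of KT/Det). `cv_spec` (the matrix is in `Com`: `com_at2`, `com_S`, `Com.inv`, `Com.smul`) and `lim_spec` with
`lam v y = v^(-a(a+2)) lam⁻¹ = (-1)^m v^(-2(a-m)² - 2(a-m))`: exponent `-(a²-4am+2m²-2m) - a² - 2a`; it is `(-1)^a` for `m = a` (i.e. `tt = 0`) and tends to `0` for `m < a`. For the words which are not good `f v y = 0` and any value of `lam v y` is allowed (take the same formula with `m = y 1`).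
So for `n = 2` the limit is `[y 0 = 0 ∧ y 1 = a] (-1)^a` (a word of length 2 is good iff `y 0 = 0`). General case: `Lim.emb` with `emb_at2` (`at2 n X k = emb n k 2 (at2 2 X 0)`), `emb_inv`, and `emb` of a scalar multiple (use `Lim.smul` after `Lim.emb`, i.e. apply `Lim.emb` to the
family `c v • Z v` and rewrite: only the entries matter: `emb n k 2 (c • Z)` is `c • emb n k 2 Z` when `k + 2 ≤ n`).
-/

set_option autoImplicit false

open Matrix Filter Topology

namespace Pool.Agent.KS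

open Pool.Agent.KT

private theorem emb_smul' {ι : Type} [Fintype ι] [DecidableEq ι] {n i r : ℕ} (h : i + r ≤ n)
    (c : ℝ) (X : Matrix (Fin r → ι) (Fin r → ι) ℝ) : emb n i r (c • X) = c • emb n i r X := by
  ext x y
  rw [Matrix.smul_apply, emb, emb, dif_pos h, dif_pos h]
  split_ifs
  · rw [Matrix.smul_apply]
  · rw [smul_zero]

private theorem tp2 {u : ℝˣ} {ι : Type} [Fintype ι] [DecidableEq ι] (M : QM u ι) :
    Iso (TP M 2) (tn M M) (finTwoArrowEquiv ι) := by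
  have hwt1 : ∀ z : Fin 1 → ι, (TP M 1).wt z = M.wt (z 0) := by
    intro z
    show M.wt (z 0) + 0 = M.wt (z 0)
    rw [add_zero]
  have ht0 : ∀ z w : Fin 1 → ι, (Fin.tail z : Fin 0 → ι) = Fin.tail w := fun z w =>
    Subsingleton.elim _ _
  have hE1 : ∀ z w : Fin 1 → ι, (TP M 1).E z w = M.E (z 0) (w 0) := by
    intro z w
    show tE u M.E (0 : Matrix (Fin 0 → ι) (Fin 0 → ι) ℝ) (fun _ => 0) (z 0, Fin.tail z)
      (w 0, Fin.tail w) = _
    unfold tE
    simp only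
    rw [if_pos (ht0 z w), mul_zero, pw_zero, mul_one]
    simp
  have hF1 : ∀ z w : Fin 1 → ι, (TP M 1).F z w = M.F (z 0) (w 0) := by
    intro z w
    show tF u M.F (0 : Matrix (Fin 0 → ι) (Fin 0 → ι) ℝ) M.wt (z 0, Fin.tail z)
      (w 0, Fin.tail w) = _
    unfold tF
    simp only
    rw [if_pos (ht0 z w)]
    simp
  have htl : ∀ z w : Fin 2 → ι, (Fin.tail z : Fin 1 → ι) = Fin.tail w ↔ z 1 = w 1 := by
    intro z w
    constructor
    · intro h
      exact congrFun h 0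
    · intro h
      funext i
      rw [Subsingleton.elim i 0]
      exact h
  refine ⟨fun z => ?_, fun z => ?_, fun z w => ?_, fun z w => ?_⟩
  · show M.wt (z 0) + M.wt (z 1) = M.wt (z 0) + (TP M 1).wt (Fin.tail z)
    rw [hwt1]
    rfl
  · show M.nm (z 0) * M.nm (z 1) = M.nm (z 0) * (M.nm (z 1) * 1)
    rw [mul_one]
  · show tE u M.E M.E M.wt (z 0, z 1) (w 0, w 1) =
      tE u M.E (TP M 1).E (TP M 1).wt (z 0, Fin.tail z) (w 0, Fin.tail w)
    unfold tE
    simp only [htl, hE1, hwt1]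
    rfl
  · show tF u M.F M.F M.wt (z 0, z 1) (w 0, w 1) =
      tF u M.F (TP M 1).F M.wt (z 0, Fin.tail z) (w 0, Fin.tail w)
    unfold tF
    simp only [htl, hF1]
    rfl

private theorem iso_hw {u : ℝˣ} {ι κ : Type} [Fintype ι] [DecidableEq ι] [Fintype κ]
    [DecidableEq κ] {M : QM u ι} {N : QM u κ} {e : ι ≃ κ} (h : Iso M N e) {t : ℤ} {x : ι → ℝ}
    (hx : M.HW t x) : N.HW t (x ∘ e.symm) := by
  refine ⟨fun i hi => ?_, ?_⟩
  · refine hx.wt _ ?_
    rw [← h.wt, Equiv.apply_symm_apply]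
    exact hi
  · funext i
    have h1 := congrFun hx.E (e.symm i)
    rw [Matrix.mulVec, dotProduct] at h1 ⊢
    rw [Pi.zero_apply] at h1 ⊢
    rw [← h1, ← Equiv.sum_comp e]
    refine Finset.sum_congr rfl fun j _ => ?_
    rw [Function.comp_apply, Equiv.symm_apply_apply, ← h.E, Equiv.apply_symm_apply]

private theorem at2_two {u : ℝˣ} (a : ℕ) (z w : Fin 2 → Fin (a + 1)) :
    at2 2 (S u a) 0 z w = S u a (z 0, z 1) (w 0, w 1) := by
  rw [at2, dif_pos (by omega : 0 + 1 < 2)]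
  have h : ∀ i : Fin 2, (i : ℕ) ≠ 0 → (i : ℕ) ≠ 0 + 1 → z i = w i := by
    intro i h0 h1
    have := i.2
    omega
  rw [if_pos h]
  rfl

private theorem eig {u : ℝˣ} (hu : 1 < (u : ℝ)) {a m : ℕ} (hm : m ≤ a)
    {x : (Fin 2 → Fin (a + 1)) → ℝ} (hx : (TP (VQ u hu a) 2).HW (2 * (a : ℤ) - 2 * m) x) :
    at2 2 (S u a) 0 *ᵥ x = lam u a m • x := by
  have h1 := iso_hw (tp2 (VQ u hu a)) hx
  have h2 : (VVQ u hu a).HW (2 * (a : ℤ) - 2 * m) (x ∘ (finTwoArrowEquiv (Fin (a + 1))).symm) := h1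
  have h3 := hw_uniq hu (Nat.lt_succ_of_le hm) h2
  have h4 : S u a *ᵥ (x ∘ (finTwoArrowEquiv (Fin (a + 1))).symm) =
      lam u a m • (x ∘ (finTwoArrowEquiv (Fin (a + 1))).symm) := by
    refine (congrArg (fun y => S u a *ᵥ y) h3).trans ?_
    refine Eq.trans ?_ (congrArg (fun y => lam u a m • y) h3).symm
    rw [Matrix.mulVec_smul, S_um hu hm, smul_comm]
  funext z
  have h5 := congrFun h4 (z 0, z 1)
  rw [Pi.smul_apply, Function.comp_apply] at h5
  have h6 : (finTwoArrowEquiv (Fin (a + 1))).symm (z 0, z 1) = z :=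
    (finTwoArrowEquiv (Fin (a + 1))).symm_apply_apply z
  rw [h6] at h5
  rw [Pi.smul_apply, ← h5, Matrix.mulVec, Matrix.mulVec, dotProduct, dotProduct,
    ← Equiv.sum_comp (finTwoArrowEquiv (Fin (a + 1)))]
  refine Finset.sum_congr rfl fun w _ => ?_
  rw [at2_two, Function.comp_apply, Equiv.symm_apply_apply]
  rfl

private theorem eig_inv {u : ℝˣ} (hu : 1 < (u : ℝ)) {a m : ℕ} (hm : m ≤ a)
    {x : (Fin 2 → Fin (a + 1)) → ℝ} (hx : (TP (VQ u hu a) 2).HW (2 * (a : ℤ) - 2 * m) x) :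
    (at2 2 (S u a) 0)⁻¹ *ᵥ x = (lam u a m)⁻¹ • x := by
  have h1 := eig hu hm hx
  have h2 : IsUnit (at2 2 (S u a) 0).det :=
    (Matrix.isUnit_iff_isUnit_det _).1 (isUnit_at2 2 0 (isUnit_S u a))
  have hl := lam_ne hu a m
  have h3 : x = (lam u a m)⁻¹ • (at2 2 (S u a) 0 *ᵥ x) := by
    rw [h1, smul_smul, inv_mul_cancel₀ hl, one_smul]
  calc (at2 2 (S u a) 0)⁻¹ *ᵥ x
      = (at2 2 (S u a) 0)⁻¹ *ᵥ ((lam u a m)⁻¹ • (at2 2 (S u a) 0 *ᵥ x)) := by rw [← h3]
    _ = (lam u a m)⁻¹ • x := by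
        rw [Matrix.mulVec_smul, Matrix.mulVec_mulVec, Matrix.nonsing_inv_mul _ h2,
          Matrix.one_mulVec]

private theorem wtp_two (a : ℕ) (y : Fin 2 → Fin (a + 1)) (k : ℕ) :
    wtp a y k = (if 0 < k then (a : ℤ) - 2 * (y 0 : ℕ) else 0) +
      if 1 < k then (a : ℤ) - 2 * (y 1 : ℕ) else 0 := by
  rw [wtp, Fin.sum_univ_two]
  rfl

private theorem good_two {a : ℕ} {y : Fin 2 → Fin (a + 1)} :
    good a y = true ↔ y 0 = 0 := by
  rw [good, decide_eq_true_iff]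
  constructor
  · intro h
    have h1 := h 0
    rw [wtp_two] at h1
    simp only [Fin.val_zero, lt_self_iff_false, if_false, not_lt_zero', add_zero] at h1
    apply Fin.ext
    have h2 : ((y 0 : ℕ) : ℤ) ≤ 0 := by simpa using h1
    have h3 : (y 0 : ℕ) = 0 := by omega
    rw [h3]
    rfl
  · intro h i
    rw [wtp_two]
    have h0 : (y 0 : ℕ) = 0 := by rw [h]; rfl
    have hi : i = 0 ∨ i = 1 := by
      have := i.2
      rcases Nat.lt_or_ge (i : ℕ) 1 with h1 | h1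
      · left
        apply Fin.ext
        show (i : ℕ) = 0
        omega
      · right
        apply Fin.ext
        show (i : ℕ) = 1
        omega
    rcases hi with rfl | rfl
    · rw [h0]
      simp
    · have h1 := (y 1).2
      rw [h0]
      simp
      omega

private theorem tt_two {a : ℕ} {y : Fin 2 → Fin (a + 1)} (h : y 0 = 0) :
    tt a y = 2 * a - 2 * (y 1 : ℕ) := by
  have h0 : (y 0 : ℕ) = 0 := by rw [h]; rfl
  rw [tt, wtp_two, h0]
  simp
  omega

private theorem lim_two (a : ℕ) :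
    Lim (n := 2) a (fun v => pw (ru v) (-((a : ℤ) * (a + 2))) • (at2 2 (S (ru v) a) 0)⁻¹)
      fun y => if y 0 = 0 ∧ y 1 = Fin.last a then (-1) ^ a else 0 := by
  obtain ⟨f, hf⟩ := exists_fus a 2
  have hexp : ∀ m : ℕ, m ≤ a → ∀ v : ℝ, 1 < v →
      pw (ru v) (-((a : ℤ) * (a + 2))) * (lam (ru v) a m)⁻¹ =
        (-1) ^ m * v ^ (-(2 * ((a : ℤ) - m) ^ 2 + 2 * ((a : ℤ) - m))) := by
    intro m _ v hv
    have hv0 : v ≠ 0 := by linarith
    rw [lam, pw_ru hv, pw_ru hv, mul_inv, ← _root_.zpow_neg]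
    have h1 : ((-1 : ℝ) ^ m)⁻¹ = (-1) ^ m := by
      rw [← inv_pow]
      norm_num
    rw [h1, mul_left_comm, ← zpow_add₀ hv0]
    congr 2
    ring
  have hmain := lim_spec hf
    (X := fun v => pw (ru v) (-((a : ℤ) * (a + 2))) • (at2 2 (S (ru v) a) 0)⁻¹)
    (lam := fun v y => pw (ru v) (-((a : ℤ) * (a + 2))) * (lam (ru v) a (y 1 : ℕ))⁻¹)
    (L := fun _ => (-1) ^ a) ?_ ?_ ?_
  · have e : (fun y : Fin 2 → Fin (a + 1) => if good a y = true ∧ tt a y = 0 then (-1 : ℝ) ^ a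
        else 0) = fun y => if y 0 = 0 ∧ y 1 = Fin.last a then (-1) ^ a else 0 := by
      funext y
      refine if_congr ?_ rfl rfl
      rw [good_two]
      constructor
      · rintro ⟨h1, h2⟩
        rw [tt_two h1] at h2
        refine ⟨h1, Fin.ext ?_⟩
        have := (y 1).2
        show (y 1 : ℕ) = a
        omega
      · rintro ⟨h1, h2⟩
        refine ⟨h1, ?_⟩
        rw [tt_two h1, h2, Fin.val_last]
        omega
    rw [← e]
    exact hmain
  · intro v hv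
    have hu := ru_gt hv
    have hcv := hf.cv v hv
    refine cv_spec hu hcv ?_ ?_
    · exact ((com_at2 (VQ (ru v) hu a) (com_S hu a) 2 0).inv).smul _
    · intro y
      by_cases hg : good a y = true
      · have hy0 := good_two.1 hg
        have h1 := hcv.hw y
        have hy1 : (y 1 : ℕ) ≤ a := Nat.lt_succ_iff.1 (y 1).2
        have h2 : ((tt a y : ℕ) : ℤ) = 2 * (a : ℤ) - 2 * (y 1 : ℕ) := by
          rw [tt_two hy0, Nat.cast_sub (by omega)]
          push_cast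
          ring
        rw [h2] at h1
        rw [Matrix.smul_mulVec, eig_inv hu hy1 h1, smul_smul]
      · have h0 : f v y = 0 := by
          rw [← QM.ip_self_eq_zero (TP (VQ (ru v) (ru_gt hv) a) 2), hcv.on y y,
            if_neg (fun h => hg h.2)]
        rw [h0, Matrix.mulVec_zero, smul_zero]
  · intro y hg h0
    have hy0 := good_two.1 hg
    have hy1 : (y 1 : ℕ) ≤ a := Nat.lt_succ_iff.1 (y 1).2
    rw [tt_two hy0] at h0
    have hya : (y 1 : ℕ) = a := by omega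
    refine Tendsto.congr' ?_ (tendsto_const_nhds (x := (-1 : ℝ) ^ a))
    filter_upwards [eventually_gt_atTop (1 : ℝ)] with v hv
    rw [hexp _ hy1 v hv, hya]
    simp
  · intro y hg h0
    have hy0 := good_two.1 hg
    have hy1 : (y 1 : ℕ) ≤ a := Nat.lt_succ_iff.1 (y 1).2
    rw [tt_two hy0] at h0
    have hneg : -(2 * ((a : ℤ) - (y 1 : ℕ)) ^ 2 + 2 * ((a : ℤ) - (y 1 : ℕ))) < 0 := by
      have h1 : (0 : ℤ) < (a : ℤ) - (y 1 : ℕ) := by omega
      nlinarith
    have h1 := (tendsto_zpow_atTop_zero (𝕜 := ℝ) hneg).const_mul ((-1 : ℝ) ^ (y 1 : ℕ))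
    rw [mul_zero] at h1
    refine Tendsto.congr' ?_ h1
    filter_upwards [eventually_gt_atTop (1 : ℝ)] with v hv
    rw [hexp _ hy1 v hv]

theorem lim_neg (a : ℕ) {n k : ℕ} (hk : k + 1 < n) :
    Lim (n := n) a (fun v => pw (ru v) (-((a : ℤ) * (a + 2))) • (at2 n (S (ru v) a) k)⁻¹)
      fun y => if y ⟨k, by omega⟩ = 0 ∧ y ⟨k + 1, hk⟩ = Fin.last a then (-1) ^ a else 0 := by
  have h1 := (lim_two a).emb (N := n) (i := k) (by omega)
  refine Lim.congr h1 fun v _ => ?_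
  rw [emb_smul' (by omega : k + 2 ≤ n), emb_inv n k 2 (isUnit_at2 2 0 (isUnit_S (ru v) a)),
    emb_at2 (S (ru v) a) (by omega : k + 2 ≤ n) (by omega : 0 + 1 < 2)]
  rfl

end Pool.Agent.KS
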