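import Pool.Agent.Work.MP_ab49bb_gt.Sat.RD

/-!
# XM (M): the word of a noncrossing matching

`xM a m M i = 0` if `i < M i`, `a` if `M i < i` (`M i ≠ i`). `xM_pos`: if `xM k ≠ a` and `xM (k+1) ≠ 0`, then `k < M k` and `M (k+1) < k + 1`, i.e. `M (k+1) ≤ k`; `M k ≠ k + 1` gives `k + 1 < M k` and `M (k+1) ≠ k` (`M (M k) = k`), so `M (k+1) < k`; but `k < k+1 < M k` and `nest` give
`k < M (k+1)`, a contradiction. `xM_neg`: `M k = k + 1`, `M (k+1) = k`.
`xM_block`: `[i, i+r)` closed under `M`, `z k = xM (i + k)`. For `k ≤ r`: `wtp a z k = ∑_(j<k) (a - 2 z j) = a (#O_k - #C_k)` with `O_k = {j < k : i+j < M (i+j)}`, `C_k` the complement in `{j < k}`. The map `j ↦ M (i+j) - i` sends `C_k` injectively into `O_k`: for `j ∈ C_k`: `i ≤ M (i+j) < i + j`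
(closed block) and `M (M (i+j)) = i + j > M (i+j)`. So `#C_k ≤ #O_k`. If moreover `k < r` and `z k = a ≠ 0` (a right end), then the same map sends `C_k ∪ {k}` injectively into `O_k`, so `#C_k + 1 ≤ #O_k` and `wtp a z k ≥ a = z k`; if `z k = 0`, then `0 ≤ wtp a z k`. So `good a z`. For `k = r` the map is also
defined on `O_r` with values in `C_r` (`M` maps the block to itself), so `#O_r = #C_r` and `wtp a z r = 0`, `tt a z = 0`. For `a = 0` everything is `0`.
`xM_whole`: the case `i = 0`, `r = m`.
-/

set_option autoImplicit false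

open Matrix Filter Topology

namespace Pool.Agent.KS

open Pool.Agent.KT

private theorem xm_core (a r : ℕ) (g : Fin r → Fin r) (hg : ∀ j, g (g j) = j)
    (hne : ∀ j, g j ≠ j) (z : Fin r → Fin (a + 1))
    (hz : ∀ j, z j = if j < g j then 0 else Fin.last a) : good a z = true ∧ tt a z = 0 := by
  classical
  have hinj : Function.Injective g := fun x y h => by rw [← hg x, h, hg y]
  have hw : ∀ k : ℕ, wtp a z k
      = (a : ℤ) * (((Finset.univ.filter fun j : Fin r => (j : ℕ) < k ∧ j < g j).card : ℤ)
        - ((Finset.univ.filter fun j : Fin r => (j : ℕ) < k ∧ g j < j).card : ℤ)) := by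
    intro k
    unfold wtp
    have h1 : ∀ j : Fin r, (if (j : ℕ) < k then (a : ℤ) - 2 * (z j : ℕ) else 0)
        = (if (j : ℕ) < k ∧ j < g j then (a : ℤ) else 0)
          - (if (j : ℕ) < k ∧ g j < j then (a : ℤ) else 0) := by
      intro j
      rw [hz j]
      by_cases hjk : (j : ℕ) < k
      · rcases lt_trichotomy j (g j) with h | h | h
        · simp [hjk, h, not_lt.2 h.le]
        · exact absurd h.symm (hne j)
        · simp only [hjk, if_true, true_and, if_pos h, if_neg (not_lt.2 h.le), Fin.val_last]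
          ring
      · simp [hjk]
    rw [Finset.sum_congr rfl fun j _ => h1 j, Finset.sum_sub_distrib, ← Finset.sum_filter,
      ← Finset.sum_filter, Finset.sum_const, Finset.sum_const, nsmul_eq_mul, nsmul_eq_mul]
    ring
  have hle : ∀ k : ℕ, (Finset.univ.filter fun j : Fin r => (j : ℕ) < k ∧ g j < j).card
      ≤ (Finset.univ.filter fun j : Fin r => (j : ℕ) < k ∧ j < g j).card := by
    intro k
    apply Finset.card_le_card_of_injOn g
    · intro j hj
      have hj := (Finset.mem_filter.1 (Finset.mem_coe.1 hj)).2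
      refine Finset.mem_coe.2 (Finset.mem_filter.2 ⟨Finset.mem_univ _, ?_, ?_⟩)
      · exact lt_trans hj.2 hj.1
      · rw [hg]; exact hj.2
    · exact hinj.injOn
  constructor
  · unfold good
    rw [decide_eq_true_iff]
    intro k
    rw [hz k, hw]
    by_cases hk : k < g k
    · rw [if_pos hk]
      have := hle k
      have h2 : (0 : ℤ) ≤ (a : ℤ) *
          (((Finset.univ.filter fun j : Fin r => (j : ℕ) < k ∧ j < g j).card : ℤ)
        - ((Finset.univ.filter fun j : Fin r => (j : ℕ) < k ∧ g j < j).card : ℤ)) := by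
        apply mul_nonneg (by positivity)
        rw [sub_nonneg]
        exact_mod_cast this
      simpa using h2
    · rw [if_neg hk, Fin.val_last]
      have hk' : g k < k := lt_of_le_of_ne (not_lt.1 hk) (hne k)
      have h3 : (Finset.univ.filter fun j : Fin r => (j : ℕ) < k ∧ g j < j).card + 1
          ≤ (Finset.univ.filter fun j : Fin r => (j : ℕ) < k ∧ j < g j).card := by
        have h4 : k ∉ (Finset.univ.filter fun j : Fin r => (j : ℕ) < k ∧ g j < j) := by
          rw [Finset.mem_filter]
          rintro ⟨-, h, -⟩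
          exact lt_irrefl _ h
        rw [← Finset.card_insert_of_notMem h4]
        apply Finset.card_le_card_of_injOn g
        · intro j hj
          refine Finset.mem_coe.2 (Finset.mem_filter.2 ⟨Finset.mem_univ _, ?_⟩)
          rcases Finset.mem_insert.1 (Finset.mem_coe.1 hj) with hj | hj
          · subst hj
            exact ⟨hk', by rw [hg]; exact hk'⟩
          · have hj := (Finset.mem_filter.1 hj).2
            exact ⟨lt_trans hj.2 hj.1, by rw [hg]; exact hj.2⟩
        · exact hinj.injOn
      have h5 : (1 : ℤ) ≤ ((Finset.univ.filter fun j : Fin r => (j : ℕ) < k ∧ j < g j).card : ℤ)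
        - ((Finset.univ.filter fun j : Fin r => (j : ℕ) < k ∧ g j < j).card : ℤ) := by
        have : ((Finset.univ.filter fun j : Fin r => (j : ℕ) < k ∧ g j < j).card : ℤ) + 1
          ≤ ((Finset.univ.filter fun j : Fin r => (j : ℕ) < k ∧ j < g j).card : ℤ) := by
          exact_mod_cast h3
        linarith
      have h6 := mul_le_mul_of_nonneg_left h5 (by positivity : (0 : ℤ) ≤ (a : ℤ))
      rw [mul_one] at h6
      exact h6
  · unfold tt
    have h7 : (Finset.univ.filter fun j : Fin r => (j : ℕ) < r ∧ j < g j).card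
        ≤ (Finset.univ.filter fun j : Fin r => (j : ℕ) < r ∧ g j < j).card := by
      apply Finset.card_le_card_of_injOn g
      · intro j hj
        have hj := (Finset.mem_filter.1 (Finset.mem_coe.1 hj)).2
        refine Finset.mem_coe.2 (Finset.mem_filter.2 ⟨Finset.mem_univ _, (g j).2, ?_⟩)
        rw [hg]; exact hj.2
      · exact hinj.injOn
    have h8 := le_antisymm (hle r) h7
    rw [hw, h8, sub_self, mul_zero]
    rfl

theorem xM_pos (a : ℕ) {m : ℕ} {M : ℕ → ℕ} (hM : NC m M) {k : ℕ} (hk : k + 1 < m)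
    (h : M k ≠ k + 1) :
    xM a m M ⟨k, by omega⟩ = Fin.last a ∨ xM a m M ⟨k + 1, hk⟩ = 0 := by
  by_cases h1 : k < M k
  · right
    unfold xM
    rw [if_pos]
    show k + 1 < M (k + 1)
    by_contra h2
    have h3 : M (k + 1) ≠ k + 1 := hM.ne (k + 1) hk
    have h4 := hM.nest k (by omega) (k + 1) (by omega) (by omega)
    omega
  · left
    unfold xM
    rw [if_neg]
    exact h1

theorem xM_neg (a : ℕ) {m : ℕ} {M : ℕ → ℕ} (hM : NC m M) {k : ℕ} (hk : k + 1 < m)
    (h : M k = k + 1) :
    xM a m M ⟨k, by omega⟩ = 0 ∧ xM a m M ⟨k + 1, hk⟩ = Fin.last a := by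
  have h1 : M (k + 1) = k := by
    rw [← h]
    exact hM.inv k (by omega)
  constructor
  · unfold xM
    rw [if_pos]
    show k < M k
    omega
  · unfold xM
    rw [if_neg]
    show ¬ (k + 1 < M (k + 1))
    omega

theorem xM_block (a : ℕ) {m : ℕ} {M : ℕ → ℕ} (hM : NC m M) {i r : ℕ} (h : i + r ≤ m)
    (hb : ∀ j, i ≤ j → j < i + r → i ≤ M j ∧ M j < i + r) :
    good a (fun k : Fin r => xM a m M ⟨i + k, by omega⟩) = true ∧
      tt a (fun k : Fin r => xM a m M ⟨i + k, by omega⟩) = 0 := by
  have hb' : ∀ j : Fin r, i ≤ M (i + j) ∧ M (i + j) < i + r := fun j =>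
    hb (i + j) (by omega) (by omega)
  have hgv : ∀ j : Fin r, i + (M (i + j) - i) = M (i + j) := fun j => by
    have := (hb' j).1
    omega
  apply xm_core a r (fun j => ⟨M (i + j) - i, by have := hb' j; omega⟩)
  · intro j
    apply Fin.ext
    show M (i + (M (i + j) - i)) - i = j
    rw [hgv, hM.inv (i + j) (by omega)]
    omega
  · intro j hj
    have h1 : M (i + j) - i = (j : ℕ) := by rw [Fin.ext_iff] at hj; exact hj
    have h2 := hM.ne (i + j) (by omega)
    have h3 := hgv j
    omega
  · intro j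
    unfold xM
    have h3 := hgv j
    by_cases h4 : i + (j : ℕ) < M (i + j)
    · rw [if_pos h4, if_pos]
      rw [Fin.lt_def]
      show (j : ℕ) < M (i + j) - i
      omega
    · rw [if_neg h4, if_neg]
      rw [Fin.lt_def]
      show ¬ ((j : ℕ) < M (i + j) - i)
      omega

theorem xM_whole (a : ℕ) {m : ℕ} {M : ℕ → ℕ} (hM : NC m M) :
    good a (xM a m M) = true ∧ tt a (xM a m M) = 0 := by
  have h := xM_block a hM (i := 0) (r := m) (by omega)
    (fun j _ hj => ⟨Nat.zero_le _, by have := hM.lt j (by omega); omega⟩)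
  have e : (fun k : Fin m => xM a m M ⟨0 + k, by omega⟩) = xM a m M := by
    funext k
    congr 1
    apply Fin.ext
    simp
  rw [e] at h
  exact h

end Pool.Agent.KS
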