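import Pool.Agent.Work.MP_ab49bb_gt.Sat.Lt
import Pool.Agent.Work.MP_ab49bb_gt.Sat.Ln
import Pool.Agent.Work.MP_ab49bb_gt.Sat.Lp
import Pool.Agent.Work.MP_ab49bb_gt.Sat.XM

/-!
# PL (M): the limit of the pieces

Induction on `P` (`words (p :: P) = p.word ++ words P`, `wR_append`, `pe`, `nn` are sums; `pw_add`; `Lim.mul`). One piece `p`: there is `D_p ≥ 0`, `D_p (xM) ≥ 1`, with limit `(-1)^(a nn p) D_p`:
`cr k true`: `wR m S [(k,true)] = at2 m S k`, `lim_pos`, `xM_pos`. `cr k false`: `wR m S [(k,false)] = (at2 m S k)⁻¹`, `lim_neg`: `D_p y = [y k = 0 ∧ y (k+1) = a]`, `xM_neg`.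
`tw i r`: `wR m S (shift i (inv (ft r))) = emb m i r (wR r S (inv (ft r)))` (`emb_wR`, `isUnit_S` of KT/Det; the letters of `inv (ft r)` are those of `ft r`: `ft_letters`), `lim_tw` and `Lim.emb` (the scalar factor goes through `emb` entrywise, as `i + r ≤ m`), `D_p y = [the block of y is good with weight 0]`, `xM_block`.
-/

set_option autoImplicit false

open Matrix Filter Topology

namespace Pool.Agent.KS

open Pool.Agent.KT

private theorem emb_smul'' {ι : Type} [Fintype ι] [DecidableEq ι] {n i r : ℕ} (h : i + r ≤ n)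
    (c : ℝ) (X : Matrix (Fin r → ι) (Fin r → ι) ℝ) : emb n i r (c • X) = c • emb n i r X := by
  ext x y
  rw [Matrix.smul_apply, emb, emb, dif_pos h, dif_pos h]
  split_ifs
  · rw [Matrix.smul_apply]
  · rw [smul_zero]

private theorem wR_single {ι : Type} [Fintype ι] [DecidableEq ι] (n : ℕ)
    (R : Matrix (ι × ι) (ι × ι) ℝ) (l : Lt) :
    wR n R [l] = if l.2 then at2 n R l.1 else (at2 n R l.1)⁻¹ := by
  rw [wR, List.map_singleton, List.prod_singleton]

private theorem inv_letters (r : ℕ) : ∀ l ∈ inv (ft r), l.1 + 1 < r := by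
  intro l hl
  rw [inv, List.mem_reverse, List.mem_map] at hl
  obtain ⟨l', hl', rfl⟩ := hl
  exact ft_letters r l' hl'

private theorem one_piece (a : ℕ) {m : ℕ} {M : ℕ → ℕ} (hM : NC m M) {p : Piece}
    (hp : Compat m M p) :
    ∃ D : (Fin m → Fin (a + 1)) → ℝ, (∀ x, 0 ≤ D x) ∧ 1 ≤ D (xM a m M) ∧
      Lim (n := m) a (fun v => pw (ru v) (-(p.pe a)) • wR m (S (ru v) a) p.word)
        fun x => (-1) ^ (a * p.nn) * D x := by
  cases p with
  | cr k b =>
    cases b with
    | true =>
      obtain ⟨hk, hne⟩ := hp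
      refine ⟨fun y => if y ⟨k, by omega⟩ = Fin.last a ∨ y ⟨k + 1, hk⟩ = 0 then 1 else 0,
        fun x => ?_, ?_, ?_⟩
      · beta_reduce
        split_ifs
        · exact zero_le_one
        · exact le_refl _
      · beta_reduce
        rw [if_pos (xM_pos a hM hk hne)]
      · have h1 := lim_pos a hk
        have e : (fun x : Fin m → Fin (a + 1) => (-1 : ℝ) ^ (a * (Piece.cr k true).nn) *
            if x ⟨k, by omega⟩ = Fin.last a ∨ x ⟨k + 1, hk⟩ = 0 then 1 else 0) =
            fun x => if x ⟨k, by omega⟩ = Fin.last a ∨ x ⟨k + 1, hk⟩ = 0 then 1 else 0 := by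
          funext x
          rw [Piece.nn, mul_zero, pow_zero, one_mul]
        rw [e]
        refine h1.congr fun v _ => ?_
        rw [Piece.word, wR_single]
        rfl
    | false =>
      obtain ⟨hk, heq⟩ := hp
      refine ⟨fun y => if y ⟨k, by omega⟩ = 0 ∧ y ⟨k + 1, hk⟩ = Fin.last a then 1 else 0,
        fun x => ?_, ?_, ?_⟩
      · beta_reduce
        split_ifs
        · exact zero_le_one
        · exact le_refl _
      · beta_reduce
        rw [if_pos (xM_neg a hM hk heq)]
      · have h1 := lim_neg a hk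
        have e : (fun x : Fin m → Fin (a + 1) => (-1 : ℝ) ^ (a * (Piece.cr k false).nn) *
            if x ⟨k, by omega⟩ = 0 ∧ x ⟨k + 1, hk⟩ = Fin.last a then 1 else 0) =
            fun x => if x ⟨k, by omega⟩ = 0 ∧ x ⟨k + 1, hk⟩ = Fin.last a then (-1) ^ a else 0 := by
          funext x
          rw [Piece.nn, mul_one, mul_ite, mul_one, mul_zero]
        rw [e]
        refine h1.congr fun v _ => ?_
        rw [Piece.word, wR_single]
        rfl
  | tw i r =>
    obtain ⟨hir, hb⟩ := hp
    have h2 := xM_block a hM hir hb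
    refine ⟨fun y => if good a (fun k : Fin r => y ⟨i + k, by omega⟩) = true ∧
      tt a (fun k : Fin r => y ⟨i + k, by omega⟩) = 0 then 1 else 0, fun x => ?_, ?_, ?_⟩
    · beta_reduce
      split_ifs
      · exact zero_le_one
      · exact le_refl _
    · beta_reduce
      rw [if_pos h2]
    · have h1 := (lim_tw a r).emb (N := m) (i := i) hir
      have e : (fun x : Fin m → Fin (a + 1) => (-1 : ℝ) ^ (a * (Piece.tw i r).nn) *
          if good a (fun k : Fin r => x ⟨i + k, by omega⟩) = true ∧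
            tt a (fun k : Fin r => x ⟨i + k, by omega⟩) = 0 then 1 else 0) =
          fun x => if good a (fun k : Fin r => x ⟨i + k, by omega⟩) = true ∧
            tt a (fun k : Fin r => x ⟨i + k, by omega⟩) = 0 then 1 else 0 := by
        funext x
        rw [Piece.nn, mul_zero, pow_zero, one_mul]
      rw [e]
      refine h1.congr fun v _ => ?_
      rw [emb_smul'' hir, emb_wR (isUnit_S (ru v) a) hir (inv_letters r)]
      rfl

theorem lim_pieces (a : ℕ) {m : ℕ} {M : ℕ → ℕ} (hM : NC m M) {P : List Piece}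
    (hP : ∀ p ∈ P, Compat m M p) :
    ∃ D : (Fin m → Fin (a + 1)) → ℝ, (∀ x, 0 ≤ D x) ∧ 1 ≤ D (xM a m M) ∧
      Lim (n := m) a (fun v => pw (ru v) (-(pe a P)) • wR m (S (ru v) a) (words P))
        fun x => (-1) ^ (a * nn P) * D x := by
  induction P with
  | nil =>
    refine ⟨fun _ => 1, fun _ => zero_le_one, le_refl _, ?_⟩
    have e : (fun x : Fin m → Fin (a + 1) => (-1 : ℝ) ^ (a * nn []) * 1) = fun _ => 1 := by
      funext x
      rw [nn, List.map_nil, List.sum_nil, mul_zero, pow_zero, one_mul]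
    rw [e]
    refine Lim.one.congr fun v _ => ?_
    rw [pe, List.map_nil, List.sum_nil, neg_zero, pw_zero, one_smul]
    rfl
  | cons p P ih =>
    obtain ⟨D1, h1, h2, h3⟩ := one_piece a hM (hP p List.mem_cons_self)
    obtain ⟨D2, h4, h5, h6⟩ := ih fun q hq => hP q (List.mem_cons_of_mem _ hq)
    refine ⟨fun x => D1 x * D2 x, fun x => mul_nonneg (h1 x) (h4 x), ?_, ?_⟩
    · calc (1 : ℝ) = 1 * 1 := (mul_one 1).symm
        _ ≤ D1 (xM a m M) * D2 (xM a m M) := mul_le_mul h2 h5 zero_le_one (zero_le_one.trans h2)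
    · have e : (fun x : Fin m → Fin (a + 1) => (-1 : ℝ) ^ (a * nn (p :: P)) * (D1 x * D2 x)) =
          fun x => (-1) ^ (a * p.nn) * D1 x * ((-1) ^ (a * nn P) * D2 x) := by
        funext x
        rw [nn, List.map_cons, List.sum_cons, mul_add, pow_add, ← nn]
        ring
      rw [e]
      refine (h3.mul h6).congr fun v _ => ?_
      rw [smul_mul_smul_comm, ← pw_add]
      congr 1
      · congr 1
        rw [pe, pe, List.map_cons, List.sum_cons]
        ring
      · rw [words, words, List.flatMap_cons, wR_append]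

end Pool.Agent.KS
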