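import Pool.Agent.Work.MP_ab49bb_gt.Sat.RD

/-!
# Wr (S): exponent sums

`ex_append`, `ex_inv` (every sign changes), `ex_shift`, `ex (cross m s) = m²` (`m` blocks of `m` positive letters), `ex (ft r) = r (r-1)` (`ft (r+1)` has `2 r` more letters), `ex (cab m β) = m² ex β` (induction), `ex (List.replicate d w).flatten = d ex w`. Pieces: `ex [(k, true)] = 1`, `ex [(k, false)] = -1`,
`ex (shift i (inv (ft r))) = -r(r-1)`; so by induction on `P`: `ex (words P) * (a(a+2)) = pe a P - (sl P * (a (a+2)) - 2 np P * a)`: for `cr true`: `a(a+2) = a² + 2a` ✓.; `cr false`: `-a(a+2) = a(a+2) - 2a(a+2)` ✓.; `tw i r`: `-r(r-1) a(a+2) = r a(a+2) - r² a(a+2)` ✓.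
`deg_eq`: `-ex(sat) a(a+2) + d m a(a+2) + pe a P = (m² (d - ex β) + sl P) a(a+2) - 2 np P a`.
-/

set_option autoImplicit false

open Matrix Filter Topology

namespace Pool.Agent.KS

open Pool.Agent.KT

theorem ex_append (w w' : List Lt) : ex (w ++ w') = ex w + ex w' := by
  rw [ex, ex, ex, List.map_append, List.sum_append]

private theorem ex_cons (l : Lt) (w : List Lt) : ex (l :: w) = (if l.2 then 1 else -1) + ex w := by
  rw [ex, ex, List.map_cons, List.sum_cons]

private theorem ex_nil : ex [] = 0 := rfl

private theorem ex_inv (w : List Lt) : ex (inv w) = -ex w := by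
  induction w with
  | nil => rfl
  | cons l w ih =>
    have h1 : inv (l :: w) = inv w ++ [(l.1, !l.2)] := by
      rw [inv, List.map_cons, List.reverse_cons]
      rfl
    rw [h1, ex_append, ih, ex_cons, ex_cons, ex_nil]
    rcases l with ⟨k, b⟩
    cases b <;> simp

private theorem ex_shift (i : ℕ) (w : List Lt) : ex (shift i w) = ex w := by
  rw [ex, ex, shift, List.map_map]
  rfl

private theorem ex_pos {α : Type} (L : List α) (f : α → ℕ) :
    ex (L.map fun k => (f k, true)) = L.length := by
  induction L with
  | nil => rfl
  | cons k L ih =>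
    rw [List.map_cons, ex_cons, ih, List.length_cons]
    push_cast
    simp
    ring

private theorem ex_cross (m s : ℕ) : ex (cross m s) = (m : ℤ) ^ 2 := by
  have key : ∀ L : List ℕ, ex (L.flatMap fun j => (List.range m).map fun t => (s + j + t, true)) =
      L.length * (m : ℤ) := by
    intro L
    induction L with
    | nil =>
      rw [List.flatMap_nil, ex_nil, List.length_nil]
      simp
    | cons j L ih =>
      rw [List.flatMap_cons, ex_append, ih, ex_pos (List.range m) (fun t => s + j + t),
        List.length_range, List.length_cons]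
      push_cast
      ring
  rw [cross, key, List.length_reverse, List.length_range]
  ring

theorem ex_cab (m : ℕ) (β : List Lt) : ex (cab m β) = (m : ℤ) ^ 2 * ex β := by
  induction β with
  | nil =>
    rw [cab, List.flatMap_nil, ex_nil, mul_zero]
  | cons l β ih =>
    rw [cab, List.flatMap_cons, ex_append, ← cab, ih, ex_cons]
    rcases l with ⟨k, b⟩
    cases b
    · simp only [Bool.false_eq_true, if_false]
      rw [ex_inv, ex_cross]
      ring
    · simp only [if_true]
      rw [ex_cross]
      ring

private theorem ex_ft (r : ℕ) : ex (ft r) = r * ((r : ℤ) - 1) := by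
  induction r with
  | zero =>
    rw [ft, ex_nil]
    simp
  | succ r ih =>
    rw [ft, ex_append, ex_append, ih, ex_pos (List.range r).reverse (fun k => k),
      ex_pos (List.range r) (fun k => k), List.length_reverse, List.length_range]
    push_cast
    ring

theorem ex_ift (r : ℕ) : ex (inv (ft r)) = -(r * ((r : ℤ) - 1)) := by
  rw [ex_inv, ex_ft]

theorem ex_words (a : ℕ) (P : List Piece) :
    ex (words P) * ((a : ℤ) * (a + 2)) =
      pe a P - (sl P * ((a : ℤ) * (a + 2)) - 2 * np P * a) := by
  induction P with
  | nil =>
    rw [words, List.flatMap_nil, ex_nil, pe, sl, np]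
    simp
  | cons p P ih =>
    have h1 : ex p.word * ((a : ℤ) * (a + 2)) =
        p.pe a - (p.sl * ((a : ℤ) * (a + 2)) - 2 * p.np * a) := by
      cases p with
      | cr k b =>
        cases b
        · rw [Piece.word, ex_cons, ex_nil, Piece.pe, Piece.sl, Piece.np,
            if_neg (by simp)]
          push_cast
          ring
        · rw [Piece.word, ex_cons, ex_nil, Piece.pe, Piece.sl, Piece.np, if_pos rfl]
          push_cast
          ring
      | tw i r =>
        rw [Piece.word, ex_shift, ex_ift, Piece.pe, Piece.sl, Piece.np]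
        push_cast
        ring
    have h2 : words (p :: P) = p.word ++ words P := by
      rw [words, List.flatMap_cons, ← words]
    have h3 : pe a (p :: P) = p.pe a + pe a P := by
      rw [pe, List.map_cons, List.sum_cons, ← pe]
    have h4 : sl (p :: P) = p.sl + sl P := by
      rw [sl, List.map_cons, List.sum_cons, ← sl]
    have h5 : np (p :: P) = p.np + np P := by
      rw [np, List.map_cons, List.sum_cons, ← np]
    rw [h2, h3, h4, h5, ex_append, add_mul, ih, h1]
    push_cast
    ring

private theorem ex_rep (d : ℕ) (w : List Lt) : ex (List.replicate d w).flatten = d * ex w := by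
  induction d with
  | zero =>
    rw [List.replicate_zero, List.flatten_nil, ex_nil]
    simp
  | succ d ih =>
    rw [List.replicate_succ, List.flatten_cons, ex_append, ih]
    push_cast
    ring

theorem deg_eq (a m d : ℕ) (β : List Lt) (P : List Piece) :
    -(ex (sat m β d P) * ((a : ℤ) * (a + 2))) + d * (m * ((a : ℤ) * (a + 2))) + pe a P =
      ((m : ℤ) ^ 2 * (d - ex β) + sl P) * ((a : ℤ) * (a + 2)) - 2 * np P * a := by
  rw [sat, ex_append, ex_append, ex_cab, ex_rep, ex_ift]
  have h := ex_words a P
  linear_combination -h

end Pool.Agent.KS
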