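import Pool.Agent.Work.MP_ab49bb_gt.Sat.Pf

/-!
# Cv (M): complete systems of highest weight vectors

`Qp u hu M t f = Ph * adj Ph`. `qp_com`: `ph_hom`, `Hom.adj`, `Hom.mul`, `Hom.com`. `qp_hw`: for a highest weight vector `x` of weight `s`, `adj Ph *ᵥ x` is a highest weight vector of `V_t` of weight `s`
(`Hom.adj`, `Hom.hw`), so by `vq_hw` it is `0` for `s ≠ t`, and for `s = t` it is `(adj Ph *ᵥ x) 0 • e_0 = ip f x • e_0` (`ph_col`, `vN u t 0 = 1`), and `Ph *ᵥ e_0 = f`; for `s ≠ t` `ip f x = 0` (`ip_of_wt_ne`).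
`cv_full`: `1 - ∑ Qp` is in `Com` and kills every highest weight vector (`qp_hw`, `h.span`), so it is `0` (`QM.Com.ext_hw` of KT/Gd).
`qp_mul`: `j ≠ k`: `adj Ph_j * Ph_k = 0` (`ph_adj_ne` if `t j ≠ t k`; otherwise `ph_adj_same` with `ip (f j) (f k) = 0`; to use it rewrite `t k = t j`). `j = k`: `adj Ph_j * Ph_j = ip (f j) (f j) • 1`, which is `1` if `G j`, and if not `G j`,
then `f j = 0` (`ip_self_eq_zero`) and `Qp_j = 0` (`ph_zero`).
`qp_sandwich`: `P * Ph_j = Ph (P f_j)` (`ph_com`) and `ph_adj_same` (`P f_j` is HW by `HW.com`).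
`cv_spec`: `X = X * 1 = ∑_j X * Ph_j * adj Ph_j`, `X * Ph_j = Ph (X f_j) = lam j • Ph_j` (`ph_com`, `ph_smul`).
`qp_entry`: `G j`: the matrix `q x y = √(nm x) Qp x y / √(nm y)` is symmetric (`nm x * Qp x y = nm y * Qp y x`: `adj (Ph adj Ph) = Ph adj Ph`, or directly `nm x Qp x y = ∑_i nm x Ph x i nm y Ph y i / vN t i`) and idempotent (`qp_mul`), so
`q x y ^ 2 ≤ ∑_y q x y ^ 2 = q x x ≤ 1` (from `q x x ^ 2 ≤ q x x`). If not `G j`, `q = 0`.
-/

set_option autoImplicit false

open Matrix Filter Topology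

namespace Pool.Agent.KS

open Pool.Agent.KT

variable {u : ℝˣ} {ι : Type} [Fintype ι] [DecidableEq ι]

private theorem adj_mul_ph (hu : 1 < (u : ℝ)) {M : QM u ι} {s t : ℕ} {f g : ι → ℝ}
    (hf : M.HW t f) (hg : M.HW s g) (h0 : M.ip f g = 0) :
    adj M (VQ u hu t) (Ph M t f) * Ph M s g = 0 := by
  by_cases hst : s = t
  · subst hst
    rw [ph_adj_same hu hf hg, h0, zero_smul]
  · exact ph_adj_ne hu hst hf hg

theorem qp_com (hu : 1 < (u : ℝ)) {M : QM u ι} {t : ℕ} {f : ι → ℝ} (hf : M.HW t f) :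
    M.Com (Qp u hu M t f) := by
  exact ((ph_hom hu hf).mul (ph_hom hu hf).adj).com

theorem qp_hw (hu : 1 < (u : ℝ)) {M : QM u ι} {t : ℕ} {f : ι → ℝ} (hf : M.HW t f) {s : ℤ}
    {x : ι → ℝ} (hx : M.HW s x) : Qp u hu M t f *ᵥ x = M.ip f x • f := by
  have hz := (ph_hom hu hf).adj.hw hx
  have hz1 := vq_hw hu hz
  have hz0 : (adj M (VQ u hu t) (Ph M t f) *ᵥ x) 0 = M.ip f x := by
    change ∑ i, (M.nm i * Ph M t f i 0 / vN u t 0) * x i = ∑ i, M.nm i * f i * x i
    refine Finset.sum_congr rfl fun i _ => ?_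
    rw [ph_col, vN_zero, div_one]
  unfold Qp
  rw [← Matrix.mulVec_mulVec, hz1, hz0]
  by_cases hst : s = (t : ℤ)
  · rw [if_pos hst, Matrix.mulVec_smul, Matrix.mulVec_single_one]
    congr 1
    funext i
    exact ph_col M t f i
  · rw [if_neg hst, Matrix.mulVec_zero, M.ip_of_wt_ne (Ne.symm hst) hf.wt hx.wt, zero_smul]

variable {J : Type} [Fintype J] [DecidableEq J] {G : J → Bool} {f : J → ι → ℝ} {t : J → ℕ}

theorem cv_full (hu : 1 < (u : ℝ)) {M : QM u ι} (h : IsCV M G f t) :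
    ∑ j, Qp u hu M (t j) (f j) = 1 := by
  have hcom : M.Com (1 - ∑ j, Qp u hu M (t j) (f j)) := by
    have hs : ∀ S : Finset J, M.Com (∑ j ∈ S, Qp u hu M (t j) (f j)) := by
      intro S
      induction S using Finset.induction_on with
      | empty =>
        rw [Finset.sum_empty]
        exact QM.Com.zero
      | insert a S ha ih =>
        rw [Finset.sum_insert ha]
        exact (qp_com hu (h.hw a)).add ih
    exact QM.Com.one.sub (hs Finset.univ)
  have h0 := hcom.ext_hw (fun s x hx => by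
    rw [Matrix.sub_mulVec, Matrix.one_mulVec, Matrix.sum_mulVec]
    have h1 := h.span s x hx
    rw [Finset.sum_congr rfl fun j _ => qp_hw hu (h.hw j) hx, ← h1, sub_self])
  exact (sub_eq_zero.1 h0).symm

theorem qp_mul (hu : 1 < (u : ℝ)) {M : QM u ι} (h : IsCV M G f t) (j k : J) :
    Qp u hu M (t j) (f j) * Qp u hu M (t k) (f k) =
      if j = k then Qp u hu M (t j) (f j) else 0 := by
  have hassoc : Qp u hu M (t j) (f j) * Qp u hu M (t k) (f k) =
      Ph M (t j) (f j) * (adj M (VQ u hu (t j)) (Ph M (t j) (f j)) * Ph M (t k) (f k)) *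
        adj M (VQ u hu (t k)) (Ph M (t k) (f k)) := by
    unfold Qp
    simp only [Matrix.mul_assoc]
  rw [hassoc]
  by_cases hjk : j = k
  · subst hjk
    rw [if_pos rfl, ph_adj_same hu (h.hw j) (h.hw j)]
    by_cases hG : G j = true
    · rw [h.on, if_pos ⟨rfl, hG⟩, one_smul, Matrix.mul_one]
      rfl
    · have h1 : M.ip (f j) (f j) = 0 := by
        rw [h.on, if_neg fun hc => hG hc.2]
      have h2 : f j = 0 := (M.ip_self_eq_zero (f j)).1 h1
      unfold Qp
      rw [h1, zero_smul, Matrix.mul_zero, Matrix.zero_mul, h2, ph_zero, Matrix.zero_mul]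
  · rw [if_neg hjk, adj_mul_ph hu (h.hw j) (h.hw k) (by
      rw [h.on, if_neg fun hc => hjk hc.1]), Matrix.mul_zero, Matrix.zero_mul]

theorem qp_sandwich (hu : 1 < (u : ℝ)) {M : QM u ι} (h : IsCV M G f t) {P : Matrix ι ι ℝ}
    (hP : M.Com P) (j : J) :
    Qp u hu M (t j) (f j) * P * Qp u hu M (t j) (f j) =
      M.ip (f j) (P *ᵥ f j) • Qp u hu M (t j) (f j) := by
  have hassoc : Qp u hu M (t j) (f j) * P * Qp u hu M (t j) (f j) =
      Ph M (t j) (f j) * (adj M (VQ u hu (t j)) (Ph M (t j) (f j)) *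
        (P * Ph M (t j) (f j))) * adj M (VQ u hu (t j)) (Ph M (t j) (f j)) := by
    unfold Qp
    simp only [Matrix.mul_assoc]
  rw [hassoc, ph_com hP, ph_adj_same hu (h.hw j) ((h.hw j).com hP), Matrix.mul_smul,
    Matrix.mul_one, Matrix.smul_mul]
  rfl

theorem cv_spec (hu : 1 < (u : ℝ)) {M : QM u ι} (h : IsCV M G f t) {X : Matrix ι ι ℝ}
    (hX : M.Com X) {lam : J → ℝ} (hl : ∀ j, X *ᵥ f j = lam j • f j) :
    X = ∑ j, lam j • Qp u hu M (t j) (f j) := by
  have h1 : X = X * ∑ j, Qp u hu M (t j) (f j) := by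
    rw [cv_full hu h, Matrix.mul_one]
  rw [Finset.mul_sum] at h1
  refine h1.trans (Finset.sum_congr rfl fun j _ => ?_)
  unfold Qp
  rw [← Matrix.mul_assoc, ph_com hX, hl j, ph_smul, Matrix.smul_mul]

theorem qp_entry (hu : 1 < (u : ℝ)) {M : QM u ι} (h : IsCV M G f t) (j : J) (x y : ι) :
    |Real.sqrt (M.nm x) * Qp u hu M (t j) (f j) x y / Real.sqrt (M.nm y)| ≤ 1 := by
  set Q := Qp u hu M (t j) (f j) with hQ
  have hn : ∀ x, 0 < Real.sqrt (M.nm x) := fun x => Real.sqrt_pos.2 (M.pos x)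
  have hsq : ∀ x, Real.sqrt (M.nm x) * Real.sqrt (M.nm x) = M.nm x := fun x =>
    Real.mul_self_sqrt (M.pos x).le
  have hsym : ∀ x y, M.nm x * Q x y = M.nm y * Q y x := by
    intro x y
    have h1 : ∀ x y, M.nm x * Q x y = ∑ i : Fin (t j + 1),
        M.nm x * Ph M (t j) (f j) x i * (M.nm y * Ph M (t j) (f j) y i) / vN u (t j) i := by
      intro x y
      change M.nm x * ∑ i : Fin (t j + 1), Ph M (t j) (f j) x i *
        (M.nm y * Ph M (t j) (f j) y i / vN u (t j) i) = _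
      rw [Finset.mul_sum]
      exact Finset.sum_congr rfl fun i _ => by ring
    rw [h1, h1]
    exact Finset.sum_congr rfl fun i _ => by ring
  set q : ι → ι → ℝ := fun x y => Real.sqrt (M.nm x) * Q x y / Real.sqrt (M.nm y) with hq
  have hqs : ∀ x y, q x y = q y x := by
    intro x y
    have hnx := (hn x).ne'
    have hny := (hn y).ne'
    have h1 : q x y * (Real.sqrt (M.nm x) * Real.sqrt (M.nm y)) = M.nm x * Q x y := by
      have h3 : q x y * (Real.sqrt (M.nm x) * Real.sqrt (M.nm y)) =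
          (Real.sqrt (M.nm x) * Real.sqrt (M.nm x)) * Q x y := by
        rw [hq]
        field_simp
      rw [h3, hsq]
    have h2 : q y x * (Real.sqrt (M.nm x) * Real.sqrt (M.nm y)) = M.nm y * Q y x := by
      have h3 : q y x * (Real.sqrt (M.nm x) * Real.sqrt (M.nm y)) =
          (Real.sqrt (M.nm y) * Real.sqrt (M.nm y)) * Q y x := by
        rw [hq]
        field_simp
      rw [h3, hsq]
    exact mul_right_cancel₀ (mul_ne_zero hnx hny) (by rw [h1, h2, hsym])
  have hqq : ∀ x y, q x y * q y x = Q x y * Q y x := by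
    intro x y
    rw [hq]
    simp only
    have := (hn x).ne'
    have := (hn y).ne'
    field_simp
  have hid : ∀ x, q x x = ∑ y, q x y ^ 2 := by
    intro x
    have h1 : q x x = Q x x := by
      rw [hq]
      simp only
      have := (hn x).ne'
      field_simp
    have h2 : Q * Q = Q := by
      have := qp_mul hu h j j
      rwa [if_pos rfl] at this
    have h3 := congrFun (congrFun h2 x) x
    rw [Matrix.mul_apply] at h3
    rw [h1, ← h3]
    refine Finset.sum_congr rfl fun y _ => ?_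
    rw [← hqq x y, pow_two]
    congr 1
    exact (hqs x y).symm
  have hle : ∀ x y, q x y ^ 2 ≤ q x x := by
    intro x y
    rw [hid x]
    exact Finset.single_le_sum (f := fun y => q x y ^ 2) (fun _ _ => sq_nonneg _)
      (Finset.mem_univ y)
  have h1 : ∀ x, q x x ≤ 1 := by
    intro x
    have h2 := hle x x
    nlinarith [sq_nonneg (q x x - 1)]
  have h2 : q x y ^ 2 ≤ 1 := (hle x y).trans (h1 x)
  exact abs_le_one_iff_mul_self_le_one.2 (by rw [← pow_two]; exact h2)

end Pool.Agent.KS
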