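import Pool.Agent.Work.MP_ab49bb_gt.Sat.Zc
import Pool.Agent.Work.MP_ab49bb_gt.Sat.Cv
import Pool.Agent.Work.MP_ab49bb_gt.Sat.RH
import Pool.Agent.Work.MP_ab49bb_gt.Sat.RV

/-!
# Zd (M-L): the quantum trace of a knot in a reducible module

Let `B = wR N (RM X X) β`, `π = perm N β`, `K = kd X N`, `Q j = Qp u hu X (t j) (f j)`, for `h : Fin N → J` let `T_h = tpm (fun i => Q (h i))`. By `tpm_sum`, `cv_full`, `tpm_one`: `∑_h T_h = 1`; `T_h * T_h = T_h` (`tpm_mul`, `qp_mul`); `K * T_h = T_h * K` (`kd_tpm`, weights of `Q j`: `qp_com`);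
`B * T_h = T_(h ∘ π⁻¹) * B` (`wR_tpm`, `RM_nat`, `isUnit_RM`), so `T_h * B = B * T_(h ∘ π)`. Hence `tr (B A K) = ∑_h tr (B A K T_h T_h) = ∑_h tr (T_h B A T_h K) = ∑_h tr (B * (T_(h ∘ π) A T_h) * K)`, `A = at1 N P`, and `T_(h ∘ π) A T_h = tpm (fun i => if i = 0 then Q (h (π 0)) P Q (h 0) else Q (h (π i)) Q (h i))`
(`tpm_mul` twice). It is `0` (`tpm_zero`, `qp_mul`) unless `h (π i) = h i` for all `i ≠ 0`; then `h` is constant: for `i : Fin N` let `k` be minimal with `π^k i = 0` (exists: `IsKnot`); `h i = h (π i) = ⋯ = h (π^k i) = h 0`. For `h = j` constant it is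
`tpm (fun i => if i = 0 then Q j P Q j else Q j) = ip (f j) (P f j) • tpm (fun _ => Q j)` (`qp_sandwich`, `tpm_smul0`). [The sum over `h` reduces to the constant functions: `Finset.sum_subset`/`Finset.sum_bij`; `j ↦ const j` is injective since `0 < N`.]
Finally `tr (B * tpm (Q j) * K) = Zv u N (t j) β` if `G j = true`: `Q j = Ph * adj Ph`, `tpm (Q j) = tpm Ph * tpm (adj Ph)`, `B * tpm Ph = tpm Ph * wR N (S u t) β` (`wR_tpm`, `RM_nat` with `ph_hom`, `RM_VQ`; all `Y i` are equal, so the permutation disappears), cyclicity of the trace (`Matrix.trace_mul_comm`),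
`K * tpm Ph = tpm Ph * kd (VQ u hu t) N` and `tpm (adj Ph) * tpm Ph = 1` (`ph_adj_same`, `ip (f j) (f j) = 1`), `kd (VQ u hu t) N = km u N t`. If `G j = false`, `f j = 0` and the term is `0` on both sides.
-/

set_option autoImplicit false

open Matrix Filter Topology

namespace Pool.Agent.KS

open Pool.Agent.KT

variable {u : ℝˣ} {κ : Type} [Fintype κ] [DecidableEq κ]
  {J : Type} [Fintype J] [DecidableEq J] {G : J → Bool} {f : J → κ → ℝ} {t : J → ℕ}

private theorem const_of {N : ℕ} {J : Type} {β : List Lt} (hβ : IsKnot N β) (h : Fin N → J)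
    (hh : ∀ i : Fin N, (i : ℕ) ≠ 0 → h (perm N β i) = h i) (i : Fin N) : h i = h ⟨0, hβ.1⟩ := by
  classical
  obtain ⟨hN, -, htr⟩ := hβ
  obtain ⟨k, hk⟩ := htr i ⟨0, hN⟩
  induction k using Nat.strong_induction_on generalizing i with
  | _ k ih =>
    by_cases hi : (i : ℕ) = 0
    · congr 1
      exact Fin.ext hi
    · cases k with
      | zero =>
        exfalso
        apply hi
        rw [pow_zero, Equiv.Perm.one_apply] at hk
        rw [hk]
      | succ k =>
        rw [← hh i hi]
        refine ih k (Nat.lt_succ_self k) _ ?_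
        rw [pow_succ, Equiv.Perm.mul_apply] at hk
        exact hk

theorem Z_decomp (hu : 1 < (u : ℝ)) {X : QM u κ} (hcv : IsCV X G f t) {N : ℕ} {β : List Lt}
    (hβ : IsKnot N β) {P : Matrix κ κ ℝ} (hP : X.Com P) :
    (wR N (RM X X) β * at1 N P * kd X N).trace =
      ∑ j, X.ip (f j) (P *ᵥ f j) * Zv u N (t j) β := by
  classical
  obtain ⟨hN, hβl, -⟩ := id hβ
  set Q : J → Matrix κ κ ℝ := fun j => Qp u hu X (t j) (f j) with hQ
  set B := wR N (RM X X) β with hB
  set K := kd X N with hK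
  have hQc : ∀ j, X.Com (Q j) := fun j => qp_com hu (hcv.hw j)
  have hQm : ∀ j k, Q j * Q k = if j = k then Q j else 0 := fun j k => qp_mul hu hcv j k
  set T : (Fin N → J) → Matrix (Fin N → κ) (Fin N → κ) ℝ := fun h => tpm fun i => Q (h i) with hT
  have h1 : ∑ h, T h = 1 := by
    rw [hT, tpm_sum, hQ]
    simp only
    rw [cv_full hu hcv, tpm_one]
  have h2 : ∀ h, T h * T h = T h := by
    intro h
    rw [hT]
    simp only
    rw [tpm_mul]
    congr 1
    funext i
    rw [hQm, if_pos rfl]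
  have h3 : ∀ h, K * T h = T h * K := by
    intro h
    exact kd_tpm X X _ fun i x y hxy => (hQc (h i)).wt x y hxy
  have hnat : ∀ i j, RM X X * kr (Q i) (Q j) = kr (Q j) (Q i) * RM X X := fun i j =>
    RM_nat (Hom.of_com (hQc i)) (Hom.of_com (hQc j))
  have h4 : ∀ h : Fin N → J, T h * B = B * T (fun i => h (perm N β i)) := by
    intro h
    have e := wR_tpm hβl (isUnit_RM hu X) (isUnit_RM hu X)
      (fun i => Q (h (perm N β i))) (fun i j => hnat _ _)
    rw [hB, hT]
    simp only
    rw [e]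
    congr 2
    funext i
    have e' : perm N β ((perm N β)⁻¹ i) = i := Equiv.apply_symm_apply _ _
    rw [e']
  set A := at1 N P with hA
  have h5 : (B * A * K).trace = ∑ h, (B * (T (fun i => h (perm N β i)) * A * T h) * K).trace := by
    have e1 : B * A * K = ∑ h, B * A * K * (T h * T h) := by
      rw [← Matrix.mul_sum]
      simp only [h2]
      rw [h1, mul_one]
    rw [e1, Matrix.trace_sum]
    refine Finset.sum_congr rfl fun h _ => ?_
    have e2 : B * A * K * (T h * T h) = (B * A * T h * K) * T h := by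
      rw [← mul_assoc (B * A * K), mul_assoc (B * A) K, h3, ← mul_assoc (B * A)]
    rw [e2, Matrix.trace_mul_comm]
    congr 1
    have e3 : T h * (B * A * T h * K) = (T h * B) * (A * T h * K) := by
      simp only [mul_assoc]
    rw [e3, h4]
    simp only [mul_assoc]
  have h6 : ∀ h : Fin N → J, T (fun i => h (perm N β i)) * A * T h =
      tpm fun i : Fin N => if (i : ℕ) = 0 then Q (h (perm N β i)) * P * Q (h i)
        else Q (h (perm N β i)) * Q (h i) := by
    intro h
    rw [hA, hT, at1]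
    simp only
    rw [tpm_mul, tpm_mul]
    congr 1
    funext i
    by_cases hi : (i : ℕ) = 0
    · rw [if_pos hi, if_pos hi]
    · rw [if_neg hi, if_neg hi, mul_one]
  have h7 : ∀ h : Fin N → J, (¬ ∃ j, h = fun _ => j) →
      T (fun i => h (perm N β i)) * A * T h = 0 := by
    intro h hne
    have h8 : ∃ i : Fin N, (i : ℕ) ≠ 0 ∧ h (perm N β i) ≠ h i := by
      by_contra hcon
      apply hne
      refine ⟨h ⟨0, hN⟩, ?_⟩
      funext i
      refine const_of hβ h (fun i hi => ?_) i
      by_contra h9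
      exact hcon ⟨i, hi, h9⟩
    obtain ⟨i, hi, hi'⟩ := h8
    rw [h6]
    refine tpm_zero (i := i) ?_
    rw [if_neg hi, hQm, if_neg hi']
  have h8 : ∑ h, (B * (T (fun i => h (perm N β i)) * A * T h) * K).trace =
      ∑ j, (B * (T (fun _ => j) * A * T (fun _ => j)) * K).trace := by
    symm
    refine Finset.sum_of_injOn (fun j => (fun _ => j : Fin N → J)) ?_ ?_ ?_ ?_
    · intro j _ k _ hjk
      exact congrFun hjk ⟨0, hN⟩
    · intro j _
      exact Finset.mem_coe.2 (Finset.mem_univ _)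
    · intro h _ hh
      rw [h7 h, mul_zero, zero_mul, Matrix.trace_zero]
      rintro ⟨j, rfl⟩
      exact hh ⟨j, Finset.mem_coe.2 (Finset.mem_univ _), rfl⟩
    · intro j _
      rfl
  rw [h5, h8]
  refine Finset.sum_congr rfl fun j _ => ?_
  have h9 : T (fun _ => j) * A * T (fun _ => j) =
      X.ip (f j) (P *ᵥ f j) • tpm fun _ : Fin N => Q j := by
    have e := h6 (fun _ => j)
    rw [e, ← tpm_smul0 hN]
    congr 1
    funext i
    by_cases hi : (i : ℕ) = 0
    · rw [if_pos hi, if_pos hi]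
      exact qp_sandwich hu hcv hP j
    · rw [if_neg hi, if_neg hi, hQm, if_pos rfl]
  rw [h9, Matrix.mul_smul, Matrix.smul_mul, Matrix.trace_smul, smul_eq_mul]
  by_cases hG : G j = true
  · congr 1
    have hone : adj X (VQ u hu (t j)) (Ph X (t j) (f j)) * Ph X (t j) (f j) = 1 := by
      rw [ph_adj_same hu (hcv.hw j) (hcv.hw j), hcv.on j j, if_pos ⟨rfl, hG⟩, one_smul]
    have hph := ph_hom hu (hcv.hw j)
    have e1 : (tpm fun _ : Fin N => Q j) = (tpm fun _ : Fin N => Ph X (t j) (f j)) *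
        tpm fun _ : Fin N => adj X (VQ u hu (t j)) (Ph X (t j) (f j)) := by
      rw [tpm_mul]
      rfl
    have e2 : B * (tpm fun _ : Fin N => Ph X (t j) (f j)) =
        (tpm fun _ : Fin N => Ph X (t j) (f j)) * wR N (S u (t j)) β := by
      have e := wR_tpm hβl (isUnit_RM hu X) (isUnit_RM hu (VQ u hu (t j)))
        (fun _ : Fin N => Ph X (t j) (f j)) (fun _ _ => RM_nat hph hph)
      rw [RM_VQ hu] at e
      exact e
    have e3 : K * (tpm fun _ : Fin N => Ph X (t j) (f j)) =
        (tpm fun _ : Fin N => Ph X (t j) (f j)) * km u N (t j) := by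
      have e := kd_tpm (N := N) X (VQ u hu (t j)) (fun _ => Ph X (t j) (f j))
        (fun _ x y hxy => hph.wt x y hxy)
      rw [hK, e]
      rfl
    have e4 : (tpm fun _ : Fin N => adj X (VQ u hu (t j)) (Ph X (t j) (f j))) *
        (tpm fun _ : Fin N => Ph X (t j) (f j)) = 1 := by
      rw [tpm_mul]
      simp only [hone]
      exact tpm_one
    rw [e1, ← Matrix.mul_assoc, e2, Zv, Matrix.mul_assoc, Matrix.mul_assoc,
      Matrix.trace_mul_comm]
    congr 1
    rw [Matrix.mul_assoc, Matrix.mul_assoc, e3, ← Matrix.mul_assoc _ _ (km u N (t j)), e4,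
      Matrix.one_mul]
  · have hf0 : f j = 0 := by
      rw [← X.ip_self_eq_zero, hcv.on j j, if_neg (fun h => hG h.2)]
    have h10 : X.ip (f j) (P *ᵥ f j) = 0 := by
      rw [hf0, QM.ip]
      simp
    rw [h10, zero_mul, zero_mul]

end Pool.Agent.KS
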