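import Pool.Agent.Work.MP_ab49bb_gt.Sat.Bl
import Pool.Agent.Work.MP_ab49bb_gt.Sat.Zd
import Pool.Agent.Work.MP_ab49bb_gt.Sat.It
import Pool.Agent.Work.MP_ab49bb_gt.Sat.PL
import Pool.Agent.Work.MP_ab49bb_gt.Sat.Wr

/-!
# As (M-L): the asymptotics of the quantum trace of the satellite

Let `W = (List.replicate d (inv (ft m))).flatten ++ words P`, `V = VQ (ru v) _ a`, `X = TP V m`, `f` from `exists_fus a m`, `t_y = tt a y`. `jt_sum` (`v > 1`, `u = ru v`): by `jt_blocks` and `Z_decomp` (`P := wR m (S u a) W`, in `Com` by `com_wR`, `RM_VQ`; `hβ : IsKnot N β` contains `0 < N` and the condition on the letters):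
`jt = v^(-ex a(a+2)) ∑_y ip (f y) (wR m S W *ᵥ f y) Zv u N t_y β`. `wR m S W = T^d * Q`, `T = wR m S (inv (ft m))`, `Q = wR m S (words P)`; `Q *ᵥ f y` is a highest weight vector of weight `t_y` (`com_wR`, `HW.com`), so `T^d` acts on it by `v^(d (m a(a+2) - t_y(t_y+2)))` (`ift_hw`, induction on `d`).
So `jt · v^(-D) = ∑_y v^(-d t_y(t_y+2)) q_y(v) Zv u N t_y β` with `q_y(v) = v^(-pe a P) ip (f y) (Q *ᵥ f y)` and `D = -ex a(a+2) + d m a(a+2) + pe a P` (`deg_eq`; `pw_ru`).
`q_y(v) = ∑_(x,z) (√(vn x) f y x) (√(vn x) (v^(-pe) Q) x z / √(vn z)) (√(vn z) f y z) → D_P(y) [good y]` by `fus_coord` and `lim_pieces` (`D_P y = (-1)^(a nn P) D' y`). For `t_y = 0`: the factor `v^0 Zv u N 0 β = 1` (`Zv_zero`). For `t = t_y ≥ 1`: `|v^(-d t(t+2)) Zv| ≤ C v^(-d t(t+2) + 2tN + L t(t+2))`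
(`Zv_bound`, `L = β.length`) and the exponent is `≤ -N t (t+2) + 2 t N = -N t² < 0` as `L + N ≤ d`, `0 < N`; so the term tends to `0`. The limit is `(-1)^(a nn P) ∑_(y good, t_y = 0) D' y`, which is not `0`, as `D' ≥ 0` and the term `y = xM a m M` is `≥ 1` (`xM_whole`).
The letters of `W`: `l.1 + 1 < m` (`ft_letters`; compatibility of the pieces: for `tw i r`: `i + l.1 + 1 < i + r ≤ m`).
-/

set_option autoImplicit false

open Matrix Filter Topology

namespace Pool.Agent.KS

open Pool.Agent.KT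

private theorem wR_rep {ι : Type} [Fintype ι] [DecidableEq ι] (n : ℕ) (R : Matrix (ι × ι) (ι × ι) ℝ)
    (w : List Lt) (d : ℕ) : wR n R (List.replicate d w).flatten = wR n R w ^ d := by
  induction d with
  | zero =>
    rw [List.replicate_zero, List.flatten_nil, pow_zero]
    rfl
  | succ d ih =>
    rw [List.replicate_succ, List.flatten_cons, wR_append, ih, pow_succ']

private theorem W_letters {m : ℕ} {M : ℕ → ℕ} {P : List Piece} (hP : ∀ p ∈ P, Compat m M p)
    (d : ℕ) : ∀ l ∈ (List.replicate d (inv (ft m))).flatten ++ words P, l.1 + 1 < m := by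
  have hinv : ∀ r : ℕ, ∀ l ∈ inv (ft r), l.1 + 1 < r := by
    intro r l hl
    rw [inv, List.mem_reverse, List.mem_map] at hl
    obtain ⟨l', hl', rfl⟩ := hl
    exact ft_letters r l' hl'
  intro l hl
  rw [List.mem_append] at hl
  rcases hl with hl | hl
  · rw [List.mem_flatten] at hl
    obtain ⟨w, hw, hlw⟩ := hl
    rw [List.mem_replicate] at hw
    rw [hw.2] at hlw
    exact hinv m l hlw
  · rw [words, List.mem_flatMap] at hl
    obtain ⟨p, hp, hlp⟩ := hl
    have h := hP p hp
    cases p with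
    | cr k b =>
      rw [Piece.word, List.mem_singleton] at hlp
      rw [hlp]
      cases b with
      | true => exact h.1
      | false => exact h.1
    | tw i r =>
      rw [Piece.word, shift, List.mem_map] at hlp
      obtain ⟨l', hl', rfl⟩ := hlp
      have h2 := hinv r l' hl'
      have h3 : i + r ≤ m := h.1
      show i + l'.1 + 1 < m
      omega

private theorem pow_hw {u : ℝˣ} (hu : 1 < (u : ℝ)) (a m : ℕ) {t : ℤ}
    {x : (Fin m → Fin (a + 1)) → ℝ} (hx : (TP (VQ u hu a) m).HW t x) (d : ℕ) :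
    wR m (S u a) (inv (ft m)) ^ d *ᵥ x = pw u (d * (m * (a * (a + 2)) - t * (t + 2))) • x := by
  induction d with
  | zero =>
    rw [pow_zero, Matrix.one_mulVec, Nat.cast_zero, zero_mul, pw_zero, one_smul]
  | succ d ih =>
    rw [pow_succ', ← Matrix.mulVec_mulVec, ih, Matrix.mulVec_smul, ift_hw hu a m hx, smul_smul,
      ← pw_add]
    congr 2
    push_cast
    ring

/-- the normalised matrix coefficient -/
private noncomputable def qf' (a m : ℕ) (P : List Piece)
    (f : ℝ → (Fin m → Fin (a + 1)) → (Fin m → Fin (a + 1)) → ℝ) (v : ℝ)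
    (y : Fin m → Fin (a + 1)) : ℝ :=
  ∑ x, ∑ z, (Real.sqrt (vn (ru v) a x) * f v y x) *
    (Real.sqrt (vn (ru v) a x) *
      (pw (ru v) (-(pe a P)) • wR m (S (ru v) a) (words P)) x z / Real.sqrt (vn (ru v) a z)) *
    (Real.sqrt (vn (ru v) a z) * f v y z)

private theorem qf_eq {v : ℝ} (hv : 1 < v) (a m : ℕ) (P : List Piece)
    (f : ℝ → (Fin m → Fin (a + 1)) → (Fin m → Fin (a + 1)) → ℝ) (y : Fin m → Fin (a + 1)) :
    (TP (VQ (ru v) (ru_gt hv) a) m).ip (f v y) (wR m (S (ru v) a) (words P) *ᵥ f v y) =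
      pw (ru v) (pe a P) * qf' a m P f v y := by
  have hu := ru_gt hv
  rw [qf', QM.ip, Finset.mul_sum]
  refine Finset.sum_congr rfl fun x _ => ?_
  rw [Matrix.mulVec, dotProduct, Finset.mul_sum, Finset.mul_sum]
  refine Finset.sum_congr rfl fun z _ => ?_
  rw [TP_nm_vn hu, Matrix.smul_apply, smul_eq_mul]
  have hx := vn_pos hu a x
  have hz := vn_pos hu a z
  have h1 : Real.sqrt (vn (ru v) a x) * Real.sqrt (vn (ru v) a x) = vn (ru v) a x :=
    Real.mul_self_sqrt hx.le
  have h2 : Real.sqrt (vn (ru v) a z) ≠ 0 := (Real.sqrt_pos.2 hz).ne'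
  have h3 : pw (ru v) (pe a P) * pw (ru v) (-(pe a P)) = 1 := by
    rw [mul_comm, pw_neg_mul]
  field_simp
  rw [Real.sq_sqrt hx.le]
  linear_combination (-(vn (ru v) a x * f v y x * wR m (S (ru v) a) (words P) x z * f v y z)) * h3

private theorem qf_lim {a m : ℕ} {P : List Piece}
    {f : ℝ → (Fin m → Fin (a + 1)) → (Fin m → Fin (a + 1)) → ℝ} (hf : Fus a m f)
    {D : (Fin m → Fin (a + 1)) → ℝ}
    (hD : Lim (n := m) a (fun v => pw (ru v) (-(pe a P)) • wR m (S (ru v) a) (words P))
      fun x => (-1) ^ (a * nn P) * D x) (y : Fin m → Fin (a + 1)) :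
    Tendsto (fun v => qf' a m P f v y) atTop
      (𝓝 (if good a y = true then (-1) ^ (a * nn P) * D y else 0)) := by
  have h1 : Tendsto (fun v => qf' a m P f v y) atTop
      (𝓝 (∑ x, ∑ z, (if x = y ∧ good a y = true then 1 else 0) *
        (if x = z then (-1) ^ (a * nn P) * D x else 0) *
        (if z = y ∧ good a y = true then 1 else 0))) := by
    unfold qf'
    refine tendsto_finsetSum _ fun x _ => tendsto_finsetSum _ fun z _ => ?_
    exact ((fus_coord hf x y).mul (hD x z)).mul (fus_coord hf z y)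
  have h2 : (∑ x, ∑ z, (if x = y ∧ good a y = true then (1 : ℝ) else 0) *
        (if x = z then (-1) ^ (a * nn P) * D x else 0) *
        (if z = y ∧ good a y = true then 1 else 0)) =
      if good a y = true then (-1) ^ (a * nn P) * D y else 0 := by
    by_cases hg : good a y = true
    · rw [if_pos hg, Finset.sum_eq_single y, Finset.sum_eq_single y]
      · simp [hg]
      · intro z _ hz
        rw [if_neg (fun h : y = z => hz h.symm)]
        ring
      · intro h
        exact absurd (Finset.mem_univ _) h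
      · intro x _ hx
        refine Finset.sum_eq_zero fun z _ => ?_
        rw [if_neg (fun h : x = y ∧ good a y = true => hx h.1)]
        ring
      · intro h
        exact absurd (Finset.mem_univ _) h
    · rw [if_neg hg]
      refine Finset.sum_eq_zero fun x _ => Finset.sum_eq_zero fun z _ => ?_
      rw [if_neg (fun h : x = y ∧ good a y = true => hg h.2)]
      ring
  rw [h2] at h1
  exact h1

private theorem Zv_lim {N : ℕ} {β : List Lt} (hN : 0 < N) (hw : ∀ l ∈ β, l.1 + 1 < N) {d : ℕ}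
    (hd : β.length + N ≤ d) (t : ℕ) :
    Tendsto (fun v : ℝ => v ^ (-((d : ℤ) * (t * (t + 2)))) * Zv (ru v) N t β) atTop
      (𝓝 (if t = 0 then 1 else 0)) := by
  by_cases ht : t = 0
  · rw [if_pos ht, ht]
    refine Tendsto.congr (fun v => ?_) (tendsto_const_nhds (x := (1 : ℝ)))
    rw [Zv_zero]
    simp
  · rw [if_neg ht]
    obtain ⟨C, hC⟩ := Zv_bound N t hw
    have ht1 : 1 ≤ t := Nat.one_le_iff_ne_zero.2 ht
    have hlt : 2 * (t : ℤ) * N + β.length * (t * (t + 2)) - d * (t * (t + 2)) < 0 := by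
      have h1 : (β.length : ℤ) + N ≤ d := by exact_mod_cast hd
      have h2 : (1 : ℤ) ≤ t := by exact_mod_cast ht1
      have h3 : (1 : ℤ) ≤ N := by exact_mod_cast hN
      have h4 : (0 : ℤ) ≤ (t : ℤ) * (t + 2) := by positivity
      have h5 : ((β.length : ℤ) + N - d) * ((t : ℤ) * (t + 2)) ≤ 0 :=
        mul_nonpos_of_nonpos_of_nonneg (by linarith) h4
      have h6 : (0 : ℤ) < N * (t : ℤ) ^ 2 := by positivity
      nlinarith
    have h0 : Tendsto (fun v : ℝ => C *
        v ^ (2 * (t : ℤ) * N + β.length * (t * (t + 2)) - d * (t * (t + 2)))) atTop (𝓝 0) := by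
      have h := (tendsto_zpow_atTop_zero (𝕜 := ℝ) hlt).const_mul C
      rwa [mul_zero] at h
    refine squeeze_zero_norm' ?_ h0
    filter_upwards [hC, eventually_gt_atTop (1 : ℝ)] with v h1 hv
    have hv0 : v ≠ 0 := by linarith
    have hp : (0 : ℝ) < v ^ (-((d : ℤ) * (t * (t + 2)))) := zpow_pos (by linarith) _
    rw [Real.norm_eq_abs, abs_mul, abs_of_pos hp]
    calc v ^ (-((d : ℤ) * (t * (t + 2)))) * |Zv (ru v) N t β|
        ≤ v ^ (-((d : ℤ) * (t * (t + 2)))) *
          (C * v ^ (2 * (t : ℤ) * N + β.length * (t * (t + 2)))) :=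
          mul_le_mul_of_nonneg_left h1 hp.le
      _ = C * v ^ (2 * (t : ℤ) * N + β.length * (t * (t + 2)) - d * (t * (t + 2))) := by
          rw [mul_left_comm, ← zpow_add₀ hv0]
          congr 2
          ring

theorem jt_lim {N m : ℕ} {β : List Lt} (hβ : IsKnot N β) {M : ℕ → ℕ} (hM : NC m M)
    {P : List Piece} (hP : ∀ p ∈ P, Compat m M p) {d : ℕ} (hd : β.length + N ≤ d) (a : ℕ) :
    ∃ l : ℝ, l ≠ 0 ∧ Tendsto (fun v => jt (ru v) (N * m) a (sat m β d P) *
      v ^ (-(((m : ℤ) ^ 2 * (d - ex β) + sl P) * ((a : ℤ) * (a + 2)) - 2 * np P * a))) atTop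
        (𝓝 l) := by
  obtain ⟨f, hf⟩ := exists_fus a m
  obtain ⟨D, hD0, hD1, hDl⟩ := lim_pieces a hM hP
  obtain ⟨hN, hβl, -⟩ := id hβ
  have hW := W_letters hP d
  have key : ∀ v : ℝ, 1 < v → jt (ru v) (N * m) a (sat m β d P) *
      v ^ (-(((m : ℤ) ^ 2 * (d - ex β) + sl P) * ((a : ℤ) * (a + 2)) - 2 * np P * a)) =
      ∑ y, (v ^ (-((d : ℤ) * (tt a y * (tt a y + 2)))) * Zv (ru v) N (tt a y) β) *
        qf' a m P f v y := by
    intro v hv
    have hu := ru_gt hv
    have hv0 : v ≠ 0 := by linarith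
    have hcom : ∀ w, (TP (VQ (ru v) hu a) m).Com (wR m (S (ru v) a) w) := by
      intro w
      rw [← RM_VQ hu]
      exact com_wR hu _ _ _
    have hsat : sat m β d P =
        cab m β ++ ((List.replicate d (inv (ft m))).flatten ++ words P) := by
      rw [sat, List.append_assoc]
    rw [← deg_eq a m d β P]
    rw [hsat, jt_blocks hu a hN hβl hW, Z_decomp hu (hf.cv v hv) hβ (hcom _), Finset.mul_sum,
      Finset.sum_mul]
    refine Finset.sum_congr rfl fun y _ => ?_
    have hfy := (hf.cv v hv).hw y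
    have h1 : wR m (S (ru v) a) ((List.replicate d (inv (ft m))).flatten ++ words P) *ᵥ f v y =
        pw (ru v) (d * (m * (a * (a + 2)) - tt a y * (tt a y + 2))) •
          (wR m (S (ru v) a) (words P) *ᵥ f v y) := by
      rw [wR_append, wR_rep, ← Matrix.mulVec_mulVec, pow_hw hu a m (hfy.com (hcom _)) d]
    rw [h1, QM.ip_smul_right, qf_eq hv a m P f y, pw_ru hv, pw_ru hv, pw_ru hv]
    have h2 : v ^ (-(ex (cab m β ++ ((List.replicate d (inv (ft m))).flatten ++ words P)) *
          ((a : ℤ) * (a + 2)))) *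
        v ^ ((d : ℤ) * (m * (a * (a + 2)) - tt a y * (tt a y + 2))) * v ^ (pe a P) *
        v ^ (-(-(ex (cab m β ++ ((List.replicate d (inv (ft m))).flatten ++ words P)) *
          ((a : ℤ) * (a + 2))) + d * (m * ((a : ℤ) * (a + 2))) + pe a P)) =
        v ^ (-((d : ℤ) * (tt a y * (tt a y + 2)))) := by
      rw [← zpow_add₀ hv0, ← zpow_add₀ hv0, ← zpow_add₀ hv0]
      congr 1
      ring
    rw [← h2]
    ring
  refine ⟨∑ y, (if tt a y = 0 then 1 else 0) *
    (if good a y = true then (-1) ^ (a * nn P) * D y else 0), ?_, ?_⟩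
  · have h1 : (∑ y, (if tt a y = 0 then (1 : ℝ) else 0) *
        (if good a y = true then (-1) ^ (a * nn P) * D y else 0)) =
        (-1) ^ (a * nn P) * ∑ y, if tt a y = 0 ∧ good a y = true then D y else 0 := by
      rw [Finset.mul_sum]
      refine Finset.sum_congr rfl fun y _ => ?_
      by_cases h1 : tt a y = 0 <;> by_cases h2 : good a y = true <;> simp [h1, h2]
    rw [h1]
    have h2 : (1 : ℝ) ≤ ∑ y, if tt a y = 0 ∧ good a y = true then D y else 0 := by
      have h3 := xM_whole a hM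
      calc (1 : ℝ) ≤ D (xM a m M) := hD1
        _ = if tt a (xM a m M) = 0 ∧ good a (xM a m M) = true then D (xM a m M) else 0 := by
            rw [if_pos ⟨h3.2, h3.1⟩]
        _ ≤ _ := by
            refine Finset.single_le_sum (f := fun y => if tt a y = 0 ∧ good a y = true then D y else 0)
              (fun y _ => ?_) (Finset.mem_univ _)
            split_ifs
            · exact hD0 y
            · exact le_refl _
    have h4 : ((-1 : ℝ) ^ (a * nn P)) ≠ 0 := pow_ne_zero _ (by norm_num)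
    exact mul_ne_zero h4 (by linarith)
  · refine Tendsto.congr' ?_ (tendsto_finsetSum Finset.univ fun y _ =>
      (Zv_lim hN hβl hd (tt a y)).mul (qf_lim hf hDl y))
    filter_upwards [eventually_gt_atTop (1 : ℝ)] with v hv
    rw [key v hv]

end Pool.Agent.KS
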