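import Pool.Agent.Work.MP_ab49bb_gt.Sat.Cr

/-!
# Bk (M-L): cabled words in terms of blocks

`bl z : Fin N → (Fin m → ι)` are the blocks of `z : Fin (N * m) → ι`: `bl z x y = z (m * x + y)` (`finProdFinEquiv_apply_val`: the value is `y + m * x`).
`wR_cab_letter`: `cross m (k * m) = shift (k * m) (crP m m)` (unfold; `s + j + t = s + (j + t)`), so by `emb_wR` (`k m + (m+m) ≤ N m` since `k + 1 < N`; all letters of `crP m m` are `≤ 2m - 2`) the matrix
is `emb (N m) (k m) (m+m) (wR (m+m) R (crP m m))`, and by `wR_crP` its entry `(z, w)` is, if `z = w` outside the blocks `k, k+1`, equal to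
`RM X X (bl z k, bl z (k+1)) (bl w k, bl w (k+1))`, `X = TP M m`, otherwise `0`; the condition says `bl z i = bl w i` for `i ≠ k, k+1`. This is `at2 N (RM X X) k (bl z) (bl w)`.
`wR_cab`: `z ↦ bl z` is a bijection `(Fin (N m) → ι) ≃ (Fin N → Fin m → ι)` (`finProdFinEquiv`, `Equiv.curry`); so `wR (N m) R (cab m β) = (wR N (RM X X) β).submatrix bl bl` by induction on `β`
(`Matrix.submatrix_mul_equiv`); the negative letters: `wR_inv` and `Matrix.inv_submatrix_equiv`.
`wR_first`: `emb_wR` with `i = 0`, `r = m` (`shift 0 W = W`, `m ≤ N m`): the entry is `[z = w outside the block 0] wR m R W (bl z 0) (bl w 0)`, which is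
`at1 N (wR m R W) (bl z) (bl w) = ∏_i …` (the factor of the block `i ≠ 0` is `1 (bl z i) (bl w i)`).
-/

set_option autoImplicit false

open Matrix Filter Topology

namespace Pool.Agent.KS

open Pool.Agent.KT

variable {u : ℝˣ} {ι : Type} [Fintype ι] [DecidableEq ι]

private theorem bk_cross (m s : ℕ) : cross m s = shift s (crP m m) := by
  unfold cross shift crP
  rw [List.map_flatMap]
  congr 1
  funext j
  rw [List.map_map]
  refine List.map_congr_left fun t _ => ?_
  show (s + j + t, true) = (s + (j + t), true)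
  rw [add_assoc]

private theorem bk_crP_lt (m p : ℕ) : ∀ l ∈ crP m p, l.1 + 1 < m + p := by
  intro l hl
  unfold crP at hl
  simp only [List.mem_flatMap, List.mem_reverse, List.mem_range, List.mem_map] at hl
  obtain ⟨j, hj, t, ht, rfl⟩ := hl
  show j + t + 1 < m + p
  omega

omit [Fintype ι] [DecidableEq ι] in
private theorem bl_apply {N m : ℕ} (z : Fin (N * m) → ι) (i : Fin N) (y : Fin m)
    (h : (i : ℕ) * m + y < N * m) : bl z i y = z ⟨i * m + y, h⟩ := by
  unfold bl
  refine congrArg z (Fin.ext ?_)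
  rw [finProdFinEquiv_apply_val]
  show (y : ℕ) + m * i = i * m + y
  ring

/-- the blocks as a bijection -/
private def ble (ι : Type) (N m : ℕ) : (Fin (N * m) → ι) ≃ (Fin N → Fin m → ι) where
  toFun := bl
  invFun := fun g l => g (finProdFinEquiv.symm l).1 (finProdFinEquiv.symm l).2
  left_inv := fun z => by
    funext l
    show z (finProdFinEquiv (finProdFinEquiv.symm l)) = z l
    rw [Equiv.apply_symm_apply]
  right_inv := fun g => by
    funext x y
    show g (finProdFinEquiv.symm (finProdFinEquiv (x, y))).1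
      (finProdFinEquiv.symm (finProdFinEquiv (x, y))).2 = g x y
    rw [Equiv.symm_apply_apply]

omit [Fintype ι] [DecidableEq ι] in
private theorem bk_cond {N m k : ℕ} (z w : Fin (N * m) → ι) :
    (∀ l : Fin (N * m), (l : ℕ) < k * m ∨ k * m + (m + m) ≤ l → z l = w l) ↔
      ∀ i : Fin N, (i : ℕ) ≠ k → (i : ℕ) ≠ k + 1 → bl z i = bl w i := by
  constructor
  · intro h i h1 h2
    funext y
    unfold bl
    apply h
    rw [finProdFinEquiv_apply_val]
    dsimp only
    have hy := y.2
    rcases Nat.lt_or_ge (i : ℕ) k with h3 | h3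
    · left
      have h4 : m * ((i : ℕ) + 1) ≤ m * k := Nat.mul_le_mul_left m h3
      rw [mul_comm k m]
      rw [mul_add, mul_one] at h4
      omega
    · right
      have h4 : m * (k + 2) ≤ m * i := Nat.mul_le_mul_left m (by omega)
      rw [mul_comm k m]
      rw [mul_add] at h4
      omega
  · intro h l hl
    have h1 : l = finProdFinEquiv ((finProdFinEquiv.symm l).1, (finProdFinEquiv.symm l).2) :=
      (Equiv.apply_symm_apply finProdFinEquiv l).symm
    set i := (finProdFinEquiv.symm l).1 with hi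
    set y := (finProdFinEquiv.symm l).2 with hy
    have h2 : (l : ℕ) = y + m * i := by
      rw [h1, finProdFinEquiv_apply_val]
    have h3 := y.2
    have h4 : (i : ℕ) ≠ k := by
      intro h5
      rw [h5, mul_comm m k] at h2
      omega
    have h5 : (i : ℕ) ≠ k + 1 := by
      intro h5
      rw [h5, mul_add, mul_one, mul_comm m k] at h2
      omega
    have h6 := congrFun (h i h4 h5) y
    unfold bl at h6
    rw [← h1] at h6
    exact h6

private theorem wR_cross (hu : 1 < (u : ℝ)) (M : QM u ι) {N m k : ℕ} (hk : k + 1 < N)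
    (z w : Fin (N * m) → ι) :
    wR (N * m) (RM M M) (cross m (k * m)) z w =
      at2 N (RM (TP M m) (TP M m)) k (bl z) (bl w) := by
  have hN : (k + 2) * m ≤ N * m := Nat.mul_le_mul_right m hk
  have hN' : k * m + (m + m) ≤ N * m := by
    rw [add_mul] at hN
    omega
  rw [bk_cross, ← emb_wR (isUnit_RM hu M) hN' (bk_crP_lt m m)]
  unfold emb at2
  rw [dif_pos hN', dif_pos hk]
  by_cases h : ∀ l : Fin (N * m), (l : ℕ) < k * m ∨ k * m + (m + m) ≤ l → z l = w l
  · rw [if_pos h, if_pos ((bk_cond z w).1 h), wR_crP hu]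
    have e1 : ∀ v : Fin (N * m) → ι,
        (fun q : Fin m => v ⟨k * m + q, by omega⟩) = bl v ⟨k, by omega⟩ := by
      intro v
      funext q
      exact (bl_apply v ⟨k, by omega⟩ q _).symm
    have e2 : ∀ v : Fin (N * m) → ι,
        (fun q : Fin m => v ⟨k * m + (m + q), by omega⟩) = bl v ⟨k + 1, hk⟩ := by
      intro v
      funext q
      have h1 : (k + 1) * m + q < N * m := by
        rw [add_mul, one_mul]
        omega
      rw [bl_apply v ⟨k + 1, hk⟩ q h1]
      refine congrArg v (Fin.ext ?_)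
      show k * m + (m + (q : ℕ)) = (k + 1) * m + q
      ring
    rw [← e1, ← e1, ← e2, ← e2]
  · rw [if_neg h, if_neg fun h1 => h ((bk_cond z w).2 h1)]

private theorem wR_cab_aux (hu : 1 < (u : ℝ)) (M : QM u ι) {N m : ℕ} (β : List Lt) :
    (∀ l ∈ β, l.1 + 1 < N) → wR (N * m) (RM M M) (cab m β) =
      (wR N (RM (TP M m) (TP M m)) β).submatrix (ble ι N m) (ble ι N m) := by
  induction β with
  | nil =>
    intro _
    have h1 : wR (N * m) (RM M M) (cab m []) = 1 := by
      unfold wR cab
      simp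
    have h2 : wR N (RM (TP M m) (TP M m)) [] = 1 := by
      unfold wR
      simp
    rw [h1, h2, submatrix_one_equiv]
  | cons l β ih =>
    intro hβ
    have h1 : cab m (l :: β) = (if l.2 then cross m (l.1 * m) else inv (cross m (l.1 * m))) ++
        cab m β := by
      unfold cab
      rw [List.flatMap_cons]
    have h2 : wR N (RM (TP M m) (TP M m)) (l :: β) =
        (if l.2 then at2 N (RM (TP M m) (TP M m)) l.1 else (at2 N (RM (TP M m) (TP M m)) l.1)⁻¹) *
          wR N (RM (TP M m) (TP M m)) β := by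
      unfold wR
      rw [List.map_cons, List.prod_cons]
    have h3 : wR (N * m) (RM M M) (cross m (l.1 * m)) =
        (at2 N (RM (TP M m) (TP M m)) l.1).submatrix (ble ι N m) (ble ι N m) := by
      ext z w
      exact wR_cross hu M (hβ l (List.mem_cons_self ..)) z w
    rw [h1, wR_append, ih fun l' hl' => hβ l' (List.mem_cons_of_mem _ hl'), h2,
      ← submatrix_mul_equiv _ _ _ (ble ι N m)]
    congr 1
    cases l.2 with
    | true => exact h3
    | false =>
      simp only [Bool.false_eq_true, if_false]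
      rw [wR_inv _ (isUnit_RM hu M), h3, inv_submatrix_equiv]

theorem wR_cab (hu : 1 < (u : ℝ)) (M : QM u ι) {N m : ℕ} {β : List Lt}
    (hβ : ∀ l ∈ β, l.1 + 1 < N) (z w : Fin (N * m) → ι) :
    wR (N * m) (RM M M) (cab m β) z w = wR N (RM (TP M m) (TP M m)) β (bl z) (bl w) := by
  rw [wR_cab_aux hu M β hβ]
  rfl

private theorem bk_shift_zero (W : List Lt) : shift 0 W = W := by
  unfold shift
  rw [show (fun l : Lt => ((0 + l.1, l.2) : Lt)) = id from funext fun l => by
    show (0 + l.1, l.2) = l
    rw [zero_add]]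
  exact List.map_id _

theorem wR_first (hu : 1 < (u : ℝ)) (M : QM u ι) {N m : ℕ} (hN : 0 < N) {W : List Lt}
    (hW : ∀ l ∈ W, l.1 + 1 < m) (z w : Fin (N * m) → ι) :
    wR (N * m) (RM M M) W z w = at1 N (wR m (RM M M) W) (bl z) (bl w) := by
  have hN' : 0 + m ≤ N * m := by
    rw [zero_add]
    exact Nat.le_mul_of_pos_left m hN
  obtain ⟨n, rfl⟩ : ∃ n, N = n + 1 := ⟨N - 1, by omega⟩
  have h0 : wR ((n + 1) * m) (RM M M) W = emb ((n + 1) * m) 0 m (wR m (RM M M) W) := by
    rw [emb_wR (isUnit_RM hu M) hN' hW, bk_shift_zero]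
  rw [h0]
  have hr : at1 (n + 1) (wR m (RM M M) W) (bl z) (bl w) = wR m (RM M M) W (bl z 0) (bl w 0) *
      ∏ j : Fin n, (1 : Matrix (Fin m → ι) (Fin m → ι) ℝ) (bl z j.succ) (bl w j.succ) := by
    unfold at1 tpm
    rw [Fin.prod_univ_succ]
    refine congrArg₂ (· * ·) ?_ (Finset.prod_congr rfl fun j _ => ?_)
    · show (if ((0 : Fin (n + 1)) : ℕ) = 0 then wR m (RM M M) W else 1) (bl z 0) (bl w 0) = _
      rw [if_pos (by simp)]
    · show (if ((j.succ : Fin (n + 1)) : ℕ) = 0 then wR m (RM M M) W else 1) (bl z j.succ)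
        (bl w j.succ) = _
      rw [if_neg (by simp)]
  rw [hr]
  unfold emb
  rw [dif_pos hN']
  have e1 : ∀ v : Fin ((n + 1) * m) → ι,
      (fun q : Fin m => v ⟨0 + q, by omega⟩) = bl v 0 := by
    intro v
    funext q
    have h1 : ((0 : Fin (n + 1)) : ℕ) * m + q < (n + 1) * m := by
      have := q.2
      show 0 * m + (q : ℕ) < _
      omega
    rw [bl_apply v 0 q h1]
    refine congrArg v (Fin.ext ?_)
    show 0 + (q : ℕ) = 0 * m + q
    omega
  by_cases h : ∀ l : Fin ((n + 1) * m), (l : ℕ) < 0 ∨ 0 + m ≤ l → z l = w l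
  · rw [if_pos h, Finset.prod_eq_one, mul_one]
    · rw [← e1, ← e1]
    · intro i _
      rw [one_apply, if_pos]
      funext y
      unfold bl
      apply h
      right
      rw [finProdFinEquiv_apply_val]
      show 0 + m ≤ (y : ℕ) + m * ((i : ℕ) + 1)
      rw [mul_add, mul_one]
      omega
  · rw [if_neg h]
    symm
    push Not at h
    obtain ⟨l, hl, hne⟩ := h
    have h1 : l = finProdFinEquiv ((finProdFinEquiv.symm l).1, (finProdFinEquiv.symm l).2) :=
      (Equiv.apply_symm_apply finProdFinEquiv l).symm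
    set i := (finProdFinEquiv.symm l).1 with hi
    set y := (finProdFinEquiv.symm l).2 with hy
    have h2 : (l : ℕ) = y + m * i := by
      rw [h1, finProdFinEquiv_apply_val]
    have h3 := y.2
    have h4 : i ≠ 0 := by
      intro h5
      rw [h5] at h2
      have h6 : (l : ℕ) = y + m * 0 := h2
      omega
    obtain ⟨j, hj⟩ := Fin.exists_succ_eq.2 h4
    refine mul_eq_zero_of_right _ (Finset.prod_eq_zero (Finset.mem_univ j) ?_)
    rw [one_apply, if_neg]
    intro h5
    apply hne
    have h6 := congrFun h5 y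
    unfold bl at h6
    rw [hj, ← h1] at h6
    exact h6

end Pool.Agent.KS
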