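import Pool.Agent.Work.MP_ab49bb_gt.Sat.Bk
import Pool.Agent.Work.MP_ab49bb_gt.Sat.RV

/-!
# Bl (S-M): the quantum trace of a satellite word in terms of blocks

`jt` is `v^(-ex a(a+2)) tr (wR (N m) (S u a) (cab m β ++ W) * km u (N m) a)`. `S u a = RM (VQ u hu a) (VQ u hu a)` (`RM_VQ`), `wR_append`, `wR_cab`, `wR_first`; `km u (N m) a` is diagonal with the entry
`v^(2 ∑_i (a - 2 z i))` and `∑_i (a - 2 z i) = ∑_x ∑_y (a - 2 (bl z x y)) = ∑_x X.wt (bl z x)`, `X = TP (VQ u hu a) m` (`TP_wt`, `vw`; `Fintype.sum_equiv finProdFinEquiv`, `Fintype.sum_prod_type`); so the matrix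
is `(wR N (RM X X) β * at1 N (…) * kd X N).submatrix bl bl` and the traces agree (`bl` is a bijection).
-/

set_option autoImplicit false

open Matrix Filter Topology

namespace Pool.Agent.KS

open Pool.Agent.KT

variable {u : ℝˣ}

/-- the bijection of the blocks -/
private def ble (ι : Type) (N m : ℕ) : (Fin (N * m) → ι) ≃ (Fin N → (Fin m → ι)) where
  toFun := fun z => bl z
  invFun := fun g k => g (finProdFinEquiv.symm k).1 (finProdFinEquiv.symm k).2
  left_inv := fun z => by
    funext k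
    show z (finProdFinEquiv ((finProdFinEquiv.symm k).1, (finProdFinEquiv.symm k).2)) = z k
    rw [Prod.mk.eta, Equiv.apply_symm_apply]
  right_inv := fun g => by
    funext x y
    show g (finProdFinEquiv.symm (finProdFinEquiv (x, y))).1
      (finProdFinEquiv.symm (finProdFinEquiv (x, y))).2 = g x y
    rw [Equiv.symm_apply_apply]

theorem jt_blocks (hu : 1 < (u : ℝ)) (a : ℕ) {N m : ℕ} (hN : 0 < N) {β W : List Lt}
    (hβ : ∀ l ∈ β, l.1 + 1 < N) (hW : ∀ l ∈ W, l.1 + 1 < m) :
    jt u (N * m) a (cab m β ++ W) = pw u (-(ex (cab m β ++ W) * (a * (a + 2)))) *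
      (wR N (RM (TP (VQ u hu a) m) (TP (VQ u hu a) m)) β * at1 N (wR m (S u a) W) *
        kd (TP (VQ u hu a) m) N).trace := by
  rw [jt]
  congr 1
  set e := ble (Fin (a + 1)) N m with he
  have h1 : wR (N * m) (S u a) (cab m β) =
      (wR N (RM (TP (VQ u hu a) m) (TP (VQ u hu a) m)) β).submatrix e e := by
    ext z w
    rw [← RM_VQ hu, wR_cab hu (VQ u hu a) hβ, Matrix.submatrix_apply]
    rfl
  have h2 : wR (N * m) (S u a) W = (at1 N (wR m (S u a) W)).submatrix e e := by
    ext z w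
    rw [← RM_VQ hu, wR_first hu (VQ u hu a) hN hW, Matrix.submatrix_apply]
    rfl
  have h3 : km u (N * m) a = (kd (TP (VQ u hu a) m) N).submatrix e e := by
    rw [kd, km, Matrix.submatrix_diagonal_equiv]
    congr 1
    funext z
    rw [Function.comp_apply]
    congr 2
    have h4 : ∀ x : Fin N, (TP (VQ u hu a) m).wt (e z x) =
        ∑ y : Fin m, ((a : ℤ) - 2 * ((bl (ι := Fin (a + 1)) (N := N) (m := m) z x y : Fin (a + 1)) : ℕ)) := by
      intro x
      rw [TP_wt]
      rfl
    simp only [h4]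
    rw [← Fintype.sum_prod_type', ← Equiv.sum_comp finProdFinEquiv]
    rfl
  rw [wR_append, h1, h2, h3, Matrix.submatrix_mul_equiv, Matrix.submatrix_mul_equiv,
    Matrix.trace, Matrix.trace, ← Equiv.sum_comp e]
  rfl

end Pool.Agent.KS
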