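import Pool.Agent.Work.MP_ab49bb_gt.Sat.QB

/-!
# H2 (M): the second hexagon identity

`M ⊗ (N ⊗ P) → (N ⊗ P) ⊗ M`: first `M` and `N` are exchanged, then `M` and `P`.
Take a large `L` and `RM_cut` (for the two sums on the right the cut-off `L` is allowed since `card ι ≤ L`). Row `((k, p), i)`, column `(i', (k', p'))`:
LHS `= v^(wt i (wt k + wt p)) ∑_(l<L) c_l (E^l) i i' (Δ(F)^l) (k,p) (k',p')`, and by `tn_F_pow` and `rco_mul` this is
`v^(wt i (wt k + wt p)) ∑_l ∑_(j≤l) c_j c_(l-j) v^(4j(l-j) - 2(l-j) wt k') (E^l) i i' (F^j) k k' (F^(l-j)) p p'`.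
RHS `= ∑_q ∑_j c_j v^(wt q wt k) (E^j) q i' (F^j) k k' ∑_m c_m v^(wt i wt p) (E^m) i q (F^m) p p'`; for nonzero terms `wt q = wt i - 2 m`,
`wt k = wt k' - 2 j`, so `v^(wt q wt k) = v^(wt i wt k - 2 m wt k' + 4 j m)` and `∑_q (E^m) i q (E^j) q i' = (E^(m+j)) i i'`:
RHS `= v^(wt i (wt k + wt p)) ∑_j ∑_m c_j c_m v^(4jm - 2 m wt k') (E^(m+j)) i i' (F^j) k k' (F^m) p p'`, the same sum over `(j, m)`: the terms with
`j + m ≥ card ι` vanish (`E_nil`).
-/

set_option autoImplicit false

open Matrix Filter Topology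

namespace Pool.Agent.KS

open Pool.Agent.KT

variable {u : ℝˣ} {ι κ τ : Type} [Fintype ι] [DecidableEq ι] [Fintype κ] [DecidableEq κ]
  [Fintype τ] [DecidableEq τ]

private theorem h2_tri (L : ℕ) (T : ℕ → ℕ → ℝ) (hT : ∀ j m, L ≤ j + m → T j m = 0) :
    ∑ l ∈ Finset.range L, ∑ j ∈ Finset.range (l + 1), T j (l - j) =
      ∑ j ∈ Finset.range L, ∑ m ∈ Finset.range L, T j m := by
  rw [← Finset.sum_product (s := Finset.range L) (t := Finset.range L)
    (f := fun p : ℕ × ℕ => T p.1 p.2)]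
  have h1 : ∑ p ∈ (Finset.range L ×ˢ Finset.range L).filter (fun p : ℕ × ℕ => p.1 + p.2 < L),
      T p.1 p.2 = ∑ p ∈ Finset.range L ×ˢ Finset.range L, T p.1 p.2 := by
    apply Finset.sum_filter_of_ne
    intro p _ hp
    by_contra hlt
    exact hp (hT _ _ (not_lt.1 hlt))
  rw [← h1]
  rw [← Finset.sum_fiberwise_of_maps_to (g := fun p : ℕ × ℕ => p.1 + p.2)
    (t := Finset.range L)]
  · apply Finset.sum_congr rfl
    intro l hl
    rw [Finset.mem_range] at hl
    rw [← Nat.succ_eq_add_one, ← Finset.Nat.sum_antidiagonal_eq_sum_range_succ]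
    apply Finset.sum_congr
    · ext p
      rw [Finset.mem_filter, Finset.mem_filter, Finset.mem_product, Finset.mem_range,
        Finset.mem_range, Finset.HasAntidiagonal.mem_antidiagonal]
      omega
    · intro p _
      rfl
  · intro p hp
    rw [Finset.mem_filter] at hp
    exact Finset.mem_range.2 hp.2

theorem hex2 (hu : 1 < (u : ℝ)) (M : QM u ι) (N : QM u κ) (P : QM u τ) (i i' : ι) (k k' : κ)
    (p p' : τ) :
    RM M (tn N P) ((k, p), i) (i', (k', p')) =
      ∑ q, RM M N (k, q) (i', k') * RM M P (p, i) (q, p') := by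
  have hcut := RM_cut M (tn N P) (le_refl (Fintype.card ι)) ((k, p), i) (i', (k', p'))
  rw [hcut]
  have hR : ∀ q, RM M N (k, q) (i', k') * RM M P (p, i) (q, p') =
      ∑ j ∈ Finset.range (Fintype.card ι), ∑ m ∈ Finset.range (Fintype.card ι),
        pw u (M.wt i * (N.wt k + P.wt p)) * (rco u j * rco u m *
          pw u (4 * j * m - 2 * m * N.wt k') * ((M.E ^ m) i q * (M.E ^ j) q i') *
          (N.F ^ j) k k' * (P.F ^ m) p p') := by
    intro q
    rw [RM_cut M N (le_refl (Fintype.card ι)), RM_cut M P (le_refl (Fintype.card ι))]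
    simp only
    rw [mul_mul_mul_comm, Finset.sum_mul_sum, Finset.mul_sum]
    refine Finset.sum_congr rfl fun j _ => ?_
    rw [Finset.mul_sum]
    refine Finset.sum_congr rfl fun m _ => ?_
    by_cases h1 : (M.E ^ m) i q = 0
    · rw [h1]
      ring
    by_cases h2 : (N.F ^ j) k k' = 0
    · rw [h2]
      ring
    have e1 := E_pow_wt M m _ _ h1
    have e2 := F_pow_wt N j _ _ h2
    have e3 : pw u (M.wt q * N.wt k) * pw u (M.wt i * P.wt p) =
        pw u (M.wt i * (N.wt k + P.wt p)) * pw u (4 * j * m - 2 * m * N.wt k') := by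
      rw [← pw_add, ← pw_add]
      congr 1
      rw [e1, e2]
      ring
    rw [e3]
    ring
  rw [Finset.sum_congr rfl fun q _ => hR q]
  have hS : ∑ q, ∑ j ∈ Finset.range (Fintype.card ι), ∑ m ∈ Finset.range (Fintype.card ι),
        pw u (M.wt i * (N.wt k + P.wt p)) * (rco u j * rco u m *
          pw u (4 * j * m - 2 * m * N.wt k') * ((M.E ^ m) i q * (M.E ^ j) q i') *
          (N.F ^ j) k k' * (P.F ^ m) p p') =
      pw u (M.wt i * (N.wt k + P.wt p)) * ∑ j ∈ Finset.range (Fintype.card ι),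
        ∑ m ∈ Finset.range (Fintype.card ι), rco u j * rco u m *
          pw u (4 * j * m - 2 * m * N.wt k') * (M.E ^ (m + j)) i i' *
          (N.F ^ j) k k' * (P.F ^ m) p p' := by
    rw [Finset.sum_comm, Finset.mul_sum]
    refine Finset.sum_congr rfl fun j _ => ?_
    rw [Finset.sum_comm, Finset.mul_sum]
    refine Finset.sum_congr rfl fun m _ => ?_
    rw [← Finset.mul_sum]
    congr 1
    rw [pow_add, Matrix.mul_apply, Finset.mul_sum, Finset.sum_mul, Finset.sum_mul]
  rw [hS]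
  rw [← h2_tri (Fintype.card ι) (fun j m => rco u j * rco u m *
          pw u (4 * j * m - 2 * m * N.wt k') * (M.E ^ (m + j)) i i' *
          (N.F ^ j) k k' * (P.F ^ m) p p')]
  · show pw u (M.wt i * (N.wt k + P.wt p)) * _ = _
    congr 1
    refine Finset.sum_congr rfl fun l _ => ?_
    simp only
    rw [tn_F_pow hu, Finset.mul_sum]
    refine Finset.sum_congr rfl fun j hj => ?_
    have hjl : j ≤ l := Nat.lt_succ_iff.1 (Finset.mem_range.1 hj)
    obtain ⟨m, rfl⟩ : ∃ m, l = j + m := ⟨l - j, by omega⟩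
    have e1 : j + m - j = m := by omega
    have e2 := rco_mul hu j m
    have e3 : ((j + m : ℕ) : ℤ) - j = m := by push_cast; ring
    rw [e1, e3]
    simp only
    have e4 : pw u (4 * (j : ℤ) * m - 2 * m * N.wt k') =
        pw u (2 * j * m) * pw u (2 * j * m) * pw u (-(2 * m * N.wt k')) := by
      rw [← pw_add, ← pw_add]
      congr 1
      ring
    rw [e4, add_comm m j]
    linear_combination ((M.E ^ (j + m)) i i' * pw u (2 * j * m) * (N.F ^ j) k k' *
      (P.F ^ m) p p' * pw u (-(2 * m * N.wt k'))) * e2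
  · intro j m hjm
    rw [E_nil M (show Fintype.card ι ≤ m + j by omega)]
    simp

end Pool.Agent.KS
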