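import Pool.Agent.Work.MP_ab49bb_gt.Sat.Up
import Pool.Agent.Work.MP_ab49bb_gt.Sat.H2

/-!
# Cr (M-L): the crossing of two bundles of strands

`crP m p` on `m + p` strands is the braiding `TP M m ⊗ TP M p → TP M p ⊗ TP M m`. Induction on `p`. `p = 0`: the empty word; `RM (TP M m) (TP M 0)` is the identity (`F = 0`, weight `0` on `TP M 0`).
Step: `crP m (p+1) = shift p (upw m) ++ crP m p` (`List.range_succ`, `List.reverse_append`). The right factor acts on the first `m + p` coordinates
(`wR_snoc_strand`, `n = m + p`): entry `(z, x)` is `[z last = x last] RM (TP m) (TP p) (z[0,p), z[p,p+m)) (x[0,m), x[m,m+p))` by the induction hypothesis. The left factor is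
`emb (m+p+1) p (m+1) (wR (m+1) R (upw m))` (`emb_wR`): entry `(y, z)` is `[y = z on [0,p)] RM (TP m) M (y p, y[p+1,p+1+m)) (z[p,p+m), z last)` (`wR_up`). In the sum over `z` remain
`z = (y[0,p), q, x last)`, `q : Fin m → ι`: `∑_q RM (TP m) M (y p, y[p+1,…)) (q, x last) * RM (TP m) (TP p) (y[0,p), q) (x[0,m), x[m,m+p))`. On the other side the second module is
`TP M (p+1) ≅ tn (TP M p) M` by `TP_snoc`: `RM_iso` (`Iso.refl`, `TP_snoc`) and `hex2` (`M := TP M m`, `N := TP M p`, `P := M`): row `((y[0,p), y p), y[p+1,…))`, column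
`(x[0,m), (x[m,m+p), x last))`: `∑_q RM (TP m) (TP p) (y[0,p), q) (x[0,m), x[m,m+p)) * RM (TP m) M (y p, y[p+1,…)) (q, x last)`. Equal.
[The number of strands is `m + (p+1) = (m+p)+1` definitionally.]
-/

set_option autoImplicit false

open Matrix Filter Topology

namespace Pool.Agent.KS

open Pool.Agent.KT

variable {u : ℝˣ} {ι : Type} [Fintype ι] [DecidableEq ι]

private theorem crP_succ (m p : ℕ) : crP m (p + 1) = shift p (upw m) ++ crP m p := by
  unfold crP shift upw
  rw [List.range_succ, List.reverse_append, List.reverse_singleton, List.singleton_append,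
    List.flatMap_cons, List.map_map]
  rfl

private theorem crP_lt (m p : ℕ) : ∀ l ∈ crP m p, l.1 + 1 < m + p := by
  intro l hl
  unfold crP at hl
  simp only [List.mem_flatMap, List.mem_reverse, List.mem_range, List.mem_map] at hl
  obtain ⟨j, hj, t, ht, rfl⟩ := hl
  show j + t + 1 < m + p
  omega

private theorem upw_lt (m : ℕ) : ∀ l ∈ upw m, l.1 + 1 < m + 1 := by
  intro l hl
  unfold upw at hl
  simp only [List.mem_range, List.mem_map] at hl
  obtain ⟨j, hj, rfl⟩ := hl
  show j + 1 < m + 1
  omega

private theorem wR_crP_zero (M : QM u ι) (m : ℕ) (y x : Fin (m + 0) → ι) :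
    wR (m + 0) (RM M M) (crP m 0) y x =
      RM (TP M m) (TP M 0)
        ((fun k : Fin 0 => y ⟨k, by omega⟩), fun k : Fin m => y ⟨0 + k, by omega⟩)
        ((fun k : Fin m => x ⟨k, by omega⟩), fun k : Fin 0 => x ⟨m + k, by omega⟩) := by
  have h1 : wR (m + 0) (RM M M) (crP m 0) = 1 := by
    unfold wR crP
    simp
  have hc : Fintype.card (Fin 0 → ι) ≤ 1 := by simp
  have hw : (TP M 0).wt (fun k : Fin 0 => y ⟨k, by omega⟩) = 0 := rfl
  rw [h1, RM_cut' (TP M m) (TP M 0) hc, Finset.sum_range_one, pow_zero, pow_zero, rco_zero]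
  dsimp only
  rw [hw, mul_zero, pw_zero, one_mul, one_mul, one_apply, one_apply, one_apply]
  have h2 : (fun k : Fin 0 => y ⟨k, by omega⟩) = fun k : Fin 0 => x ⟨m + k, by omega⟩ :=
    funext fun k => k.elim0
  rw [if_pos h2, mul_one]
  have h3 : ((fun k : Fin m => y ⟨0 + k, by omega⟩) = fun k : Fin m => x ⟨k, by omega⟩) ↔ y = x := by
    constructor
    · intro h
      funext k
      have h4 := congrFun h ⟨k, k.2⟩
      have e1 : (⟨0 + ((⟨k, k.2⟩ : Fin m) : ℕ), by omega⟩ : Fin (m + 0)) = k :=
        Fin.ext (by simp)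
      have e2 : (⟨((⟨k, k.2⟩ : Fin m) : ℕ), by omega⟩ : Fin (m + 0)) = k := Fin.ext rfl
      simp only at h4
      rw [e1] at h4
      exact h4
    · intro h
      subst h
      funext k
      congr 1
      exact Fin.ext (by simp)
  by_cases h4 : y = x
  · rw [if_pos h4, if_pos (h3.2 h4)]
  · rw [if_neg h4, if_neg fun h => h4 (h3.1 h)]

/-- the intermediate words -/
private def crZ {m p : ℕ} (y x : Fin (m + p + 1) → ι) (q : Fin m → ι) : Fin (m + p + 1) → ι :=
  fun l => if h' : (l : ℕ) < p then y l else
    if h : (l : ℕ) < p + m then q ⟨(l : ℕ) - p, by omega⟩ else x l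

omit [Fintype ι] [DecidableEq ι] in
private theorem crZ_mid {m p : ℕ} (y x : Fin (m + p + 1) → ι) (q : Fin m → ι) (k : Fin m)
    (h : p + (k : ℕ) < m + p + 1) : crZ y x q ⟨p + k, h⟩ = q k := by
  unfold crZ
  have h1 : ¬ p + (k : ℕ) < p := by omega
  have h2 : p + (k : ℕ) < p + m := by omega
  dsimp only
  rw [dif_neg h1, dif_pos h2]
  congr 1
  exact Fin.ext (by simp)

theorem wR_crP (hu : 1 < (u : ℝ)) (M : QM u ι) (m p : ℕ) (y x : Fin (m + p) → ι) :
    wR (m + p) (RM M M) (crP m p) y x =
      RM (TP M m) (TP M p)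
        ((fun k : Fin p => y ⟨k, by omega⟩), fun k : Fin m => y ⟨p + k, by omega⟩)
        ((fun k : Fin m => x ⟨k, by omega⟩), fun k : Fin p => x ⟨m + k, by omega⟩) := by
  induction p with
  | zero => exact wR_crP_zero M m y x
  | succ p ih =>
    have hR := isUnit_RM hu M
    rw [crP_succ, wR_append, Matrix.mul_apply]
    have hA : ∀ z : Fin (m + (p + 1)) → ι, wR (m + (p + 1)) (RM M M) (shift p (upw m)) y z =
        if ∀ l : Fin (m + (p + 1)), (l : ℕ) < p ∨ p + (m + 1) ≤ l → y l = z l then
          RM (TP M m) M (y ⟨p, by omega⟩, fun k : Fin m => y ⟨p + 1 + k, by omega⟩)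
            ((fun k : Fin m => z ⟨p + k, by omega⟩), z ⟨m + p, by omega⟩) else 0 := by
      intro z
      rw [← emb_wR (n := m + (p + 1)) (i := p) (r := m + 1) hR (by omega) (upw_lt m)]
      unfold emb
      rw [dif_pos (by omega)]
      by_cases h : ∀ l : Fin (m + (p + 1)), (l : ℕ) < p ∨ p + (m + 1) ≤ l → y l = z l
      · rw [if_pos h, if_pos h, wR_up hu]
        have e1 : Fin.tail (fun k : Fin (m + 1) => y ⟨p + k, by omega⟩) =
            fun k : Fin m => y ⟨p + 1 + k, by omega⟩ := by
          funext k
          refine congrArg y (Fin.ext ?_)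
          show p + ((k : ℕ) + 1) = p + 1 + k
          omega
        have e2 : Fin.init (fun k : Fin (m + 1) => z ⟨p + k, by omega⟩) =
            fun k : Fin m => z ⟨p + k, by omega⟩ := by
          funext k
          rfl
        have e3 : (⟨p + ((Fin.last m : Fin (m + 1)) : ℕ), by simp; omega⟩ : Fin (m + (p + 1))) =
            ⟨m + p, by omega⟩ := Fin.ext (by simp; omega)
        rw [e1, e2, e3]
        rfl
      · rw [if_neg h, if_neg h]
    have hB : ∀ z : Fin (m + (p + 1)) → ι, wR (m + (p + 1)) (RM M M) (crP m p) z x =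
        if z (Fin.last (m + p)) = x (Fin.last (m + p)) then
          RM (TP M m) (TP M p)
            ((fun k : Fin p => z ⟨k, by omega⟩), fun k : Fin m => z ⟨p + k, by omega⟩)
            ((fun k : Fin m => x ⟨k, by omega⟩), fun k : Fin p => x ⟨m + k, by omega⟩) else 0 := by
      intro z
      have h := wR_snoc_strand (n := m + p) hR (crP_lt m p) z x
      refine h.trans ?_
      rw [ih]
      rfl
    have hC := RM_iso (Iso.refl (TP M m)) (TP_snoc M p)
      ((fun k : Fin (p + 1) => y ⟨k, by omega⟩), fun k : Fin m => y ⟨p + 1 + k, by omega⟩)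
      ((fun k : Fin m => x ⟨k, by omega⟩), fun k : Fin (p + 1) => x ⟨m + k, by omega⟩)
    have hD := hex2 hu (TP M m) (TP M p) M (fun k : Fin m => y ⟨p + 1 + k, by omega⟩)
      (fun k : Fin m => x ⟨k, by omega⟩) (fun k : Fin p => y ⟨k, by omega⟩)
      (fun k : Fin p => x ⟨m + k, by omega⟩) (y ⟨p, by omega⟩) (x ⟨m + p, by omega⟩)
    refine Eq.trans ?_ (hD.symm.trans hC.symm)
    symm
    refine Fintype.sum_of_injective (crZ (m := m) (p := p) y x) ?_ _ _ ?_ ?_
    · intro q q' h
      funext k
      have h1 := congrFun h ⟨p + k, by omega⟩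
      rwa [crZ_mid, crZ_mid] at h1
    · intro z hz
      rw [hA, hB]
      by_cases h1 : ∀ l : Fin (m + (p + 1)), (l : ℕ) < p ∨ p + (m + 1) ≤ l → y l = z l
      · by_cases h2 : z (Fin.last (m + p)) = x (Fin.last (m + p))
        · exfalso
          apply hz
          refine ⟨fun k : Fin m => z ⟨p + k, by omega⟩, ?_⟩
          funext l
          unfold crZ
          by_cases h3 : (l : ℕ) < p
          · rw [dif_pos h3]
            exact h1 l (Or.inl h3)
          · rw [dif_neg h3]
            by_cases h4 : (l : ℕ) < p + m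
            · rw [dif_pos h4]
              refine congrArg z (Fin.ext ?_)
              show p + ((l : ℕ) - p) = l
              omega
            · rw [dif_neg h4]
              have h5 : l = Fin.last (m + p) := Fin.ext (by
                have := l.2
                simp only [Fin.val_last]
                omega)
              rw [h5]
              exact h2.symm
        · rw [if_neg h2, mul_zero]
      · rw [if_neg h1, zero_mul]
    · intro q
      rw [hA, hB]
      have h1 : ∀ l : Fin (m + (p + 1)), (l : ℕ) < p ∨ p + (m + 1) ≤ l → y l = crZ (m := m) (p := p) y x q l := by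
        intro l hl
        have h2 : (l : ℕ) < p := by
          rcases hl with hl | hl
          · exact hl
          · have := l.2
            omega
        unfold crZ
        rw [dif_pos h2]
      have h3 : crZ (m := m) (p := p) y x q (Fin.last (m + p)) = x (Fin.last (m + p)) := by
        unfold crZ
        have e1 : ¬ ((Fin.last (m + p) : Fin (m + p + 1)) : ℕ) < p := by
          simp only [Fin.val_last]
          omega
        have e2 : ¬ ((Fin.last (m + p) : Fin (m + p + 1)) : ℕ) < p + m := by
          simp only [Fin.val_last]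
          omega
        rw [dif_neg e1, dif_neg e2]
      rw [if_pos h1, if_pos h3]
      have h4 : (fun k : Fin m => crZ (m := m) (p := p) y x q ⟨p + k, by omega⟩) = q := by
        funext k
        exact crZ_mid y x q k _
      have h5 : (fun k : Fin p => crZ (m := m) (p := p) y x q ⟨k, by omega⟩) =
          fun k : Fin p => y ⟨k, by omega⟩ := by
        funext k
        exact (h1 ⟨k, by omega⟩ (Or.inl k.2)).symm
      have h6 : crZ (m := m) (p := p) y x q ⟨m + p, by omega⟩ = x ⟨m + p, by omega⟩ := h3
      rw [h4, h5, h6, mul_comm]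

end Pool.Agent.KS
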