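import Pool.Agent.Work.MP_ab49bb_gt.Sat.HB
import Pool.Agent.Work.MP_ab49bb_gt.Sat.RH

/-!
# DS (S-M): the double braiding on `V_b ⊗ V_a`

`one_way`: `RM V_b V_a *ᵥ hv b a m` is a highest weight vector of `V_a ⊗ V_b` of weight `b + a - 2m` (`RM_hom`, `Hom.hw`), so by `hw_cases` it is `c • hv a b m` (the `m` is determined by the weight; if it is `0` take `c = 0`), and
`c` is its coordinate `(0, m)` (`hv a b m (0, m) = hc … 0 = 1`): `∑_(i,j) RM ((0,m)) ((i,j)) hv (i,j)`. A term of `RM` is `(E^l) m i (F^l) 0 j`; `(F^l) 0 j ≠ 0` forces `l = 0`, `j = 0` (`F_pow_wt`: `a = (a - 2j) - 2l`), then `i = m`, and the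
value is `v^((b - 2m) a) hc u b a m m`.
`dbl`: apply `one_way` twice; `v^((b-2m)a + (a-2m)b) hc u b a m m hc u a b m m` and `hc_full` of KT/Hv (`= v^(-2m(b+a) + 4m² - 4m)`): exponent `2ab - 2m(a+b) - 2m(a+b) + 4m² - 4m`.
-/

set_option autoImplicit false

open Matrix Filter Topology

namespace Pool.Agent.KS

open Pool.Agent.KT

variable {u : ℝˣ}

private theorem rco_zero' : rco u 0 = 1 := by
  unfold rco qf
  simp [pw_zero]

private theorem RM_row (hu : 1 < (u : ℝ)) {b a m : ℕ} (hb : m ≤ b)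
    (x : Fin (b + 1) × Fin (a + 1)) :
    RM (VQ u hu b) (VQ u hu a) ((0 : Fin (a + 1)), (⟨m, Nat.lt_succ_of_le hb⟩ : Fin (b + 1))) x =
      if x = (⟨m, Nat.lt_succ_of_le hb⟩, 0) then pw u (((b : ℤ) - 2 * m) * a) else 0 := by
  have hw0 : (VQ u hu a).wt 0 = (a : ℤ) := by
    show vw a 0 = (a : ℤ)
    unfold vw
    simp
  have hwm : (VQ u hu b).wt ⟨m, Nat.lt_succ_of_le hb⟩ = (b : ℤ) - 2 * m := rfl
  have hF : ∀ (l : ℕ) (j : Fin (a + 1)), ((VQ u hu a).F ^ l) 0 j ≠ 0 → l = 0 ∧ j = 0 := by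
    intro l j h
    have h1 := F_pow_wt (VQ u hu a) l 0 j h
    rw [hw0] at h1
    have h2 : (VQ u hu a).wt j = (a : ℤ) - 2 * (j : ℕ) := rfl
    rw [h2] at h1
    refine ⟨by omega, ?_⟩
    apply Fin.ext
    show (j : ℕ) = 0
    omega
  unfold RM
  rw [hw0, hwm]
  by_cases hx : x = (⟨m, Nat.lt_succ_of_le hb⟩, 0)
  · rw [if_pos hx, hx]
    rw [Finset.sum_eq_single 0]
    · rw [rco_zero', pow_zero, pow_zero, Matrix.one_apply_eq, Matrix.one_apply_eq]
      ring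
    · intro l _ hl
      have h3 : ((VQ u hu a).F ^ l) 0 0 = 0 := by
        by_contra hcon
        exact hl (hF l 0 hcon).1
      show rco u l * _ * ((VQ u hu a).F ^ l) 0 0 = 0
      rw [h3, mul_zero]
    · intro h
      exact absurd (Finset.mem_range.mpr (Nat.succ_pos _)) h
  · rw [if_neg hx]
    have h4 : ∑ l ∈ Finset.range (Fintype.card (Fin (b + 1)) + 1),
        rco u l * ((VQ u hu b).E ^ l) ⟨m, Nat.lt_succ_of_le hb⟩ x.1 *
          ((VQ u hu a).F ^ l) 0 x.2 = 0 := by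
      refine Finset.sum_eq_zero fun l _ => ?_
      by_contra hcon
      have h5 : ((VQ u hu a).F ^ l) 0 x.2 ≠ 0 := right_ne_zero_of_mul hcon
      have h6 : ((VQ u hu b).E ^ l) ⟨m, Nat.lt_succ_of_le hb⟩ x.1 ≠ 0 :=
        right_ne_zero_of_mul (left_ne_zero_of_mul hcon)
      obtain ⟨h7, h8⟩ := hF l x.2 h5
      subst h7
      rw [pow_zero] at h6
      have h9 : (⟨m, Nat.lt_succ_of_le hb⟩ : Fin (b + 1)) = x.1 := by
        by_contra hne
        exact h6 (Matrix.one_apply_ne hne)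
      exact hx (Prod.ext h9.symm h8)
    rw [h4, mul_zero]

theorem one_way (hu : 1 < (u : ℝ)) {b a m : ℕ} (hb : m ≤ b) (ha : m ≤ a) :
    RM (VQ u hu b) (VQ u hu a) *ᵥ hv u b a m =
      (pw u (((b : ℤ) - 2 * m) * a) * hc u b a m m) • hv u a b m := by
  have h1 := (RM_hom hu (VQ u hu b) (VQ u hu a)).hw (hv_hw hu hb ha)
  obtain ⟨c, hc'⟩ : ∃ c : ℝ, RM (VQ u hu b) (VQ u hu a) *ᵥ hv u b a m = c • hv u a b m := by
    rcases hw_cases hu h1 with h2 | ⟨m', hm1, hm2, hs, c, hc'⟩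
    · exact ⟨0, by rw [h2, zero_smul]⟩
    · have h3 : m' = m := by omega
      subst h3
      exact ⟨c, hc'⟩
  have h4 : (RM (VQ u hu b) (VQ u hu a) *ᵥ hv u b a m)
      ((0 : Fin (a + 1)), (⟨m, Nat.lt_succ_of_le hb⟩ : Fin (b + 1))) =
      pw u (((b : ℤ) - 2 * m) * a) * hc u b a m m := by
    rw [Matrix.mulVec, dotProduct]
    have h5 : ∀ x : Fin (b + 1) × Fin (a + 1),
        RM (VQ u hu b) (VQ u hu a) ((0 : Fin (a + 1)), (⟨m, Nat.lt_succ_of_le hb⟩ : Fin (b + 1)))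
          x * hv u b a m x =
        if x = (⟨m, Nat.lt_succ_of_le hb⟩, 0) then
          pw u (((b : ℤ) - 2 * m) * a) * hv u b a m x else 0 := by
      intro x
      rw [RM_row hu hb x]
      split_ifs
      · rfl
      · rw [zero_mul]
    rw [Finset.sum_congr rfl fun x _ => h5 x, Finset.sum_ite_eq', if_pos (Finset.mem_univ _)]
    congr 1
    unfold hv
    simp
  have h6 : hv u a b m ((0 : Fin (a + 1)), (⟨m, Nat.lt_succ_of_le hb⟩ : Fin (b + 1))) = 1 := by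
    unfold hv
    simp [hc]
  rw [hc'] at h4
  rw [Pi.smul_apply, h6, smul_eq_mul, mul_one] at h4
  rw [hc', h4]

theorem dbl (hu : 1 < (u : ℝ)) {b a m : ℕ} (hb : m ≤ b) (ha : m ≤ a) :
    (RM (VQ u hu a) (VQ u hu b) * RM (VQ u hu b) (VQ u hu a)) *ᵥ hv u b a m =
      pw u (2 * b * a - 4 * m * ((b : ℤ) + a) + 4 * (m : ℤ) ^ 2 - 4 * m) • hv u b a m := by
  rw [← Matrix.mulVec_mulVec, one_way hu hb ha, Matrix.mulVec_smul, one_way hu ha hb, smul_smul]
  congr 1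
  have h1 := hc_full hu hb ha
  have h2 : pw u (((b : ℤ) - 2 * m) * a) * hc u b a m m *
      (pw u (((a : ℤ) - 2 * m) * b) * hc u a b m m) =
      pw u (((b : ℤ) - 2 * m) * a) * pw u (((a : ℤ) - 2 * m) * b) *
        (hc u b a m m * hc u a b m m) := by ring
  rw [h2, h1, ← pw_add, ← pw_add]
  congr 1
  ring

end Pool.Agent.KS
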