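import Pool.Agent.Work.MP_ab49bb_gt.Defs

/-!
# The coloured Jones polynomial of closed braids and satellites (definitions). FIXED, do not change.

A braid word on `n` strands is a list of letters `(k, b)`: `(k, true)` is the generator `σ_k` on the
strands `k, k + 1` (counted from `0`), `(k, false)` its inverse. `wR n R w` is the matrix of the word
on the functions `Fin n → ι` (the `n`-th tensor power), for a braiding matrix `R` of `ι × ι`. With the
braiding `S v a` of `Pool/Agent/Work/MP_ab49bb_gt/Defs.lean`, `cj n w c` is the unnormalised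
`c`-coloured Jones polynomial (zero framing) of the closure of `w`, in the variable `v = T`.

`sat m β d P` is the word of the satellite: the `m`-cable of the word `β`, followed by `d` negative full
twists and by the pieces `P` on the first `m` strands.
-/

set_option autoImplicit false

open Matrix

namespace Pool.Agent.KS

/-- a letter of a braid word -/
abbrev Lt : Type := ℕ × Bool

section Rep

variable {A : Type*} [CommRing A]

/-- `X` acting on the coordinates `k, k + 1` -/
def at2 {ι : Type} [DecidableEq ι] (n : ℕ) (X : Matrix (ι × ι) (ι × ι) A) (k : ℕ) :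
    Matrix (Fin n → ι) (Fin n → ι) A :=
  if h : k + 1 < n then fun x y =>
    if ∀ i : Fin n, (i : ℕ) ≠ k → (i : ℕ) ≠ k + 1 → x i = y i then
      X (x ⟨k, by omega⟩, x ⟨k + 1, h⟩) (y ⟨k, by omega⟩, y ⟨k + 1, h⟩) else 0
  else 1

/-- the matrix of a braid word for the braiding `R` -/
noncomputable def wR {ι : Type} [Fintype ι] [DecidableEq ι] (n : ℕ) (R : Matrix (ι × ι) (ι × ι) A)
    (w : List Lt) : Matrix (Fin n → ι) (Fin n → ι) A :=
  (w.map fun l => if l.2 then at2 n R l.1 else (at2 n R l.1)⁻¹).prod

/-- the exponent sum -/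
def ex (w : List Lt) : ℤ := (w.map fun l => if l.2 then 1 else -1).sum

variable (v : Aˣ)

/-- the matrix of `K ⊗ ⋯ ⊗ K` -/
def km (n a : ℕ) : Matrix (Fin n → Fin (a + 1)) (Fin n → Fin (a + 1)) A :=
  Matrix.diagonal fun x => KT.pw v (2 * ∑ i, ((a : ℤ) - 2 * (x i : ℕ)))

/-- the quantum trace of a braid word on `n` strands with the framing correction -/
noncomputable def jt (n a : ℕ) (w : List Lt) : A :=
  KT.pw v (-(ex w * (a * (a + 2)))) * (wR n (KT.S v a) w * km v n a).trace

end Rep

open LaurentPolynomial

/-- The `c`-coloured Jones polynomial of the closure of the word `w` on `n` strands. -/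
noncomputable def cj (n : ℕ) (w : List Lt) (c : ℕ) : ℤ[T;T⁻¹] := jt KT.tu n (c - 1) w

/-- the permutation of a letter -/
def swp (n k : ℕ) : Equiv.Perm (Fin n) :=
  if h : k + 1 < n then Equiv.swap ⟨k, by omega⟩ ⟨k + 1, h⟩ else 1

/-- the permutation of a braid word -/
def perm (n : ℕ) (w : List Lt) : Equiv.Perm (Fin n) := (w.map fun l => swp n l.1).prod

/-- `w` is a braid word on `n` strands and its closure is a knot -/
def IsKnot (n : ℕ) (w : List Lt) : Prop :=
  0 < n ∧ (∀ l ∈ w, l.1 + 1 < n) ∧ ∀ i j : Fin n, ∃ k : ℕ, (perm n w ^ k) i = j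

/-- the inverse word -/
def inv (w : List Lt) : List Lt := (w.map fun l => (l.1, !l.2)).reverse

/-- The positive crossing of two bundles of `m` parallel strands, which start at the strand `s`. -/
def cross (m s : ℕ) : List Lt :=
  (List.range m).reverse.flatMap fun j => (List.range m).map fun t => (s + j + t, true)

/-- the `m`-cable of a braid word -/
def cab (m : ℕ) (w : List Lt) : List Lt :=
  w.flatMap fun l => if l.2 then cross m (l.1 * m) else inv (cross m (l.1 * m))

/-- the positive full twist on the strands `0, …, r - 1` -/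
def ft : ℕ → List Lt
  | 0 => []
  | r + 1 => ft r ++ ((List.range r).reverse.map fun k => (k, true)) ++
      (List.range r).map fun k => (k, true)

/-- the word `w`, moved `i` strands to the right -/
def shift (i : ℕ) (w : List Lt) : List Lt := w.map fun l => (i + l.1, l.2)

/-- The pieces of a pattern: a letter `(k, b)`, or a negative full twist on the strands
`i, …, i + r - 1`. -/
inductive Piece where
  | cr (k : ℕ) (b : Bool)
  | tw (i r : ℕ)

/-- the word of a piece -/
def Piece.word : Piece → List Lt
  | .cr k b => [(k, b)]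
  | .tw i r => shift i (inv (ft r))

/-- the word of a list of pieces -/
def words (P : List Piece) : List Lt := P.flatMap Piece.word

/-- `M` is a noncrossing perfect matching of `0, …, m - 1`. -/
structure NC (m : ℕ) (M : ℕ → ℕ) : Prop where
  lt : ∀ i < m, M i < m
  inv : ∀ i < m, M (M i) = i
  ne : ∀ i < m, M i ≠ i
  nest : ∀ i < m, ∀ j, i < j → j < M i → i < M j ∧ M j < M i

/-- A piece is compatible with the matching `M`: a letter `σ_k` when `k, k + 1` are not matched with
each other, a letter `σ_k⁻¹` when they are, a negative full twist on an interval that is closed under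
`M`. -/
def Compat (m : ℕ) (M : ℕ → ℕ) : Piece → Prop
  | .cr k true => k + 1 < m ∧ M k ≠ k + 1
  | .cr k false => k + 1 < m ∧ M k = k + 1
  | .tw i r => i + r ≤ m ∧ ∀ j, i ≤ j → j < i + r → i ≤ M j ∧ M j < i + r

/-- the satellite word, on `N * m` strands when `β` is a word on `N` strands -/
def sat (m : ℕ) (β : List Lt) (d : ℕ) (P : List Piece) : List Lt :=
  cab m β ++ (List.replicate d (inv (ft m))).flatten ++ words P

/-- `1` for a letter `σ_k`, otherwise `0` -/
def Piece.np : Piece → ℕ
  | .cr _ true => 1
  | .cr _ false => 0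
  | .tw _ _ => 0

/-- `2` for a letter `σ_k⁻¹`, `r²` for a twist on `r` strands -/
def Piece.sl : Piece → ℕ
  | .cr _ true => 0
  | .cr _ false => 2
  | .tw _ r => r ^ 2

/-- the number of letters `σ_k` among the pieces -/
def np (P : List Piece) : ℕ := (P.map Piece.np).sum

/-- twice the number of letters `σ_k⁻¹` plus the sum of `r²` over the twists on `r` strands -/
def sl (P : List Piece) : ℕ := (P.map Piece.sl).sum

/-- For all large `c`, the maximal degree of the `c`-coloured Jones polynomial is
`a_j c^2 + 2 b_j c + c_j`, where `j = c mod p`. -/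
def DegQ (n : ℕ) (w : List Lt) (p : ℕ) (a b c : ℕ → ℚ) : Prop :=
  0 < p ∧ ∃ L : ℕ, ∀ k ≥ L, ∃ D : ℤ, (cj n w k).degree = (D : WithBot ℤ) ∧
    (D : ℚ) = a (k % p) * k ^ 2 + 2 * b (k % p) * k + c (k % p)

end Pool.Agent.KS
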