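import Pool.Agent.Work.MP_ab49bb_gt.Sat.H2
import Pool.Agent.Work.MP_ab49bb_gt.Sat.Ew
import Pool.Agent.Work.MP_ab49bb_gt.Sat.Cs
import Pool.Agent.Work.MP_ab49bb_gt.Sat.RH

/-!
# Dn (M): the first strand moves to the right

`dnw r = [σ_(r-1), …, σ_0]` on `r + 1` strands (the last letter `σ_0` acts first) is the braiding `M ⊗ TP M r → TP M r ⊗ M`. Induction on `r`.
`r = 0`: the empty word; `RM M (TP M 0)` is the identity (`F = 0`, weight `0` on the module `TP M 0`).
Step: `dnw (r+1) = shift 1 (dnw r) ++ [(0, true)]`. `at2 (r+2) (RM M M) 0`: entry `(z, x)` nonzero only if `z, x` agree from the coordinate `2` on: `RM M M (z 0, z 1) (x 0, x 1)`. By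
`wR_cons_strand` the matrix of `shift 1 (dnw r)` at `(y, z)` is `[y 0 = z 0] RM M (TP M r) (init (tail y), y last) (z 1, tail (tail z))`. In the sum over `z` only `z = (y 0, q, x 2, …)` remain:
`∑_q RM M M (y 0, q) (x 0, x 1) * RM M (TP M r) (init (tail y), y last) (q, (x 2, …))`. On the other side `TP M (r+1) = cong (tn M (TP M r)) (cse ι r)`; by `RM_iso` and `hex2` with
`N = M`, `P = TP M r`: row `((y 0, tail (init y)), y last)`, column `(x 0, (x 1, (x 2, …)))`: `∑_q RM M M (y 0, q) (x 0, x 1) * RM M (TP M r) (tail (init y), y last) (q, (x 2, …))`. Equal.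
-/

set_option autoImplicit false

open Matrix Filter Topology

namespace Pool.Agent.KS

open Pool.Agent.KT

variable {u : ℝˣ} {ι : Type} [Fintype ι] [DecidableEq ι]

omit [DecidableEq ι] in
private theorem dn_sum {n : ℕ} (F : (Fin (n + 1) → ι) → ℝ) :
    ∑ z, F z = ∑ a, ∑ g : Fin n → ι, F (Fin.cons a g) := by
  rw [← Fintype.sum_prod_type' (f := fun a (g : Fin n → ι) => F (Fin.cons a g))]
  refine Fintype.sum_equiv (cse ι n) _ _ fun z => ?_
  show F z = F (Fin.cons (z 0) (Fin.tail z))
  rw [Fin.cons_self_tail]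

omit [Fintype ι] in
private theorem dn_at2 {r : ℕ} (R : Matrix (ι × ι) (ι × ι) ℝ) (a b : ι) (g : Fin r → ι)
    (x : Fin (r + 2) → ι) :
    at2 (r + 2) R 0 (Fin.cons a (Fin.cons b g)) x =
      if g = Fin.tail (Fin.tail x) then R (a, b) (x 0, Fin.tail x 0) else 0 := by
  unfold at2
  rw [dif_pos (by omega : 0 + 1 < r + 2)]
  by_cases h : g = Fin.tail (Fin.tail x)
  · rw [if_pos h, if_pos]
    · rfl
    · intro i h0 h1
      obtain ⟨j, rfl⟩ : ∃ j : Fin r, i = j.succ.succ :=
        ⟨⟨(i : ℕ) - 2, by omega⟩, Fin.ext (by simp only [Fin.val_succ]; omega)⟩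
      rw [Fin.cons_succ, Fin.cons_succ, h]
      rfl
  · rw [if_neg h, if_neg]
    intro hc
    apply h
    funext j
    have h1 := hc j.succ.succ (by simp only [Fin.val_succ]; omega)
      (by simp only [Fin.val_succ]; omega)
    rw [Fin.cons_succ, Fin.cons_succ] at h1
    exact h1

theorem wR_dn (hu : 1 < (u : ℝ)) (M : QM u ι) (r : ℕ) (y x : Fin (r + 1) → ι) :
    wR (r + 1) (RM M M) (dnw r) y x =
      RM M (TP M r) (Fin.init y, y (Fin.last r)) (x 0, Fin.tail x) := by
  induction r with
  | zero =>
    have h1 : wR (0 + 1) (RM M M) (dnw 0) = 1 := rfl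
    rw [h1]
    unfold RM
    rw [Finset.sum_eq_single 0]
    · have e1 : (TP M 0).wt (Fin.init y) = 0 := rfl
      have e2 : ((TP M 0).F ^ 0) (Fin.init y) (Fin.tail x) = 1 := by
        rw [pow_zero]
        have : Fin.init y = Fin.tail x := Subsingleton.elim (α := Fin 0 → ι) _ _
        rw [this, Matrix.one_apply_eq]
      show (1 : Matrix (Fin (0 + 1) → ι) (Fin (0 + 1) → ι) ℝ) y x =
        pw u (M.wt (y (Fin.last 0)) * (TP M 0).wt (Fin.init y)) *
          (rco u 0 * (M.E ^ 0) (y (Fin.last 0)) (x 0) *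
            ((TP M 0).F ^ 0) (Fin.init y) (Fin.tail x))
      rw [e1, e2, mul_zero, pw_zero, one_mul, mul_one, rco_zero, one_mul, pow_zero]
      by_cases h : y = x
      · rw [h, Matrix.one_apply_eq]
        exact (Matrix.one_apply_eq _).symm
      · rw [Matrix.one_apply_ne h, Matrix.one_apply_ne]
        intro h2
        apply h
        funext i
        have hi : i = 0 := Fin.ext (by have := i.isLt; simp only [Fin.val_zero]; omega)
        rw [hi]
        exact h2
    · intro l _ hl
      have e2 : (TP M 0).F ^ l = 0 := by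
        have e3 : (TP M 0).F = 0 := rfl
        rw [e3, zero_pow hl]
      rw [e2, Matrix.zero_apply, mul_zero]
    · intro h
      exact absurd (Finset.mem_range.2 (Nat.succ_pos _)) h
  | succ r ih =>
    have hR := isUnit_RM hu M
    have h1 : dnw (r + 1) = shift 1 (dnw r) ++ [(0, true)] := by
      unfold dnw shift
      rw [List.range_succ_eq_map, List.reverse_cons, List.map_append, ← List.map_reverse,
        List.map_map, List.map_map]
      congr 1
      refine List.map_congr_left fun k _ => ?_
      show (k + 1, true) = (1 + k, true)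
      rw [add_comm]
    have h2 : wR (r + 1 + 1) (RM M M) [(0, true)] = at2 (r + 2) (RM M M) 0 := by
      unfold wR
      rw [List.map_cons, List.map_nil, List.prod_cons, List.prod_nil, mul_one]
      rfl
    have hw : ∀ l ∈ dnw r, l.1 + 1 < r + 1 := by
      intro l hl
      unfold dnw at hl
      rw [List.mem_map] at hl
      obtain ⟨k, hk, rfl⟩ := hl
      rw [List.mem_reverse, List.mem_range] at hk
      show k + 1 < r + 1
      omega
    have h3 : RM M (TP M (r + 1)) (Fin.init y, y (Fin.last (r + 1))) (x 0, Fin.tail x) =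
        ∑ q, RM M M (y 0, q) (x 0, Fin.tail x 0) *
          RM M (TP M r) (Fin.tail (Fin.init y), y (Fin.last (r + 1)))
            (q, Fin.tail (Fin.tail x)) := by
      have h4 := RM_iso (Iso.refl M) (TP_cons M r) (Fin.init y, y (Fin.last (r + 1)))
        (x 0, Fin.tail x)
      have h5 := hex2 hu M M (TP M r) (y (Fin.last (r + 1))) (x 0) (y 0) (Fin.tail x 0)
        (Fin.tail (Fin.init y)) (Fin.tail (Fin.tail x))
      exact h4.trans h5
    rw [h3, h1, wR_append, Matrix.mul_apply, dn_sum, h2]
    have h6 : ∀ (a : ι) (g : Fin (r + 1) → ι),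
        wR (r + 1 + 1) (RM M M) (shift 1 (dnw r)) y (Fin.cons a g) =
          if y 0 = a then RM M (TP M r) (Fin.tail (Fin.init y), y (Fin.last (r + 1)))
            (g 0, Fin.tail g) else 0 := by
      intro a g
      rw [wR_cons_strand hR hw, Fin.cons_zero, Fin.tail_cons, ih, Fin.tail_init_eq_init_tail]
      rfl
    rw [Finset.sum_eq_single (y 0)]
    · rw [dn_sum]
      refine Finset.sum_congr rfl fun b _ => ?_
      rw [Finset.sum_eq_single (Fin.tail (Fin.tail x))]
      · rw [h6, if_pos rfl, dn_at2, if_pos rfl, Fin.cons_zero, Fin.tail_cons, mul_comm]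
      · intro g _ hg
        rw [dn_at2, if_neg hg, mul_zero]
      · intro h
        exact absurd (Finset.mem_univ _) h
    · intro a _ ha
      refine Finset.sum_eq_zero fun g _ => ?_
      rw [h6, if_neg (Ne.symm ha), zero_mul]
    · intro h
      exact absurd (Finset.mem_univ _) h

end Pool.Agent.KS
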