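import Pool.Agent.Work.MP_ab49bb_gt.Sat.Em
import Pool.Agent.Work.MP_ab49bb_gt.Lau

/-!
# Ev (S-M): specialisation and degree

Copy KT/Mp: the evaluation `LaurentPolynomial.eval₂ (Int.castRingHom ℝ) (ru v)` is a ring homomorphism; it maps `pw`, `br`, `gb`, `rc`, the entries of `S`, of `at2 n (S …) k`, their inverses (`IsUnit (S v a)`: `isUnit_S` of KT/Det; `isUnit_at2` of Em, for matrices over any commutative ring of `Type`), `km` and the
trace. `cj_eval`. The lemmas of KT/Mp are private there: copy them.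
`cj_deg`: if `J(v) v^(-D) → c ≠ 0`, then `|c|/2 v^D ≤ |J(v)| ≤ 2 |c| v^D` for large `v`; `deg_of_growth` of KT/Lau.
-/

set_option autoImplicit false

open Matrix Filter Topology

namespace Pool.Agent.KS

open Pool.Agent.KT

section Map

variable {A B : Type} [CommRing A] [CommRing B] (f : A →+* B) (v : Aˣ)

private theorem map_pw (m : ℤ) : f (pw v m) = pw (Units.map (f : A →* B) v) m := by
  rw [pw, pw, ← map_zpow, Units.coe_map]
  rfl

private theorem map_br (m : ℤ) : f (br v m) = br (Units.map (f : A →* B) v) m := by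
  rw [br, br, map_sub, map_pw, map_pw]

private theorem map_gb : ∀ n k : ℕ, f (gb v n k) = gb (Units.map (f : A →* B) v) n k
  | _, 0 => by rw [gb, gb, map_one]
  | 0, _ + 1 => by rw [gb, gb, map_zero]
  | n + 1, k + 1 => by
    rw [gb, gb, map_add, map_mul, map_mul, map_pw, map_pw, map_gb n (k + 1), map_gb n k]

private theorem map_rc (a i j l : ℕ) : f (rc v a i j l) = rc (Units.map (f : A →* B) v) a i j l := by
  rw [rc, rc, map_mul, map_mul, map_pw, map_gb, map_prod]
  congr 1
  exact Finset.prod_congr rfl fun s _ => map_br f v _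

private theorem map_S (a : ℕ) : f.mapMatrix (S v a) = S (Units.map (f : A →* B) v) a := by
  ext x y
  rw [RingHom.mapMatrix_apply, Matrix.map_apply]
  unfold S
  split_ifs
  · exact map_rc f v _ _ _ _
  · exact map_zero f

private theorem map_inv' {n : Type} [Fintype n] [DecidableEq n] {X : Matrix n n A} (hX : IsUnit X) :
    f.mapMatrix X⁻¹ = (f.mapMatrix X)⁻¹ := by
  symm
  apply Matrix.inv_eq_right_inv
  rw [← map_mul, Matrix.mul_nonsing_inv X ((Matrix.isUnit_iff_isUnit_det X).1 hX), map_one]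

private theorem map_at2 {ι : Type} [Fintype ι] [DecidableEq ι] (n : ℕ)
    (R : Matrix (ι × ι) (ι × ι) A) (k : ℕ) :
    f.mapMatrix (at2 n R k) = at2 n (f.mapMatrix R) k := by
  by_cases h : k + 1 < n
  · ext x y
    rw [RingHom.mapMatrix_apply, Matrix.map_apply]
    unfold at2
    rw [dif_pos h, dif_pos h]
    split_ifs
    · rfl
    · exact map_zero f
  · unfold at2
    rw [dif_neg h, dif_neg h, map_one]

private theorem map_wR {ι : Type} [Fintype ι] [DecidableEq ι] (n : ℕ)
    {R : Matrix (ι × ι) (ι × ι) A} (hR : IsUnit R) (w : List Lt) :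
    f.mapMatrix (wR n R w) = wR n (f.mapMatrix R) w := by
  unfold wR
  rw [map_list_prod, List.map_map]
  congr 1
  refine List.map_congr_left fun l _ => ?_
  show f.mapMatrix (if l.2 then at2 n R l.1 else (at2 n R l.1)⁻¹) =
    if l.2 then at2 n (f.mapMatrix R) l.1 else (at2 n (f.mapMatrix R) l.1)⁻¹
  by_cases hl : l.2 = true
  · rw [if_pos hl, if_pos hl, map_at2]
  · rw [if_neg hl, if_neg hl, map_inv' f (isUnit_at2 n l.1 hR), map_at2]

private theorem map_km (n a : ℕ) : f.mapMatrix (km v n a) = km (Units.map (f : A →* B) v) n a := by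
  unfold km
  rw [RingHom.mapMatrix_apply, Matrix.diagonal_map (map_zero f)]
  congr 1
  funext x
  exact map_pw f v _

private theorem map_jt (n a : ℕ) (w : List Lt) :
    f (jt v n a w) = jt (Units.map (f : A →* B) v) n a w := by
  unfold jt
  rw [map_mul, map_pw, ← map_S f v a, ← map_wR f n (isUnit_S v a) w, ← map_km f v n a, ← map_mul]
  congr 1
  exact AddMonoidHom.map_trace (f : A →+ B) _

end Map

theorem cj_eval (n : ℕ) (w : List Lt) (c : ℕ) (v : ℝ) :
    LaurentPolynomial.eval₂ (Int.castRingHom ℝ) (ru v) (cj n w c) = jt (ru v) n (c - 1) w := by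
  unfold cj
  rw [map_jt]
  congr 1
  ext
  show LaurentPolynomial.eval₂ (Int.castRingHom ℝ) (ru v) (LaurentPolynomial.T 1) = (ru v : ℝ)
  rw [LaurentPolynomial.eval₂_T, zpow_one]

theorem cj_deg {n : ℕ} {w : List Lt} {c : ℕ} {D : ℤ} {l : ℝ} (hl : l ≠ 0)
    (h : Tendsto (fun v => jt (ru v) n (c - 1) w * v ^ (-D)) atTop (𝓝 l)) :
    (cj n w c).degree = (D : WithBot ℤ) := by
  have h0 : 0 < |l| := abs_pos.2 hl
  refine deg_of_growth (cj n w c) D (|l| / 2) (2 * |l|) (by linarith) ?_
  have h1 := h.abs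
  have h2 := h1.eventually (lt_mem_nhds (show |l| / 2 < |l| by linarith))
  have h3 := h1.eventually (gt_mem_nhds (show |l| < 2 * |l| by linarith))
  filter_upwards [h2, h3, eventually_gt_atTop (0 : ℝ)] with v a1 a2 hv
  rw [cj_eval]
  have hp : 0 < v ^ D := zpow_pos hv D
  have e1 : |jt (ru v) n (c - 1) w| = |jt (ru v) n (c - 1) w * v ^ (-D)| * v ^ D := by
    rw [abs_mul, abs_of_pos (zpow_pos hv (-D)), mul_assoc, ← zpow_add₀ hv.ne', neg_add_cancel,
      zpow_zero, mul_one]
  rw [e1]
  exact ⟨mul_le_mul_of_nonneg_right a1.le hp.le, mul_le_mul_of_nonneg_right a2.le hp.le⟩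

end Pool.Agent.KS
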