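import Pool.Agent.Work.MP_ab49bb_gt.Sat.RD

/-!
# Un (S): uniqueness of the quadratic polynomial

If the degree is `A c² + 2 B c + C` for all `c ≥ 1` and `DegQ n w p a b c'`, then for `j < p` the two quadratic polynomials `A x² + 2 B x + C` and `a_j x² + 2 b_j x + c_j` agree at all `x = j + p k`, `k` large, so they have the same coefficients. See the proof of `degneg_all` in KT/Uq (three consecutive values of `k`).
-/

set_option autoImplicit false

open Matrix Filter Topology

namespace Pool.Agent.KS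

open Pool.Agent.KT

theorem degq_unique {n : ℕ} {w : List Lt} {A B C : ℚ}
    (h : ∀ k : ℕ, 1 ≤ k → ∃ D : ℤ, (cj n w k).degree = (D : WithBot ℤ) ∧
      (D : ℚ) = A * k ^ 2 + 2 * B * k + C)
    {p : ℕ} {a b c : ℕ → ℚ} (hq : DegQ n w p a b c) : ∀ j < p, b j = B := by
  intro j hj
  obtain ⟨hp, L, hL⟩ := hq
  have key : ∀ k : ℕ, (a j - A) * ((j + p * (L + 1 + k) : ℕ) : ℚ) ^ 2 +
      2 * (b j - B) * ((j + p * (L + 1 + k) : ℕ) : ℚ) + (c j - C) = 0 := by
    intro k
    have hn : L + 1 + k ≤ j + p * (L + 1 + k) :=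
      (Nat.le_mul_of_pos_left _ hp).trans (Nat.le_add_left _ _)
    obtain ⟨D, h1, h2⟩ := h (j + p * (L + 1 + k)) (by omega)
    obtain ⟨D', h3, h4⟩ := hL (j + p * (L + 1 + k)) (by omega)
    have e1 : (j + p * (L + 1 + k)) % p = j := by
      rw [Nat.add_mul_mod_self_left, Nat.mod_eq_of_lt hj]
    rw [h1] at h3
    have e3 : D = D' := by exact_mod_cast h3
    rw [e1] at h4
    rw [← e3, h2] at h4
    linear_combination -h4
  have hp' : (0 : ℚ) < (p : ℕ) := by exact_mod_cast hp
  have k0 := key 0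
  have k1 := key 1
  have k2 := key 2
  set m : ℚ := (p : ℚ) with hmdef
  set n' : ℚ := ((j + p * (L + 1) : ℕ) : ℚ) with hndef
  have c1 : ((j + p * (L + 1 + 1) : ℕ) : ℚ) = n' + m := by
    rw [hndef, hmdef]; push_cast; ring
  have c2 : ((j + p * (L + 1 + 2) : ℕ) : ℚ) = n' + 2 * m := by
    rw [hndef, hmdef]; push_cast; ring
  rw [c1] at k1
  rw [c2] at k2
  have hα : a j - A = 0 := by
    have h1 : (a j - A) * (2 * m ^ 2) = 0 := by
      linear_combination k2 - 2 * k1 + k0
    exact (mul_eq_zero.1 h1).resolve_right (by positivity)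
  rw [hα] at k0 k1
  have hβ : b j - B = 0 := by
    have h1 : (b j - B) * (2 * m) = 0 := by
      linear_combination k1 - k0
    exact (mul_eq_zero.1 h1).resolve_right (by positivity)
  linarith

end Pool.Agent.KS
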