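import Pool.Agent.Work.MP_ab49bb_gt.Sat.As
import Pool.Agent.Work.MP_ab49bb_gt.Sat.Ev
import Pool.Agent.Work.MP_ab49bb_gt.Sat.Un

/-!
# Fin: assembly
-/

set_option autoImplicit false

open Matrix Filter Topology

namespace Pool.Agent.KS

open Pool.Agent.KT

theorem main {N m : ℕ} {β : List Lt} (hβ : IsKnot N β) {M : ℕ → ℕ} (hM : NC m M)
    {P : List Piece} (hP : ∀ p ∈ P, Compat m M p) {d : ℕ} (hd : β.length + N ≤ d) :
    (∀ k : ℕ, 1 ≤ k → (cj (N * m) (sat m β d P) k).degree =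
      ((((m : ℤ) ^ 2 * (d - ex β) + sl P) * ((k : ℤ) ^ 2 - 1) - 2 * np P * (k - 1) : ℤ) :
        WithBot ℤ)) ∧
    (∃ p a b c, DegQ (N * m) (sat m β d P) p a b c) ∧
    ∀ p a b c, DegQ (N * m) (sat m β d P) p a b c → ∀ j < p, b j = -(np P : ℚ) := by
  have h1 : ∀ k : ℕ, 1 ≤ k → (cj (N * m) (sat m β d P) k).degree =
      ((((m : ℤ) ^ 2 * (d - ex β) + sl P) * ((k : ℤ) ^ 2 - 1) - 2 * np P * (k - 1) : ℤ) :
        WithBot ℤ) := by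
    intro k hk
    obtain ⟨l, hl, hlim⟩ := jt_lim hβ hM hP hd (k - 1)
    refine cj_deg hl ?_
    have e : (((m : ℤ) ^ 2 * (d - ex β) + sl P) * ((k : ℤ) ^ 2 - 1) - 2 * np P * (k - 1) : ℤ) =
        ((m : ℤ) ^ 2 * (d - ex β) + sl P) * (((k - 1 : ℕ) : ℤ) * (((k - 1 : ℕ) : ℤ) + 2)) -
          2 * np P * ((k - 1 : ℕ) : ℤ) := by
      rw [Nat.cast_sub hk]
      push_cast
      ring
    rw [e]
    exact hlim
  have h2 : ∀ k : ℕ, 1 ≤ k → ∃ D : ℤ, (cj (N * m) (sat m β d P) k).degree = (D : WithBot ℤ) ∧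
      (D : ℚ) = ((m : ℚ) ^ 2 * (d - ex β) + sl P) * k ^ 2 + 2 * (-(np P : ℚ)) * k +
        (2 * np P - ((m : ℚ) ^ 2 * (d - ex β) + sl P)) := by
    intro k hk
    refine ⟨_, h1 k hk, ?_⟩
    push_cast
    ring
  refine ⟨h1, ⟨1, fun _ => (m : ℚ) ^ 2 * (d - ex β) + sl P, fun _ => -(np P : ℚ),
    fun _ => 2 * np P - ((m : ℚ) ^ 2 * (d - ex β) + sl P), one_pos, 1, fun k hk => ?_⟩, ?_⟩
  · obtain ⟨D, hD, hD'⟩ := h2 k hk
    exact ⟨D, hD, hD'⟩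
  · intro p a b c hq
    exact degq_unique h2 hq

end Pool.Agent.KS
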