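import Pool.Agent.Work.MP_ab49bb_gt.Sat.RD

/-!
# HB (M): the highest weight vectors of `V_b ⊗ V_a`

This is KT/Hv (there for `b = a`) for two different colours; copy the proofs. `hv u b a m = ∑_i c_i e_i ⊗ e_(m-i)`, `c_i = hc u b a m i`, `c_(i+1) = - c_i v^(-2(a-2m+2i+2)) [a-m+i+1]/[b-i]`.
`hv_hw` (`um_hw`): weight `(b - 2i) + (a - 2(m-i)) = b + a - 2m`. The coordinate `(p, q)`, `p + q = m - 1`, of `E hv` is `[a-q] c_p + v^(2(a-2q)) [b-p] c_(p+1) = 0` (`tE` with `E' e_(q+1) = [a-q] e_q`, `E e_(p+1) = [b-p] e_p`), `q = m-1-p`.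
`hv_ip` (`um_norm` in KT/Oa): `∑_(p,q) vN b p vN a q hv(p,q)^2`, only `p + q = m`. `hvn_pos`: the term `i = 0` is `vN a m > 0` (`vN_pos`), the others are `≥ 0`.
`hw_cases` (`hw_uniq`, `hw_none`): let `x` be a highest weight vector of weight `s`. If `s < 0`: `x = 0` (`QM.hw_nonneg`). If no `n` with `s = b + a - 2n`, `n ≤ a + b`, exists, then `x = 0` by weights. Let `s = b + a - 2m ≥ 0`. Only the coordinates
`(p, q)` with `p + q = m` are nonzero, and `E x = 0` gives at `(p, q)`, `p + q = m - 1`: `v^(2(a-2q)) [b-p] x(p+1,q) = - [a-q] x(p,q+1)` where `x(p+1, q) := 0` if `p + 1 > b` and `x(p, q+1) := 0` if `q + 1 > a`.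
If `m ≤ a` and `m ≤ b`: `x` is determined by `x(0,m)` (`[b-p] ≠ 0` for `p < m ≤ b`), `x = x(0,m) • hv`. If `m > a` (then `m ≤ b`, since `2m ≤ a + b`): the coordinates are `p = m-a, …, m`; at `p = m-a-1`, `q = a`:
`[b-p] x(m-a, a) = 0`, so `x(m-a,a) = 0`, and the recursion upwards gives `x = 0`. If `m > b` (then `m ≤ a`): the coordinates are `p = 0, …, b`; at `p = b`, `q = m-1-b`: the left side is `0` (`p + 1 > b`), so `[a-q] x(b, m-b) = 0`, `a - q > 0`, `x(b, m-b) = 0`, and the
recursion downwards (`[a-q] ≠ 0`) gives `x = 0`.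
-/

set_option autoImplicit false

open Matrix Filter Topology

namespace Pool.Agent.KS

open Pool.Agent.KT

variable {u : ℝˣ}

private theorem hc_succ' (b b' m : ℤ) (i : ℕ) : hc u b b' m (i + 1) =
    -(hc u b b' m i * pw u (-(2 * (b' - 2 * m + 2 * i + 2))) * qn u (b' - m + i + 1) /
      qn u (b - i)) := rfl

/-- extension by zero -/
private noncomputable def xx {b a : ℕ} (x : Fin (b + 1) × Fin (a + 1) → ℝ) (p q : ℕ) : ℝ :=
  if h : p < b + 1 ∧ q < a + 1 then x (⟨p, h.1⟩, ⟨q, h.2⟩) else 0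

private theorem xx_eq {b a : ℕ} (x : Fin (b + 1) × Fin (a + 1) → ℝ) (p : Fin (b + 1))
    (q : Fin (a + 1)) : xx x p q = x (p, q) := by
  unfold xx
  rw [dif_pos ⟨p.2, q.2⟩]

private theorem E_apply (hu : 1 < (u : ℝ)) {b a : ℕ} (x : Fin (b + 1) × Fin (a + 1) → ℝ)
    (p : Fin (b + 1)) (q : Fin (a + 1)) :
    ((tn (VQ u hu b) (VQ u hu a)).E *ᵥ x) (p, q) =
      qn u ((a : ℤ) - (q : ℕ)) * xx x p (q + 1) +
        qn u ((b : ℤ) - (p : ℕ)) * pw u (2 * vw a q) * xx x (p + 1) q := by
  have hE : ∀ y : Fin (b + 1) × Fin (a + 1), (tn (VQ u hu b) (VQ u hu a)).E (p, q) y =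
      (if p = y.1 then vE u a q y.2 else 0) +
        if q = y.2 then vE u b p y.1 * pw u (2 * vw a y.2) else 0 := fun y => rfl
  rw [Matrix.mulVec, dotProduct, Fintype.sum_prod_type]
  simp only [hE, add_mul]
  simp only [Finset.sum_add_distrib]
  congr 1
  · rw [Finset.sum_eq_single p]
    · simp only [if_true]
      by_cases hq : (q : ℕ) + 1 < a + 1
      · rw [Finset.sum_eq_single (⟨(q : ℕ) + 1, hq⟩ : Fin (a + 1))]
        · unfold vE xx
          rw [if_pos rfl, dif_pos ⟨p.2, hq⟩]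
        · intro j _ hj
          unfold vE
          rw [if_neg (fun h => hj (Fin.ext h.symm)), zero_mul]
        · intro h
          exact absurd (Finset.mem_univ _) h
      · have h0 : xx x p (q + 1) = 0 := by
          unfold xx
          rw [dif_neg (fun h => hq h.2)]
        rw [h0, mul_zero]
        refine Finset.sum_eq_zero fun j _ => ?_
        unfold vE
        rw [if_neg (fun h => by have := j.2; omega), zero_mul]
    · intro i _ hi
      refine Finset.sum_eq_zero fun j _ => ?_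
      rw [if_neg (fun h => hi h.symm), zero_mul]
    · intro h
      exact absurd (Finset.mem_univ _) h
  · rw [Finset.sum_comm, Finset.sum_eq_single q]
    · simp only [if_true]
      by_cases hp : (p : ℕ) + 1 < b + 1
      · rw [Finset.sum_eq_single (⟨(p : ℕ) + 1, hp⟩ : Fin (b + 1))]
        · unfold vE xx
          rw [if_pos rfl, dif_pos ⟨hp, q.2⟩]
        · intro j _ hj
          unfold vE
          rw [if_neg (fun h => hj (Fin.ext h.symm)), zero_mul, zero_mul]
        · intro h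
          exact absurd (Finset.mem_univ _) h
      · have h0 : xx x (p + 1) q = 0 := by
          unfold xx
          rw [dif_neg (fun h => hp h.1)]
        rw [h0, mul_zero]
        refine Finset.sum_eq_zero fun j _ => ?_
        unfold vE
        rw [if_neg (fun h => by have := j.2; omega), zero_mul, zero_mul]
    · intro i _ hi
      refine Finset.sum_eq_zero fun j _ => ?_
      rw [if_neg (fun h => hi h.symm), zero_mul]
    · intro h
      exact absurd (Finset.mem_univ _) h

private theorem wt_apply (hu : 1 < (u : ℝ)) {b a : ℕ} (x : Fin (b + 1) × Fin (a + 1)) :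
    (tn (VQ u hu b) (VQ u hu a)).wt x = (b : ℤ) + a - 2 * ((x.1 : ℕ) + (x.2 : ℕ)) := by
  have h : (tn (VQ u hu b) (VQ u hu a)).wt x =
      ((b : ℤ) - 2 * (x.1 : ℕ)) + ((a : ℤ) - 2 * (x.2 : ℕ)) := rfl
  rw [h]
  ring

private theorem xx_hv {b a m : ℕ} (p q : ℕ) (hp : p < b + 1) (hq : q < a + 1) :
    xx (hv u b a m) p q = if p + q = m then hc u b a m p else 0 := by
  unfold xx hv
  rw [dif_pos ⟨hp, hq⟩]

theorem hv_hw (hu : 1 < (u : ℝ)) {b a m : ℕ} (hb : m ≤ b) (ha : m ≤ a) :
    (tn (VQ u hu b) (VQ u hu a)).HW ((b : ℤ) + a - 2 * m) (hv u b a m) := by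
  refine ⟨fun x hx => ?_, ?_⟩
  · unfold hv
    rw [wt_apply] at hx
    rw [if_neg]
    intro h1
    apply hx
    rw [← h1]
    push_cast
    ring
  · funext x
    obtain ⟨p, q⟩ := x
    rw [E_apply, Pi.zero_apply]
    by_cases h1 : (p : ℕ) + q + 1 = m
    · rw [xx_hv _ _ p.2 (by omega), xx_hv _ _ (by omega) q.2, if_pos (by omega), if_pos (by omega),
        hc_succ']
      have h3 : qn u ((b : ℤ) - (p : ℕ)) ≠ 0 := qn_ne hu (by omega)
      have e1 : (a : ℤ) - m + (p : ℕ) + 1 = (a : ℤ) - (q : ℕ) := by omega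
      have e2 : pw u (2 * vw a q) * pw u (-(2 * ((a : ℤ) - 2 * m + 2 * (p : ℕ) + 2))) = 1 := by
        rw [← pw_add]
        have e3 : 2 * vw a q + -(2 * ((a : ℤ) - 2 * m + 2 * (p : ℕ) + 2)) = 0 := by
          unfold vw
          omega
        rw [e3, pw_zero]
      rw [e1]
      have h4 : qn u ((b : ℤ) - (p : ℕ)) * pw u (2 * vw a q) *
          -(hc u b a m p * pw u (-(2 * ((a : ℤ) - 2 * m + 2 * (p : ℕ) + 2))) *
            qn u ((a : ℤ) - (q : ℕ)) / qn u ((b : ℤ) - (p : ℕ))) =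
          -((pw u (2 * vw a q) * pw u (-(2 * ((a : ℤ) - 2 * m + 2 * (p : ℕ) + 2)))) *
            hc u b a m p * qn u ((a : ℤ) - (q : ℕ))) := by
        field_simp
      rw [h4, e2]
      ring
    · have h2 : xx (hv u b a m) p (q + 1) = 0 := by
        by_cases hq : (q : ℕ) + 1 < a + 1
        · rw [xx_hv _ _ p.2 hq, if_neg (by omega)]
        · unfold xx
          rw [dif_neg (fun h => hq h.2)]
      have h3 : xx (hv u b a m) (p + 1) q = 0 := by
        by_cases hp : (p : ℕ) + 1 < b + 1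
        · rw [xx_hv _ _ hp q.2, if_neg (by omega)]
        · unfold xx
          rw [dif_neg (fun h => hp h.1)]
      rw [h2, h3, mul_zero, mul_zero, add_zero]

private theorem sum_diag {b a m : ℕ} (hb : m ≤ b) (ha : m ≤ a) (g : ℕ → ℕ → ℝ) :
    ∑ p : Fin (b + 1), ∑ q : Fin (a + 1), (if (p : ℕ) + q = m then g p q else 0) =
      ∑ i ∈ Finset.range (m + 1), g i (m - i) := by
  have h1 : ∀ p : ℕ, ∑ q : Fin (a + 1), (if p + (q : ℕ) = m then g p q else 0) =
      if p < m + 1 then g p (m - p) else 0 := by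
    intro p
    rw [Fin.sum_univ_eq_sum_range (fun q => if p + q = m then g p q else 0) (a + 1)]
    by_cases hp : p < m + 1
    · rw [if_pos hp, Finset.sum_eq_single (m - p)]
      · rw [if_pos (by omega)]
      · intro q _ hq
        rw [if_neg (by omega)]
      · intro hq
        rw [Finset.mem_range] at hq
        omega
    · rw [if_neg hp]
      exact Finset.sum_eq_zero fun q _ => by rw [if_neg (by omega)]
  rw [Finset.sum_congr rfl fun (p : Fin (b + 1)) _ => h1 p,
    Fin.sum_univ_eq_sum_range (fun p => if p < m + 1 then g p (m - p) else 0) (b + 1),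
    ← Finset.sum_filter]
  refine Finset.sum_congr ?_ fun _ _ => rfl
  ext p
  simp only [Finset.mem_filter, Finset.mem_range]
  omega

theorem hv_ip (hu : 1 < (u : ℝ)) {b a m : ℕ} (hb : m ≤ b) (ha : m ≤ a) :
    (tn (VQ u hu b) (VQ u hu a)).ip (hv u b a m) (hv u b a m) = hvn u b a m := by
  unfold hvn
  rw [← sum_diag hb ha fun p q => hc u b a m p ^ 2 * (vN u b p * vN u a q)]
  rw [QM.ip, Fintype.sum_prod_type]
  refine Finset.sum_congr rfl fun p _ => Finset.sum_congr rfl fun q _ => ?_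
  change vN u b p * vN u a q * (if (p : ℕ) + q = m then hc u b a m p else 0) *
    (if (p : ℕ) + q = m then hc u b a m p else 0) = _
  split_ifs
  · ring
  · rw [mul_zero]

theorem hvn_pos (hu : 1 < (u : ℝ)) {b a m : ℕ} (hb : m ≤ b) (ha : m ≤ a) : 0 < hvn u b a m := by
  unfold hvn
  refine Finset.sum_pos' (fun i hi => ?_) ⟨0, Finset.mem_range.2 (Nat.succ_pos _), ?_⟩
  · rw [Finset.mem_range] at hi
    exact mul_nonneg (sq_nonneg _)
      (mul_pos (vN_pos hu (by omega)) (vN_pos hu (by omega))).le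
  · have h1 : hc u b a m 0 = 1 := rfl
    rw [h1, one_pow, one_mul]
    exact mul_pos (vN_pos hu (by omega)) (vN_pos hu (by omega))

private theorem hv_zero (b a m : ℕ) (h : m < a + 1) : hv u b a m (0, ⟨m, h⟩) = 1 := by
  unfold hv
  rw [if_pos (by simp)]
  rfl

private theorem rec_eq (hu : 1 < (u : ℝ)) {b a : ℕ} {s : ℤ} {x : Fin (b + 1) × Fin (a + 1) → ℝ}
    (hx : (tn (VQ u hu b) (VQ u hu a)).HW s x) (p q : ℕ) (hp : p < b + 1) (hq : q < a + 1) :
    qn u ((a : ℤ) - (q : ℕ)) * xx x p (q + 1) +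
        qn u ((b : ℤ) - (p : ℕ)) * pw u (2 * vw a ⟨q, hq⟩) * xx x (p + 1) q = 0 := by
  have h2 := congrFun hx.E (⟨p, hp⟩, ⟨q, hq⟩)
  rw [E_apply, Pi.zero_apply] at h2
  exact h2

private theorem zero_of_key (hu : 1 < (u : ℝ)) {b a m : ℕ}
    {x : Fin (b + 1) × Fin (a + 1) → ℝ}
    (hx : (tn (VQ u hu b) (VQ u hu a)).HW ((b : ℤ) + a - 2 * m) x)
    (key : ∀ p q : ℕ, p + q = m → xx x p q = 0) : x = 0 := by
  funext y
  obtain ⟨p, q⟩ := y
  by_cases h1 : (p : ℕ) + q = m
  · rw [← xx_eq x p q, key p q h1]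
    rfl
  · refine hx.wt (p, q) ?_
    rw [wt_apply]
    simp only
    omega

private theorem hw_zero_left (hu : 1 < (u : ℝ)) {b a m : ℕ} (hb : m ≤ b)
    {x : Fin (b + 1) × Fin (a + 1) → ℝ}
    (hx : (tn (VQ u hu b) (VQ u hu a)).HW ((b : ℤ) + a - 2 * m) x) (h0 : xx x 0 m = 0) :
    x = 0 := by
  refine zero_of_key hu hx fun p => ?_
  induction p with
  | zero =>
    intro q hq
    rw [zero_add] at hq
    subst hq
    exact h0
  | succ p ih =>
    intro q hq
    by_cases hqa : q < a + 1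
    · have h1 := ih (q + 1) (by omega)
      have h2 := rec_eq hu hx p q (by omega) hqa
      rw [h1, mul_zero, zero_add] at h2
      have h3 : qn u ((b : ℤ) - (p : ℕ)) ≠ 0 := qn_ne hu (by omega)
      rcases mul_eq_zero.1 h2 with h4 | h4
      · rcases mul_eq_zero.1 h4 with h5 | h5
        · exact absurd h5 h3
        · exact absurd h5 (pw_pos hu _).ne'
      · exact h4
    · unfold xx
      rw [dif_neg (fun h => hqa h.2)]

private theorem hw_zero_right (hu : 1 < (u : ℝ)) {b a m : ℕ} (ha : m ≤ a) (hb : b < m)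
    {x : Fin (b + 1) × Fin (a + 1) → ℝ}
    (hx : (tn (VQ u hu b) (VQ u hu a)).HW ((b : ℤ) + a - 2 * m) x) : x = 0 := by
  have key : ∀ q p : ℕ, p + q = m → xx x p q = 0 := by
    intro q
    induction q with
    | zero =>
      intro p hp
      unfold xx
      rw [dif_neg (fun h => by omega)]
    | succ q ih =>
      intro p hp
      by_cases hpb : p < b + 1
      · have h1 := ih (p + 1) (by omega)
        have h2 := rec_eq hu hx p q hpb (by omega)
        rw [h1, mul_zero, add_zero] at h2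
        have h3 : qn u ((a : ℤ) - (q : ℕ)) ≠ 0 := qn_ne hu (by omega)
        rcases mul_eq_zero.1 h2 with h4 | h4
        · exact absurd h4 h3
        · exact h4
      · unfold xx
        rw [dif_neg (fun h => hpb h.1)]
  exact zero_of_key hu hx fun p q h => key q p h

theorem hw_cases (hu : 1 < (u : ℝ)) {b a : ℕ} {s : ℤ} {x : Fin (b + 1) × Fin (a + 1) → ℝ}
    (hx : (tn (VQ u hu b) (VQ u hu a)).HW s x) :
    x = 0 ∨ ∃ m : ℕ, m ≤ b ∧ m ≤ a ∧ s = (b : ℤ) + a - 2 * m ∧ ∃ c : ℝ, x = c • hv u b a m := by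
  by_cases hs : s < 0
  · exact Or.inl ((tn (VQ u hu b) (VQ u hu a)).hw_nonneg hu hs hx)
  by_cases hm : ∃ m : ℕ, s = (b : ℤ) + a - 2 * m
  · obtain ⟨m, rfl⟩ := hm
    rcases le_or_gt m b with hb | hb
    · rcases le_or_gt m a with ha | ha
      · right
        refine ⟨m, hb, ha, rfl, x (0, ⟨m, by omega⟩), ?_⟩
        have h1 : (tn (VQ u hu b) (VQ u hu a)).HW ((b : ℤ) + a - 2 * m)
            (x + (-(x (0, ⟨m, by omega⟩))) • hv u b a m) :=
          hx.add ((hv_hw hu hb ha).smul _)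
        have h2 := hw_zero_left hu hb h1 (by
          unfold xx
          rw [dif_pos ⟨Nat.succ_pos _, by omega⟩]
          change (x + (-(x (0, ⟨m, by omega⟩))) • hv u b a m) (0, ⟨m, by omega⟩) = 0
          rw [Pi.add_apply, Pi.smul_apply, hv_zero, smul_eq_mul]
          ring)
        rw [neg_smul] at h2
        exact add_neg_eq_zero.1 h2
      · left
        refine hw_zero_left hu hb hx ?_
        unfold xx
        rw [dif_neg (fun h => by omega)]
    · left
      exact hw_zero_right hu (by omega) hb hx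
  · left
    funext y
    refine hx.wt y ?_
    intro h1
    rw [wt_apply] at h1
    apply hm
    refine ⟨(y.1 : ℕ) + y.2, ?_⟩
    rw [← h1]
    push_cast
    ring

end Pool.Agent.KS
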