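import Pool.Agent.Work.MP_ab49bb_gt.Sat.Cv
import Pool.Agent.Work.MP_ab49bb_gt.Sat.HB

/-!
# FuS (M-L): the highest weight vectors of `M ⊗ V_a`

Write `P_j = Ph M (t j) (f j)`, `V_j = VQ (t j)`, `h_(j,m) = hv u (t j) a m`. `adj_kr`: `adj (tn M N) (tn M' N) (kr X 1) = kr (adj M M' X) 1` (entrywise, `nm (i,k) = nm i nm k`).
`hw`: `kr P_j 1` is a homomorphism (`Hom.kr`, `ph_hom`, `Hom.of_com Com.one`), so `kr P_j 1 *ᵥ h` is HW of weight `t j + a - 2m` (`hv_hw`, `Hom.hw`, `HW.smul`); for `t j < m` the vector is `0`.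
`on`: `ip (kr P_j 1 h) (kr P_k 1 h') = ip h (kr (adj P_j * P_k) 1 h')` (`adj_ip`, `ip_comm`, `kr_mul`). `j ≠ k`: `adj P_j * P_k = 0` (`ph_adj_ne`, or `ph_adj_same` and `h.on`). `j = k`: `adj P_j * P_j = ip (f j) (f j) • 1 = [G j] • 1`, and
`ip h_(j,m) h_(j,m') = 0` for `m ≠ m'` (weights, `ip_of_wt_ne`), `= hvn` for `m = m'` (`hv_ip`), `(√hvn)⁻¹ (√hvn)⁻¹ hvn = 1` (`hvn_pos`).
`span`: let `x` be HW of weight `s`. `x = kr 1 1 *ᵥ x = ∑_j kr (P_j adj P_j) 1 *ᵥ x = ∑_j kr P_j 1 *ᵥ y_j`, `y_j = kr (adj P_j) 1 *ᵥ x` (`cv_full`). `y_j` is HW of weight `s` in `V_j ⊗ V_a` (`Hom.adj`, `Hom.kr`, `Hom.hw`), so by `hw_cases` `y_j = 0` or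
`y_j = c h_(j,m0)`. For every `m ≤ min (t j) a`: `ip (fus (j,m)) x = (√hvn)⁻¹ ip h_(j,m) y_j`, which is `0` for `m ≠ m0` (weights) and `c √hvn` for `m = m0`; so `∑_m ip (fus (j,m)) x • fus (j,m) = kr P_j 1 *ᵥ y_j`. (`Fintype.sum_prod_type`.)
-/

set_option autoImplicit false

open Matrix Filter Topology

namespace Pool.Agent.KS

open Pool.Agent.KT

variable {u : ℝˣ} {ι : Type} [Fintype ι] [DecidableEq ι]
  {J : Type} [Fintype J] [DecidableEq J] {G : J → Bool} {f : J → ι → ℝ} {t : J → ℕ}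

theorem adj_kr {κ τ : Type} [Fintype κ] [DecidableEq κ] [Fintype τ] [DecidableEq τ]
    (M : QM u ι) (M' : QM u κ) (N : QM u τ) (X : Matrix ι κ ℝ) :
    adj (tn M N) (tn M' N) (kr X (1 : Matrix τ τ ℝ)) = kr (adj M M' X) 1 := by
  ext x y
  unfold adj kr
  show (M.nm y.1 * N.nm y.2) * (X y.1 x.1 * (1 : Matrix τ τ ℝ) y.2 x.2) / (M'.nm x.1 * N.nm x.2)
    = M.nm y.1 * X y.1 x.1 / M'.nm x.1 * (1 : Matrix τ τ ℝ) x.2 y.2
  by_cases h : x.2 = y.2
  · rw [h, Matrix.one_apply_eq]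
    have h1 := (M'.pos x.1).ne'
    have h2 := (N.pos y.2).ne'
    field_simp
  · rw [Matrix.one_apply_ne h, Matrix.one_apply_ne (fun h' => h h'.symm)]
    ring

private theorem fu_kr_zero {κ ι' κ' : Type} (Y : Matrix ι' κ' ℝ) :
    kr (0 : Matrix ι κ ℝ) Y = 0 := by
  ext x y
  unfold kr
  simp

private theorem fu_kr_smul {κ ι' κ' : Type} (c : ℝ) (X : Matrix ι κ ℝ) (Y : Matrix ι' κ' ℝ) :
    kr (c • X) Y = c • kr X Y := by
  ext x y
  unfold kr
  rw [Matrix.smul_apply, Matrix.smul_apply, smul_eq_mul, smul_eq_mul]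
  ring

private theorem fu_kr_sum {κ ι' κ' α : Type} (s : Finset α) (X : α → Matrix ι κ ℝ)
    (Y : Matrix ι' κ' ℝ) : kr (∑ j ∈ s, X j) Y = ∑ j ∈ s, kr (X j) Y := by
  ext x y
  unfold kr
  rw [Matrix.sum_apply, Matrix.sum_apply, Finset.sum_mul]

private theorem fu_hw_zero (M : QM u ι) (s : ℤ) : M.HW s 0 :=
  ⟨fun _ _ => rfl, Matrix.mulVec_zero _⟩

private theorem fu_adj_ne (hu : 1 < (u : ℝ)) {M : QM u ι} (h : IsCV M G f t) {j k : J}
    (hjk : j ≠ k) :
    adj M (VQ u hu (t j)) (Ph M (t j) (f j)) * Ph M (t k) (f k) = 0 := by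
  by_cases hst : t k = t j
  · have key : ∀ s : ℕ, s = t j → M.HW s (f k) →
        adj M (VQ u hu (t j)) (Ph M (t j) (f j)) * Ph M s (f k) = 0 := by
      rintro s rfl hs
      rw [ph_adj_same hu (h.hw j) hs, h.on j k, if_neg (fun h' => hjk h'.1), zero_smul]
    exact key (t k) hst (h.hw k)
  · exact ph_adj_ne hu hst (h.hw j) (h.hw k)

private theorem fu_hX (hu : 1 < (u : ℝ)) {M : QM u ι} (h : IsCV M G f t) (a : ℕ) (j : J) :
    Hom (tn M (VQ u hu a)) (tn (VQ u hu (t j)) (VQ u hu a))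
      (kr (Ph M (t j) (f j)) (1 : Matrix (Fin (a + 1)) (Fin (a + 1)) ℝ)) := by
  apply Hom.kr (ph_hom hu (h.hw j))
  apply Hom.of_com
  refine ⟨fun i i' hi => ?_, by rw [one_mul, mul_one], by rw [one_mul, mul_one]⟩
  by_cases hii : i = i'
  · rw [hii]
  · exact absurd (Matrix.one_apply_ne hii) hi

private theorem fu_ip (hu : 1 < (u : ℝ)) {M : QM u ι} (h : IsCV M G f t) (a : ℕ) (j k : J)
    (y : Fin (t j + 1) × Fin (a + 1) → ℝ) (z : Fin (t k + 1) × Fin (a + 1) → ℝ) (hjk : j ≠ k) :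
    (tn M (VQ u hu a)).ip
      (kr (Ph M (t j) (f j)) (1 : Matrix (Fin (a + 1)) (Fin (a + 1)) ℝ) *ᵥ y)
      (kr (Ph M (t k) (f k)) (1 : Matrix (Fin (a + 1)) (Fin (a + 1)) ℝ) *ᵥ z) = 0 := by
  rw [QM.ip_comm, ← adj_ip (tn M (VQ u hu a)) (tn (VQ u hu (t j)) (VQ u hu a)), adj_kr,
    Matrix.mulVec_mulVec, kr_mul, fu_adj_ne hu h hjk, fu_kr_zero, Matrix.zero_mulVec]
  simp [QM.ip]

private theorem fu_ip_same (hu : 1 < (u : ℝ)) {M : QM u ι} (h : IsCV M G f t) (a : ℕ) (j : J)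
    (y z : Fin (t j + 1) × Fin (a + 1) → ℝ) :
    (tn M (VQ u hu a)).ip
      (kr (Ph M (t j) (f j)) (1 : Matrix (Fin (a + 1)) (Fin (a + 1)) ℝ) *ᵥ y)
      (kr (Ph M (t j) (f j)) (1 : Matrix (Fin (a + 1)) (Fin (a + 1)) ℝ) *ᵥ z) =
      M.ip (f j) (f j) * (tn (VQ u hu (t j)) (VQ u hu a)).ip y z := by
  rw [QM.ip_comm, ← adj_ip (tn M (VQ u hu a)) (tn (VQ u hu (t j)) (VQ u hu a)), adj_kr,
    Matrix.mulVec_mulVec, kr_mul, ph_adj_same hu (h.hw j) (h.hw j), mul_one, fu_kr_smul, kr_one,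
    Matrix.smul_mulVec, Matrix.one_mulVec, QM.ip_smul_left, QM.ip_comm _ z y]

private theorem fu_hv_ne (hu : 1 < (u : ℝ)) {b a m n : ℕ} (hb : m ≤ b) (ha : m ≤ a) (hb' : n ≤ b)
    (ha' : n ≤ a) (hmn : m ≠ n) :
    (tn (VQ u hu b) (VQ u hu a)).ip (hv u b a m) (hv u b a n) = 0 := by
  apply QM.ip_of_wt_ne _ _ (hv_hw hu hb ha).wt (hv_hw hu hb' ha').wt
  omega

private theorem fu_sq {x : ℝ} (hx : 0 < x) : (Real.sqrt x)⁻¹ * ((Real.sqrt x)⁻¹ * x) = 1 := by
  have h1 : Real.sqrt x ≠ 0 := (Real.sqrt_pos.2 hx).ne'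
  nth_rewrite 3 [← Real.mul_self_sqrt hx.le]
  field_simp

private theorem fu_am {a : ℕ} (m : Fin (a + 1)) : (m : ℕ) ≤ a := Nat.lt_succ_iff.1 m.2

theorem fus_cv (hu : 1 < (u : ℝ)) {M : QM u ι} (h : IsCV M G f t) (a : ℕ) :
    IsCV (tn M (VQ u hu a)) (fun p : J × Fin (a + 1) => G p.1 && decide ((p.2 : ℕ) ≤ t p.1))
      (fun p => fus u M a (t p.1) (f p.1) p.2) (fun p => t p.1 + a - 2 * (p.2 : ℕ)) := by
  refine ⟨?_, ?_, ?_⟩
  · rintro ⟨j, m⟩
    simp only
    unfold fus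
    by_cases hm : (m : ℕ) ≤ t j
    · rw [if_pos hm]
      have h1 := (fu_hX hu h a j).hw (hv_hw hu hm (fu_am m))
      have h2 := QM.HW.smul h1 (Real.sqrt (hvn u (t j) a m))⁻¹
      have e : ((t j + a - 2 * (m : ℕ) : ℕ) : ℤ) = (t j : ℤ) + a - 2 * (m : ℕ) := by
        have := fu_am m
        omega
      rw [e]
      exact h2
    · rw [if_neg hm]
      exact fu_hw_zero _ _
  · rintro ⟨j, m⟩ ⟨k, n⟩
    simp only
    by_cases hm : (m : ℕ) ≤ t j
    · by_cases hn : (n : ℕ) ≤ t k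
      · unfold fus
        rw [if_pos hm, if_pos hn, QM.ip_smul_left, QM.ip_smul_right]
        by_cases hjk : j = k
        · subst hjk
          rw [fu_ip_same hu h]
          by_cases hmn : m = n
          · subst hmn
            rw [hv_ip hu hm (fu_am m), h.on j j]
            have h3 := fu_sq (hvn_pos hu hm (fu_am m))
            by_cases hG : G j = true
            · rw [if_pos ⟨rfl, hG⟩, if_pos ⟨rfl, by simp [hG, hm]⟩, one_mul, h3]
            · rw [if_neg (fun h' => hG h'.2), if_neg (fun h' => hG (by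
                have := h'.2
                rw [Bool.and_eq_true] at this
                exact this.1)), zero_mul, mul_zero, mul_zero]
          · rw [fu_hv_ne hu hm (fu_am m) hn (fu_am n) (fun h' => hmn (Fin.ext h')),
              if_neg (fun h' => hmn (Prod.ext_iff.1 h'.1).2), mul_zero, mul_zero, mul_zero]
        · rw [fu_ip hu h a j k _ _ hjk, if_neg (fun h' => hjk (Prod.ext_iff.1 h'.1).1), mul_zero,
            mul_zero]
      · have e1 : fus u M a (t k) (f k) n = 0 := by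
          unfold fus
          rw [if_neg hn]
        rw [e1, if_neg]
        · simp [QM.ip]
        · rintro ⟨h1, h2⟩
          rw [Prod.mk.injEq] at h1
          obtain ⟨rfl, rfl⟩ := h1
          exact hn hm
    · have e1 : fus u M a (t j) (f j) m = 0 := by
        unfold fus
        rw [if_neg hm]
      rw [e1, if_neg]
      · simp [QM.ip]
      · rintro ⟨h1, h2⟩
        rw [Bool.and_eq_true, decide_eq_true_iff] at h2
        exact hm h2.2
  · intro s x hx
    have hfull : x = ∑ j, kr (Ph M (t j) (f j)) (1 : Matrix (Fin (a + 1)) (Fin (a + 1)) ℝ) *ᵥ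
        (adj (tn M (VQ u hu a)) (tn (VQ u hu (t j)) (VQ u hu a))
          (kr (Ph M (t j) (f j)) (1 : Matrix (Fin (a + 1)) (Fin (a + 1)) ℝ)) *ᵥ x) := by
      have h1 : ∀ j, kr (Ph M (t j) (f j)) (1 : Matrix (Fin (a + 1)) (Fin (a + 1)) ℝ) *ᵥ
        (adj (tn M (VQ u hu a)) (tn (VQ u hu (t j)) (VQ u hu a))
          (kr (Ph M (t j) (f j)) (1 : Matrix (Fin (a + 1)) (Fin (a + 1)) ℝ)) *ᵥ x)
          = kr (Qp u hu M (t j) (f j)) (1 : Matrix (Fin (a + 1)) (Fin (a + 1)) ℝ) *ᵥ x := by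
        intro j
        rw [adj_kr, Matrix.mulVec_mulVec, kr_mul, mul_one]
        rfl
      rw [Finset.sum_congr rfl fun j _ => h1 j, ← Matrix.sum_mulVec, ← fu_kr_sum, cv_full hu h,
        kr_one, Matrix.one_mulVec]
    have hj : ∀ j, kr (Ph M (t j) (f j)) (1 : Matrix (Fin (a + 1)) (Fin (a + 1)) ℝ) *ᵥ
        (adj (tn M (VQ u hu a)) (tn (VQ u hu (t j)) (VQ u hu a))
          (kr (Ph M (t j) (f j)) (1 : Matrix (Fin (a + 1)) (Fin (a + 1)) ℝ)) *ᵥ x)
        = ∑ m : Fin (a + 1), (tn M (VQ u hu a)).ip (fus u M a (t j) (f j) m) x •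
          fus u M a (t j) (f j) m := by
      intro j
      set y := adj (tn M (VQ u hu a)) (tn (VQ u hu (t j)) (VQ u hu a))
          (kr (Ph M (t j) (f j)) (1 : Matrix (Fin (a + 1)) (Fin (a + 1)) ℝ)) *ᵥ x with hy
      have hyw : (tn (VQ u hu (t j)) (VQ u hu a)).HW s y := (fu_hX hu h a j).adj.hw hx
      have hip : ∀ m : Fin (a + 1), (m : ℕ) ≤ t j →
          (tn M (VQ u hu a)).ip (fus u M a (t j) (f j) m) x =
            (Real.sqrt (hvn u (t j) a m))⁻¹ *
              (tn (VQ u hu (t j)) (VQ u hu a)).ip y (hv u (t j) a m) := by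
        intro m hm
        unfold fus
        rw [if_pos hm, QM.ip_smul_left, QM.ip_comm, hy, adj_ip]
      rcases hw_cases hu hyw with h0 | ⟨m0, hm1, hm2, hs, c, hc⟩
      · rw [h0, Matrix.mulVec_zero]
        symm
        apply Finset.sum_eq_zero
        intro m _
        by_cases hm : (m : ℕ) ≤ t j
        · rw [hip m hm, h0]
          simp [QM.ip]
        · have e1 : fus u M a (t j) (f j) m = 0 := by
            unfold fus
            rw [if_neg hm]
          rw [e1, smul_zero]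
      · rw [Finset.sum_eq_single (⟨m0, Nat.lt_succ_iff.2 hm2⟩ : Fin (a + 1))]
        · rw [hip ⟨m0, Nat.lt_succ_iff.2 hm2⟩ hm1, hc, QM.ip_smul_left]
          have h2 := hv_ip hu hm1 hm2
          have h3 := fu_sq (hvn_pos hu hm1 hm2)
          simp only
          rw [h2]
          unfold fus
          rw [if_pos hm1, smul_smul, Matrix.mulVec_smul]
          congr 1
          calc c = c * ((Real.sqrt (hvn u (t j) a m0))⁻¹ *
              ((Real.sqrt (hvn u (t j) a m0))⁻¹ * hvn u (t j) a m0)) := by rw [h3, mul_one]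
            _ = _ := by
              simp only
              ring
        · intro m _ hm
          by_cases hmt : (m : ℕ) ≤ t j
          · rw [hip m hmt, hc, QM.ip_smul_left,
              fu_hv_ne hu hm1 hm2 hmt (fu_am m) (fun h' => hm (Fin.ext h'.symm)), mul_zero,
              mul_zero, zero_smul]
          · have e1 : fus u M a (t j) (f j) m = 0 := by
              unfold fus
              rw [if_neg hmt]
            rw [e1, smul_zero]
        · intro h'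
          exact absurd (Finset.mem_univ _) h'
    rw [Fintype.sum_prod_type]
    nth_rewrite 1 [hfull]
    exact Finset.sum_congr rfl fun j _ => hj j

end Pool.Agent.KS
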