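import Pool.Agent.Work.MP_ab49bb_gt.Sat.H1
import Pool.Agent.Work.MP_ab49bb_gt.Sat.Ew
import Pool.Agent.Work.MP_ab49bb_gt.Sat.Cs
import Pool.Agent.Work.MP_ab49bb_gt.Sat.RH

/-!
# Up (M): the last strand moves to the left

`upw r = [σ_0, …, σ_(r-1)]` on `r + 1` strands (the last letter acts first) is the braiding `TP M r ⊗ M → M ⊗ TP M r`. Induction on `r`.
`r = 0`: the empty word; `RM (TP M 0) M` on `Fin 0 → ι` (one element, `E = 0`, weight `0`) is the identity (only `l = 0` contributes: `E ^ l = 0` for `l ≥ 1`).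
Step: `upw (r+1) = (0, true) :: shift 1 (upw r)`. By `wR_cons_strand` the matrix of `shift 1 (upw r)` at `(z, x)` is `[z 0 = x 0] RM (TP M r) M (z 1, tail (tail z)) (init (tail x), x last)`.
The first letter is `at2 (r+2) (RM M M) 0`: entry `(y, z)` nonzero only if `y, z` agree from the coordinate `2` on, and then it is `RM M M (y 0, y 1) (z 0, z 1)`. In the sum over `z` only
`z = (x 0, q, y 2, y 3, …)` remain, `q : ι`: `∑_q RM M M (y 0, y 1) (x 0, q) * RM (TP M r) M (q, (y 2, …)) (init (tail x), x last)`. On the other side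
`TP M (r+1) = cong (tn M (TP M r)) (cse ι r)`, so by `RM_iso` (`cong_iso`, `Iso.refl`) and `hex1` with `N = TP M r`, `P = M`: row `(y 0, (y 1, (y 2, …)))`, column
`((x 0, init (tail x)), x last)`: `∑_q RM (TP M r) M (q, (y 2, …)) (init (tail x), x last) * RM M M (y 0, y 1) (x 0, q)`. Equal. [`tail (init x) = init (tail x)`.]
-/

set_option autoImplicit false

open Matrix Filter Topology

namespace Pool.Agent.KS

open Pool.Agent.KT

variable {u : ℝˣ} {ι : Type} [Fintype ι] [DecidableEq ι]

private theorem RM_nil (M : QM u ι) (y : ι × (Fin 0 → ι)) (x : (Fin 0 → ι) × ι) :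
    RM (TP M 0) M y x = if y.1 = x.2 then 1 else 0 := by
  have hE : (TP M 0).E = 0 := rfl
  have hwt : ∀ z, (TP M 0).wt z = 0 := fun _ => rfl
  rw [RM, hwt, zero_mul, pw_zero, one_mul, Finset.sum_eq_single 0]
  · rw [pow_zero, pow_zero, rco_zero, one_mul, Matrix.one_apply, Matrix.one_apply,
      if_pos (Subsingleton.elim _ _), one_mul]
  · intro l _ hl
    rw [hE, zero_pow hl, Matrix.zero_apply, mul_zero, zero_mul]
  · intro h
    exact absurd (Finset.mem_range.2 (Nat.succ_pos _)) h

theorem wR_up (hu : 1 < (u : ℝ)) (M : QM u ι) (r : ℕ) (y x : Fin (r + 1) → ι) :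
    wR (r + 1) (RM M M) (upw r) y x =
      RM (TP M r) M (y 0, Fin.tail y) (Fin.init x, x (Fin.last r)) := by
  induction r with
  | zero =>
    have h1 : upw 0 = [] := rfl
    have h2 : wR (0 + 1) (RM M M) [] = 1 := rfl
    rw [h1, h2, RM_nil, Matrix.one_apply]
    refine if_congr ?_ rfl rfl
    constructor
    · intro h
      rw [h]
      rfl
    · intro h
      funext i
      have hi : i = 0 := Fin.ext (by have := i.2; show (i : ℕ) = 0; omega)
      rw [hi]
      exact h
  | succ r ih =>
    have hR := isUnit_RM hu M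
    have hw : ∀ l ∈ upw r, l.1 + 1 < r + 1 := by
      intro l hl
      rw [upw, List.mem_map] at hl
      obtain ⟨k, hk, rfl⟩ := hl
      rw [List.mem_range] at hk
      show k + 1 < r + 1
      omega
    have e1 : upw (r + 1) = [(0, true)] ++ shift 1 (upw r) := by
      rw [upw, List.range_succ_eq_map, List.map_cons, List.map_map, shift, upw, List.map_map,
        List.singleton_append]
      congr 1
      refine List.map_congr_left fun k _ => ?_
      show (k + 1, true) = (1 + k, true)
      rw [Nat.add_comm]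
    have e2 : wR (r + 1 + 1) (RM M M) [(0, true)] = at2 (r + 1 + 1) (RM M M) 0 := by
      rw [wR, List.map_singleton, List.prod_singleton]
      rfl
    rw [e1, wR_append, e2, Matrix.mul_apply]
    have hcons := TP_cons M r
    rw [RM_iso hcons (Iso.refl M)]
    have e3 : (cse ι r) (Fin.tail y) = (y 1, Fin.tail (Fin.tail y)) := rfl
    have e4 : (cse ι r) (Fin.init x) = (x 0, Fin.init (Fin.tail x)) := rfl
    show _ = RM (tn M (TP M r)) M (y 0, (cse ι r) (Fin.tail y))
      ((cse ι r) (Fin.init x), x (Fin.last (r + 1)))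
    rw [e3, e4, hex1 hu]
    have hcs : ∀ z : Fin (r + 1 + 1) → ι,
        at2 (r + 1 + 1) (RM M M) 0 y z * wR (r + 1 + 1) (RM M M) (shift 1 (upw r)) z x =
        if z 0 = x 0 ∧ Fin.tail (Fin.tail z) = Fin.tail (Fin.tail y) then
          RM (TP M r) M (z 1, Fin.tail (Fin.tail y)) (Fin.init (Fin.tail x), x (Fin.last (r + 1))) *
            RM M M (y 0, y 1) (x 0, z 1) else 0 := by
      intro z
      have hat : at2 (r + 1 + 1) (RM M M) 0 y z =
          if Fin.tail (Fin.tail z) = Fin.tail (Fin.tail y) then RM M M (y 0, y 1) (z 0, z 1)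
          else 0 := by
        rw [at2, dif_pos (by omega : 0 + 1 < r + 1 + 1)]
        refine if_congr ?_ rfl rfl
        constructor
        · intro h
          funext i
          exact (h i.succ.succ (by rw [Fin.val_succ]; omega)
            (by rw [Fin.val_succ, Fin.val_succ]; omega)).symm
        · intro h i hi0 hi1
          have h3 := congrFun h ⟨(i : ℕ) - 2, by have := i.2; omega⟩
          have h4 : (⟨(i : ℕ) - 2, by have := i.2; omega⟩ : Fin r).succ.succ = i := by
            apply Fin.ext
            show (i : ℕ) - 2 + 1 + 1 = i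
            omega
          rw [Fin.tail, Fin.tail, Fin.tail, Fin.tail, h4] at h3
          exact h3.symm
      rw [wR_cons_strand hR hw, ih (Fin.tail z) (Fin.tail x), hat]
      by_cases h1 : z 0 = x 0
      · by_cases h2 : Fin.tail (Fin.tail z) = Fin.tail (Fin.tail y)
        · rw [if_pos h2, if_pos h1, if_pos ⟨h1, h2⟩, h2, h1, mul_comm]
          rfl
        · rw [if_neg h2, zero_mul, if_neg (fun h : z 0 = x 0 ∧
            Fin.tail (Fin.tail z) = Fin.tail (Fin.tail y) => h2 h.2)]
      · rw [if_neg h1, mul_zero, if_neg (fun h : z 0 = x 0 ∧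
          Fin.tail (Fin.tail z) = Fin.tail (Fin.tail y) => h1 h.1)]
    rw [Finset.sum_congr rfl fun z _ => hcs z]
    symm
    refine Finset.sum_of_injOn (fun q : ι => (Fin.cons (x 0) (Fin.cons q (Fin.tail (Fin.tail y))) :
      Fin (r + 1 + 1) → ι)) ?_ ?_ ?_ ?_
    · intro q _ q' _ h
      exact congrFun h 1
    · intro q _
      exact Finset.mem_coe.2 (Finset.mem_univ _)
    · intro z _ hz
      rw [if_neg]
      rintro ⟨h1, h2⟩
      apply hz
      refine ⟨z 1, Finset.mem_coe.2 (Finset.mem_univ _), ?_⟩
      funext i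
      refine Fin.cases ?_ (fun j => ?_) i
      · exact h1.symm
      · refine Fin.cases ?_ (fun k => ?_) j
        · rfl
        · exact (congrFun h2 k).symm
    · intro q _
      rw [if_pos ⟨rfl, rfl⟩]
      rfl

end Pool.Agent.KS
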