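import Pool.Agent.Work.MP_ab49bb_gt.Sat.Fu
import Pool.Agent.Work.MP_ab49bb_gt.Sat.DS
import Pool.Agent.Work.MP_ab49bb_gt.Sat.Up
import Pool.Agent.Work.MP_ab49bb_gt.Sat.Dn
import Pool.Agent.Work.MP_ab49bb_gt.Sat.Cw
import Pool.Agent.Work.MP_ab49bb_gt.Sat.RV

/-!
# FuT (M-L): the full twist on highest weight vectors

`S u a = RM V V` (`RM_VQ`), `V = VQ u hu a`. `ft (r+1) = ft r ++ dnw r ++ upw r` (definition). Induction on `r`; `r = 0`: empty word, the weight is `0` (if `x ≠ 0`), `t (t+2) = 0`. [If `x = 0` everything is `0`.]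
Step: transport by `sne` (`TP_snoc`): on `TP V r ⊗ V` the matrix of `ft (r+1)` is `kr (wR r S (ft r)) 1 * RM V (TP V r) * RM (TP V r) V` (`wR_snoc_strand` — letters of `ft r` are `≤ r - 2` —, `wR_dn`, `wR_up`; `∑_z` over `z : Fin (r+1) → _` is the sum over `(z 0, tail z)`).
By `exists_cv` for `r` and `fus_cv`, every HW vector `x` of weight `t` is a combination of the vectors `fus (j,m)` with `ip (fus (j,m)) x ≠ 0`, which have weight `t` (`ip_of_wt_ne`), so it is enough to treat `kr P 1 *ᵥ hv u b a m` with `P = Ph (TP V r) b f`, `f` HW of weight `b`,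
`m ≤ b`, `m ≤ a`, `t = b + a - 2m`. By naturality (`RM_nat` twice) `RM V (TP V r) * RM (TP V r) V * kr P 1 = kr P 1 * RM V V_b * RM V_b V`, and `dbl` gives the factor `v^(2ba - 4m(b+a) + 4m² - 4m)`. Then `kr (wR r S (ft r)) 1 * kr P 1 = kr (wR r S (ft r) * P) 1`,
`wR r S (ft r) * P = Ph (wR … *ᵥ f) = v^(b(b+2) - r a(a+2)) • P` (`ph_com`, `com_wR`, induction hypothesis, `ph_smul`). The exponents add up to `t(t+2) - (r+1) a(a+2)` (`ring`).
`ift_hw`: `wR_inv`: multiply `ft_hw` by the inverse matrix (`isUnit_wR`, `isUnit_RM`).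
-/

set_option autoImplicit false

open Matrix Filter Topology

namespace Pool.Agent.KS

open Pool.Agent.KT

variable {u : ℝˣ}

theorem ft_letters (r : ℕ) : ∀ l ∈ ft r, l.1 + 1 < r := by
  induction r with
  | zero =>
    intro l hl
    rw [ft] at hl
    exact absurd hl List.not_mem_nil
  | succ r ih =>
    intro l hl
    rw [ft, List.mem_append, List.mem_append, List.mem_map, List.mem_map] at hl
    rcases hl with (hl | ⟨k, hk, rfl⟩) | ⟨k, hk, rfl⟩
    · have := ih l hl
      omega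
    · rw [List.mem_reverse, List.mem_range] at hk
      show k + 1 < r + 1
      omega
    · rw [List.mem_range] at hk
      show k + 1 < r + 1
      omega

private theorem iso_hw {ι κ : Type} [Fintype ι] [DecidableEq ι] [Fintype κ] [DecidableEq κ]
    {M : QM u ι} {N : QM u κ} {e : ι ≃ κ} (h : Iso M N e) {t : ℤ} {x : ι → ℝ} (hx : M.HW t x) :
    N.HW t (x ∘ e.symm) := by
  refine ⟨fun i hi => ?_, ?_⟩
  · refine hx.wt _ ?_
    rw [← h.wt, Equiv.apply_symm_apply]
    exact hi
  · funext i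
    have h1 := congrFun hx.E (e.symm i)
    rw [Matrix.mulVec, dotProduct] at h1 ⊢
    rw [Pi.zero_apply] at h1 ⊢
    rw [← h1, ← Equiv.sum_comp e]
    refine Finset.sum_congr rfl fun j _ => ?_
    rw [Function.comp_apply, Equiv.symm_apply_apply, ← h.E, Equiv.apply_symm_apply]

private theorem kr_smul_left {ι κ ι' κ' : Type} (c : ℝ) (X : Matrix ι ι' ℝ) (Y : Matrix κ κ' ℝ) :
    kr (c • X) Y = c • kr X Y := by
  ext x y
  rw [Matrix.smul_apply, kr, kr, Matrix.smul_apply, smul_eq_mul, smul_eq_mul, mul_assoc]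

private theorem step (hu : 1 < (u : ℝ)) (a r : ℕ)
    (ih : ∀ {t : ℤ} {x : (Fin r → Fin (a + 1)) → ℝ}, (TP (VQ u hu a) r).HW t x →
      wR r (S u a) (ft r) *ᵥ x = pw u (t * (t + 2) - r * (a * (a + 2))) • x)
    {b : ℕ} {f : (Fin r → Fin (a + 1)) → ℝ} (hf : (TP (VQ u hu a) r).HW b f) (m : Fin (a + 1))
    {t : ℤ} (ht : (m : ℕ) ≤ b → t = (b : ℤ) + a - 2 * (m : ℕ)) :
    (kr (wR r (S u a) (ft r)) (1 : Matrix (Fin (a + 1)) (Fin (a + 1)) ℝ) *
      (RM (VQ u hu a) (TP (VQ u hu a) r) * RM (TP (VQ u hu a) r) (VQ u hu a))) *ᵥ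
        fus u (TP (VQ u hu a) r) a b f m =
      pw u (t * (t + 2) - ((r + 1 : ℕ) : ℤ) * (a * (a + 2))) •
        fus u (TP (VQ u hu a) r) a b f m := by
  by_cases hm : (m : ℕ) ≤ b
  · have ht' := ht hm
    have hP := ph_hom hu hf
    have hone : Hom (VQ u hu a) (VQ u hu a) (1 : Matrix (Fin (a + 1)) (Fin (a + 1)) ℝ) :=
      Hom.of_com QM.Com.one
    set T := TP (VQ u hu a) r with hT
    set P := Ph T b f with hPdef
    have e1 : RM T (VQ u hu a) * kr P (1 : Matrix (Fin (a + 1)) (Fin (a + 1)) ℝ) =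
        kr (1 : Matrix (Fin (a + 1)) (Fin (a + 1)) ℝ) P * RM (VQ u hu b) (VQ u hu a) :=
      RM_nat hP hone
    have e2 : RM (VQ u hu a) T * kr (1 : Matrix (Fin (a + 1)) (Fin (a + 1)) ℝ) P =
        kr P (1 : Matrix (Fin (a + 1)) (Fin (a + 1)) ℝ) * RM (VQ u hu a) (VQ u hu b) :=
      RM_nat hone hP
    have e3 : wR r (S u a) (ft r) * P = pw u ((b : ℤ) * (b + 2) - r * (a * (a + 2))) • P := by
      have hc : T.Com (wR r (S u a) (ft r)) := by
        rw [← RM_VQ hu]
        exact com_wR hu _ _ _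
      rw [hPdef, ph_com hc, ih hf, ph_smul]
    have e4 : kr (wR r (S u a) (ft r)) (1 : Matrix (Fin (a + 1)) (Fin (a + 1)) ℝ) *
        kr P (1 : Matrix (Fin (a + 1)) (Fin (a + 1)) ℝ) =
        pw u ((b : ℤ) * (b + 2) - r * (a * (a + 2))) •
          kr P (1 : Matrix (Fin (a + 1)) (Fin (a + 1)) ℝ) := by
      rw [kr_mul, e3, Matrix.mul_one, kr_smul_left]
    have e5 := dbl hu hm (Nat.lt_succ_iff.1 m.2 : (m : ℕ) ≤ a)
    rw [fus, if_pos hm, Matrix.mulVec_smul, smul_comm]
    congr 1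
    rw [Matrix.mulVec_mulVec]
    have e6 : kr (wR r (S u a) (ft r)) (1 : Matrix (Fin (a + 1)) (Fin (a + 1)) ℝ) *
        (RM (VQ u hu a) T * RM T (VQ u hu a)) *
          kr P (1 : Matrix (Fin (a + 1)) (Fin (a + 1)) ℝ) =
        pw u ((b : ℤ) * (b + 2) - r * (a * (a + 2))) •
          (kr P (1 : Matrix (Fin (a + 1)) (Fin (a + 1)) ℝ) *
          (RM (VQ u hu a) (VQ u hu b) * RM (VQ u hu b) (VQ u hu a))) := by
      rw [Matrix.mul_assoc, Matrix.mul_assoc, e1, ← Matrix.mul_assoc (RM (VQ u hu a) T), e2,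
        Matrix.mul_assoc, ← Matrix.mul_assoc, e4, Matrix.smul_mul]
    rw [e6, Matrix.smul_mulVec, ← Matrix.mulVec_mulVec, e5, Matrix.mulVec_smul, smul_smul,
      ← pw_add]
    congr 2
    rw [ht']
    push_cast
    ring
  · rw [fus, if_neg hm, Matrix.mulVec_zero, smul_zero]

theorem ft_hw (hu : 1 < (u : ℝ)) (a r : ℕ) {t : ℤ} {x : (Fin r → Fin (a + 1)) → ℝ}
    (hx : (TP (VQ u hu a) r).HW t x) :
    wR r (S u a) (ft r) *ᵥ x = pw u (t * (t + 2) - r * (a * (a + 2))) • x := by
  induction r generalizing t with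
  | zero =>
    have h1 : wR 0 (S u a) (ft 0) = 1 := rfl
    rw [h1, Matrix.one_mulVec]
    by_cases ht : t = 0
    · rw [ht, Nat.cast_zero, zero_mul, zero_mul, sub_zero, pw_zero, one_smul]
    · have h2 : x = 0 := by
        funext i
        exact hx.wt i (fun h => ht h.symm)
      rw [h2, smul_zero]
  | succ r ih =>
    have hI := TP_snoc (VQ u hu a) r
    set V := VQ u hu a with hV
    set T := TP V r with hT
    set Z := kr (wR r (S u a) (ft r)) (1 : Matrix (Fin (a + 1)) (Fin (a + 1)) ℝ) *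
      (RM V T * RM T V) with hZ
    have hS : RM V V = S u a := RM_VQ hu a
    have hunit : IsUnit (S u a) := by
      rw [← hS]
      exact isUnit_RM hu V
    have hA : wR (r + 1) (S u a) (ft (r + 1)) =
        Z.submatrix (sne (Fin (a + 1)) r) (sne (Fin (a + 1)) r) := by
      have a1 : wR (r + 1) (S u a) (ft r) =
          (kr (wR r (S u a) (ft r)) (1 : Matrix (Fin (a + 1)) (Fin (a + 1)) ℝ)).submatrix
            (sne (Fin (a + 1)) r) (sne (Fin (a + 1)) r) := by
        ext x y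
        rw [wR_snoc_strand hunit (ft_letters r), Matrix.submatrix_apply, kr]
        show _ = wR r (S u a) (ft r) (Fin.init x) (Fin.init y) *
          (1 : Matrix (Fin (a + 1)) (Fin (a + 1)) ℝ) (x (Fin.last r)) (y (Fin.last r))
        by_cases h : x (Fin.last r) = y (Fin.last r)
        · rw [if_pos h, h, Matrix.one_apply_eq, mul_one]
        · rw [if_neg h, Matrix.one_apply_ne h, mul_zero]
      have a2 : wR (r + 1) (S u a) (dnw r) =
          (RM V T).submatrix (sne (Fin (a + 1)) r) (cse (Fin (a + 1)) r) := by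
        ext x y
        rw [← hS, wR_dn hu V r]
        rfl
      have a3 : wR (r + 1) (S u a) (upw r) =
          (RM T V).submatrix (cse (Fin (a + 1)) r) (sne (Fin (a + 1)) r) := by
        ext x y
        rw [← hS, wR_up hu V r]
        rfl
      have a4 : ft (r + 1) = ft r ++ dnw r ++ upw r := rfl
      rw [a4, wR_append, wR_append, a1, a2, a3, Matrix.submatrix_mul_equiv,
        Matrix.submatrix_mul_equiv, hZ, Matrix.mul_assoc]
    have hx' := iso_hw hI hx
    obtain ⟨f, hf⟩ := exists_cv hu a r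
    have hcv := fus_cv hu hf a
    have hB : Z *ᵥ (x ∘ (sne (Fin (a + 1)) r).symm) =
        pw u (t * (t + 2) - ((r + 1 : ℕ) : ℤ) * (a * (a + 2))) •
          (x ∘ (sne (Fin (a + 1)) r).symm) := by
      have h1 := hcv.span t _ hx'
      have h2 : ∀ p : (Fin r → Fin (a + 1)) × Fin (a + 1),
          Z *ᵥ ((tn T V).ip (fus u T a (tt a p.1) (f p.1) p.2)
            (x ∘ (sne (Fin (a + 1)) r).symm) • fus u T a (tt a p.1) (f p.1) p.2) =
          pw u (t * (t + 2) - ((r + 1 : ℕ) : ℤ) * (a * (a + 2))) •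
            ((tn T V).ip (fus u T a (tt a p.1) (f p.1) p.2)
              (x ∘ (sne (Fin (a + 1)) r).symm) • fus u T a (tt a p.1) (f p.1) p.2) := by
        intro p
        by_cases hw : (((tt a p.1 + a - 2 * (p.2 : ℕ) : ℕ)) : ℤ) = t
        · rw [Matrix.mulVec_smul, smul_comm]
          congr 1
          refine step hu a r ih (hf.hw p.1) p.2 fun hm => ?_
          have hp := p.2.2
          rw [← hw, Nat.cast_sub (by omega)]
          push_cast
          ring
        · have h3 : (tn T V).ip (fus u T a (tt a p.1) (f p.1) p.2)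
              (x ∘ (sne (Fin (a + 1)) r).symm) = 0 :=
            QM.ip_of_wt_ne _ hw (hcv.hw p).wt hx'.wt
          rw [h3, zero_smul, Matrix.mulVec_zero, smul_zero]
      refine (congrArg (fun y => Z *ᵥ y) h1).trans ?_
      refine Eq.trans ?_ (congrArg (fun y => pw u (t * (t + 2) -
        ((r + 1 : ℕ) : ℤ) * (a * (a + 2))) • y) h1).symm
      rw [Matrix.mulVec_sum, Finset.smul_sum]
      exact Finset.sum_congr rfl fun p _ => h2 p
    rw [hA]
    funext z
    have h4 := congrFun hB (sne (Fin (a + 1)) r z)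
    rw [Pi.smul_apply, Function.comp_apply, Equiv.symm_apply_apply] at h4
    rw [Pi.smul_apply, ← h4, Matrix.mulVec, Matrix.mulVec, dotProduct, dotProduct,
      ← Equiv.sum_comp (sne (Fin (a + 1)) r)]
    refine Finset.sum_congr rfl fun y _ => ?_
    rw [Matrix.submatrix_apply, Function.comp_apply, Equiv.symm_apply_apply]

theorem ift_hw (hu : 1 < (u : ℝ)) (a r : ℕ) {t : ℤ} {x : (Fin r → Fin (a + 1)) → ℝ}
    (hx : (TP (VQ u hu a) r).HW t x) :
    wR r (S u a) (inv (ft r)) *ᵥ x = pw u (r * (a * (a + 2)) - t * (t + 2)) • x := by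
  have hunit : IsUnit (S u a) := by
    rw [← RM_VQ hu]
    exact isUnit_RM hu _
  have h1 := ft_hw hu a r hx
  have h2 : IsUnit (wR r (S u a) (ft r)).det :=
    (Matrix.isUnit_iff_isUnit_det _).1 (isUnit_wR r hunit (ft r))
  rw [wR_inv r hunit]
  have h3 : x = pw u (r * (a * (a + 2)) - t * (t + 2)) • (wR r (S u a) (ft r) *ᵥ x) := by
    rw [h1, smul_smul, ← pw_add]
    have e : (r : ℤ) * (a * (a + 2)) - t * (t + 2) + (t * (t + 2) - r * (a * (a + 2))) = 0 := by
      ring
    rw [e, pw_zero, one_smul]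
  calc (wR r (S u a) (ft r))⁻¹ *ᵥ x
      = (wR r (S u a) (ft r))⁻¹ *ᵥ
        (pw u (r * (a * (a + 2)) - t * (t + 2)) • (wR r (S u a) (ft r) *ᵥ x)) := by rw [← h3]
    _ = pw u (r * (a * (a + 2)) - t * (t + 2)) • x := by
        rw [Matrix.mulVec_smul, Matrix.mulVec_mulVec, Matrix.nonsing_inv_mul _ h2,
          Matrix.one_mulVec]

end Pool.Agent.KS
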