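import Pool.Agent.Work.MP_ab49bb_gt.Sat.Cs

/-!
# Fz (S-M): the limits of all coordinates

For `v > 1`: `∑_x vn x (f v y x)² = ip (f v y) (f v y) = [good y]` (`Fus.cv`, `IsCV.on`; `(TP V n).nm x = ∏ V.nm (x i) = vn (ru v) a x` by `TP_nm`). If `good a y = false` then `f v y = 0` for all `v > 1`. If `good a y = true` and
`x ≠ y`: `(√(vn x) f v y x)² ≤ 1 - (√(vn y) f v y y)² → 0`. Squeeze; `Real.sq_sqrt` (`vn > 0`).
-/

set_option autoImplicit false

open Matrix Filter Topology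

namespace Pool.Agent.KS

open Pool.Agent.KT

theorem vn_pos {u : ℝˣ} (hu : 1 < (u : ℝ)) (a : ℕ) {n : ℕ} (y : Fin n → Fin (a + 1)) :
    0 < vn u a y :=
  Finset.prod_pos fun i _ => vN_pos hu (Nat.lt_succ_iff.mp (y i).2)

theorem TP_nm_vn {u : ℝˣ} (hu : 1 < (u : ℝ)) (a n : ℕ) (y : Fin n → Fin (a + 1)) :
    (TP (VQ u hu a) n).nm y = vn u a y := by
  rw [TP_nm]
  rfl

private theorem fz_sum {a n : ℕ} {f : ℝ → (Fin n → Fin (a + 1)) → (Fin n → Fin (a + 1)) → ℝ}
    (h : Fus a n f) (y : Fin n → Fin (a + 1)) {v : ℝ} (hv : 1 < v) :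
    ∑ x, (Real.sqrt (vn (ru v) a x) * f v y x) ^ 2 = if good a y = true then 1 else 0 := by
  have h1 := (h.cv v hv).on y y
  have h2 : (TP (VQ (ru v) (ru_gt hv) a) n).ip (f v y) (f v y) =
      ∑ x, (Real.sqrt (vn (ru v) a x) * f v y x) ^ 2 := by
    unfold QM.ip
    refine Finset.sum_congr rfl fun x _ => ?_
    rw [TP_nm_vn, mul_pow, Real.sq_sqrt (vn_pos (ru_gt hv) a x).le]
    ring
  rw [← h2, h1]
  by_cases hg : good a y = true
  · rw [if_pos ⟨rfl, hg⟩, if_pos hg]
  · rw [if_neg (fun h3 => hg h3.2), if_neg hg]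

theorem fus_coord {a n : ℕ} {f : ℝ → (Fin n → Fin (a + 1)) → (Fin n → Fin (a + 1)) → ℝ}
    (h : Fus a n f) (x y : Fin n → Fin (a + 1)) :
    Tendsto (fun v => Real.sqrt (vn (ru v) a x) * f v y x) atTop
      (𝓝 (if x = y ∧ good a y = true then 1 else 0)) := by
  have hsq : ∀ g : ℝ → ℝ, Tendsto (fun v => g v ^ 2) atTop (𝓝 0) → Tendsto g atTop (𝓝 0) := by
    intro g hg
    have h5 := (Real.continuous_sqrt.tendsto 0).comp hg
    rw [Real.sqrt_zero] at h5
    rw [tendsto_zero_iff_abs_tendsto_zero]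
    refine h5.congr fun v => ?_
    show Real.sqrt (g v ^ 2) = |g v|
    exact Real.sqrt_sq_eq_abs _
  by_cases hg : good a y = true
  · by_cases hxy : x = y
    · rw [if_pos ⟨hxy, hg⟩, hxy]
      exact h.lim y hg
    · rw [if_neg fun h3 => hxy h3.1]
      refine hsq _ ?_
      have h1 : Tendsto (fun v => 1 - (Real.sqrt (vn (ru v) a y) * f v y y) ^ 2) atTop (𝓝 0) := by
        have h2 := ((h.lim y hg).pow 2).const_sub 1
        rw [one_pow, sub_self] at h2
        exact h2
      refine tendsto_of_tendsto_of_tendsto_of_le_of_le' tendsto_const_nhds h1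
        (Eventually.of_forall fun v => sq_nonneg _) ?_
      filter_upwards [eventually_gt_atTop (1 : ℝ)] with v hv
      have h2 := fz_sum h y hv
      rw [if_pos hg] at h2
      have h3 := Finset.sum_le_univ_sum_of_nonneg (s := {x, y})
        (f := fun z => (Real.sqrt (vn (ru v) a z) * f v y z) ^ 2) (fun z => sq_nonneg _)
      rw [Finset.sum_pair hxy, h2] at h3
      linarith
  · rw [if_neg fun h3 => hg h3.2]
    refine tendsto_const_nhds.congr' ?_
    filter_upwards [eventually_gt_atTop (1 : ℝ)] with v hv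
    have h2 := fz_sum h y hv
    rw [if_neg hg] at h2
    have h3 := (Finset.sum_eq_zero_iff_of_nonneg (fun z _ => sq_nonneg _)).1 h2 x
      (Finset.mem_univ _)
    exact (pow_eq_zero_iff two_ne_zero |>.1 h3).symm

end Pool.Agent.KS
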