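import Pool.Agent.Work.MP_ab49bb_gt.Sat.QB

/-!
# H1 (M): the first hexagon identity

`(M ⊗ N) ⊗ P → P ⊗ (M ⊗ N)`: first `N` and `P` are exchanged, then `M` and `P`.
Take one large `L` (`L = card ι * card κ + card ι + card κ + 2`) and `RM_cut` for the three braidings. With the row `(p, (i, k))` and the column
`((i', k'), p')`: LHS `= v^((wt i + wt k) wt p) ∑_(l<L) c_l (Δ(E)^l) (i,k) (i',k') (F^l) p p'`, and by `tn_E_pow` and `rco_mul`
(`c_l [l choose j] v^(2j(l-j)) = c_j c_(l-j) v^(4j(l-j))`) this is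
`v^((wt i + wt k) wt p) ∑_(l<L) ∑_(j≤l) c_j c_(l-j) v^(4j(l-j) + 2(l-j) wt k') (E^(l-j)) i i' (E^j) k k' (F^l) p p'`.
RHS `= ∑_q ∑_j c_j v^(wt k wt q) (E^j) k k' (F^j) q p' ∑_m c_m v^(wt i wt p) (E^m) i i' (F^m) p q`; for nonzero terms
`wt q = wt p + 2 m` and `wt k = wt k' + 2 j`, so `v^(wt k wt q) = v^(wt k wt p + 2 m wt k' + 4 j m)` and `∑_q (F^m) p q (F^j) q p' = (F^(m+j)) p p'`:
RHS `= v^((wt i + wt k) wt p) ∑_(j<L) ∑_(m<L) c_j c_m v^(4jm + 2 m wt k') (E^m) i i' (E^j) k k' (F^(m+j)) p p'`. Both are the same sum over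
`(j, m)`: the terms with `m ≥ card ι` or `j ≥ card κ` vanish (`E_nil`), so the triangle `j + m < L` contains all nonzero terms
(`Finset.Nat.sum_antidiagonal`, `Finset.sum_sigma'` or `Finset.sum_bij'`).
-/

set_option autoImplicit false

open Matrix Filter Topology

namespace Pool.Agent.KS

open Pool.Agent.KT

variable {u : ℝˣ} {ι κ τ : Type} [Fintype ι] [DecidableEq ι] [Fintype κ] [DecidableEq κ]
  [Fintype τ] [DecidableEq τ]

theorem hex1 (hu : 1 < (u : ℝ)) (M : QM u ι) (N : QM u κ) (P : QM u τ) (p p' : τ) (i i' : ι)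
    (k k' : κ) :
    RM (tn M N) P (p, (i, k)) ((i', k'), p') =
      ∑ q, RM N P (q, k) (k', p') * RM M P (p, i) (i', q) := by
  set s : ℕ := Fintype.card ι + Fintype.card κ with hs
  set L : ℕ := 2 * s + Fintype.card ι * Fintype.card κ with hL
  set T : ℕ → ℕ → ℝ := fun j m => rco u j * rco u m * pw u (4 * j * m + 2 * m * N.wt k') *
    (M.E ^ m) i i' * (N.E ^ j) k k' * (P.F ^ (m + j)) p p' with hT
  have hTj : ∀ j m, s ≤ j → T j m = 0 := by
    intro j m hj
    have h1 : N.E ^ j = 0 := E_nil N (by omega)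
    simp only [hT, h1, Matrix.zero_apply, mul_zero, zero_mul]
  have hTm : ∀ j m, s ≤ m → T j m = 0 := by
    intro j m hm
    have h1 : M.E ^ m = 0 := E_nil M (by omega)
    simp only [hT, h1, Matrix.zero_apply, mul_zero, zero_mul]
  -- the left side
  have hleft : RM (tn M N) P (p, (i, k)) ((i', k'), p') =
      pw u ((M.wt i + N.wt k) * P.wt p) * ∑ j ∈ Finset.range s, ∑ m ∈ Finset.range s, T j m := by
    rw [RM_cut (tn M N) P (L := L) (by rw [Fintype.card_prod]; omega)]
    have h1 : ∀ l ∈ Finset.range L, rco u l * ((tn M N).E ^ l) (i, k) (i', k') * (P.F ^ l) p p' =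
        ∑ j ∈ Finset.range (l + 1), T j (l - j) := by
      intro l _
      rw [tn_E_pow hu, Finset.mul_sum, Finset.sum_mul]
      refine Finset.sum_congr rfl fun j hj => ?_
      have hj' : j ≤ l := Nat.lt_succ_iff.1 (Finset.mem_range.1 hj)
      obtain ⟨m, rfl⟩ := Nat.exists_eq_add_of_le hj'
      have hr := rco_mul hu j m
      have e1 : (((j + m : ℕ) : ℤ) - j) = m := by
        push_cast
        ring
      have e2 : pw u (4 * j * m + 2 * m * N.wt k') =
          pw u (2 * j * m) * pw u (2 * j * m) * pw u (2 * m * N.wt k') := by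
        rw [← pw_add, ← pw_add]
        congr 1
        ring
      simp only [hT, Nat.add_sub_cancel_left, e1]
      rw [e2, show m + j = j + m by omega]
      linear_combination (pw u (2 * j * m) * (M.E ^ m) i i' * (N.E ^ j) k k' *
        pw u (2 * m * N.wt k') * (P.F ^ (j + m)) p p') * hr
    have h2 : ∑ l ∈ Finset.range L, rco u l * ((tn M N).E ^ l) (i, k) (i', k') * (P.F ^ l) p p' =
        ∑ j ∈ Finset.range s, ∑ m ∈ Finset.range s, T j m := by
      rw [Finset.sum_congr rfl h1, Finset.sum_range_diag_flip]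
      have h3 : ∑ j ∈ Finset.range s, ∑ m ∈ Finset.range (L - j), T j m =
          ∑ j ∈ Finset.range L, ∑ m ∈ Finset.range (L - j), T j m := by
        refine Finset.sum_subset (Finset.range_subset_range.2 (by omega)) fun j _ hj => ?_
        have hj' : s ≤ j := by
          rw [Finset.mem_range] at hj
          omega
        exact Finset.sum_eq_zero fun m _ => hTj j m hj'
      rw [← h3]
      refine Finset.sum_congr rfl fun j hj => ?_
      have hj' : j < s := Finset.mem_range.1 hj
      symm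
      refine Finset.sum_subset (Finset.range_subset_range.2 (by omega)) fun m _ hm => ?_
      have hm' : s ≤ m := by
        rw [Finset.mem_range] at hm
        omega
      exact hTm j m hm'
    rw [h2]
    rfl
  -- the right side
  have hright : ∀ q, RM N P (q, k) (k', p') * RM M P (p, i) (i', q) =
      ∑ j ∈ Finset.range s, ∑ m ∈ Finset.range s, pw u ((M.wt i + N.wt k) * P.wt p) *
        (rco u j * rco u m * pw u (4 * j * m + 2 * m * N.wt k') * (M.E ^ m) i i' *
          (N.E ^ j) k k') * ((P.F ^ m) p q * (P.F ^ j) q p') := by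
    intro q
    rw [RM_cut N P (L := s) (by omega), RM_cut M P (L := s) (by omega)]
    have h1 : pw u (N.wt k * P.wt q) * (∑ j ∈ Finset.range s, rco u j * (N.E ^ j) k k' *
        (P.F ^ j) q p') * (pw u (M.wt i * P.wt p) * ∑ m ∈ Finset.range s,
          rco u m * (M.E ^ m) i i' * (P.F ^ m) p q) =
        ∑ j ∈ Finset.range s, ∑ m ∈ Finset.range s,
          (pw u (N.wt k * P.wt q) * (rco u j * (N.E ^ j) k k' * (P.F ^ j) q p')) *
            (pw u (M.wt i * P.wt p) * (rco u m * (M.E ^ m) i i' * (P.F ^ m) p q)) := by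
      rw [Finset.mul_sum, Finset.mul_sum, Finset.sum_mul_sum]
    refine h1.trans ?_
    refine Finset.sum_congr rfl fun j _ => Finset.sum_congr rfl fun m _ => ?_
    by_cases hF : (P.F ^ m) p q = 0
    · rw [hF]
      ring
    by_cases hE : (N.E ^ j) k k' = 0
    · rw [hE]
      ring
    have hw1 := F_pow_wt P m p q hF
    have hw2 := E_pow_wt N j k k' hE
    have e : pw u (N.wt k * P.wt q) * pw u (M.wt i * P.wt p) =
        pw u ((M.wt i + N.wt k) * P.wt p) * pw u (4 * j * m + 2 * m * N.wt k') := by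
      rw [← pw_add, ← pw_add]
      congr 1
      have h3 : P.wt q = P.wt p + 2 * m := by linarith
      rw [h3, hw2]
      ring
    linear_combination (rco u j * (N.E ^ j) k k' * (P.F ^ j) q p' *
      (rco u m * (M.E ^ m) i i' * (P.F ^ m) p q)) * e
  have hr2 : ∑ q, RM N P (q, k) (k', p') * RM M P (p, i) (i', q) = _ :=
    Finset.sum_congr (rfl : (Finset.univ : Finset τ) = Finset.univ) fun q _ => hright q
  rw [hleft, hr2, Finset.mul_sum]
  symm
  rw [Finset.sum_comm]
  refine Finset.sum_congr rfl fun j _ => ?_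
  rw [Finset.sum_comm, Finset.mul_sum]
  refine Finset.sum_congr rfl fun m _ => ?_
  rw [← Finset.mul_sum]
  have h1 : ∑ q, (P.F ^ m) p q * (P.F ^ j) q p' = (P.F ^ (m + j)) p p' := by
    rw [pow_add, Matrix.mul_apply]
  rw [h1]
  simp only [hT]
  ring

end Pool.Agent.KS
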