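import Pool.Agent.Work.MP_ab49bb_gt.Sat.Sl

/-!
# Hc (M): calculus of homomorphisms

`Hom.of_com`, `Hom.one`, `Hom.mul`: immediate (`Com` and `Hom M M` have the same fields; a nonzero entry of a product has a nonzero term).
`Hom.hw`: `X *ᵥ x` has weight `t` (entrywise, `hX.wt`) and `E (X x) = X (E x) = 0`.
`Hom.adj`: `adj M N X j i = nm i X i j / nm j`. Weights: clear. For `E`: claim `adj X * E_M = E_N * adj X`. Entry `(j, i)`, `j` index of `N`:
`∑_i' nm i' X i' j E i' i / nm j` and `∑_j' E j j' nm i X i j' / nm j'`. By `M.adj i' i`: `nm i' E i' i = nm i F i i' v^(2 wt i')`, with `wt i' = wt j` when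
`X i' j ≠ 0`; so the first is `nm i v^(2 wt j) (F_M X) i j / nm j`. By `N.adj j j'`: `nm j E j j' = nm j' F j' j v^(2 wt j)`, so the second is
`nm i v^(2 wt j) (X F_N) i j / nm j`. They agree by `hX.F`. For `F` in the same way with `F i i' = nm i' E i' i v^(-2 wt i') / nm i` (`pw` is invertible).
`adj_mul`, `adj_adj`, `adj_ip`: by computation (`N.nm j ≠ 0`).
`kr_mul`: `Matrix.mul_apply`, `Fintype.sum_prod_type`, `Finset.sum_mul_sum`. `kr_one`: cases. `Hom.kr`: `tE` and `tF` are sums of two Kronecker products;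
entrywise: `(kr X Y * tE) x y = (X x.1 y.1) (Y E_N) x.2 y.2 + (X E_M) x.1 y.1 Y x.2 y.2 v^(2 wt y.2)` and `(tE' * kr X Y) x y = X x.1 y.1 (E Y) x.2 y.2 +
∑_k [k = x.2] … = … + (E X) x.1 y.1 v^(2 wt x.2) Y x.2 y.2`, with `wt x.2 = wt y.2` when `Y x.2 y.2 ≠ 0`; `tF` in the same way.
`Iso.refl`, `Iso.trans`, `Iso.tn`: unfold; in `tE` the conditions `(e x).1 = (e y).1` and `x.1 = y.1` are equivalent (injectivity). `cong_iso`: `rfl` in every field.
-/

set_option autoImplicit false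

open Matrix Filter Topology

namespace Pool.Agent.KS

open Pool.Agent.KT

variable {u : ℝˣ} {ι κ τ ι' κ' : Type} [Fintype ι] [DecidableEq ι] [Fintype κ] [DecidableEq κ]
  [Fintype τ] [DecidableEq τ] [Fintype ι'] [DecidableEq ι'] [Fintype κ'] [DecidableEq κ']

private theorem pwn (u : ℝˣ) (a : ℤ) : pw u (2 * a) * pw u (-(2 * a)) = 1 := by
  rw [← pw_add, add_neg_cancel, pw_zero]

private theorem tE_kr (E : Matrix ι ι ℝ) (E' : Matrix κ κ ℝ) (w' : κ → ℤ) :
    tE u E E' w' = KS.kr (1 : Matrix ι ι ℝ) E' + KS.kr E (diagonal fun k => pw u (2 * w' k)) := by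
  ext x y
  rw [Matrix.add_apply]
  unfold tE KS.kr
  rw [one_apply, diagonal_apply]
  by_cases h1 : x.1 = y.1 <;> by_cases h2 : x.2 = y.2 <;> simp [h1, h2]

private theorem tF_kr (F : Matrix ι ι ℝ) (F' : Matrix κ κ ℝ) (w : ι → ℤ) :
    tF u F F' w = KS.kr (diagonal fun k => pw u (-(2 * w k))) F' + KS.kr F (1 : Matrix κ κ ℝ) := by
  ext x y
  rw [Matrix.add_apply]
  unfold tF KS.kr
  rw [one_apply, diagonal_apply]
  by_cases h1 : x.1 = y.1 <;> by_cases h2 : x.2 = y.2 <;> simp [h1, h2]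

theorem Hom.of_com {M : QM u ι} {X : Matrix ι ι ℝ} (h : M.Com X) : Hom M M X := by
  exact ⟨h.wt, h.E, h.F⟩

theorem Hom.com {M : QM u ι} {X : Matrix ι ι ℝ} (h : Hom M M X) : M.Com X := by
  exact ⟨h.wt, h.E, h.F⟩

theorem Hom.mul {M : QM u ι} {N : QM u κ} {P : QM u τ} {X : Matrix ι κ ℝ} {Y : Matrix κ τ ℝ}
    (hX : Hom M N X) (hY : Hom N P Y) : Hom M P (X * Y) := by
  refine ⟨fun i j h => ?_, ?_, ?_⟩
  · rw [Matrix.mul_apply] at h
    obtain ⟨k, -, hk⟩ := Finset.exists_ne_zero_of_sum_ne_zero h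
    exact (hX.wt i k (left_ne_zero_of_mul hk)).trans (hY.wt k j (right_ne_zero_of_mul hk))
  · rw [Matrix.mul_assoc, hY.E, ← Matrix.mul_assoc, hX.E, Matrix.mul_assoc]
  · rw [Matrix.mul_assoc, hY.F, ← Matrix.mul_assoc, hX.F, Matrix.mul_assoc]

theorem Hom.hw {M : QM u ι} {N : QM u κ} {X : Matrix ι κ ℝ} (hX : Hom M N X) {t : ℤ} {x : κ → ℝ}
    (hx : N.HW t x) : M.HW t (X *ᵥ x) := by
  refine ⟨fun i hi => ?_, ?_⟩
  · change ∑ j, X i j * x j = 0
    refine Finset.sum_eq_zero fun j _ => ?_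
    by_cases h0 : X i j = 0
    · rw [h0, zero_mul]
    · rw [hx.wt j (fun h => hi ((hX.wt i j h0).trans h)), mul_zero]
  · rw [Matrix.mulVec_mulVec, ← hX.E, ← Matrix.mulVec_mulVec, hx.E, Matrix.mulVec_zero]

theorem Hom.adj {M : QM u ι} {N : QM u κ} {X : Matrix ι κ ℝ} (hX : Hom M N X) :
    Hom N M (KS.adj M N X) := by
  have hn : ∀ j, N.nm j ≠ 0 := fun j => (N.pos j).ne'
  refine ⟨fun j i h => ?_, ?_, ?_⟩
  · have h1 : X i j ≠ 0 := by
      intro h0
      apply h
      unfold KS.adj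
      rw [h0, mul_zero, zero_div]
    exact (hX.wt i j h1).symm
  · ext j i
    rw [Matrix.mul_apply, Matrix.mul_apply]
    have hF := congrFun (congrFun hX.F i) j
    rw [Matrix.mul_apply, Matrix.mul_apply] at hF
    have h1 : ∀ i', KS.adj M N X j i' * M.E i' i =
        M.nm i * pw u (2 * N.wt j) / N.nm j * (M.F i i' * X i' j) := by
      intro i'
      unfold KS.adj
      by_cases h0 : X i' j = 0
      · rw [h0]
        ring
      · have ha := M.adj i' i
        rw [hX.wt i' j h0] at ha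
        have h2 : M.nm i' * X i' j / N.nm j * M.E i' i =
            (M.nm i' * M.E i' i) * X i' j / N.nm j := by ring
        rw [h2, ha]
        ring
    have h3 : ∀ j', N.E j j' * KS.adj M N X j' i =
        M.nm i * pw u (2 * N.wt j) / N.nm j * (X i j' * N.F j' j) := by
      intro j'
      unfold KS.adj
      have ha := N.adj j j'
      have h4 : N.E j j' = N.nm j' * N.F j' j * pw u (2 * N.wt j) / N.nm j := by
        rw [← ha]
        field_simp [hn j]
      rw [h4]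
      field_simp [hn j, hn j']
    rw [Finset.sum_congr rfl fun i' _ => h1 i', Finset.sum_congr rfl fun j' _ => h3 j',
      ← Finset.mul_sum, ← Finset.mul_sum, hF]
  · ext j i
    rw [Matrix.mul_apply, Matrix.mul_apply]
    have hE := congrFun (congrFun hX.E i) j
    rw [Matrix.mul_apply, Matrix.mul_apply] at hE
    have h1 : ∀ i', KS.adj M N X j i' * M.F i' i =
        M.nm i * pw u (-(2 * M.wt i)) / N.nm j * (M.E i i' * X i' j) := by
      intro i'
      unfold KS.adj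
      have ha := M.adj i i'
      have hp := pwn u (M.wt i)
      have h2 : M.nm i' * M.F i' i = M.nm i * M.E i i' * pw u (-(2 * M.wt i)) := by
        rw [ha, mul_assoc, hp, mul_one]
      have h3 : M.nm i' * X i' j / N.nm j * M.F i' i =
          (M.nm i' * M.F i' i) * X i' j / N.nm j := by ring
      rw [h3, h2]
      ring
    have h3 : ∀ j', N.F j j' * KS.adj M N X j' i =
        M.nm i * pw u (-(2 * M.wt i)) / N.nm j * (X i j' * N.E j' j) := by
      intro j'
      unfold KS.adj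
      by_cases h0 : X i j' = 0
      · rw [h0]
        ring
      · have ha := N.adj j' j
        rw [← hX.wt i j' h0] at ha
        have hp := pwn u (M.wt i)
        have h4 : N.F j j' = N.nm j' * N.E j' j * pw u (-(2 * M.wt i)) / N.nm j := by
          rw [ha, mul_assoc, hp, mul_one]
          field_simp [hn j]
        rw [h4]
        field_simp [hn j, hn j']
    rw [Finset.sum_congr rfl fun i' _ => h1 i', Finset.sum_congr rfl fun j' _ => h3 j',
      ← Finset.mul_sum, ← Finset.mul_sum, hE]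

theorem adj_ip (M : QM u ι) (N : QM u κ) (X : Matrix ι κ ℝ) (x : ι → ℝ) (y : κ → ℝ) :
    N.ip (adj M N X *ᵥ x) y = M.ip x (X *ᵥ y) := by
  have hn : ∀ j, N.nm j ≠ 0 := fun j => (N.pos j).ne'
  unfold QM.ip
  have h1 : ∀ j, N.nm j * (adj M N X *ᵥ x) j * y j =
      ∑ i, M.nm i * x i * (X i j * y j) := by
    intro j
    change N.nm j * (∑ i, (M.nm i * X i j / N.nm j) * x i) * y j = _
    rw [Finset.mul_sum, Finset.sum_mul]
    refine Finset.sum_congr rfl fun i _ => ?_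
    field_simp [hn j]
  have h2 : ∀ i, M.nm i * x i * (X *ᵥ y) i = ∑ j, M.nm i * x i * (X i j * y j) := by
    intro i
    change M.nm i * x i * (∑ j, X i j * y j) = _
    rw [Finset.mul_sum]
  rw [Finset.sum_congr rfl fun j _ => h1 j, Finset.sum_congr rfl fun i _ => h2 i,
    Finset.sum_comm]

theorem adj_mul (M : QM u ι) (N : QM u κ) (P : QM u τ) (X : Matrix ι κ ℝ) (Y : Matrix κ τ ℝ) :
    adj M P (X * Y) = adj N P Y * adj M N X := by
  have hn : ∀ j, N.nm j ≠ 0 := fun j => (N.pos j).ne'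
  ext k i
  unfold adj
  rw [Matrix.mul_apply, Matrix.mul_apply, Finset.mul_sum, Finset.sum_div]
  refine Finset.sum_congr rfl fun j _ => ?_
  field_simp [hn j]

theorem adj_adj (M : QM u ι) (N : QM u κ) (X : Matrix ι κ ℝ) : adj N M (adj M N X) = X := by
  ext i j
  unfold adj
  have h1 := (N.pos j).ne'
  have h2 := (M.pos i).ne'
  field_simp [h1, h2]

theorem kr_mul (X : Matrix ι κ ℝ) (Y : Matrix κ τ ℝ) (X' : Matrix ι' κ' ℝ) {τ' : Type}
    (Y' : Matrix κ' τ' ℝ) : kr X X' * kr Y Y' = kr (X * Y) (X' * Y') := by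
  ext x y
  rw [Matrix.mul_apply]
  unfold kr
  rw [Fintype.sum_prod_type, Matrix.mul_apply, Matrix.mul_apply, Finset.sum_mul_sum]
  refine Finset.sum_congr rfl fun a _ => Finset.sum_congr rfl fun b _ => ?_
  ring

theorem kr_one : kr (1 : Matrix ι ι ℝ) (1 : Matrix κ κ ℝ) = 1 := by
  ext x y
  unfold kr
  rw [Matrix.one_apply, Matrix.one_apply, Matrix.one_apply]
  by_cases h1 : x.1 = y.1 <;> by_cases h2 : x.2 = y.2 <;> simp [h1, h2, Prod.ext_iff]

theorem Hom.kr {M' : QM u ι'} {M : QM u ι} {N' : QM u κ'} {N : QM u κ} {X : Matrix ι' ι ℝ}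
    {Y : Matrix κ' κ ℝ} (hX : Hom M' M X) (hY : Hom N' N Y) :
    Hom (tn M' N') (tn M N) (KS.kr X Y) := by
  refine ⟨fun x y h => ?_, ?_, ?_⟩
  · unfold KS.kr at h
    change M'.wt x.1 + N'.wt x.2 = M.wt y.1 + N.wt y.2
    rw [hX.wt _ _ (left_ne_zero_of_mul h), hY.wt _ _ (right_ne_zero_of_mul h)]
  · change KS.kr X Y * tE u M.E N.E N.wt = tE u M'.E N'.E N'.wt * KS.kr X Y
    rw [tE_kr, tE_kr, Matrix.mul_add, Matrix.add_mul, kr_mul, kr_mul, kr_mul, kr_mul, hX.E, hY.E,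
      Matrix.mul_one, Matrix.one_mul]
    congr 2
    ext a b
    rw [mul_diagonal, diagonal_mul]
    by_cases h0 : Y a b = 0
    · rw [h0, zero_mul, mul_zero]
    · rw [hY.wt a b h0, mul_comm]
  · change KS.kr X Y * tF u M.F N.F M.wt = tF u M'.F N'.F M'.wt * KS.kr X Y
    rw [tF_kr, tF_kr, Matrix.mul_add, Matrix.add_mul, kr_mul, kr_mul, kr_mul, kr_mul, hX.F, hY.F,
      Matrix.mul_one, Matrix.one_mul]
    congr 2
    ext a b
    rw [mul_diagonal, diagonal_mul]
    by_cases h0 : X a b = 0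
    · rw [h0, zero_mul, mul_zero]
    · rw [hX.wt a b h0, mul_comm]

theorem Iso.refl (M : QM u ι) : Iso M M (Equiv.refl ι) := by
  exact ⟨fun _ => rfl, fun _ => rfl, fun _ _ => rfl, fun _ _ => rfl⟩

theorem Iso.trans {M : QM u ι} {N : QM u κ} {P : QM u τ} {e : ι ≃ κ} {e' : κ ≃ τ}
    (h : Iso M N e) (h' : Iso N P e') : Iso M P (e.trans e') := by
  refine ⟨fun i => ?_, fun i => ?_, fun i j => ?_, fun i j => ?_⟩
  · rw [Equiv.trans_apply, h'.wt, h.wt]
  · rw [Equiv.trans_apply, h'.nm, h.nm]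
  · rw [Equiv.trans_apply, Equiv.trans_apply, h'.E, h.E]
  · rw [Equiv.trans_apply, Equiv.trans_apply, h'.F, h.F]

theorem Iso.tn {M : QM u ι} {M' : QM u ι'} {N : QM u κ} {N' : QM u κ'} {e : ι ≃ ι'} {e' : κ ≃ κ'}
    (h : Iso M M' e) (h' : Iso N N' e') :
    Iso (KT.tn M N) (KT.tn M' N') (Equiv.prodCongr e e') := by
  refine ⟨fun x => ?_, fun x => ?_, fun x y => ?_, fun x y => ?_⟩
  · change M'.wt (e x.1) + N'.wt (e' x.2) = M.wt x.1 + N.wt x.2
    rw [h.wt, h'.wt]
  · change M'.nm (e x.1) * N'.nm (e' x.2) = M.nm x.1 * N.nm x.2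
    rw [h.nm, h'.nm]
  · change tE u M'.E N'.E N'.wt (e x.1, e' x.2) (e y.1, e' y.2) = tE u M.E N.E N.wt x y
    unfold tE
    simp only [e.injective.eq_iff, e'.injective.eq_iff, h.E, h'.E, h'.wt]
  · change tF u M'.F N'.F M'.wt (e x.1, e' x.2) (e y.1, e' y.2) = tF u M.F N.F M.wt x y
    unfold tF
    simp only [e.injective.eq_iff, e'.injective.eq_iff, h.F, h'.F, h.wt]

theorem cong_iso (M : QM u ι) (e : κ ≃ ι) : Iso (cong M e) M e := by
  exact ⟨fun _ => rfl, fun _ => rfl, fun _ _ => rfl, fun _ _ => rfl⟩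

end Pool.Agent.KS
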