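import Pool.Agent.Work.MP_ab49bb_gt.Sat.Fz
import Pool.Agent.Work.MP_ab49bb_gt.Sat.Cv

/-!
# Lsp (M): limits of spectral sums

`X v = ∑_y lam v y Q_y(v)`, `Q_y = Qp … (tt a y) (f v y)`. If `good a y = false`: `f v y = 0` (its norm is `0`: `IsCV.on`, `ip_self_eq_zero`) and `Q_y = 0` (`ph_zero`). If `good a y = true` and `tt a y ≠ 0`: the normalised entries of `Q_y` are bounded by `1` (`qp_entry`,
`TP_nm_vn`) and `lam → 0`. If `good a y = true` and `tt a y = 0`: `Q_y x z = f x * vn z * f z` (`Fin 1`, `ph_col`, `vN u 0 0 = 1`), so the normalised entry is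
`(√(vn x) f x) (√(vn z) f z) → [x = y] [z = y]` (`fus_coord`; `vn z / √(vn z) = √(vn z)`), times `lam → L y`. Sum over `y`: `[x = z] [good x ∧ tt x = 0] L x`.
-/

set_option autoImplicit false

open Matrix Filter Topology

namespace Pool.Agent.KS

open Pool.Agent.KT

private theorem qp_zero {u : ℝˣ} (hu : 1 < (u : ℝ)) {ι : Type} [Fintype ι] [DecidableEq ι]
    (M : QM u ι) {t : ℕ} (ht : t = 0) (f : ι → ℝ) (x z : ι) :
    Qp u hu M t f x z = f x * (M.nm z * f z) := by
  subst ht
  have h1 : Qp u hu M 0 f x z = ∑ i : Fin (0 + 1), Ph M 0 f x i *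
      (M.nm z * Ph M 0 f z i / vN u 0 i) := rfl
  rw [h1, Fin.sum_univ_succ, Fin.sum_univ_zero, add_zero, ph_col, ph_col]
  have h2 : vN u 0 (((0 : Fin (0 + 1)) : Fin (0 + 1)) : ℕ) = 1 := by
    rw [Fin.val_zero, vN_zero]
  rw [h2, div_one]

private theorem qp_nil {u : ℝˣ} (hu : 1 < (u : ℝ)) {ι : Type} [Fintype ι] [DecidableEq ι]
    (M : QM u ι) (t : ℕ) : Qp u hu M t 0 = 0 := by
  unfold Qp
  rw [ph_zero, Matrix.zero_mul]

theorem lim_spec {a n : ℕ} {f : ℝ → (Fin n → Fin (a + 1)) → (Fin n → Fin (a + 1)) → ℝ}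
    (h : Fus a n f) {X : ℝ → Matrix (Fin n → Fin (a + 1)) (Fin n → Fin (a + 1)) ℝ}
    {lam : ℝ → (Fin n → Fin (a + 1)) → ℝ} {L : (Fin n → Fin (a + 1)) → ℝ}
    (hX : ∀ (v : ℝ) (hv : 1 < v), X v = ∑ y, lam v y •
      Qp (ru v) (ru_gt hv) (TP (VQ (ru v) (ru_gt hv) a) n) (tt a y) (f v y))
    (h0 : ∀ y, good a y = true → tt a y = 0 → Tendsto (fun v => lam v y) atTop (𝓝 (L y)))
    (h1 : ∀ y, good a y = true → tt a y ≠ 0 → Tendsto (fun v => lam v y) atTop (𝓝 0)) :
    Lim a X fun y => if good a y = true ∧ tt a y = 0 then L y else 0 := by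
  intro x z
  -- the normalised entries
  have hterm : ∀ y : Fin n → Fin (a + 1), ∃ g : ℝ → ℝ,
      (∀ (v : ℝ) (hv : 1 < v), g v = lam v y * (Real.sqrt (vn (ru v) a x) *
        Qp (ru v) (ru_gt hv) (TP (VQ (ru v) (ru_gt hv) a) n) (tt a y) (f v y) x z /
          Real.sqrt (vn (ru v) a z))) ∧
      Tendsto g atTop (𝓝 (if good a y = true ∧ tt a y = 0 then
        L y * ((if x = y then 1 else 0) * (if z = y then 1 else 0)) else 0)) := by
    intro y
    by_cases hg : good a y = true
    · by_cases ht : tt a y = 0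
      · rw [if_pos ⟨hg, ht⟩]
        refine ⟨fun v => lam v y * ((Real.sqrt (vn (ru v) a x) * f v y x) *
          (Real.sqrt (vn (ru v) a z) * f v y z)), fun v hv => ?_, ?_⟩
        · rw [qp_zero (ru_gt hv) _ ht, TP_nm_vn (ru_gt hv)]
          have h1 : 0 < vn (ru v) a z := vn_pos (ru_gt hv) a z
          have h2 : vn (ru v) a z = Real.sqrt (vn (ru v) a z) * Real.sqrt (vn (ru v) a z) :=
            (Real.mul_self_sqrt h1.le).symm
          have h3 : Real.sqrt (vn (ru v) a z) ≠ 0 := (Real.sqrt_pos.2 h1).ne'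
          rw [eq_comm]
          congr 1
          rw [div_eq_iff h3]
          calc Real.sqrt (vn (ru v) a x) * (f v y x * (vn (ru v) a z * f v y z))
              = Real.sqrt (vn (ru v) a x) * f v y x * f v y z * vn (ru v) a z := by ring
            _ = Real.sqrt (vn (ru v) a x) * f v y x * f v y z *
                (Real.sqrt (vn (ru v) a z) * Real.sqrt (vn (ru v) a z)) := by rw [← h2]
            _ = _ := by ring
        · have e1 := fus_coord h x y
          have e2 := fus_coord h z y
          simp only [hg, and_true] at e1 e2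
          exact (h0 y hg ht).mul (e1.mul e2)
      · rw [if_neg (fun h => ht h.2)]
        refine ⟨fun v => if hv : 1 < v then lam v y * (Real.sqrt (vn (ru v) a x) *
          Qp (ru v) (ru_gt hv) (TP (VQ (ru v) (ru_gt hv) a) n) (tt a y) (f v y) x z /
            Real.sqrt (vn (ru v) a z)) else 0, fun v hv => dif_pos hv, ?_⟩
        refine squeeze_zero_norm (a := fun v => ‖lam v y‖) (fun v => ?_) ?_
        · by_cases hv : 1 < v
          · rw [dif_pos hv, norm_mul]
            have h3 := qp_entry (ru_gt hv) (h.cv v hv) y x z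
            rw [TP_nm_vn (ru_gt hv), TP_nm_vn (ru_gt hv)] at h3
            exact mul_le_of_le_one_right (norm_nonneg _) h3
          · rw [dif_neg hv, norm_zero]
            exact norm_nonneg _
        · have h4 := (h1 y hg ht).norm
          rwa [norm_zero] at h4
    · rw [if_neg (fun h => hg h.1)]
      refine ⟨fun _ => 0, fun v hv => ?_, tendsto_const_nhds⟩
      have h3 := (h.cv v hv).on y y
      rw [if_neg (fun h => hg h.2)] at h3
      rw [(TP (VQ (ru v) (ru_gt hv) a) n).ip_self_eq_zero] at h3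
      rw [h3, qp_nil]
      simp
  choose g hg1 hg2 using hterm
  have hsum := tendsto_finsetSum Finset.univ fun y _ => hg2 y
  have hlim : (∑ y : Fin n → Fin (a + 1), if good a y = true ∧ tt a y = 0 then
      L y * ((if x = y then (1 : ℝ) else 0) * (if z = y then 1 else 0)) else 0) =
      if x = z then (if good a x = true ∧ tt a x = 0 then L x else 0) else 0 := by
    rw [Finset.sum_eq_single x]
    · by_cases hxz : x = z
      · subst hxz
        simp
      · have hzx : ¬ z = x := fun h => hxz h.symm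
        simp [hxz, hzx]
    · intro y _ hy
      have hyx : ¬ x = y := fun h => hy h.symm
      simp [hyx]
    · intro hx
      exact absurd (Finset.mem_univ _) hx
  rw [hlim] at hsum
  refine hsum.congr' ?_
  filter_upwards [eventually_gt_atTop (1 : ℝ)] with v hv
  rw [hX v hv, Matrix.sum_apply, Finset.mul_sum, Finset.sum_div]
  refine Finset.sum_congr rfl fun y _ => ?_
  rw [hg1 y v hv, Matrix.smul_apply, smul_eq_mul]
  ring

end Pool.Agent.KS
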