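import Pool.Agent.Work.MP_ab49bb_gt.Sat.Lsp
import Pool.Agent.Work.MP_ab49bb_gt.Sat.FuT

/-!
# Lt (S-M): the limit of a negative full twist

Take `f` from `exists_fus`. For `v > 1` the matrix `X = v^(-r a(a+2)) • wR r (S (ru v) a) (inv (ft r))` is in `Com` (`com_wR`, `RM_VQ`, `Com.smul`) and `X *ᵥ f y = v^(-t(t+2)) • f y`, `t = tt a y` (`ift_hw`), so `cv_spec` gives the hypothesis of
`lim_spec` with `lam v y = pw (ru v) (-(t (t+2)))`: it is `1` for `t = 0` and tends to `0` for `t ≥ 1` (`pw_ru`, `tendsto_zpow_atTop_zero`; for `v > 1`, use `Tendsto.congr'`). For `v ≤ 1` nothing is asked.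
-/

set_option autoImplicit false

open Matrix Filter Topology

namespace Pool.Agent.KS

open Pool.Agent.KT

theorem lim_tw (a r : ℕ) :
    Lim (n := r) a (fun v => pw (ru v) (-(r * ((a : ℤ) * (a + 2)))) •
      wR r (S (ru v) a) (inv (ft r))) fun y => if good a y = true ∧ tt a y = 0 then 1 else 0 := by
  obtain ⟨f, hf⟩ := exists_fus a r
  refine lim_spec hf (lam := fun v y => pw (ru v) (-((tt a y : ℤ) * (tt a y + 2))))
    (L := fun _ => 1) ?_ ?_ ?_
  · intro v hv
    have hu := ru_gt hv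
    have hcv := hf.cv v hv
    refine cv_spec hu hcv ?_ ?_
    · refine QM.Com.smul ?_ _
      rw [← RM_VQ hu]
      exact com_wR hu _ _ _
    · intro y
      rw [Matrix.smul_mulVec, ift_hw hu a r (hcv.hw y), smul_smul, ← pw_add]
      congr 2
      ring
  · intro y _ h0
    refine Tendsto.congr (fun v => ?_) (tendsto_const_nhds (x := (1 : ℝ)))
    rw [h0, Nat.cast_zero, zero_mul, neg_zero, pw_zero]
  · intro y _ h0
    have hneg : -((tt a y : ℤ) * (tt a y + 2)) < 0 := by
      have h1 : (0 : ℤ) < (tt a y : ℤ) := by omega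
      have h2 : (0 : ℤ) < (tt a y : ℤ) * (tt a y + 2) := mul_pos h1 (by linarith)
      linarith
    refine Tendsto.congr' ?_ (tendsto_zpow_atTop_zero (𝕜 := ℝ) hneg)
    filter_upwards [eventually_gt_atTop (1 : ℝ)] with v hv
    rw [pw_ru hv]

end Pool.Agent.KS
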