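import Pool.Agent.Work.MP_ab49bb_gt.Sat.Sl

/-!
# Rc (S-M): the coefficients `rco` and the braiding `RM`

`rco u l = v^(l(l-1)) {1}^l / [l]!`, `[l+1]! = [l]! [l+1]` (`qf`, `Finset.prod_range_succ`), `[m] = {m}/{1}`, `{1} ≠ 0`.
`rco_succ`: exponents `l (l+1) - l (l-1) = 2 l`.
`rco_mul`: `gb (j+k) j = [j+k]! / ([j]! [k]!)` (KT `gb_fact`: `gb n k * bf k * bf (n-k) = bf n`, where
`bf k = ∏_{s<k} {s+1}` is private there or not; `qf u k * br u 1 ^ k = ∏_{s<k} br u (s+1)`), exponents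
`(j+k)(j+k-1) = j(j-1) + k(k-1) + 2 j k`.
`RM_cut`: the terms with `card ι ≤ l` vanish by `E_nil` (compare `Finset.range (card ι + 1)` and `Finset.range L` with
`Finset.range (card ι)`; `Finset.sum_subset`).
`RM_cut'`: the same with `F_nil`.
`RM_wt`: a term `(M.E^l) y.2 x.1 (N.F^l) y.1 x.2 ≠ 0` gives `M.wt y.2 = M.wt x.1 + 2 l`, `N.wt y.1 = N.wt x.2 - 2 l`.
-/

set_option autoImplicit false

open Matrix Filter Topology

namespace Pool.Agent.KS

open Pool.Agent.KT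

variable {u : ℝˣ} {ι κ : Type} [Fintype ι] [DecidableEq ι] [Fintype κ] [DecidableEq κ]

private theorem rc_qf (i : ℕ) : qf u (i + 1) = qf u i * qn u (i + 1) := by
  rw [qf, qf, Finset.prod_range_succ]

private theorem rc_bf (hu : 1 < (u : ℝ)) (k : ℕ) : bf u k = qf u k * br u 1 ^ k := by
  have h1 : br u 1 ≠ 0 := (br_pos hu one_pos).ne'
  rw [bf, qf]
  have h2 : br u 1 ^ k = ∏ _s ∈ Finset.range k, br u 1 := by
    rw [Finset.prod_const, Finset.card_range]
  rw [h2, ← Finset.prod_mul_distrib]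
  apply Finset.prod_congr rfl
  intro s _
  rw [qn, div_mul_cancel₀ _ h1]

theorem rco_zero (u : ℝˣ) : rco u 0 = 1 := by
  unfold rco qf
  simp [pw_zero]

theorem rco_succ (hu : 1 < (u : ℝ)) (l : ℕ) :
    rco u (l + 1) * qn u (l + 1) = rco u l * (br u 1 * pw u (2 * l)) := by
  have h1 : qn u ((l : ℤ) + 1) ≠ 0 := (qn_pos hu (by positivity)).ne'
  have h2 : qf u l ≠ 0 := (qf_pos hu l).ne'
  have e1 : pw u (((l + 1 : ℕ) : ℤ) * (((l + 1 : ℕ) : ℤ) - 1)) =
      pw u ((l : ℤ) * (l - 1)) * pw u (2 * l) := by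
    rw [← pw_add]
    congr 1
    push_cast
    ring
  unfold rco
  rw [rc_qf, e1, pow_succ]
  field_simp

theorem rco_mul (hu : 1 < (u : ℝ)) (j k : ℕ) :
    rco u (j + k) * gb u (j + k) j = rco u j * rco u k * pw u (2 * j * k) := by
  have h1 : br u 1 ≠ 0 := (br_pos hu one_pos).ne'
  have hj : qf u j ≠ 0 := (qf_pos hu j).ne'
  have hk : qf u k ≠ 0 := (qf_pos hu k).ne'
  have hjk : qf u (j + k) ≠ 0 := (qf_pos hu (j + k)).ne'
  have h2 := gb_fact u (Nat.le_add_right j k)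
  rw [Nat.add_sub_cancel_left, rc_bf hu, rc_bf hu, rc_bf hu] at h2
  have h3 : gb u (j + k) j * qf u j * qf u k = qf u (j + k) := by
    have h4 : br u 1 ^ (j + k) ≠ 0 := pow_ne_zero _ h1
    apply mul_right_cancel₀ h4
    rw [← h2, pow_add]
    ring
  have e1 : pw u (((j + k : ℕ) : ℤ) * (((j + k : ℕ) : ℤ) - 1)) =
      pw u ((j : ℤ) * (j - 1)) * pw u ((k : ℤ) * (k - 1)) * pw u (2 * j * k) := by
    rw [← pw_add, ← pw_add]
    congr 1
    push_cast
    ring
  unfold rco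
  rw [e1, pow_add]
  rw [div_mul_eq_mul_div, div_mul_div_comm, div_mul_eq_mul_div, div_eq_div_iff hjk
    (mul_ne_zero hj hk), ← h3]
  ring

theorem RM_cut (M : QM u ι) (N : QM u κ) {L : ℕ} (h : Fintype.card ι ≤ L) (y : κ × ι) (x : ι × κ) :
    RM M N y x = pw u (M.wt y.2 * N.wt y.1) * ∑ l ∈ Finset.range L,
      rco u l * (M.E ^ l) y.2 x.1 * (N.F ^ l) y.1 x.2 := by
  unfold RM
  congr 1
  have hz : ∀ l, Fintype.card ι ≤ l → rco u l * (M.E ^ l) y.2 x.1 * (N.F ^ l) y.1 x.2 = 0 := by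
    intro l hl
    rw [E_nil M hl]
    simp
  have key : ∀ L', Fintype.card ι ≤ L' →
      ∑ l ∈ Finset.range (Fintype.card ι), rco u l * (M.E ^ l) y.2 x.1 * (N.F ^ l) y.1 x.2 =
      ∑ l ∈ Finset.range L', rco u l * (M.E ^ l) y.2 x.1 * (N.F ^ l) y.1 x.2 := by
    intro L' hL'
    apply Finset.sum_subset
    · intro l hl
      rw [Finset.mem_range] at hl ⊢
      omega
    · intro l _ hl
      rw [Finset.mem_range] at hl
      exact hz l (by omega)
  rw [← key _ (Nat.le_succ _), key L h]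

theorem RM_cut' (M : QM u ι) (N : QM u κ) {L : ℕ} (h : Fintype.card κ ≤ L) (y : κ × ι) (x : ι × κ) :
    RM M N y x = pw u (M.wt y.2 * N.wt y.1) * ∑ l ∈ Finset.range L,
      rco u l * (M.E ^ l) y.2 x.1 * (N.F ^ l) y.1 x.2 := by
  rw [RM_cut M N (le_max_left (Fintype.card ι) L)]
  congr 1
  symm
  apply Finset.sum_subset
  · intro l hl
    rw [Finset.mem_range] at hl ⊢
    omega
  · intro l _ hl
    rw [Finset.mem_range] at hl
    rw [F_nil N (show Fintype.card κ ≤ l by omega)]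
    simp

theorem RM_wt (M : QM u ι) (N : QM u κ) (y : κ × ι) (x : ι × κ) (h : RM M N y x ≠ 0) :
    (tn N M).wt y = (tn M N).wt x := by
  unfold RM at h
  have h1 := right_ne_zero_of_mul h
  obtain ⟨l, -, hl⟩ := Finset.exists_ne_zero_of_sum_ne_zero h1
  have h2 := right_ne_zero_of_mul hl
  have h3 := right_ne_zero_of_mul (left_ne_zero_of_mul hl)
  have e1 := E_pow_wt M l _ _ h3
  have e2 := F_pow_wt N l _ _ h2
  change N.wt y.1 + M.wt y.2 = M.wt x.1 + N.wt x.2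
  omega

end Pool.Agent.KS
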