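import Pool.Agent.Work.MP_ab49bb_gt.Sat.Hc
import Pool.Agent.Work.MP_ab49bb_gt.Sat.Rc

/-!
# Na (M): naturality of the braiding

`RM_nat`: take `L` larger than all cardinalities and `RM_cut` on both sides. From `hX.E`: `E_{M'}^l X = X E_M^l` (induction), from `hY.F`:
`F_{N'}^l Y = Y F_N^l`. Entry `(p, q) : κ' × ι'`, `(i, k) : ι × κ`: LHS `= v^(wt q wt p) ∑_l c_l (E^l X) q i (F^l Y) p k`, RHS
`= ∑_(p',q') Y p p' X q q' v^(wt q' wt p') ∑_l c_l (E^l) q' i (F^l) p' k`, and `wt q' = wt q`, `wt p' = wt p` when `X q q' ≠ 0`, `Y p p' ≠ 0` (the weights).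
`RM_iso`: `(M'.E^l) (e i) (e j) = (M.E^l) i j` by induction (`M'.E.submatrix e e = M.E`, `Matrix.submatrix_mul_equiv`), the same for `F`; the cardinalities of `ι` and
`ι'` are equal (`Fintype.card_congr e`).
`RM_hom`: from `RM_wt`, `RM_E`, `RM_F`.
-/

set_option autoImplicit false

open Matrix Filter Topology

namespace Pool.Agent.KS

open Pool.Agent.KT

variable {u : ℝˣ} {ι κ ι' κ' : Type} [Fintype ι] [DecidableEq ι] [Fintype κ] [DecidableEq κ]
  [Fintype ι'] [DecidableEq ι'] [Fintype κ'] [DecidableEq κ']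

private theorem na_dbl {α β : Type} [Fintype α] [Fintype β] (s : Finset ℕ) (W : ℝ) (a : ℕ → ℝ)
    (P : ℕ → α → ℝ) (Q : ℕ → β → ℝ) (R : α → ℝ) (T : β → ℝ) :
    ∑ z : α × β, (W * ∑ l ∈ s, a l * P l z.1 * Q l z.2) * (R z.1 * T z.2) =
      W * ∑ l ∈ s, a l * (∑ i, P l i * R i) * (∑ k, Q l k * T k) := by
  have h1 : ∀ z : α × β, (W * ∑ l ∈ s, a l * P l z.1 * Q l z.2) * (R z.1 * T z.2) =
      ∑ l ∈ s, W * (a l * ((P l z.1 * R z.1) * (Q l z.2 * T z.2))) := by
    intro z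
    rw [Finset.mul_sum, Finset.sum_mul]
    apply Finset.sum_congr rfl
    intro l _
    ring
  rw [Finset.sum_congr rfl fun z _ => h1 z, Finset.sum_comm, Finset.mul_sum]
  apply Finset.sum_congr rfl
  intro l _
  rw [← Finset.mul_sum, ← Finset.mul_sum, mul_assoc (a l), Finset.sum_mul_sum,
    Fintype.sum_prod_type]

private theorem na_pow_hom {A : Matrix ι ι ℝ} {A' : Matrix ι' ι' ℝ} {X : Matrix ι' ι ℝ}
    (h : X * A = A' * X) (l : ℕ) : X * A ^ l = A' ^ l * X := by
  induction l with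
  | zero => rw [pow_zero, pow_zero, Matrix.mul_one, Matrix.one_mul]
  | succ l ih => rw [pow_succ, ← Matrix.mul_assoc, ih, Matrix.mul_assoc, h, ← Matrix.mul_assoc,
      ← pow_succ]

private theorem na_pow {A : Matrix ι ι ℝ} {A' : Matrix ι' ι' ℝ} (e : ι ≃ ι')
    (h : ∀ i j, A' (e i) (e j) = A i j) (l : ℕ) (i j : ι) : (A' ^ l) (e i) (e j) = (A ^ l) i j := by
  induction l generalizing i with
  | zero =>
    rw [pow_zero, pow_zero, Matrix.one_apply, Matrix.one_apply]
    by_cases hij : i = j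
    · rw [if_pos hij, if_pos (by rw [hij])]
    · rw [if_neg hij, if_neg (fun h => hij (e.injective h))]
  | succ l ih =>
    rw [pow_succ', pow_succ', Matrix.mul_apply, Matrix.mul_apply, ← Equiv.sum_comp e]
    apply Finset.sum_congr rfl
    intro k _
    rw [h, ih]

theorem RM_nat {M' : QM u ι'} {M : QM u ι} {N' : QM u κ'} {N : QM u κ} {X : Matrix ι' ι ℝ}
    {Y : Matrix κ' κ ℝ} (hX : Hom M' M X) (hY : Hom N' N Y) :
    RM M' N' * kr X Y = kr Y X * RM M N := by
  ext y x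
  obtain ⟨p, q⟩ := y
  obtain ⟨i, k⟩ := x
  rw [Matrix.mul_apply, Matrix.mul_apply]
  obtain ⟨L, hL⟩ : ∃ L, L = Fintype.card ι + Fintype.card ι' := ⟨_, rfl⟩
  have hc' := fun y x => RM_cut M' N' (show Fintype.card ι' ≤ L by omega) y x
  have hc := fun y x => RM_cut M N (show Fintype.card ι ≤ L by omega) y x
  have hl : ∑ z, RM M' N' (p, q) z * kr X Y z (i, k) =
      pw u (M'.wt q * N'.wt p) * ∑ l ∈ Finset.range L, rco u l *
        (M'.E ^ l * X) q i * (N'.F ^ l * Y) p k := by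
    simp only [hc']
    have h1 := na_dbl (Finset.range L) (pw u (M'.wt q * N'.wt p)) (fun l => rco u l)
      (fun l i' => (M'.E ^ l) q i') (fun l k' => (N'.F ^ l) p k') (fun i' => X i' i)
      (fun k' => Y k' k)
    simp only [Matrix.mul_apply]
    exact h1
  have hr : ∑ z, kr Y X (p, q) z * RM M N z (i, k) =
      pw u (M'.wt q * N'.wt p) * ∑ l ∈ Finset.range L, rco u l *
        (X * M.E ^ l) q i * (Y * N.F ^ l) p k := by
    have h1 := na_dbl (Finset.range L) (pw u (M'.wt q * N'.wt p)) (fun l => rco u l)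
      (fun l p' => (N.F ^ l) p' k) (fun l q' => (M.E ^ l) q' i) (fun p' => Y p p')
      (fun q' => X q q')
    have h2 : ∀ z : κ × ι, kr Y X (p, q) z * RM M N z (i, k) =
        (pw u (M'.wt q * N'.wt p) * ∑ l ∈ Finset.range L, rco u l * (N.F ^ l) z.1 k *
          (M.E ^ l) z.2 i) * (Y p z.1 * X q z.2) := by
      intro z
      have e0 : kr Y X (p, q) z = Y p z.1 * X q z.2 := rfl
      rw [e0, hc]
      by_cases hYz : Y p z.1 = 0
      · rw [hYz]
        ring
      by_cases hXz : X q z.2 = 0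
      · rw [hXz]
        ring
      rw [hX.wt _ _ hXz, hY.wt _ _ hYz]
      have e1 : ∑ l ∈ Finset.range L, rco u l * (N.F ^ l) z.1 k * (M.E ^ l) z.2 i =
          ∑ l ∈ Finset.range L, rco u l * (M.E ^ l) z.2 i * (N.F ^ l) z.1 k := by
        apply Finset.sum_congr rfl
        intro l _
        ring
      simp only
      rw [e1]
      ring
    rw [Finset.sum_congr rfl fun z _ => h2 z]
    refine h1.trans ?_
    congr 1
    apply Finset.sum_congr rfl
    intro l _
    rw [Matrix.mul_apply, Matrix.mul_apply]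
    have e1 : ∑ i_1, (N.F ^ l) i_1 k * Y p i_1 = ∑ j, Y p j * (N.F ^ l) j k :=
      Finset.sum_congr rfl fun _ _ => mul_comm _ _
    have e2 : ∑ i_1, (M.E ^ l) i_1 i * X q i_1 = ∑ j, X q j * (M.E ^ l) j i :=
      Finset.sum_congr rfl fun _ _ => mul_comm _ _
    rw [e1, e2]
    ring
  rw [hl, hr]
  congr 1
  apply Finset.sum_congr rfl
  intro l _
  rw [na_pow_hom hX.E l, na_pow_hom hY.F l]

theorem RM_iso {M : QM u ι} {M' : QM u ι'} {N : QM u κ} {N' : QM u κ'} {e : ι ≃ ι'} {e' : κ ≃ κ'}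
    (h : Iso M M' e) (h' : Iso N N' e') (y : κ × ι) (x : ι × κ) :
    RM M N y x = RM M' N' (e' y.1, e y.2) (e x.1, e' x.2) := by
  unfold RM
  rw [h.wt, h'.wt, Fintype.card_congr e]
  congr 1
  apply Finset.sum_congr rfl
  intro l _
  rw [na_pow e h.E, na_pow e' h'.F]

end Pool.Agent.KS
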