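import Pool.Agent.Work.MP_ab49bb_gt.Sat.Hc

/-!
# Pf (M): the embedding `Ph` of `V_t`

`Ph M t f x i = F^(i) f x` (`i ≤ t`), `f` a highest weight vector of weight `t : ℕ`. All facts on `fd` are in KT/Fd.
`ph_hom`: weights: `fd_wt`; `(Ph * vE) x j = [t - (j-1)] F^(j-1) f x` for `j ≥ 1` and `0` for `j = 0`; `E_fd` and `f` HW; `(Ph * vF) x j = [j+1] F^(j+1) f x` for `j + 1 ≤ t` and `0`
for `j = t`; `F_fd`, `fd_last`. (`VQ u hu t` has `E = vE u t`, `F = vF u t`, `wt = vw t`, `nm i = vN u t i`, by `rfl`.)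
`ph_com`: `fd_com`. `ph_zero`: `F^i 0 = 0`. `ph_col`: `fd_zero`.
`ph_adj_same`: entry `(i, j)` is `ip (F^(i) f) (F^(j) g) / vN t i`. If `i ≠ j` the weights `t - 2i`, `t - 2j` are different (`fd_wt`, `ip_of_wt_ne`). If `i = j`: `ip (F^(i) f) (F^(i) g) = vN t i * ip f g` by
polarisation of `fd_norm` (`F^(i)` is linear; apply `fd_norm` to `f + g`, `f`, `g`, `ip_comm`), or by the induction in the proof of `fd_norm`.
`ph_adj_ne`: `s ≠ t`. Both `Ph` are homomorphisms, so `Z = adj (Ph f) * Ph g : Matrix (Fin (t+1)) (Fin (s+1)) ℝ` is a homomorphism `V_s → V_t` (`Hom.adj`, `Hom.mul`). Its column `0` is a highest weight vector of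
`V_t` of weight `s` (`Hom.hw`, the vector `Pi.single 0 1` of `V_s`), and a highest weight vector of `V_t` of weight `s ≠ t` is `0` (`E z = 0` gives `z (i+1) [t-i] = 0`, so only `z 0` can be nonzero, and it has weight
`t`). The other columns are `Z (F^i e_0) = F^i (Z e_0) = 0` up to nonzero factors. [Or directly: `ip (F^(i) f) (F^(j) g)`, with `ip_E`, `E_fd`, induction on `i`.]
`vq_hw`: as just said.
-/

set_option autoImplicit false

open Matrix Filter Topology

namespace Pool.Agent.KS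

open Pool.Agent.KT

variable {u : ℝˣ} {ι : Type} [Fintype ι] [DecidableEq ι]

private theorem pf_vE (t : ℕ) (z : Fin (t + 1) → ℝ) (i : ℕ) (hi : i + 1 < t + 1) :
    (vE u t *ᵥ z) ⟨i, by omega⟩ = qn u ((t : ℤ) - i) * z ⟨i + 1, hi⟩ := by
  rw [Matrix.mulVec, dotProduct, Finset.sum_eq_single (⟨i + 1, hi⟩ : Fin (t + 1))]
  · unfold vE
    rw [if_pos rfl]
  · intro j _ hj
    unfold vE
    rw [if_neg, zero_mul]
    intro h
    exact hj (Fin.ext h.symm)
  · intro h
    exact absurd (Finset.mem_univ _) h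

private theorem pf_step (hu : 1 < (u : ℝ)) (M : QM u ι) {s : ℕ} {g : ι → ℝ} (hg : M.HW s g)
    (j : ℕ) (x : ι → ℝ) (h : M.ip (M.E *ᵥ x) (fd u M.F j g) = 0) :
    M.ip x (fd u M.F (j + 1) g) = 0 := by
  have h1 := M.ip_E x (fd_wt M hg.wt j)
  rw [h, F_fd hu M.F j g, QM.ip_smul_right] at h1
  have h2 : pw u (2 * ((s : ℤ) - 2 * j)) ≠ 0 := (pw_pos hu _).ne'
  have h3 : qn u ((j : ℤ) + 1) ≠ 0 := (qn_pos hu (by positivity)).ne'
  rcases mul_eq_zero.1 h1.symm with h4 | h4
  · exact absurd h4 h2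
  · exact (mul_eq_zero.1 h4).resolve_left h3

private theorem pf_ip_ne (hu : 1 < (u : ℝ)) (M : QM u ι) {s t : ℕ} {f g : ι → ℝ}
    (hf : M.HW t f) (hg : M.HW s g) (h0 : M.ip f g = 0) :
    ∀ j i : ℕ, M.ip (fd u M.F i f) (fd u M.F j g) = 0 := by
  have hz : ∀ y : ι → ℝ, M.ip 0 y = 0 := by
    intro y
    simp [QM.ip]
  intro j
  induction j with
  | zero =>
    intro i
    rw [fd_zero]
    cases i with
    | zero => rw [fd_zero]; exact h0
    | succ i =>
      rw [QM.ip_comm]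
      apply pf_step hu M hf
      rw [hg.E, hz]
  | succ j ih =>
    intro i
    apply pf_step hu M hg
    cases i with
    | zero => rw [fd_zero, hf.E, hz]
    | succ i => rw [E_fd M hu hf i, QM.ip_smul_left, ih, mul_zero]

private theorem pf_ip_same (hu : 1 < (u : ℝ)) (M : QM u ι) {c : ℕ} {y z : ι → ℝ}
    (hy : M.HW c y) (hz : M.HW c z) (i : ℕ) :
    M.ip (fd u M.F i y) (fd u M.F i z) = vN u c i * M.ip y z := by
  induction i with
  | zero => rw [fd_zero, fd_zero, vN_zero, one_mul]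
  | succ i ih =>
    have h1 := M.ip_E (fd u M.F (i + 1) y) (fd_wt M hz.wt i)
    rw [E_fd M hu hy i, M.ip_smul_left, F_fd hu M.F i z, M.ip_smul_right, ih] at h1
    have h2 := vN_succ hu c i
    have h3 := pw_neg_mul u (2 * ((c : ℤ) - 2 * i))
    have h5 : qn u ((i : ℤ) + 1) ≠ 0 := (qn_pos hu (by positivity)).ne'
    apply mul_left_cancel₀ h5
    linear_combination (-pw u (-(2 * ((c : ℤ) - 2 * i)))) * h1 -
      (M.ip y z) * h2 - (qn u ((i : ℤ) + 1) * M.ip (fd u M.F (i + 1) y) (fd u M.F (i + 1) z)) * h3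

private theorem pf_entry (hu : 1 < (u : ℝ)) (M : QM u ι) (s t : ℕ) (f g : ι → ℝ)
    (i : Fin (t + 1)) (j : Fin (s + 1)) :
    (adj M (VQ u hu t) (Ph M t f) * Ph M s g) i j
      = M.ip (fd u M.F i f) (fd u M.F j g) / vN u t i := by
  rw [Matrix.mul_apply]
  unfold QM.ip adj Ph
  rw [Finset.sum_div]
  refine Finset.sum_congr rfl fun x _ => ?_
  show M.nm x * fd u M.F i f x / vN u t i * fd u M.F j g x = _
  ring

theorem vq_hw (hu : 1 < (u : ℝ)) {t : ℕ} {s : ℤ} {z : Fin (t + 1) → ℝ} (hz : (VQ u hu t).HW s z) :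
    z = if s = t then z 0 • Pi.single 0 1 else 0 := by
  have h0 : ∀ i : Fin (t + 1), i ≠ 0 → z i = 0 := by
    intro i hi
    have hi0 : (i : ℕ) ≠ 0 := fun h => hi (Fin.ext h)
    obtain ⟨k, hk⟩ : ∃ k, (i : ℕ) = k + 1 := ⟨(i : ℕ) - 1, by omega⟩
    have hk1 : k + 1 < t + 1 := hk ▸ i.2
    have h1 := pf_vE (u := u) t z k hk1
    have h2 : (vE u t *ᵥ z) ⟨k, by omega⟩ = 0 := congrFun hz.E _
    rw [h2] at h1
    have h3 : qn u ((t : ℤ) - k) ≠ 0 := (qn_pos hu (by omega)).ne'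
    have h4 := (mul_eq_zero.1 h1.symm).resolve_left h3
    have h5 : i = ⟨k + 1, hk1⟩ := Fin.ext hk
    rw [h5]
    exact h4
  by_cases hst : s = t
  · rw [if_pos hst]
    funext i
    rw [Pi.smul_apply, smul_eq_mul]
    by_cases hi : i = 0
    · rw [hi, Pi.single_eq_same, mul_one]
    · rw [Pi.single_eq_of_ne hi, mul_zero, h0 i hi]
  · rw [if_neg hst]
    funext i
    by_cases hi : i = 0
    · rw [hi]
      apply hz.wt
      show vw t 0 ≠ s
      unfold vw
      intro h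
      apply hst
      rw [← h]
      simp
    · exact h0 i hi

theorem ph_hom (hu : 1 < (u : ℝ)) {M : QM u ι} {t : ℕ} {f : ι → ℝ} (hf : M.HW t f) :
    Hom M (VQ u hu t) (Ph M t f) := by
  refine ⟨?_, ?_, ?_⟩
  · intro i j h
    by_contra hne
    apply h
    unfold Ph
    apply fd_wt M hf.wt j i
    intro h'
    exact hne (h'.trans rfl)
  · ext x j
    rw [Matrix.mul_apply, Matrix.mul_apply]
    have e2 : ∑ y, M.E x y * Ph M t f y j = (M.E *ᵥ fd u M.F j f) x := rfl
    rw [e2]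
    by_cases hj : (j : ℕ) = 0
    · rw [hj, fd_zero, hf.E]
      apply Finset.sum_eq_zero
      intro i _
      show Ph M t f x i * vE u t i j = 0
      unfold vE
      rw [if_neg (by omega), mul_zero]
    · obtain ⟨k, hk⟩ : ∃ k, (j : ℕ) = k + 1 := ⟨(j : ℕ) - 1, by omega⟩
      have hk1 : k + 1 < t + 1 := hk ▸ j.2
      rw [hk, E_fd M hu hf k, Pi.smul_apply, smul_eq_mul,
        Finset.sum_eq_single (⟨k, by omega⟩ : Fin (t + 1))]
      · show Ph M t f x ⟨k, by omega⟩ * vE u t ⟨k, by omega⟩ j = _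
        unfold vE Ph
        rw [if_pos hk.symm]
        ring
      · intro i _ hi
        show Ph M t f x i * vE u t i j = 0
        unfold vE
        rw [if_neg, mul_zero]
        intro h
        apply hi
        apply Fin.ext
        show (i : ℕ) = k
        omega
      · intro h
        exact absurd (Finset.mem_univ _) h
  · ext x j
    rw [Matrix.mul_apply, Matrix.mul_apply]
    have e2 : ∑ y, M.F x y * Ph M t f y j = (M.F *ᵥ fd u M.F j f) x := rfl
    rw [e2, F_fd hu M.F j f, Pi.smul_apply, smul_eq_mul]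
    by_cases hj : (j : ℕ) = t
    · rw [fd_last M hu hf (i := (j : ℕ) + 1) (by omega), Pi.zero_apply, mul_zero]
      apply Finset.sum_eq_zero
      intro i _
      show Ph M t f x i * vF u t i j = 0
      unfold vF
      rw [if_neg (by have := i.2; omega), mul_zero]
    · have hk1 : (j : ℕ) + 1 < t + 1 := by have := j.2; omega
      rw [Finset.sum_eq_single (⟨(j : ℕ) + 1, hk1⟩ : Fin (t + 1))]
      · show Ph M t f x ⟨(j : ℕ) + 1, hk1⟩ * vF u t ⟨(j : ℕ) + 1, hk1⟩ j = _
        unfold vF Ph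
        rw [if_pos rfl]
        ring
      · intro i _ hi
        show Ph M t f x i * vF u t i j = 0
        unfold vF
        rw [if_neg, mul_zero]
        intro h
        apply hi
        apply Fin.ext
        exact h.symm
      · intro h
        exact absurd (Finset.mem_univ _) h

theorem ph_com {M : QM u ι} {X : Matrix ι ι ℝ} (hX : M.Com X) (t : ℕ) (f : ι → ℝ) :
    X * Ph M t f = Ph M t (X *ᵥ f) := by
  ext x i
  have h := congrFun (fd_com M hX i f) x
  exact h

theorem ph_zero (M : QM u ι) (t : ℕ) : Ph M t 0 = 0 := by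
  ext x i
  unfold Ph fd
  rw [Matrix.mulVec_zero, smul_zero]
  rfl

theorem ph_smul (M : QM u ι) (t : ℕ) (c : ℝ) (f : ι → ℝ) : Ph M t (c • f) = c • Ph M t f := by
  ext x i
  unfold Ph
  rw [fd_smul]
  rfl

theorem ph_col (M : QM u ι) (t : ℕ) (f : ι → ℝ) (x : ι) : Ph M t f x 0 = f x := by
  unfold Ph
  rw [Fin.val_zero, fd_zero]

theorem ph_adj_same (hu : 1 < (u : ℝ)) {M : QM u ι} {t : ℕ} {f g : ι → ℝ} (hf : M.HW t f)
    (hg : M.HW t g) :
    adj M (VQ u hu t) (Ph M t f) * Ph M t g = M.ip f g • (1 : Matrix (Fin (t + 1)) (Fin (t + 1)) ℝ) := by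
  ext i j
  rw [pf_entry, Matrix.smul_apply, smul_eq_mul]
  by_cases hij : i = j
  · subst hij
    rw [pf_ip_same hu M hf hg, Matrix.one_apply_eq, mul_one, mul_comm,
      mul_div_cancel_right₀ _ (vN_pos hu (Nat.lt_succ_iff.1 i.2)).ne']
  · rw [Matrix.one_apply_ne hij, mul_zero,
      M.ip_of_wt_ne (s := (t : ℤ) - 2 * (i : ℕ)) (t := (t : ℤ) - 2 * (j : ℕ)) (by
        intro h
        apply hij
        apply Fin.ext
        omega) (fd_wt M hf.wt i) (fd_wt M hg.wt j), zero_div]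

theorem ph_adj_ne (hu : 1 < (u : ℝ)) {M : QM u ι} {s t : ℕ} (hst : s ≠ t) {f g : ι → ℝ}
    (hf : M.HW t f) (hg : M.HW s g) : adj M (VQ u hu t) (Ph M t f) * Ph M s g = 0 := by
  ext i j
  have h0 : M.ip f g = 0 :=
    M.ip_of_wt_ne (fun h => hst (by exact_mod_cast h.symm)) hf.wt hg.wt
  rw [pf_entry, pf_ip_ne hu M hf hg h0, zero_div]
  rfl

end Pool.Agent.KS
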