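import Pool.Agent.Work.MP_ab49bb_gt.Sat.Rc

/-!
# QB (M): powers of `E` and `F` on a tensor product

`(1 ⊗ E + E ⊗ K)^l = ∑_j v^(2j(l-j)) [l choose j] E^(l-j) ⊗ E^j K^(l-j)` and
`(K⁻¹ ⊗ F + F ⊗ 1)^l = ∑_j v^(2j(l-j)) [l choose j] F^j K^(-(l-j)) ⊗ F^(l-j)`, entrywise as stated.
Proof by induction on `l`, e.g. `X^(l+1) = X^l * X` with `X = tE …`: entry `(x, y)`,
`∑_z (X^l) x z X z y`, `X z y = [z.1 = y.1] E z.2 y.2 + [z.2 = y.2] E z.1 y.1 v^(2 wt y.2)`. The first summand gives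
`∑_j v^(2j(l-j)) [l choose j] (E^(l-j)) x.1 y.1 (∑_k (E^j) x.2 k E k y.2 v^(2(l-j) wt k))` with `wt k = wt y.2 + 2` when
`E k y.2 ≠ 0`, i.e. `∑_j v^(2j(l-j) + 4(l-j)) [l choose j] (E^(l-j)) x.1 y.1 (E^(j+1)) x.2 y.2 v^(2(l-j) wt y.2)`; the second
`∑_j v^(2j(l-j)) [l choose j] (E^(l-j+1)) x.1 y.1 (E^j) x.2 y.2 v^(2(l-j+1) wt y.2)`. The coefficient of
`E^(l+1-j) ⊗ E^j K^(l+1-j)` is `v^(2(j-1)(l-j+1) + 4(l-j+1)) [l choose j-1] + v^(2j(l-j)) [l choose j] =
v^(2j(l+1-j)) (v^(2(l+1-j)) [l choose j-1] + v^(-2j) [l choose j]) = v^(2j(l+1-j)) [l+1 choose j]`.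
The recursion needed is `[l+1 choose j+1] = v^(-2(j+1)) [l choose j+1] + v^(2(l-j)) [l choose j]`; the definition `gb` is the other one,
`[l+1 choose j+1] = v^(2(j+1)) [l choose j+1] + v^(-2(l-j)) [l choose j]`; the two right-hand sides are equal by `gb_step`
(`gb l (j+1) * br (j+1) = gb l j * br (l-j)`: their difference is `gb l (j+1) {j+1} - gb l j {l-j}`). [Or use `X^(l+1) = X * X^l`, which leads to
the definition.]
`F`: in the same way, with `Y = tF …`, `Y z y = [z.1 = y.1] v^(-2 wt y.1) F z.2 y.2 + [z.2 = y.2] F z.1 y.1`.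
-/

set_option autoImplicit false

open Matrix Filter Topology

namespace Pool.Agent.KS

open Pool.Agent.KT

variable {u : ℝˣ} {ι κ : Type} [Fintype ι] [DecidableEq ι] [Fintype κ] [DecidableEq κ]

private theorem qb_bin {n : Type} [Fintype n] [DecidableEq n] (A B : Matrix n n ℝ)
    (h : B * A = pw u 4 • (A * B)) (l : ℕ) :
    (A + B) ^ l = ∑ j ∈ Finset.range (l + 1),
      (pw u (2 * j * ((l : ℤ) - j)) * gb u l j) • (A ^ j * B ^ (l - j)) := by
  have hBA : ∀ j : ℕ, B * A ^ j = pw u (4 * j) • (A ^ j * B) := by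
    intro j
    induction j with
    | zero => simp [pw_zero]
    | succ j ih =>
      rw [pow_succ, ← mul_assoc, ih, Matrix.smul_mul, mul_assoc, h, Matrix.mul_smul, smul_smul,
        mul_assoc, ← pw_add]
      congr 2
  have hg : ∀ m : ℕ, gb u m (m + 1) = 0 := fun m => gb_of_lt u (Nat.lt_succ_self m)
  induction l with
  | zero => simp [pw_zero, gb_zero_right]
  | succ l ih =>
    have h1 : (A + B) ^ (l + 1) = A * (A + B) ^ l + B * (A + B) ^ l := by
      rw [pow_succ', add_mul]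
    have hA : A * (A + B) ^ l = ∑ j ∈ Finset.range (l + 1),
        (pw u (2 * j * ((l : ℤ) - j)) * gb u l j) • (A ^ (j + 1) * B ^ (l - j)) := by
      rw [ih, Finset.mul_sum]
      refine Finset.sum_congr rfl fun j _ => ?_
      rw [Matrix.mul_smul, ← mul_assoc, ← pow_succ']
    have hB : B * (A + B) ^ l = ∑ j ∈ Finset.range (l + 2),
        (pw u (4 * j) * (pw u (2 * j * ((l : ℤ) - j)) * gb u l j)) •
          (A ^ j * B ^ (l + 1 - j)) := by
      rw [Finset.sum_range_succ, hg, mul_zero, mul_zero, zero_smul, add_zero, ih, Finset.mul_sum]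
      refine Finset.sum_congr rfl fun j hj => ?_
      have hj' : j ≤ l := Nat.lt_succ_iff.1 (Finset.mem_range.1 hj)
      rw [Matrix.mul_smul, ← mul_assoc, hBA, Matrix.smul_mul, smul_smul,
        Matrix.mul_assoc (A ^ j) B, ← pow_succ', show l - j + 1 = l + 1 - j by omega,
        mul_comm (pw u (4 * (j : ℤ)))]
    rw [h1, hA, hB, Finset.sum_range_succ' _ (l + 1), ← add_assoc, ← Finset.sum_add_distrib,
      Finset.sum_range_succ' _ (l + 1)]
    refine congrArg₂ (· + ·) (Finset.sum_congr rfl fun j hj => ?_) ?_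
    · rw [show l + 1 - (j + 1) = l - j by omega, ← add_smul]
      refine congrArg₂ (· • ·) ?_ rfl
      have hgb : gb u (l + 1) (j + 1) =
          pw u (2 * (j + 1)) * gb u l (j + 1) + pw u (-(2 * ((l : ℤ) - j))) * gb u l j := rfl
      rw [hgb, mul_add]
      have e1 : pw u (2 * ((j + 1 : ℕ) : ℤ) * (((l + 1 : ℕ) : ℤ) - ((j + 1 : ℕ) : ℤ))) *
          pw u (-(2 * ((l : ℤ) - j))) = pw u (2 * j * ((l : ℤ) - j)) := by
        rw [← pw_add]
        congr 1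
        push_cast
        ring
      have e2 : pw u (2 * ((j + 1 : ℕ) : ℤ) * (((l + 1 : ℕ) : ℤ) - ((j + 1 : ℕ) : ℤ))) *
          pw u (2 * (j + 1)) = pw u (4 * ((j + 1 : ℕ) : ℤ)) *
            pw u (2 * ((j + 1 : ℕ) : ℤ) * ((l : ℤ) - ((j + 1 : ℕ) : ℤ))) := by
        rw [← pw_add, ← pw_add]
        congr 1
        push_cast
        ring
      linear_combination (-gb u l j) * e1 - gb u l (j + 1) * e2
    · simp [pw_zero, gb_zero_right]

open scoped Kronecker in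
private theorem qb_tE (E : Matrix ι ι ℝ) (E' : Matrix κ κ ℝ) (w' : κ → ℤ) :
    tE u E E' w' = (1 : Matrix ι ι ℝ) ⊗ₖ E' + E ⊗ₖ diagonal fun k => pw u (2 * w' k) := by
  ext x y
  rw [Matrix.add_apply, kroneckerMap_apply, kroneckerMap_apply, one_apply, diagonal_apply]
  unfold tE
  by_cases h1 : x.1 = y.1 <;> by_cases h2 : x.2 = y.2 <;> simp [h1, h2]

open scoped Kronecker in
private theorem qb_tF (F : Matrix ι ι ℝ) (F' : Matrix κ κ ℝ) (w : ι → ℤ) :
    tF u F F' w = F ⊗ₖ (1 : Matrix κ κ ℝ) + (diagonal fun k => pw u (-(2 * w k))) ⊗ₖ F' := by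
  ext x y
  rw [Matrix.add_apply, kroneckerMap_apply, kroneckerMap_apply, one_apply, diagonal_apply]
  unfold tF
  by_cases h1 : x.1 = y.1 <;> by_cases h2 : x.2 = y.2 <;> simp [h1, h2, add_comm]

open scoped Kronecker in
private theorem qb_pow (X : Matrix ι ι ℝ) (Y : Matrix κ κ ℝ) (k : ℕ) :
    (X ⊗ₖ Y) ^ k = (X ^ k) ⊗ₖ (Y ^ k) := by
  induction k with
  | zero => simp
  | succ k ih => rw [pow_succ, ih, ← mul_kronecker_mul, ← pow_succ, ← pow_succ]

theorem tn_E_pow (hu : 1 < (u : ℝ)) (M : QM u ι) (N : QM u κ) (l : ℕ) (x y : ι × κ) :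
    ((tn M N).E ^ l) x y = ∑ j ∈ Finset.range (l + 1),
      pw u (2 * j * ((l : ℤ) - j)) * gb u l j * (M.E ^ (l - j)) x.1 y.1 * (N.E ^ j) x.2 y.2 *
        pw u (2 * ((l : ℤ) - j) * N.wt y.2) := by
  open scoped Kronecker in
  have hE : (tn M N).E = (1 : Matrix ι ι ℝ) ⊗ₖ N.E + M.E ⊗ₖ diagonal fun k => pw u (2 * N.wt k) :=
    qb_tE _ _ _
  have hc : (diagonal fun k => pw u (2 * N.wt k)) * N.E =
      pw u 4 • (N.E * diagonal fun k => pw u (2 * N.wt k)) := by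
    ext i j
    rw [diagonal_mul, Matrix.smul_apply, mul_diagonal, smul_eq_mul]
    by_cases h1 : N.E i j = 0
    · rw [h1]
      ring
    · rw [N.hE _ _ h1, show 2 * (N.wt j + 2) = 4 + 2 * N.wt j by ring, pw_add]
      ring
  have hBA : (M.E ⊗ₖ diagonal fun k => pw u (2 * N.wt k)) * ((1 : Matrix ι ι ℝ) ⊗ₖ N.E) =
      pw u 4 • (((1 : Matrix ι ι ℝ) ⊗ₖ N.E) * (M.E ⊗ₖ diagonal fun k => pw u (2 * N.wt k))) := by
    rw [← mul_kronecker_mul, ← mul_kronecker_mul, hc, Matrix.mul_one, Matrix.one_mul,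
      kronecker_smul]
  rw [hE, qb_bin _ _ hBA, Matrix.sum_apply]
  refine Finset.sum_congr rfl fun j hj => ?_
  have hj' : j ≤ l := Nat.lt_succ_iff.1 (Finset.mem_range.1 hj)
  rw [qb_pow, qb_pow, ← mul_kronecker_mul, one_pow, Matrix.one_mul, Matrix.smul_apply,
    kroneckerMap_apply, diagonal_pow, mul_diagonal, Pi.pow_apply, pw_pow, smul_eq_mul]
  have e : pw u (2 * ((l : ℤ) - j) * N.wt y.2) = pw u (2 * N.wt y.2 * ((l - j : ℕ) : ℤ)) := by
    congr 1
    rw [Nat.cast_sub hj']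
    ring
  rw [e]
  ring

theorem tn_F_pow (hu : 1 < (u : ℝ)) (M : QM u ι) (N : QM u κ) (l : ℕ) (x y : ι × κ) :
    ((tn M N).F ^ l) x y = ∑ j ∈ Finset.range (l + 1),
      pw u (2 * j * ((l : ℤ) - j)) * gb u l j * (M.F ^ j) x.1 y.1 * (N.F ^ (l - j)) x.2 y.2 *
        pw u (-(2 * ((l : ℤ) - j) * M.wt y.1)) := by
  open scoped Kronecker in
  have hF : (tn M N).F = M.F ⊗ₖ (1 : Matrix κ κ ℝ) +
      (diagonal fun k => pw u (-(2 * M.wt k))) ⊗ₖ N.F := qb_tF _ _ _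
  have hc : (diagonal fun k => pw u (-(2 * M.wt k))) * M.F =
      pw u 4 • (M.F * diagonal fun k => pw u (-(2 * M.wt k))) := by
    ext i j
    rw [diagonal_mul, Matrix.smul_apply, mul_diagonal, smul_eq_mul]
    by_cases h1 : M.F i j = 0
    · rw [h1]
      ring
    · rw [M.hF _ _ h1, show -(2 * (M.wt j - 2)) = 4 + -(2 * M.wt j) by ring, pw_add]
      ring
  have hBA : ((diagonal fun k => pw u (-(2 * M.wt k))) ⊗ₖ N.F) * (M.F ⊗ₖ (1 : Matrix κ κ ℝ)) =
      pw u 4 • ((M.F ⊗ₖ (1 : Matrix κ κ ℝ)) * ((diagonal fun k => pw u (-(2 * M.wt k))) ⊗ₖ N.F)) := by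
    rw [← mul_kronecker_mul, ← mul_kronecker_mul, hc, Matrix.mul_one, Matrix.one_mul,
      smul_kronecker]
  rw [hF, qb_bin _ _ hBA, Matrix.sum_apply]
  refine Finset.sum_congr rfl fun j hj => ?_
  have hj' : j ≤ l := Nat.lt_succ_iff.1 (Finset.mem_range.1 hj)
  rw [qb_pow, qb_pow, ← mul_kronecker_mul, one_pow, Matrix.one_mul, Matrix.smul_apply,
    kroneckerMap_apply, diagonal_pow, mul_diagonal, Pi.pow_apply, pw_pow, smul_eq_mul]
  have e : pw u (-(2 * ((l : ℤ) - j) * M.wt y.1)) = pw u (-(2 * M.wt y.1) * ((l - j : ℕ) : ℤ)) := by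
    congr 1
    rw [Nat.cast_sub hj']
    ring
  rw [e]
  ring

end Pool.Agent.KS
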