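import Pool.Agent.Work.MP_ab49bb_gt.Sat.Defs
import Pool.Agent.Work.MP_ab49bb_gt.Tn
import Pool.Agent.Work.MP_ab49bb_gt.Fd
import Pool.Agent.Work.MP_ab49bb_gt.Gd
import Pool.Agent.Work.MP_ab49bb_gt.Hv
import Pool.Agent.Work.MP_ab49bb_gt.Co
import Pool.Agent.Work.MP_ab49bb_gt.As1

/-!
# Definitions for the proof of the satellite theorem (real values of `v`). FIXED, do not change.

The modules `QM u ι`, the braiding `S u a`, the module `VQ u hu a` (= `V_a`, dimension `a + 1`) and the
tensor product `tn` are those of `Pool/Agent/Work/MP_ab49bb_gt` (namespace `KT`). Everything here is new.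
-/

set_option autoImplicit false

open Matrix Filter Topology

namespace Pool.Agent.KS

open Pool.Agent.KT

section Modules

variable {u : ℝˣ} {ι κ : Type} [Fintype ι] [DecidableEq ι] [Fintype κ] [DecidableEq κ]

/-- `X` is a homomorphism of modules `N → M`. -/
structure Hom (M : QM u ι) (N : QM u κ) (X : Matrix ι κ ℝ) : Prop where
  wt : ∀ i j, X i j ≠ 0 → M.wt i = N.wt j
  E : X * N.E = M.E * X
  F : X * N.F = M.F * X

/-- `e` is an isomorphism of modules given by a bijection of the bases. -/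
structure Iso (M : QM u ι) (N : QM u κ) (e : ι ≃ κ) : Prop where
  wt : ∀ i, N.wt (e i) = M.wt i
  nm : ∀ i, N.nm (e i) = M.nm i
  E : ∀ i j, N.E (e i) (e j) = M.E i j
  F : ∀ i j, N.F (e i) (e j) = M.F i j

/-- the adjoint of `X : N → M` -/
noncomputable def adj (M : QM u ι) (N : QM u κ) (X : Matrix ι κ ℝ) : Matrix κ ι ℝ :=
  fun j i => M.nm i * X i j / N.nm j

/-- the coefficients of the quasi-R-matrix: `v^(l(l-1)) {1}^l / [l]!` -/
noncomputable def rco (u : ℝˣ) (l : ℕ) : ℝ := pw u ((l : ℤ) * (l - 1)) * br u 1 ^ l / qf u l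

/-- The braiding `M ⊗ N → N ⊗ M`:
`x ⊗ y ↦ ∑_l c_l v^(wt (F^l y) wt (E^l x)) F^l y ⊗ E^l x`, `c_l = rco u l`. The row index is
`y : κ × ι`, the column index `x : ι × κ`. -/
noncomputable def RM (M : QM u ι) (N : QM u κ) : Matrix (κ × ι) (ι × κ) ℝ :=
  fun y x => pw u (M.wt y.2 * N.wt y.1) * ∑ l ∈ Finset.range (Fintype.card ι + 1),
    rco u l * (M.E ^ l) y.2 x.1 * (N.F ^ l) y.1 x.2

/-- the Kronecker product, `(X ⊗ Y) (i, j) (i', j') = X i i' * Y j j'` -/
noncomputable def kr {A ι κ ι' κ' : Type} [CommRing A] (X : Matrix ι ι' A) (Y : Matrix κ κ' A) :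
    Matrix (ι × κ) (ι' × κ') A :=
  fun x y => X x.1 y.1 * Y x.2 y.2

/-- transport of a module along a bijection of the bases -/
noncomputable def cong (M : QM u ι) (e : κ ≃ ι) : QM u κ where
  wt := fun i => M.wt (e i)
  E := M.E.submatrix e e
  F := M.F.submatrix e e
  nm := fun i => M.nm (e i)
  pos := fun i => M.pos _
  hE := fun i j h => M.hE _ _ h
  hF := fun i j h => M.hF _ _ h
  comm := by
    rw [submatrix_mul_equiv, submatrix_mul_equiv]
    ext i j
    have h := congrFun (congrFun M.comm (e i)) (e j)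
    rw [Matrix.sub_apply] at h
    rw [Matrix.sub_apply, submatrix_apply, submatrix_apply, h]
    by_cases hij : i = j
    · rw [hij, diagonal_apply_eq, diagonal_apply_eq]
    · rw [diagonal_apply_ne _ hij, diagonal_apply_ne _ (fun h => hij (e.injective h))]
  adj := fun i j => M.adj _ _

/-- the trivial module on `Fin 0 → ι` -/
noncomputable def triv (u : ℝˣ) (ι : Type) [Fintype ι] [DecidableEq ι] : QM u (Fin 0 → ι) where
  wt := fun _ => 0
  E := 0
  F := 0
  nm := fun _ => 1
  pos := fun _ => one_pos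
  hE := fun i j h => absurd rfl h
  hF := fun i j h => absurd rfl h
  comm := by
    rw [zero_mul, sub_zero]
    ext i j
    simp [diagonal, qn_zero]
  adj := fun i j => by simp

/-- the bijection `z ↦ (z 0, tail z)` -/
def cse (ι : Type) (n : ℕ) : (Fin (n + 1) → ι) ≃ ι × (Fin n → ι) := (Fin.consEquiv fun _ => ι).symm

/-- the bijection `z ↦ (init z, z (last))` -/
def sne (ι : Type) (n : ℕ) : (Fin (n + 1) → ι) ≃ (Fin n → ι) × ι where
  toFun := fun z => (Fin.init z, z (Fin.last n))
  invFun := fun p => Fin.snoc p.1 p.2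
  left_inv := fun z => by simp
  right_inv := fun p => by simp

/-- The tensor power `M ⊗ (M ⊗ (⋯))`, on the functions `Fin n → ι`. -/
noncomputable def TP (M : QM u ι) : (n : ℕ) → QM u (Fin n → ι)
  | 0 => triv u ι
  | n + 1 => cong (tn M (TP M n)) (cse ι n)

/-- The embedding of `V_t`: the column `i` is `F^(i) f`, for a highest weight vector `f` of weight `t` of
the module `M`. -/
noncomputable def Ph (M : QM u ι) (t : ℕ) (f : ι → ℝ) : Matrix ι (Fin (t + 1)) ℝ :=
  fun x i => fd u M.F i f x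

/-- A complete system of highest weight vectors: `f j` has weight `t j`; those with `G j = true` are
orthonormal, the others are `0`; they span the highest weight vectors. -/
structure IsCV (M : QM u ι) {J : Type} [Fintype J] [DecidableEq J] (G : J → Bool) (f : J → ι → ℝ)
    (t : J → ℕ) : Prop where
  hw : ∀ j, M.HW (t j) (f j)
  on : ∀ j k, M.ip (f j) (f k) = if j = k ∧ G j = true then 1 else 0
  span : ∀ (s : ℤ) (x : ι → ℝ), M.HW s x → x = ∑ j, M.ip (f j) x • f j

/-- the orthogonal projection onto the submodule generated by a highest weight unit vector `f` -/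
noncomputable def Qp (u : ℝˣ) (hu : 1 < (u : ℝ)) (M : QM u ι) (t : ℕ) (f : ι → ℝ) : Matrix ι ι ℝ :=
  Ph M t f * adj M (VQ u hu t) (Ph M t f)

/-- the highest weight vector `∑_i c_i e_i ⊗ e_(m-i)` of `V_b ⊗ V_a`, of weight `b + a - 2 m` -/
noncomputable def hv (u : ℝˣ) (b a m : ℕ) : Fin (b + 1) × Fin (a + 1) → ℝ :=
  fun x => if (x.1 : ℕ) + x.2 = m then hc u b a m x.1 else 0

/-- the square norm of `hv u b a m` -/
noncomputable def hvn (u : ℝˣ) (b a m : ℕ) : ℝ :=
  ∑ i ∈ Finset.range (m + 1), hc u b a m i ^ 2 * (vN u b i * vN u a (m - i))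

/-- The normalised highest weight vector of weight `t + a - 2 m` of `V_t ⊗ V_a ⊆ M ⊗ V_a`, where `V_t` is
generated by the highest weight unit vector `f` of `M`; `0` if `t < m`. -/
noncomputable def fus (u : ℝˣ) (M : QM u ι) (a t : ℕ) (f : ι → ℝ) (m : Fin (a + 1)) :
    ι × Fin (a + 1) → ℝ :=
  if (m : ℕ) ≤ t then (Real.sqrt (hvn u t a m))⁻¹ • (kr (Ph M t f) 1 *ᵥ hv u t a m) else 0

/-- `K ⊗ ⋯ ⊗ K` on the `N`-th power of `M` -/
noncomputable def kd (M : QM u ι) (N : ℕ) : Matrix (Fin N → ι) (Fin N → ι) ℝ :=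
  diagonal fun x => pw u (2 * ∑ i, M.wt (x i))

end Modules

section Tensor

variable {A : Type} [CommRing A]

/-- `X` acting on the coordinates `i, …, i + r - 1` of `Fin n → ι` -/
def emb {ι : Type} [DecidableEq ι] (n i r : ℕ) (X : Matrix (Fin r → ι) (Fin r → ι) A) :
    Matrix (Fin n → ι) (Fin n → ι) A :=
  if h : i + r ≤ n then fun x y =>
    if ∀ l : Fin n, (l : ℕ) < i ∨ i + r ≤ l → x l = y l then
      X (fun k => x ⟨i + k, by omega⟩) (fun k => y ⟨i + k, by omega⟩) else 0
  else 1

/-- the tensor product of the matrices `Y i` -/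
def tpm {κ κ' : Type} {N : ℕ} (Y : Fin N → Matrix κ κ' A) : Matrix (Fin N → κ) (Fin N → κ') A :=
  fun x y => ∏ i, Y i (x i) (y i)

/-- `P` acting on the coordinate `0` -/
def at1 {κ : Type} [DecidableEq κ] (N : ℕ) (P : Matrix κ κ A) : Matrix (Fin N → κ) (Fin N → κ) A :=
  tpm fun i : Fin N => if (i : ℕ) = 0 then P else 1

/-- the quantum trace of the word `w` for the colour `t + 1`, without framing correction -/
noncomputable def Zv (u : ℝˣ) (N t : ℕ) (w : List Lt) : ℝ := (wR N (S u t) w * km u N t).trace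

/-- the blocks of length `m` -/
def bl {ι : Type} {N m : ℕ} (z : Fin (N * m) → ι) : Fin N → (Fin m → ι) :=
  fun x y => z (finProdFinEquiv (x, y))

/-- The word of a crossing of `m` strands over `p` strands, on `m + p` strands. -/
def crP (m p : ℕ) : List Lt :=
  (List.range p).reverse.flatMap fun j => (List.range m).map fun t => (j + t, true)

/-- the word `σ_0 σ_1 ⋯ σ_(r-1)` -/
def upw (r : ℕ) : List Lt := (List.range r).map fun k => (k, true)

/-- the word `σ_(r-1) ⋯ σ_1 σ_0` -/
def dnw (r : ℕ) : List Lt := (List.range r).reverse.map fun k => (k, true)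

end Tensor

section Words

/-- the weight of the first `k` letters of the word `y` -/
def wtp (a : ℕ) {n : ℕ} (y : Fin n → Fin (a + 1)) (k : ℕ) : ℤ :=
  ∑ i : Fin n, if (i : ℕ) < k then (a : ℤ) - 2 * (y i : ℕ) else 0

/-- `y` is a highest weight word: each letter is at most the weight of the letters before it. -/
def good (a : ℕ) {n : ℕ} (y : Fin n → Fin (a + 1)) : Bool :=
  decide (∀ i : Fin n, ((y i : ℕ) : ℤ) ≤ wtp a y i)

/-- the weight of the word -/
def tt (a : ℕ) {n : ℕ} (y : Fin n → Fin (a + 1)) : ℕ := (wtp a y n).toNat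

/-- the square norm of a basis vector of `V_a ⊗ ⋯ ⊗ V_a` -/
noncomputable def vn (u : ℝˣ) (a : ℕ) {n : ℕ} (y : Fin n → Fin (a + 1)) : ℝ := ∏ i, vN u a (y i)

/-- The matrices `X v` converge, in the normalised basis, to the diagonal matrix of `D`. -/
def Lim {n : ℕ} (a : ℕ) (X : ℝ → Matrix (Fin n → Fin (a + 1)) (Fin n → Fin (a + 1)) ℝ)
    (D : (Fin n → Fin (a + 1)) → ℝ) : Prop :=
  ∀ x y, Tendsto (fun v => Real.sqrt (vn (ru v) a x) * X v x y / Real.sqrt (vn (ru v) a y)) atTop
    (𝓝 (if x = y then D x else 0))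

/-- A family of complete systems of highest weight vectors of `V_a^{⊗ n}`, indexed by the words; the
normalised leading coordinate of `f v y` converges to `1` for every highest weight word `y`. -/
structure Fus (a n : ℕ) (f : ℝ → (Fin n → Fin (a + 1)) → (Fin n → Fin (a + 1)) → ℝ) : Prop where
  cv : ∀ (v : ℝ) (hv : 1 < v), IsCV (TP (VQ (ru v) (ru_gt hv) a) n) (good a) (f v) (tt a)
  lim : ∀ y, good a y = true →
    Tendsto (fun v => Real.sqrt (vn (ru v) a y) * f v y y) atTop (𝓝 1)

/-- the word of the matching `M`: `0` at the left end, `a` at the right end of every arc -/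
def xM (a m : ℕ) (M : ℕ → ℕ) : Fin m → Fin (a + 1) := fun i => if (i : ℕ) < M i then 0 else Fin.last a

/-- `1` for a letter `σ_k⁻¹`, otherwise `0` -/
def Piece.nn : Piece → ℕ
  | .cr _ true => 0
  | .cr _ false => 1
  | .tw _ _ => 0

/-- the exponent of the norm of a piece -/
def Piece.pe (a : ℕ) : Piece → ℤ
  | .cr _ true => (a : ℤ) ^ 2
  | .cr _ false => (a : ℤ) * (a + 2)
  | .tw _ r => r * ((a : ℤ) * (a + 2))

/-- the number of letters `σ_k⁻¹` -/
def nn (P : List Piece) : ℕ := (P.map Piece.nn).sum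

/-- the exponent of the norm of the pieces -/
def pe (a : ℕ) (P : List Piece) : ℤ := (P.map (Piece.pe a)).sum

end Words

end Pool.Agent.KS
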