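import Pool.Agent.Work.MP_ab49bb_gt.Sat.RD

/-!
# Sl (M): powers of `E` and `F` in a module

`E_pow_wt`, `F_pow_wt`: induction on `l` with `M.hE`, `M.hF` (`pow_succ`, `Matrix.mul_apply`; a nonzero sum has a
nonzero term).
`E_nil`: if `(E^l) i j ≠ 0`, then for every `s ≤ l` there is `k` with `(E^s) k j ≠ 0` (`E^l = E^(l-s) E^s`), so
`wt k = wt j + 2 s`; this gives an injective map `Fin (l+1) → ι`, hence `l + 1 ≤ card ι`. So `E^l = 0` for
`card ι ≤ l`. [If `card ι = 0` the matrices are equal for trivial reasons.] `F_nil` in the same way.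
`F_pow_comm`: `E F^(l+1) - F^(l+1) E = ∑_(s ≤ l) F^s [E,F] F^(l-s)`, by induction on `l`:
`E F^(l+2) - F^(l+2) E = (E F^(l+1) - F^(l+1) E) F + F^(l+1) (E F - F E)`, and with `D_c = diagonal (fun i => c (wt i))`
one has `D_c F = F D_(c')`, `c'(w) = c (w - 2)` (by `M.hF`). So the step is the scalar identity
`[l+1][w-2-l] + [w] = [l+2][w-l-1]`; it is `qn_id` of KT/Qn (`[b][j] - [b-l][j+l] = -[b-j-l][l]`) with `b = 1`… or directly from
the definition of `qn` with `br m = v^(2m) - v^(-2m)` (multiply by `{1}^2`, both sides are sums of four powers).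
`E_pow_comm`: in the same way, `D_c E = E D_(c'')`, `c''(w) = c (w + 2)`:
`E^(l+2) F - F E^(l+2) = E (E^(l+1) F - F E^(l+1)) + (E F - F E) E^(l+1)`, scalar identity
`[l+1][w+l] + [w+2(l+1)] = [l+2][w+l+1]`.
-/

set_option autoImplicit false

open Matrix Filter Topology

namespace Pool.Agent.KS

open Pool.Agent.KT

variable {u : ℝˣ} {ι : Type} [Fintype ι] [DecidableEq ι]

private theorem sl_mul {A B : Matrix ι ι ℝ} {i j : ι} (h : (A * B) i j ≠ 0) :
    ∃ k, A i k ≠ 0 ∧ B k j ≠ 0 := by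
  rw [Matrix.mul_apply] at h
  obtain ⟨k, -, hk⟩ := Finset.exists_ne_zero_of_sum_ne_zero h
  exact ⟨k, left_ne_zero_of_mul hk, right_ne_zero_of_mul hk⟩

private theorem sl_one {i j : ι} (h : (1 : Matrix ι ι ℝ) i j ≠ 0) : i = j := by
  by_contra hcon
  exact h (Matrix.one_apply_ne hcon)

private theorem sl_nil {A : Matrix ι ι ℝ} (w : ι → ℤ) (ε : ℤ) (hε : ε ≠ 0)
    (h : ∀ (l : ℕ) (i j : ι), (A ^ l) i j ≠ 0 → w i = w j + ε * l) {l : ℕ}
    (hl : Fintype.card ι ≤ l) : A ^ l = 0 := by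
  ext i j
  by_contra hne
  have h0 : (A ^ l) i j ≠ 0 := hne
  have hex : ∀ s : Fin (l + 1), ∃ k, (A ^ (s : ℕ)) k j ≠ 0 := by
    intro s
    have h1 : l = (l - s) + s := by omega
    rw [h1, pow_add] at h0
    obtain ⟨k, -, hk⟩ := sl_mul h0
    exact ⟨k, hk⟩
  choose f hf using hex
  have hinj : Function.Injective f := by
    intro s t hst
    have h1 := h s (f s) j (hf s)
    have h2 := h t (f t) j (hf t)
    rw [hst] at h1
    have h3 : ε * ((s : ℕ) : ℤ) = ε * ((t : ℕ) : ℤ) := by linarith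
    have h4 := mul_left_cancel₀ hε h3
    exact Fin.ext (by exact_mod_cast h4)
  have h2 := Fintype.card_le_of_injective f hinj
  rw [Fintype.card_fin] at h2
  omega

theorem E_pow_wt (M : QM u ι) (l : ℕ) (i j : ι) (h : (M.E ^ l) i j ≠ 0) : M.wt i = M.wt j + 2 * l := by
  induction l generalizing i with
  | zero =>
    rw [pow_zero] at h
    rw [sl_one h]
    simp
  | succ l ih =>
    rw [pow_succ'] at h
    obtain ⟨k, h1, h2⟩ := sl_mul h
    rw [M.hE _ _ h1, ih k h2]
    push_cast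
    ring

theorem F_pow_wt (M : QM u ι) (l : ℕ) (i j : ι) (h : (M.F ^ l) i j ≠ 0) : M.wt i = M.wt j - 2 * l := by
  induction l generalizing i with
  | zero =>
    rw [pow_zero] at h
    rw [sl_one h]
    simp
  | succ l ih =>
    rw [pow_succ'] at h
    obtain ⟨k, h1, h2⟩ := sl_mul h
    rw [M.hF _ _ h1, ih k h2]
    push_cast
    ring

theorem E_nil (M : QM u ι) {l : ℕ} (h : Fintype.card ι ≤ l) : M.E ^ l = 0 := by
  exact sl_nil M.wt 2 (by norm_num) (fun l i j h => E_pow_wt M l i j h) h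

theorem F_nil (M : QM u ι) {l : ℕ} (h : Fintype.card ι ≤ l) : M.F ^ l = 0 := by
  refine sl_nil M.wt (-2) (by norm_num) (fun l i j h => ?_) h
  rw [F_pow_wt M l i j h]
  ring

theorem F_pow_comm (hu : 1 < (u : ℝ)) (M : QM u ι) (l : ℕ) :
    M.E * M.F ^ (l + 1) - M.F ^ (l + 1) * M.E =
      M.F ^ l * diagonal fun i => qn u (l + 1) * qn u (M.wt i - l) := by
  induction l with
  | zero =>
    rw [zero_add, pow_one, pow_zero, Matrix.one_mul, M.comm]
    congr 1
    funext i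
    have e1 : ((0 : ℕ) : ℤ) + 1 = 1 := by norm_num
    rw [e1, qn_one hu, one_mul, Nat.cast_zero, sub_zero]
  | succ l ih =>
    have hDF : (diagonal fun i => qn u (l + 1) * qn u (M.wt i - l)) * M.F =
        M.F * diagonal fun i => qn u (l + 1) * qn u (M.wt i - 2 - l) := by
      ext i j
      rw [diagonal_mul, mul_diagonal]
      by_cases h : M.F i j = 0
      · rw [h, mul_zero, zero_mul]
      · rw [M.hF _ _ h, mul_comm]
    have e1 : M.E * M.F ^ (l + 1 + 1) - M.F ^ (l + 1 + 1) * M.E =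
        (M.E * M.F ^ (l + 1) - M.F ^ (l + 1) * M.E) * M.F +
          M.F ^ (l + 1) * (M.E * M.F - M.F * M.E) := by
      rw [pow_succ M.F (l + 1)]
      noncomm_ring
    rw [e1, ih, M.comm, Matrix.mul_assoc, hDF, ← Matrix.mul_assoc, ← pow_succ, ← Matrix.mul_add,
      diagonal_add]
    congr 2
    funext i
    have h1 := qn_id (u := u) ((l : ℤ) + 2) ((l : ℤ) + 1 - M.wt i) 1
    have a1 : (l : ℤ) + 1 - M.wt i = -(M.wt i - (l + 1)) := by ring
    have a2 : (l : ℤ) + 2 - 1 = l + 1 := by ring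
    have a3 : (l : ℤ) + 1 - M.wt i + 1 = -(M.wt i - 2 - l) := by ring
    have a4 : (l : ℤ) + 2 - ((l : ℤ) + 1 - M.wt i) - 1 = M.wt i := by ring
    have a5 : ((l + 1 : ℕ) : ℤ) + 1 = (l : ℤ) + 2 := by push_cast; ring
    have a6 : M.wt i - ((l + 1 : ℕ) : ℤ) = M.wt i - (l + 1) := by push_cast; ring
    rw [a4, a3, a2, a1, qn_one hu, qn_neg, qn_neg] at h1
    rw [a5, a6]
    linarith

theorem E_pow_comm (hu : 1 < (u : ℝ)) (M : QM u ι) (l : ℕ) :
    M.E ^ (l + 1) * M.F - M.F * M.E ^ (l + 1) =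
      M.E ^ l * diagonal fun i => qn u (l + 1) * qn u (M.wt i + l) := by
  induction l with
  | zero =>
    rw [zero_add, pow_one, pow_zero, Matrix.one_mul, M.comm]
    congr 1
    funext i
    have e1 : ((0 : ℕ) : ℤ) + 1 = 1 := by norm_num
    rw [e1, qn_one hu, one_mul, Nat.cast_zero, add_zero]
  | succ l ih =>
    have hDE : (diagonal fun i => qn u (l + 1) * qn u (M.wt i + l)) * M.E =
        M.E * diagonal fun i => qn u (l + 1) * qn u (M.wt i + 2 + l) := by
      ext i j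
      rw [diagonal_mul, mul_diagonal]
      by_cases h : M.E i j = 0
      · rw [h, mul_zero, zero_mul]
      · rw [M.hE _ _ h, mul_comm]
    have e1 : M.E ^ (l + 1 + 1) * M.F - M.F * M.E ^ (l + 1 + 1) =
        (M.E ^ (l + 1) * M.F - M.F * M.E ^ (l + 1)) * M.E +
          M.E ^ (l + 1) * (M.E * M.F - M.F * M.E) := by
      rw [pow_succ M.E (l + 1)]
      noncomm_ring
    rw [e1, ih, M.comm, Matrix.mul_assoc, hDE, ← Matrix.mul_assoc, ← pow_succ, ← Matrix.mul_add,
      diagonal_add]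
    congr 2
    funext i
    have h1 := qn_id (u := u) ((l : ℤ) + 2) (M.wt i + (l + 1)) 1
    have a2 : (l : ℤ) + 2 - 1 = l + 1 := by ring
    have a3 : M.wt i + ((l : ℤ) + 1) + 1 = M.wt i + 2 + l := by ring
    have a4 : (l : ℤ) + 2 - (M.wt i + (l + 1)) - 1 = -M.wt i := by ring
    have a5 : ((l + 1 : ℕ) : ℤ) + 1 = (l : ℤ) + 2 := by push_cast; ring
    have a6 : M.wt i + ((l + 1 : ℕ) : ℤ) = M.wt i + (l + 1) := by push_cast; ring
    rw [a4, a3, a2, qn_one hu, qn_neg] at h1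
    rw [a5, a6]
    linarith

end Pool.Agent.KS
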