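import Pool.Agent.Work.MP_ab49bb_gt.Sat.RD

/-!
# Tp (M): tensor products of matrices

`tpm Y x y = ∏ i, Y i (x i) (y i)`. `tpm_mul`: `∑_y ∏_i Y i (x i) (y i) Z i (y i) (z i) = ∏_i ∑_k Y i (x i) k Z i k (z i)` (`Finset.prod_univ_sum`, `Fintype.piFinset_univ`). `tpm_sum`: the same. `tpm_one`: `∏_i [x i = y i] = [x = y]`.
`tpm_zero`: `Finset.prod_eq_zero`. `tpm_smul0`: the factor `i = 0` is multiplied by `c` (`0 < N`). `kd_tpm`: entry `(x, y)`: if the product is nonzero, then `M.wt (x i) = M'.wt (y i)` for all `i`.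
`at2_tpm`: entry `(x, z)`. Left: `∑_y at2 N R' k x y ∏_i Y i (y i) (z i)`; the `y` with a nonzero term agree with `x` outside `k, k+1` (bijection with `κ × κ`), sum `= (R' * kr (Y k) (Y (k+1))) (x k, x (k+1)) (z k, z (k+1)) * ∏_(i ≠ k,k+1) Y i (x i) (z i)`. Right:
`∑_y ∏_i Y (swp i) (x i) (y i) at2 N R k y z`, `y = z` outside `k, k+1`: `(kr (Y (k+1)) (Y k) * R) (…) * ∏_(i ≠ k,k+1) Y i (x i) (z i)` (`swp` fixes `i ≠ k, k+1` and exchanges `k, k+1`: `Equiv.swap_apply_left`, …).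
-/

set_option autoImplicit false

open Matrix Filter Topology

namespace Pool.Agent.KS

open Pool.Agent.KT

variable {κ κ' κ'' : Type} [Fintype κ] [DecidableEq κ] [Fintype κ'] [DecidableEq κ'] [Fintype κ'']
  [DecidableEq κ''] {N : ℕ}

theorem tpm_mul (Y : Fin N → Matrix κ κ' ℝ) (Z : Fin N → Matrix κ' κ'' ℝ) :
    tpm Y * tpm Z = tpm fun i => Y i * Z i := by
  ext x z
  rw [Matrix.mul_apply]
  unfold tpm
  simp only [Matrix.mul_apply]
  rw [Finset.prod_univ_sum, Fintype.piFinset_univ]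
  refine Finset.sum_congr rfl fun y _ => ?_
  rw [Finset.prod_mul_distrib]

theorem tpm_one : tpm (fun _ : Fin N => (1 : Matrix κ κ ℝ)) = 1 := by
  ext x y
  unfold tpm
  by_cases h : x = y
  · subst h
    rw [Matrix.one_apply_eq]
    exact Finset.prod_eq_one fun i _ => Matrix.one_apply_eq _
  · rw [Matrix.one_apply_ne h]
    obtain ⟨i, hi⟩ := Function.ne_iff.1 h
    exact Finset.prod_eq_zero (Finset.mem_univ i) (Matrix.one_apply_ne hi)

theorem tpm_sum {J : Type} [Fintype J] [DecidableEq J] (Q : J → Matrix κ κ' ℝ) :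
    ∑ h : Fin N → J, tpm (fun i => Q (h i)) = tpm fun _ : Fin N => ∑ j, Q j := by
  ext x y
  rw [Matrix.sum_apply]
  unfold tpm
  simp only [Matrix.sum_apply]
  rw [Finset.prod_univ_sum, Fintype.piFinset_univ]

theorem tpm_zero {Y : Fin N → Matrix κ κ' ℝ} {i : Fin N} (h : Y i = 0) : tpm Y = 0 := by
  ext x y
  unfold tpm
  rw [Matrix.zero_apply]
  refine Finset.prod_eq_zero (Finset.mem_univ i) ?_
  rw [h, Matrix.zero_apply]

theorem tpm_smul0 (hN : 0 < N) (c : ℝ) (Y : Matrix κ κ' ℝ) :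
    tpm (fun i : Fin N => if (i : ℕ) = 0 then c • Y else Y) = c • tpm fun _ : Fin N => Y := by
  ext x y
  rw [Matrix.smul_apply, smul_eq_mul]
  unfold tpm
  have h1 : ∀ i : Fin N, (if (i : ℕ) = 0 then c • Y else Y) (x i) (y i) =
      (if i = ⟨0, hN⟩ then c else 1) * Y (x i) (y i) := by
    intro i
    by_cases hi : (i : ℕ) = 0
    · have hi' : i = ⟨0, hN⟩ := Fin.ext hi
      rw [if_pos hi, if_pos hi', Matrix.smul_apply, smul_eq_mul]
    · have hi' : i ≠ ⟨0, hN⟩ := fun h => hi (by rw [h])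
      rw [if_neg hi, if_neg hi', one_mul]
  rw [Finset.prod_congr rfl fun i _ => h1 i, Finset.prod_mul_distrib,
    Finset.prod_ite_eq' Finset.univ, if_pos (Finset.mem_univ _)]

theorem kd_tpm {u : ℝˣ} (M : QM u κ) (M' : QM u κ') (Y : Fin N → Matrix κ κ' ℝ)
    (hY : ∀ i x y, Y i x y ≠ 0 → M.wt x = M'.wt y) : kd M N * tpm Y = tpm Y * kd M' N := by
  ext x y
  unfold kd
  rw [Matrix.diagonal_mul, Matrix.mul_diagonal]
  by_cases h : tpm Y x y = 0
  · rw [h, mul_zero, zero_mul]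
  · have h1 : ∀ i, M.wt (x i) = M'.wt (y i) := by
      intro i
      apply hY i
      intro h0
      apply h
      exact Finset.prod_eq_zero (Finset.mem_univ i) h0
    rw [Finset.sum_congr rfl fun i _ => h1 i, mul_comm]

private theorem sum2 {κ : Type} [Fintype κ] [DecidableEq κ] {k : ℕ} (hk : k + 1 < N)
    (x : Fin N → κ) (G : (Fin N → κ) → ℝ) :
    ∑ y : Fin N → κ, (if ∀ i : Fin N, (i : ℕ) ≠ k → (i : ℕ) ≠ k + 1 → x i = y i then G y else 0) =
      ∑ ab : κ × κ, G (Function.update (Function.update x ⟨k, by omega⟩ ab.1) ⟨k + 1, hk⟩ ab.2) := by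
  have hne : (⟨k, by omega⟩ : Fin N) ≠ ⟨k + 1, hk⟩ := by
    intro h
    have := congrArg Fin.val h
    simp only at this
    omega
  rw [← Finset.sum_filter]
  symm
  refine Finset.sum_nbij' (i := fun ab : κ × κ =>
      Function.update (Function.update x ⟨k, by omega⟩ ab.1) ⟨k + 1, hk⟩ ab.2)
    (j := fun y => (y ⟨k, by omega⟩, y ⟨k + 1, hk⟩)) ?_ ?_ ?_ ?_ ?_
  · rintro ⟨a, b⟩ _
    rw [Finset.mem_filter]
    refine ⟨Finset.mem_univ _, fun i h1 h2 => ?_⟩
    have e1 : i ≠ ⟨k + 1, hk⟩ := fun h => h2 (by rw [h])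
    have e2 : i ≠ ⟨k, by omega⟩ := fun h => h1 (by rw [h])
    rw [Function.update_of_ne e1, Function.update_of_ne e2]
  · intro y _
    exact Finset.mem_univ _
  · rintro ⟨a, b⟩ _
    show (Function.update (Function.update x ⟨k, by omega⟩ a) ⟨k + 1, hk⟩ b ⟨k, by omega⟩,
      Function.update (Function.update x ⟨k, by omega⟩ a) ⟨k + 1, hk⟩ b ⟨k + 1, hk⟩) = (a, b)
    rw [Function.update_of_ne hne, Function.update_self, Function.update_self]
  · intro y hy
    rw [Finset.mem_filter] at hy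
    funext i
    by_cases h2 : i = ⟨k + 1, hk⟩
    · rw [h2]
      show Function.update _ _ _ _ = _
      rw [Function.update_self]
    · by_cases h1 : i = ⟨k, by omega⟩
      · show Function.update (Function.update x ⟨k, by omega⟩ (y ⟨k, by omega⟩)) ⟨k + 1, hk⟩
          (y ⟨k + 1, hk⟩) i = y i
        rw [Function.update_of_ne h2, h1, Function.update_self]
      · show Function.update (Function.update x ⟨k, by omega⟩ (y ⟨k, by omega⟩)) ⟨k + 1, hk⟩
          (y ⟨k + 1, hk⟩) i = y i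
        rw [Function.update_of_ne h2, Function.update_of_ne h1]
        exact hy.2 i (fun h => h1 (Fin.ext h)) (fun h => h2 (Fin.ext h))
  · intro ab _
    rfl

private theorem prod2 {k : ℕ} (hk : k + 1 < N) (f : Fin N → ℝ) :
    ∏ i, f i = f ⟨k, by omega⟩ * f ⟨k + 1, hk⟩ *
      ∏ i ∈ (Finset.univ.erase (⟨k, by omega⟩ : Fin N)).erase ⟨k + 1, hk⟩, f i := by
  have hne : (⟨k + 1, hk⟩ : Fin N) ≠ ⟨k, by omega⟩ := by
    intro h
    have := congrArg Fin.val h
    simp only at this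
    omega
  rw [← Finset.mul_prod_erase Finset.univ f (Finset.mem_univ (⟨k, by omega⟩ : Fin N)),
    ← Finset.mul_prod_erase (Finset.univ.erase (⟨k, by omega⟩ : Fin N)) f
      (Finset.mem_erase.2 ⟨hne, Finset.mem_univ _⟩), mul_assoc]

theorem at2_tpm {k : ℕ} (hk : k + 1 < N) {R' : Matrix (κ × κ) (κ × κ) ℝ}
    {R : Matrix (κ' × κ') (κ' × κ') ℝ} (Y : Fin N → Matrix κ κ' ℝ)
    (h : R' * kr (Y ⟨k, by omega⟩) (Y ⟨k + 1, hk⟩) = kr (Y ⟨k + 1, hk⟩) (Y ⟨k, by omega⟩) * R) :
    at2 N R' k * tpm Y = tpm (fun i => Y (swp N k i)) * at2 N R k := by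
  have hne : (⟨k, by omega⟩ : Fin N) ≠ ⟨k + 1, hk⟩ := by
    intro h
    have := congrArg Fin.val h
    simp only at this
    omega
  ext x z
  obtain ⟨p, hp⟩ : ∃ p : Fin N, p = ⟨k, by omega⟩ := ⟨_, rfl⟩
  obtain ⟨q, hq⟩ : ∃ q : Fin N, q = ⟨k + 1, hk⟩ := ⟨_, rfl⟩
  have hpq : p ≠ q := by rw [hp, hq]; exact hne
  obtain ⟨S, hS⟩ : ∃ S : Finset (Fin N), S = (Finset.univ.erase p).erase q := ⟨_, rfl⟩
  have hSm : ∀ i ∈ S, i ≠ p ∧ i ≠ q := by
    intro i hi
    rw [hS, Finset.mem_erase, Finset.mem_erase] at hi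
    exact ⟨hi.2.1, hi.1⟩
  have hL : (at2 N R' k * tpm Y) x z = (R' * kr (Y p) (Y q)) (x p, x q) (z p, z q) *
      ∏ i ∈ S, Y i (x i) (z i) := by
    rw [Matrix.mul_apply]
    have h1 : ∀ y : Fin N → κ, at2 N R' k x y * tpm Y y z =
        if ∀ i : Fin N, (i : ℕ) ≠ k → (i : ℕ) ≠ k + 1 → x i = y i then
          R' (x p, x q) (y p, y q) * tpm Y y z else 0 := by
      intro y
      unfold at2
      rw [dif_pos hk, hp, hq]
      split_ifs
      · rfl
      · rw [zero_mul]
    rw [Finset.sum_congr rfl fun y _ => h1 y, sum2 hk x, Matrix.mul_apply, Finset.sum_mul]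
    refine Finset.sum_congr rfl fun ab _ => ?_
    unfold tpm kr
    rw [prod2 hk, ← hp, ← hq, ← hS, Function.update_of_ne hpq, Function.update_self,
      Function.update_self]
    have h2 : ∏ i ∈ S, Y i (Function.update (Function.update x p ab.1) q ab.2 i) (z i) =
        ∏ i ∈ S, Y i (x i) (z i) := by
      refine Finset.prod_congr rfl fun i hi => ?_
      rw [Function.update_of_ne (hSm i hi).2, Function.update_of_ne (hSm i hi).1]
    rw [h2]
    ring
  have hR : (tpm (fun i => Y (swp N k i)) * at2 N R k) x z =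
      (kr (Y q) (Y p) * R) (x p, x q) (z p, z q) * ∏ i ∈ S, Y i (x i) (z i) := by
    rw [Matrix.mul_apply]
    have h1 : ∀ y : Fin N → κ', tpm (fun i => Y (swp N k i)) x y * at2 N R k y z =
        if ∀ i : Fin N, (i : ℕ) ≠ k → (i : ℕ) ≠ k + 1 → z i = y i then
          tpm (fun i => Y (swp N k i)) x y * R (y p, y q) (z p, z q) else 0 := by
      intro y
      unfold at2
      rw [dif_pos hk, hp, hq]
      by_cases hc : ∀ i : Fin N, (i : ℕ) ≠ k → (i : ℕ) ≠ k + 1 → z i = y i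
      · rw [if_pos hc, if_pos fun i h1 h2 => (hc i h1 h2).symm]
      · rw [if_neg hc, if_neg fun hc' => hc fun i h1 h2 => (hc' i h1 h2).symm, mul_zero]
    rw [Finset.sum_congr rfl fun y _ => h1 y, sum2 hk z, Matrix.mul_apply, Finset.sum_mul]
    refine Finset.sum_congr rfl fun ab _ => ?_
    have e1 : swp N k p = q := by
      unfold swp
      rw [dif_pos hk, hp, hq, Equiv.swap_apply_left]
    have e2 : swp N k q = p := by
      unfold swp
      rw [dif_pos hk, hp, hq, Equiv.swap_apply_right]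
    have e3 : ∀ i ∈ S, swp N k i = i := by
      intro i hi
      unfold swp
      rw [dif_pos hk, ← hp, ← hq]
      exact Equiv.swap_apply_of_ne_of_ne (hSm i hi).1 (hSm i hi).2
    unfold tpm kr
    rw [prod2 hk, ← hp, ← hq, ← hS, Function.update_of_ne hpq, Function.update_self,
      Function.update_self]
    beta_reduce
    rw [e1, e2]
    have h2 : ∏ i ∈ S, Y (swp N k i) (x i)
        (Function.update (Function.update z p ab.1) q ab.2 i) = ∏ i ∈ S, Y i (x i) (z i) := by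
      refine Finset.prod_congr rfl fun i hi => ?_
      rw [e3 i hi, Function.update_of_ne (hSm i hi).2, Function.update_of_ne (hSm i hi).1]
    rw [h2]
    ring
  rw [hL, hR]
  rw [← hp, ← hq] at h
  rw [h]

end Pool.Agent.KS
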