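import Pool.Agent.Work.MP_ab49bb_gt.Sat.Tp
import Pool.Agent.Work.MP_ab49bb_gt.Sat.Em

/-!
# Zc (S-M): words and tensor products

Induction on `w`. `w = []`: `perm = 1`. `w = l :: w'`: `wR N R' (l :: w') * tpm Y = A' * (wR N R' w' * tpm Y) = A' * tpm (Y ∘ (perm w')⁻¹) * wR N R w'`, and for a positive letter `A' = at2 N R' l.1`: `at2_tpm` gives `A' * tpm Z = tpm (Z ∘ swp) * A`; `Z ∘ swp = Y ∘ (perm w')⁻¹ ∘ swp = Y ∘ (swp * perm w')⁻¹`
(`swp⁻¹ = swp`, `Equiv.swap_inv`). For a negative letter `A' = (at2 N R' l.1)⁻¹`: from `at2 R' * tpm (Z ∘ swp) = tpm (Z ∘ swp ∘ swp) * at2 R = tpm Z * at2 R` multiply by the inverses (`isUnit_at2`; `Matrix.nonsing_inv_mul`, `Matrix.mul_nonsing_inv`): `tpm (Z ∘ swp) * (at2 R)⁻¹ = (at2 R')⁻¹ * tpm Z`.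
-/

set_option autoImplicit false

open Matrix Filter Topology

namespace Pool.Agent.KS

open Pool.Agent.KT

variable {κ κ' : Type} [Fintype κ] [DecidableEq κ] [Fintype κ'] [DecidableEq κ'] {N : ℕ}

private theorem swp_swp (N k : ℕ) (i : Fin N) : swp N k (swp N k i) = i := by
  unfold swp
  split_ifs
  · exact Equiv.swap_apply_self _ _ i
  · rfl

private theorem swp_inv (N k : ℕ) : (swp N k)⁻¹ = swp N k := by
  unfold swp
  split_ifs
  · exact Equiv.swap_inv _ _
  · exact inv_one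

theorem wR_tpm {w : List Lt} (hw : ∀ l ∈ w, l.1 + 1 < N) {R' : Matrix (κ × κ) (κ × κ) ℝ}
    {R : Matrix (κ' × κ') (κ' × κ') ℝ} (hR' : IsUnit R') (hR : IsUnit R)
    (Y : Fin N → Matrix κ κ' ℝ) (h : ∀ i j, R' * kr (Y i) (Y j) = kr (Y j) (Y i) * R) :
    wR N R' w * tpm Y = tpm (fun i => Y ((perm N w)⁻¹ i)) * wR N R w := by
  induction w with
  | nil =>
    have e1 : wR N R' [] = 1 := rfl
    have e2 : wR N R [] = 1 := rfl
    have e3 : perm N [] = 1 := rfl
    rw [e1, e2, e3, Matrix.one_mul, Matrix.mul_one, inv_one]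
    rfl
  | cons l w ih =>
    have hl := hw l List.mem_cons_self
    have ihw := ih fun l' hl' => hw l' (List.mem_cons_of_mem _ hl')
    set Z : Fin N → Matrix κ κ' ℝ := fun i => Y ((perm N w)⁻¹ i) with hZ
    have hZh : ∀ i j, R' * kr (Z i) (Z j) = kr (Z j) (Z i) * R := fun i j => h _ _
    have e3 : perm N (l :: w) = swp N l.1 * perm N w := by
      rw [perm, List.map_cons, List.prod_cons]
      rfl
    have e4 : (fun i => Y ((perm N (l :: w))⁻¹ i)) = fun i => Z (swp N l.1 i) := by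
      funext i
      rw [e3, _root_.mul_inv_rev, swp_inv, Equiv.Perm.mul_apply]
    rw [e4]
    have key : ∀ (A' : Matrix (Fin N → κ) (Fin N → κ) ℝ) (A : Matrix (Fin N → κ') (Fin N → κ') ℝ),
        A' * tpm Z = tpm (fun i => Z (swp N l.1 i)) * A →
        A' * wR N R' w * tpm Y = tpm (fun i => Z (swp N l.1 i)) * (A * wR N R w) := by
      intro A' A hA
      rw [Matrix.mul_assoc, ihw, ← Matrix.mul_assoc, hA, Matrix.mul_assoc]
    rcases l with ⟨k, b⟩
    cases b with
    | true =>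
      have e5 : wR N R' ((k, true) :: w) = at2 N R' k * wR N R' w := rfl
      have e6 : wR N R ((k, true) :: w) = at2 N R k * wR N R w := rfl
      rw [e5, e6]
      exact key _ _ (at2_tpm hl Z (hZh _ _))
    | false =>
      have e5 : wR N R' ((k, false) :: w) = (at2 N R' k)⁻¹ * wR N R' w := rfl
      have e6 : wR N R ((k, false) :: w) = (at2 N R k)⁻¹ * wR N R w := rfl
      rw [e5, e6]
      refine key _ _ ?_
      have e7 := at2_tpm (R' := R') (R := R) hl (fun i => Z (swp N k i)) (hZh _ _)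
      have e8 : (fun i => Z (swp N k (swp N k i))) = Z := by
        funext i
        rw [swp_swp]
      rw [e8] at e7
      have h1 : IsUnit (at2 N R' k).det :=
        (Matrix.isUnit_iff_isUnit_det _).1 (isUnit_at2 N k hR')
      have h2 : IsUnit (at2 N R k).det :=
        (Matrix.isUnit_iff_isUnit_det _).1 (isUnit_at2 N k hR)
      calc (at2 N R' k)⁻¹ * tpm Z
          = (at2 N R' k)⁻¹ * (tpm Z * (at2 N R k * (at2 N R k)⁻¹)) := by
            rw [Matrix.mul_nonsing_inv _ h2, Matrix.mul_one]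
        _ = (at2 N R' k)⁻¹ * (at2 N R' k * tpm (fun i => Z (swp N k i)) * (at2 N R k)⁻¹) := by
            rw [e7, Matrix.mul_assoc]
        _ = tpm (fun i => Z (swp N k i)) * (at2 N R k)⁻¹ := by
            rw [Matrix.mul_assoc, ← Matrix.mul_assoc, Matrix.nonsing_inv_mul _ h1,
              Matrix.one_mul]

end Pool.Agent.KS
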